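/-
IPT/Defs.lean.  Weights with repelled sites (type α) and attracting sites (type β).
ι = sieving primes, σ : ι → Option (α ⊕ β).  lp σ, rp σ : the parts of σ.
Y2 σ = Yd p yR DR (lp σ) * Yd p yH DH (rp σ).
-/
import Pool.Agent.RS.Base
import Pool.Agent.AT.Par

namespace Pool.Agent.IPT
open Finset Pool.Agent.RS

variable {ι α β : Type} [Fintype ι] [DecidableEq ι] [DecidableEq α] [DecidableEq β]

/-- the part of `σ` with values in `α` -/
def lp (σ : ι → Option (α ⊕ β)) : ι → Option α :=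
  fun i => (σ i).bind (Sum.elim some (fun _ => none))

/-- the part of `σ` with values in `β` -/
def rp (σ : ι → Option (α ⊕ β)) : ι → Option β :=
  fun i => (σ i).bind (Sum.elim (fun _ => none) some)

/-- partial sums; `cc p y D U = cg p y D (PP p U) U` -/
noncomputable def cg (p : ι → ℕ) (y : Finset ι → ℝ) (D V : ℝ) (U : Finset ι) : ℝ :=
  open Classical in ∑ S ∈ (univ \ U).powerset, if PP p S * V ≤ D then y S / PH p S else 0

/-- first moment, second moment and logarithmic moment of a weight function -/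
noncomputable def SA (p : ι → ℕ) (y : Finset ι → ℝ) : ℝ := ∑ S : Finset ι, y S / PH p S
noncomputable def SX (p : ι → ℕ) (y : Finset ι → ℝ) : ℝ := ∑ S : Finset ι, y S ^ 2 / PH p S
noncomputable def SE (p : ι → ℕ) (y : Finset ι → ℝ) : ℝ :=
  ∑ S : Finset ι, y S ^ 2 / PH p S * Real.log (PP p S)

/-- the step function: 1 up to `2 ^ t0`, `2 ^ (-i)` on `(2 ^ (t0 2^(i-1)), 2 ^ (t0 2^i)]` for
`i ≤ G`, 0 beyond `2 ^ (t0 2^G)` -/
noncomputable def yh (p : ι → ℕ) (t0 G : ℕ) (S : Finset ι) : ℝ :=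
  open Classical in
  (if PP p S ≤ 2 ^ (t0 * 2 ^ G) then (1 / 2 : ℝ) ^ (G + 1) else 0) +
    ∑ i ∈ range (G + 1), if PP p S ≤ 2 ^ (t0 * 2 ^ i) then (1 / 2 : ℝ) ^ (i + 1) else 0

variable [Fintype α] [Fintype β]

/-- the coefficients of the weights -/
noncomputable def Y2 (p : ι → ℕ) (yR yH : Finset ι → ℝ) (DR DH : ℝ)
    (σ : ι → Option (α ⊕ β)) : ℝ := Yd p yR DR (lp σ) * Yd p yH DH (rp σ)

/-- the coefficients after the collapse at the repelled site `j` -/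
noncomputable def ZA (p : ι → ℕ) (yR yH : Finset ι → ℝ) (DR DH : ℝ) (j : α)
    (σ : ι → Option (α ⊕ β)) : ℝ :=
  open Classical in
  if cell σ (Sum.inl j) = ∅ then
    Yt yR (lp σ) * cg p yR DR (PP p (supp (lp σ))) (supp σ) * Yd p yH DH (rp σ) else 0

/-- the coefficients after the collapse at the attracting site `m` -/
noncomputable def ZB (p : ι → ℕ) (yR yH : Finset ι → ℝ) (DR DH : ℝ) (m : β)
    (σ : ι → Option (α ⊕ β)) : ℝ :=
  open Classical in
  if cell σ (Sum.inr m) = ∅ then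
    Yd p yR DR (lp σ) * (Yt yH (rp σ) * cg p yH DH (PP p (supp (rp σ))) (supp σ)) else 0

/-- the mass without the level condition of the β part -/
noncomputable def wb (p : ι → ℕ) (yR yH : Finset ι → ℝ) (DR : ℝ)
    (σ : ι → Option (α ⊕ β)) : ℝ :=
  (Yd p yR DR (lp σ) * Yt yH (rp σ)) ^ 2 / PH p (supp σ)

/-! ### concrete data -/

open Pool.Agent.AT

/-- the sites: `-j` for `j ∈ R` (repelled), `-t i` (attracting) -/
def a2 (R : Finset ℕ) {k : ℕ} (t : Fin k → ℕ) : {j : ℕ // j ∈ R} ⊕ Fin k → ℤ :=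
  Sum.elim (fun j => -((j : ℕ) : ℤ)) (fun i => -(t i : ℤ))

noncomputable def g2 (L : ℕ) (R : Finset ℕ) {k : ℕ} (t : Fin k → ℕ) (t0 G : ℕ) (n : ℤ) : ℝ :=
  ∑ σ : Ix L → Option ({j : ℕ // j ∈ R} ⊕ Fin k),
    Y2 (px L) (yx L) (yh (px L) t0 G) (2 ^ dd L) (2 ^ dd L) σ * EE (px L) (a2 R t) σ n

noncomputable def Z2 (L : ℕ) (R : Finset ℕ) (k t0 G : ℕ) : ℝ :=
  ∑ σ : Ix L → Option ({j : ℕ // j ∈ R} ⊕ Fin k),
    Y2 (px L) (yx L) (yh (px L) t0 G) (2 ^ dd L) (2 ^ dd L) σ ^ 2 / PH (px L) (supp σ)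

/-- the sum of the squares of the collapsed coefficients at the attracting site `i` -/
noncomputable def Q2 (L : ℕ) (R : Finset ℕ) {k : ℕ} (t0 G : ℕ) (i : Fin k) : ℝ :=
  ∑ σ : Ix L → Option ({j : ℕ // j ∈ R} ⊕ Fin k),
    ZB (px L) (yx L) (yh (px L) t0 G) (2 ^ dd L) (2 ^ dd L) i σ ^ 2 / PH (px L) (supp σ)

structure Adm2 (P L M H : ℕ) (R : Finset ℕ) {k : ℕ} (t : Fin k → ℕ) : Prop where
  adm : Adm P L M H R
  tinj : Function.Injective t
  tH : ∀ i, t i < H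
  tR : ∀ i, t i ∉ R

/-- the mass `N(t)` of all products `≤ 2 ^ t` -/
noncomputable def NN (L t : ℕ) : ℝ :=
  open Classical in
  ∑ S ∈ (univ : Finset (Finset (Ix L))).filter (fun S => PP (px L) S ≤ 2 ^ t),
    1 / PH (px L) S

end Pool.Agent.IPT
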