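/-
IPT/CgB.lean.  Bounds for the partial sums cg p y D V U.
-/
import Pool.Agent.IPT.Defs
import Pool.Agent.RS.Wt
import Pool.Agent.RS.Rough

namespace Pool.Agent.IPT
open Finset Pool.Agent.RS

variable {ι : Type} [Fintype ι] [DecidableEq ι]

omit [Fintype ι] in
private theorem cgb_one_le {p : ι → ℕ} (hp : ∀ i, 2 ≤ p i) (S : Finset ι) : 1 ≤ PP p S := by
  unfold PP
  induction S using Finset.induction_on with
  | empty => simp
  | insert i S hi ih =>
    rw [Finset.prod_insert hi]
    have h1 : (1 : ℝ) ≤ p i := by exact_mod_cast (le_trans (by norm_num) (hp i))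
    nlinarith

omit [Fintype ι] in
private theorem cgb_mono {p : ι → ℕ} (hp : ∀ i, 2 ≤ p i) {S T : Finset ι} (h : S ⊆ T) :
    PP p S ≤ PP p T := by
  have h1 : PP p (T \ S) * PP p S = PP p T := by
    unfold PP
    exact Finset.prod_sdiff h
  have h2 := cgb_one_le hp (T \ S)
  have h3 := cgb_one_le hp S
  nlinarith

omit [Fintype ι] in
private theorem cgb_mem {p : ι → ℕ} (hp : ∀ i, 2 ≤ p i) {S : Finset ι} {i : ι} (h : i ∈ S) :
    (p i : ℝ) ≤ PP p S := by
  have h1 := cgb_mono hp (Finset.singleton_subset_iff.mpr h)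
  have h2 : PP p {i} = p i := by simp [PP]
  rwa [h2] at h1

omit [Fintype ι] in
private theorem cgb_two_le {p : ι → ℕ} (hp : ∀ i, 2 ≤ p i) {S : Finset ι} (h : S ≠ ∅) :
    2 ≤ PP p S := by
  obtain ⟨i, hi⟩ := Finset.nonempty_iff_ne_empty.mpr h
  have h1 := cgb_mem hp hi
  have h2 : (2 : ℝ) ≤ p i := by exact_mod_cast hp i
  linarith

omit [Fintype ι] [DecidableEq ι] in
private theorem cgb_sub_pos {p : ι → ℕ} (hp : ∀ i, 2 ≤ p i) (i : ι) : 0 < (p i : ℝ) - 1 := by
  have h2 : (2 : ℝ) ≤ p i := by exact_mod_cast hp i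
  linarith

omit [Fintype ι] [DecidableEq ι] in
private theorem cgb_PH_pos {p : ι → ℕ} (hp : ∀ i, 2 ≤ p i) (S : Finset ι) : 0 < PH p S :=
  Finset.prod_pos fun i _ => cgb_sub_pos hp i

omit [Fintype ι] in
private theorem cgb_log_pos {p : ι → ℕ} (hp : ∀ i, 2 ≤ p i) {S : Finset ι} (h : S ≠ ∅) :
    0 < Real.log (PP p S) := by
  have h1 := cgb_two_le hp h
  exact Real.log_pos (by linarith)

private theorem cgb_pos {p : ι → ℕ} (hp : ∀ i, 2 ≤ p i) {S1 : ℝ}
    {i : ι} (hH : 1 ≤ H1 p S1 * Real.log (p i)) : 0 < H1 p S1 := by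
  have h1 : 0 < Real.log (p i) := Real.log_pos (by exact_mod_cast hp i)
  by_contra h
  have h2 := mul_nonpos_of_nonpos_of_nonneg (not_lt.mp h) h1.le
  linarith

private theorem cgb_eq {p : ι → ℕ} {S1 : ℝ} {S : Finset ι} (h : S ≠ ∅) (h1 : PP p S ≤ S1) :
    wt p S1 S = -1 / (H1 p S1 * Real.log (PP p S)) := by
  unfold wt
  rw [if_neg h, if_pos h1]

private theorem cgb_eq0 {p : ι → ℕ} {S1 : ℝ} {S : Finset ι} (h : S ≠ ∅) (h1 : ¬ PP p S ≤ S1) :
    wt p S1 S = 0 := by
  unfold wt
  rw [if_neg h, if_neg h1]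

private theorem cgb_nonpos {p : ι → ℕ} (hp : ∀ i, 2 ≤ p i) {S1 : ℝ} (hH0 : 0 < H1 p S1)
    {S : Finset ι} (h : S ≠ ∅) : wt p S1 S / PH p S ≤ 0 := by
  by_cases h1 : PP p S ≤ S1
  · rw [cgb_eq h h1]
    refine div_nonpos_of_nonpos_of_nonneg ?_ (cgb_PH_pos hp S).le
    exact div_nonpos_of_nonpos_of_nonneg (by norm_num)
      (mul_nonneg hH0.le (cgb_log_pos hp h).le)
  · rw [cgb_eq0 h h1, zero_div]

open Classical in
private theorem cgb_sum_neg {p : ι → ℕ} (hp : ∀ i, 2 ≤ p i) {S1 : ℝ} (hH0 : 0 < H1 p S1)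
    (T : Finset (Finset ι)) (hT : ∀ S ∈ T, S ≠ ∅) :
    ∑ S ∈ T, -(wt p S1 S / PH p S) ≤ 1 := by
  have h1 := wt_sum hp hH0
  have h2 : ∑ S ∈ T, -(wt p S1 S / PH p S) ≤
      ∑ S ∈ (univ : Finset (Finset ι)).filter (fun S => S ≠ ∅), -(wt p S1 S / PH p S) := by
    apply Finset.sum_le_sum_of_subset_of_nonneg
    · intro S hS
      rw [Finset.mem_filter]
      exact ⟨Finset.mem_univ _, hT S hS⟩
    · intro S hS _
      rw [Finset.mem_filter] at hS
      have := cgb_nonpos hp hH0 hS.2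
      linarith
  refine h2.trans ?_
  rw [Finset.sum_neg_distrib, h1]
  norm_num

open Classical in
private theorem cgb_inner {p : ι → ℕ} (hp : ∀ i, 2 ≤ p i) {S1 : ℝ} (hH0 : 0 < H1 p S1)
    (hH : ∀ i, 1 ≤ H1 p S1 * Real.log (p i)) (i : ι) :
    ∑ S ∈ (univ : Finset (Finset ι)).filter (fun S => i ∈ S), -(wt p S1 S / PH p S) ≤
      2 / ((p i : ℝ) - 1) := by
  have hpi := cgb_sub_pos hp i
  have h1 : ∀ S ∈ (univ : Finset (Finset ι)).filter (fun S => i ∈ S),
      -(wt p S1 S / PH p S) ≤ 1 / ((p i : ℝ) - 1) *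
        (if S.erase i = ∅ then 1 else -(wt p S1 (S.erase i) / PH p (S.erase i))) := by
    intro S hS
    rw [Finset.mem_filter] at hS
    have hiS := hS.2
    have hS0 : S ≠ ∅ := Finset.nonempty_iff_ne_empty.mp ⟨i, hiS⟩
    have hPH : PH p S = ((p i : ℝ) - 1) * PH p (S.erase i) := by
      unfold PH
      exact (Finset.mul_prod_erase S (fun j => (p j : ℝ) - 1) hiS).symm
    have hPH' := cgb_PH_pos hp (S.erase i)
    by_cases he : S.erase i = ∅
    · rw [if_pos he, hPH, he, PH_empty, mul_one, mul_one, ← neg_div]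
      have h2 := wt_abs hp hH S
      rw [abs_le] at h2
      gcongr
      linarith
    · rw [if_neg he]
      by_cases h2 : PP p S ≤ S1
      · have h3 : PP p (S.erase i) ≤ PP p S := cgb_mono hp (Finset.erase_subset i S)
        rw [cgb_eq hS0 h2, cgb_eq he (h3.trans h2), hPH]
        have h4 := cgb_log_pos hp he
        have h5 : Real.log (PP p (S.erase i)) ≤ Real.log (PP p S) :=
          Real.log_le_log (by have := cgb_one_le hp (S.erase i); linarith) h3
        have h6 := h4.trans_le h5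
        have h7 : -(-1 / (H1 p S1 * Real.log (PP p S)) / (((p i : ℝ) - 1) * PH p (S.erase i))) =
            1 / ((p i : ℝ) - 1) * (1 / (H1 p S1 * PH p (S.erase i)) *
              (1 / Real.log (PP p S))) := by
          field_simp
        have h8 : -(-1 / (H1 p S1 * Real.log (PP p (S.erase i))) / PH p (S.erase i)) =
            1 / (H1 p S1 * PH p (S.erase i)) * (1 / Real.log (PP p (S.erase i))) := by
          field_simp
        rw [h7, h8]
        gcongr
      · rw [cgb_eq0 hS0 h2, zero_div, neg_zero]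
        refine mul_nonneg (by positivity) ?_
        have := cgb_nonpos hp hH0 he
        linarith
  refine (Finset.sum_le_sum h1).trans ?_
  rw [← Finset.mul_sum]
  have h2 : ∑ S ∈ (univ : Finset (Finset ι)).filter (fun S => i ∈ S),
      (if S.erase i = ∅ then 1 else -(wt p S1 (S.erase i) / PH p (S.erase i))) ≤
      ∑ S : Finset ι, (if S = ∅ then 1 else -(wt p S1 S / PH p S)) := by
    rw [← Finset.sum_image (s := (univ : Finset (Finset ι)).filter (fun S => i ∈ S))
      (g := fun S => S.erase i) (f := fun S => if S = ∅ then 1 else -(wt p S1 S / PH p S))]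
    · apply Finset.sum_le_sum_of_subset_of_nonneg (Finset.subset_univ _)
      intro S _ _
      split_ifs with h
      · norm_num
      · have := cgb_nonpos hp hH0 h
        linarith
    · intro S hS T hT hST
      have hS' := (Finset.mem_filter.mp (Finset.mem_coe.mp hS)).2
      have hT' := (Finset.mem_filter.mp (Finset.mem_coe.mp hT)).2
      rw [← Finset.insert_erase hS', ← Finset.insert_erase hT']
      exact congrArg (insert i) hST
  have h3 : ∑ S : Finset ι, (if S = ∅ then 1 else -(wt p S1 S / PH p S)) ≤ 2 := by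
    rw [← Finset.add_sum_erase _ _ (Finset.mem_univ (∅ : Finset ι)), if_pos rfl]
    have h4 := cgb_sum_neg hp hH0 ((univ : Finset (Finset ι)).erase ∅)
      fun S hS => Finset.ne_of_mem_erase hS
    have h5 : ∑ S ∈ (univ : Finset (Finset ι)).erase ∅,
        (if S = ∅ then 1 else -(wt p S1 S / PH p S)) =
        ∑ S ∈ (univ : Finset (Finset ι)).erase ∅, -(wt p S1 S / PH p S) := by
      apply Finset.sum_congr rfl
      intro S hS
      rw [if_neg (Finset.ne_of_mem_erase hS)]
    rw [h5]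
    linarith
  calc 1 / ((p i : ℝ) - 1) * ∑ S ∈ (univ : Finset (Finset ι)).filter (fun S => i ∈ S),
      (if S.erase i = ∅ then 1 else -(wt p S1 (S.erase i) / PH p (S.erase i)))
      ≤ 1 / ((p i : ℝ) - 1) * 2 := by
        apply mul_le_mul_of_nonneg_left (h2.trans h3) (by positivity)
    _ = 2 / ((p i : ℝ) - 1) := by ring

theorem cg_wt_abs {p : ι → ℕ} (hp : ∀ i, 2 ≤ p i) {S1 : ℝ} (hH0 : 0 < H1 p S1) {D V : ℝ}
    (hV : 0 < V) (U : Finset ι) : |cg p (wt p S1) D V U| ≤ 1 := by
  classical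
  unfold cg
  by_cases hU : V ≤ D
  · rw [← Finset.add_sum_erase _ _ (Finset.empty_mem_powerset (univ \ U))]
    rw [if_pos (by rw [PP_empty, one_mul]; exact hU), wt_empty, PH_empty, div_one]
    have h1 : ∑ S ∈ (univ \ U).powerset.erase ∅,
        (if PP p S * V ≤ D then wt p S1 S / PH p S else 0) ≤ 0 := by
      apply Finset.sum_nonpos
      intro S hS
      split_ifs
      · exact cgb_nonpos hp hH0 (Finset.ne_of_mem_erase hS)
      · exact le_rfl
    have h2 := cgb_sum_neg hp hH0 ((univ \ U).powerset.erase ∅)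
      fun S hS => Finset.ne_of_mem_erase hS
    have h3 : ∑ S ∈ (univ \ U).powerset.erase ∅, (wt p S1 S / PH p S) ≤
        ∑ S ∈ (univ \ U).powerset.erase ∅,
        (if PP p S * V ≤ D then wt p S1 S / PH p S else 0) := by
      apply Finset.sum_le_sum
      intro S hS
      split_ifs
      · exact le_rfl
      · exact cgb_nonpos hp hH0 (Finset.ne_of_mem_erase hS)
    rw [Finset.sum_neg_distrib] at h2
    rw [abs_le]
    constructor <;> linarith
  · rw [Finset.sum_eq_zero, abs_zero]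
    · norm_num
    · intro S _
      rw [if_neg]
      have h1 := cgb_one_le hp S
      intro h3
      apply hU
      nlinarith

theorem cg_wt_small {p : ι → ℕ} (hp : ∀ i, 2 ≤ p i) {S1 : ℝ} (hS1 : 1 ≤ S1)
    (hH0 : 0 < H1 p S1) (hH : ∀ i, 1 ≤ H1 p S1 * Real.log (p i)) {D V : ℝ} (hV : 0 < V)
    (hVD : V * S1 ≤ D) (U : Finset ι) :
    |cg p (wt p S1) D V U| ≤ ∑ i ∈ U, 2 / ((p i : ℝ) - 1) := by
  classical
  have hVS : V ≤ D := (le_mul_of_one_le_right hV.le hS1).trans hVD
  have h1 : cg p (wt p S1) D V U = 1 + ∑ S ∈ (univ \ U).powerset.erase ∅, wt p S1 S / PH p S := by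
    unfold cg
    rw [← Finset.add_sum_erase _ _ (Finset.empty_mem_powerset (univ \ U))]
    rw [if_pos (by rw [PP_empty, one_mul]; exact hVS), wt_empty, PH_empty, div_one]
    congr 1
    apply Finset.sum_congr rfl
    intro S hS
    have hS0 := Finset.ne_of_mem_erase hS
    by_cases h2 : PP p S ≤ S1
    · rw [if_pos]
      calc PP p S * V ≤ S1 * V := mul_le_mul_of_nonneg_right h2 hV.le
        _ ≤ D := by rw [mul_comm]; exact hVD
    · rw [cgb_eq0 hS0 h2, zero_div, ite_self]
  have h2 : ∑ S ∈ (univ : Finset (Finset ι)).filter (fun S => S ≠ ∅), wt p S1 S / PH p S =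
      ∑ S ∈ (univ \ U).powerset.erase ∅, wt p S1 S / PH p S +
      ∑ S ∈ (univ : Finset (Finset ι)).filter (fun S => ∃ i ∈ U, i ∈ S), wt p S1 S / PH p S := by
    rw [← Finset.sum_union]
    · apply Finset.sum_congr _ fun _ _ => rfl
      ext S
      rw [Finset.mem_union, Finset.mem_filter, Finset.mem_filter, Finset.mem_erase,
        Finset.mem_powerset]
      constructor
      · rintro ⟨_, h3⟩
        by_cases h4 : ∃ i ∈ U, i ∈ S
        · exact Or.inr ⟨Finset.mem_univ _, h4⟩
        · left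
          refine ⟨h3, fun i hi => ?_⟩
          rw [Finset.mem_sdiff]
          exact ⟨Finset.mem_univ _, fun h5 => h4 ⟨i, h5, hi⟩⟩
      · rintro (⟨h3, _⟩ | ⟨_, i, _, h4⟩)
        · exact ⟨Finset.mem_univ _, h3⟩
        · exact ⟨Finset.mem_univ _, Finset.nonempty_iff_ne_empty.mp ⟨i, h4⟩⟩
    · rw [Finset.disjoint_left]
      intro S hS hS'
      rw [Finset.mem_erase, Finset.mem_powerset] at hS
      obtain ⟨_, i, hi, hi'⟩ := Finset.mem_filter.mp hS'
      exact (Finset.mem_sdiff.mp (hS.2 hi')).2 hi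
  have h3 := wt_sum hp hH0
  rw [h3] at h2
  have h4 : cg p (wt p S1) D V U =
      ∑ S ∈ (univ : Finset (Finset ι)).filter (fun S => ∃ i ∈ U, i ∈ S),
        -(wt p S1 S / PH p S) := by
    rw [h1, Finset.sum_neg_distrib]
    linarith
  have h5 : 0 ≤ cg p (wt p S1) D V U := by
    rw [h4]
    apply Finset.sum_nonneg
    intro S hS
    obtain ⟨_, i, _, hi'⟩ := Finset.mem_filter.mp hS
    have := cgb_nonpos hp hH0 (Finset.nonempty_iff_ne_empty.mp ⟨i, hi'⟩)
    linarith
  rw [abs_of_nonneg h5, h4]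
  calc ∑ S ∈ (univ : Finset (Finset ι)).filter (fun S => ∃ i ∈ U, i ∈ S),
        -(wt p S1 S / PH p S)
      ≤ ∑ S : Finset ι, ∑ i ∈ U, (if i ∈ S then -(wt p S1 S / PH p S) else 0) := by
        have hnn : ∀ (S : Finset ι), ∀ i ∈ U,
            0 ≤ (if i ∈ S then -(wt p S1 S / PH p S) else 0) := by
          intro S i _
          split_ifs with h
          · have := cgb_nonpos hp hH0 (Finset.nonempty_iff_ne_empty.mp ⟨i, h⟩)
            linarith
          · exact le_rfl
        rw [Finset.sum_filter]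
        apply Finset.sum_le_sum
        intro S _
        split_ifs with h
        · obtain ⟨i, hi, hi'⟩ := h
          have h6 := Finset.single_le_sum (hnn S) hi
          rwa [if_pos hi'] at h6
        · exact Finset.sum_nonneg (hnn S)
    _ = ∑ i ∈ U, ∑ S : Finset ι, (if i ∈ S then -(wt p S1 S / PH p S) else 0) :=
        Finset.sum_comm
    _ ≤ ∑ i ∈ U, 2 / ((p i : ℝ) - 1) := by
        apply Finset.sum_le_sum
        intro i _
        have h6 := cgb_inner hp hH0 hH i
        rwa [Finset.sum_filter] at h6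

theorem cg_zero {p : ι → ℕ} (hp : ∀ i, 2 ≤ p i) (y : Finset ι → ℝ) {D V : ℝ} (hV : 0 < V)
    (hVD : D < V) (U : Finset ι) : cg p y D V U = 0 := by
  classical
  unfold cg
  apply Finset.sum_eq_zero
  intro S _
  rw [if_neg]
  intro h
  have h1 := cgb_one_le hp S
  nlinarith

theorem cg_nonneg {p : ι → ℕ} (hp : ∀ i, 2 ≤ p i) {y : Finset ι → ℝ} (hy : ∀ S, 0 ≤ y S)
    (D V : ℝ) (U : Finset ι) : 0 ≤ cg p y D V U := by
  classical
  unfold cg
  refine Finset.sum_nonneg fun S _ => ?_
  split_ifs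
  · exact div_nonneg (hy S) (cgb_PH_pos hp S).le
  · exact le_rfl

theorem cg_le {p : ι → ℕ} (hp : ∀ i, 2 ≤ p i) {y : Finset ι → ℝ} (hy : ∀ S, 0 ≤ y S)
    (D V : ℝ) (U : Finset ι) : cg p y D V U ≤ SA p y := by
  classical
  unfold cg SA
  have h0 : ∀ S : Finset ι, 0 ≤ y S / PH p S := fun S => div_nonneg (hy S) (cgb_PH_pos hp S).le
  refine le_trans (Finset.sum_le_sum fun S _ => ?_)
    (Finset.sum_le_sum_of_subset_of_nonneg (Finset.subset_univ _) fun S _ _ => h0 S)
  split_ifs
  · exact le_rfl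
  · exact h0 S

theorem cg_mono {p : ι → ℕ} (hp : ∀ i, 2 ≤ p i) {y : Finset ι → ℝ} (hy : ∀ S, 0 ≤ y S)
    (D : ℝ) {V V' : ℝ} (hV : V' ≤ V) {U U' : Finset ι} (hU : U' ⊆ U) :
    cg p y D V U ≤ cg p y D V' U' := by
  classical
  unfold cg
  have h0 : ∀ S : Finset ι, 0 ≤ y S / PH p S := fun S => div_nonneg (hy S) (cgb_PH_pos hp S).le
  have h1 : (univ \ U).powerset ⊆ (univ \ U').powerset :=
    Finset.powerset_mono.2 (Finset.sdiff_subset_sdiff le_rfl hU)
  refine le_trans (Finset.sum_le_sum fun S _ => ?_)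
    (Finset.sum_le_sum_of_subset_of_nonneg h1 fun S _ _ => ?_)
  · have h2 : PP p S * V' ≤ PP p S * V :=
      mul_le_mul_of_nonneg_left hV (zero_le_one.trans (cgb_one_le hp S))
    by_cases h3 : PP p S * V ≤ D
    · rw [if_pos h3, if_pos (h2.trans h3)]
    · rw [if_neg h3]
      split_ifs
      · exact h0 S
      · exact le_rfl
  · split_ifs
    · exact h0 S
    · exact le_rfl

/-- the value at `V = 1`, `U = ∅` -/
theorem cg_one {p : ι → ℕ} {y : Finset ι → ℝ} {D : ℝ} (hs : ∀ S, y S ≠ 0 → PP p S ≤ D) :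
    cg p y D 1 ∅ = SA p y := by
  classical
  unfold cg SA
  rw [Finset.sdiff_empty, Finset.powerset_univ]
  refine Finset.sum_congr rfl fun S _ => ?_
  rw [mul_one]
  by_cases h : y S = 0
  · rw [h, zero_div, ite_self]
  · rw [if_pos (hs S h)]

theorem cg_ge {p : ι → ℕ} (hp : ∀ i, 2 ≤ p i) {y : Finset ι → ℝ} (hy : ∀ S, 0 ≤ y S)
    (hm : ∀ S T : Finset ι, T ⊆ S → y S ≤ y T) {D V T1 : ℝ} (hs : ∀ S, y S ≠ 0 → PP p S ≤ T1)
    (hV : 0 ≤ V) (hVD : V * T1 ≤ D) (U : Finset ι) :
    (1 - ∑ i ∈ U, 1 / ((p i : ℝ) - 1)) * SA p y ≤ cg p y D V U := by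
  classical
  have h0 : ∀ S : Finset ι, 0 ≤ y S / PH p S := fun S => div_nonneg (hy S) (cgb_PH_pos hp S).le
  have h1 : cg p y D V U = ∑ S ∈ (univ \ U).powerset, y S / PH p S := by
    unfold cg
    refine Finset.sum_congr rfl fun S _ => ?_
    by_cases h : y S = 0
    · rw [h, zero_div, ite_self]
    · rw [if_pos]
      calc PP p S * V ≤ T1 * V := mul_le_mul_of_nonneg_right (hs S h) hV
        _ ≤ D := by rw [mul_comm]; exact hVD
  have hinner : ∀ i, ∑ S : Finset ι, (if i ∈ S then y S / PH p S else 0) ≤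
      1 / ((p i : ℝ) - 1) * SA p y := by
    intro i
    have hpi := cgb_sub_pos hp i
    rw [← Finset.sum_filter]
    have h2 : ∀ S ∈ (univ : Finset (Finset ι)).filter (fun S => i ∈ S),
        y S / PH p S ≤ 1 / ((p i : ℝ) - 1) * (y (S.erase i) / PH p (S.erase i)) := by
      intro S hS
      have hiS := (Finset.mem_filter.1 hS).2
      have hPH : PH p S = ((p i : ℝ) - 1) * PH p (S.erase i) := by
        unfold PH
        exact (Finset.mul_prod_erase S (fun j => (p j : ℝ) - 1) hiS).symm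
      have hPH' := cgb_PH_pos hp (S.erase i)
      rw [hPH, div_mul_div_comm, one_mul]
      exact div_le_div_of_nonneg_right (hm S (S.erase i) (Finset.erase_subset i S))
        (mul_pos hpi hPH').le
    refine (Finset.sum_le_sum h2).trans ?_
    rw [← Finset.mul_sum]
    refine mul_le_mul_of_nonneg_left ?_ (by positivity)
    unfold SA
    rw [← Finset.sum_image (s := (univ : Finset (Finset ι)).filter (fun S => i ∈ S))
      (g := fun S => S.erase i) (f := fun S => y S / PH p S)]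
    · exact Finset.sum_le_sum_of_subset_of_nonneg (Finset.subset_univ _) fun S _ _ => h0 S
    · intro S hS T hT hST
      have hS' := (Finset.mem_filter.mp (Finset.mem_coe.mp hS)).2
      have hT' := (Finset.mem_filter.mp (Finset.mem_coe.mp hT)).2
      rw [← Finset.insert_erase hS', ← Finset.insert_erase hT']
      exact congrArg (insert i) hST
  have h2 : SA p y ≤ (∑ S ∈ (univ \ U).powerset, y S / PH p S) +
      ∑ S : Finset ι, ∑ i ∈ U, (if i ∈ S then y S / PH p S else 0) := by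
    have hnn : ∀ (S : Finset ι), ∀ i ∈ U, 0 ≤ (if i ∈ S then y S / PH p S else 0) := by
      intro S i _
      split_ifs
      · exact h0 S
      · exact le_rfl
    unfold SA
    have h3 : ∑ S ∈ (univ \ U).powerset, y S / PH p S =
        ∑ S : Finset ι, (if S ∈ (univ \ U).powerset then y S / PH p S else 0) := by
      rw [← Finset.sum_filter]
      refine Finset.sum_congr ?_ fun _ _ => rfl
      ext S
      rw [Finset.mem_filter]
      exact ⟨fun h => ⟨Finset.mem_univ _, h⟩, fun h => h.2⟩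
    rw [h3, ← Finset.sum_add_distrib]
    refine Finset.sum_le_sum fun S _ => ?_
    by_cases h4 : ∃ i ∈ U, i ∈ S
    · obtain ⟨i, hi, hi'⟩ := h4
      have h6 := Finset.single_le_sum (hnn S) hi
      rw [if_pos hi'] at h6
      have h7 : 0 ≤ (if S ∈ (univ \ U).powerset then y S / PH p S else 0) := by
        split_ifs
        · exact h0 S
        · exact le_rfl
      linarith
    · rw [if_pos]
      · have := Finset.sum_nonneg (hnn S)
        linarith
      · rw [Finset.mem_powerset]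
        intro i hi
        rw [Finset.mem_sdiff]
        exact ⟨Finset.mem_univ _, fun h5 => h4 ⟨i, h5, hi⟩⟩
  rw [Finset.sum_comm] at h2
  have h3 : ∑ i ∈ U, ∑ S : Finset ι, (if i ∈ S then y S / PH p S else 0) ≤
      ∑ i ∈ U, 1 / ((p i : ℝ) - 1) * SA p y := Finset.sum_le_sum fun i _ => hinner i
  rw [← Finset.sum_mul] at h3
  rw [h1]
  linarith

end Pool.Agent.IPT
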