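/-
IPT/Split.lean: bookkeeping for the two parts lp, rp of an assignment.
-/
import Pool.Agent.IPT.Defs
import Pool.Agent.AT.CdL

namespace Pool.Agent.IPT
open Finset Pool.Agent.RS Pool.Agent.AT

variable {ι α β : Type} [Fintype ι] [DecidableEq ι] [DecidableEq α] [DecidableEq β]

/-- the assignment with given parts -/
private def join (τ : ι → Option α) (υ : ι → Option β) : ι → Option (α ⊕ β) := fun i =>
  match τ i, υ i with
  | some a, _ => some (Sum.inl a)
  | none, some b => some (Sum.inr b)
  | none, none => none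

theorem supp_split (σ : ι → Option (α ⊕ β)) : supp σ = supp (lp σ) ∪ supp (rp σ) := by
  ext i
  simp only [mem_supp, mem_union, lp, rp]
  rcases σ i with _ | (a | b) <;> simp

theorem supp_disj (σ : ι → Option (α ⊕ β)) : Disjoint (supp (lp σ)) (supp (rp σ)) := by
  rw [Finset.disjoint_left]
  intro i
  simp only [mem_supp, lp, rp]
  rcases σ i with _ | (a | b) <;> simp

theorem cell_inl (σ : ι → Option (α ⊕ β)) (j : α) : cell σ (Sum.inl j) = cell (lp σ) j := by
  ext i
  simp only [mem_cell, lp]
  rcases σ i with _ | (a | b) <;> simp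

theorem cell_inr (σ : ι → Option (α ⊕ β)) (m : β) : cell σ (Sum.inr m) = cell (rp σ) m := by
  ext i
  simp only [mem_cell, rp]
  rcases σ i with _ | (a | b) <;> simp

theorem PP_split (p : ι → ℕ) (σ : ι → Option (α ⊕ β)) :
    PP p (supp σ) = PP p (supp (lp σ)) * PP p (supp (rp σ)) := by
  rw [supp_split σ]
  exact Finset.prod_union (supp_disj σ)

theorem PH_split (p : ι → ℕ) (σ : ι → Option (α ⊕ β)) :
    PH p (supp σ) = PH p (supp (lp σ)) * PH p (supp (rp σ)) := by
  rw [supp_split σ]
  exact Finset.prod_union (supp_disj σ)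

theorem lp_put_inl (σ : ι → Option (α ⊕ β)) (S : Finset ι) (j : α) :
    lp (put σ S (Sum.inl j)) = put (lp σ) S j := by
  funext i
  by_cases h : i ∈ S <;> simp [lp, put, h]

theorem rp_put_inl (σ : ι → Option (α ⊕ β)) {S : Finset ι} (j : α)
    (hS : S ∈ (univ \ supp σ).powerset) : rp (put σ S (Sum.inl j)) = rp σ := by
  funext i
  by_cases h : i ∈ S
  · have h1 : σ i = none := by
      have h2 := (Finset.mem_sdiff.1 (Finset.mem_powerset.1 hS h)).2
      rw [mem_supp] at h2
      exact not_not.1 h2
    simp [rp, put, h, h1]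
  · simp [rp, put, h]

theorem rp_put_inr (σ : ι → Option (α ⊕ β)) (S : Finset ι) (m : β) :
    rp (put σ S (Sum.inr m)) = put (rp σ) S m := by
  funext i
  by_cases h : i ∈ S <;> simp [rp, put, h]

theorem lp_put_inr (σ : ι → Option (α ⊕ β)) {S : Finset ι} (m : β)
    (hS : S ∈ (univ \ supp σ).powerset) : lp (put σ S (Sum.inr m)) = lp σ := by
  funext i
  by_cases h : i ∈ S
  · have h1 : σ i = none := by
      have h2 := (Finset.mem_sdiff.1 (Finset.mem_powerset.1 hS h)).2
      rw [mem_supp] at h2
      exact not_not.1 h2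
    simp [lp, put, h, h1]
  · simp [lp, put, h]

theorem lp_era_inr (σ : ι → Option (α ⊕ β)) (m : β) : lp (era σ (Sum.inr m)) = lp σ := by
  funext i
  simp only [lp, era]
  rcases σ i with _ | (a | b)
  · simp
  · simp
  · by_cases h : b = m <;> simp [h]

theorem rp_era_inr (σ : ι → Option (α ⊕ β)) (m : β) :
    rp (era σ (Sum.inr m)) = era (rp σ) m := by
  funext i
  rcases h : σ i with _ | (a | b)
  · simp [rp, era, h]
  · simp [rp, era, h]
  · by_cases hb : b = m <;> simp [rp, era, h, hb]

theorem lp_eraS (S : Finset ι) (σ : ι → Option (α ⊕ β)) : lp (eraS S σ) = eraS S (lp σ) := by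
  funext i
  by_cases h : i ∈ S <;> simp [lp, eraS, h]

theorem rp_eraS (S : Finset ι) (σ : ι → Option (α ⊕ β)) : rp (eraS S σ) = eraS S (rp σ) := by
  funext i
  by_cases h : i ∈ S <;> simp [rp, eraS, h]

variable [Fintype α] [Fintype β]

open Classical in
theorem sum_pair (F : (ι → Option α) → (ι → Option β) → ℝ) :
    ∑ σ : ι → Option (α ⊕ β), F (lp σ) (rp σ) =
      ∑ τ : ι → Option α, ∑ υ : ι → Option β,
        if Disjoint (supp τ) (supp υ) then F τ υ else 0 := by
  have h1 : ∑ τ : ι → Option α, ∑ υ : ι → Option β,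
      (if Disjoint (supp τ) (supp υ) then F τ υ else 0) =
      ∑ x ∈ (univ : Finset ((ι → Option α) × (ι → Option β))).filter
        (fun x => Disjoint (supp x.1) (supp x.2)), F x.1 x.2 := by
    rw [Finset.sum_filter, Fintype.sum_prod_type]
  rw [h1]
  refine Finset.sum_nbij' (fun σ => (lp σ, rp σ)) (fun x => join x.1 x.2) ?_ ?_ ?_ ?_ ?_
  · intro σ _
    rw [Finset.mem_filter]
    exact ⟨Finset.mem_univ _, supp_disj σ⟩
  · intro x _
    exact Finset.mem_univ _
  · intro σ _
    funext i
    simp only [join, lp, rp]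
    rcases σ i with _ | (a | b) <;> simp
  · intro x hx
    have h2 := (Finset.mem_filter.1 hx).2
    rw [Finset.disjoint_left] at h2
    refine Prod.ext ?_ ?_
    · funext i
      simp only [join, lp]
      rcases x.1 i with _ | a
      · rcases x.2 i with _ | b <;> simp
      · simp
    · funext i
      have h3 := @h2 i
      simp only [mem_supp] at h3
      simp only [join, rp]
      rcases h4 : x.1 i with _ | a
      · rcases x.2 i with _ | b <;> simp
      · rw [h4] at h3
        have h5 : x.2 i = none := not_not.1 (h3 (by simp))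
        simp [h5]
  · intro σ _
    rfl

end Pool.Agent.IPT
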