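/-
IPT/AttrSum.lean.  Lower bound for the square sum collapsed at an attracting site.
-/
import Pool.Agent.IPT.MassB

namespace Pool.Agent.IPT
open Finset Pool.Agent.RS

variable {ι α β : Type} [Fintype ι] [DecidableEq ι] [DecidableEq α] [DecidableEq β] [Fintype α]
  [Fintype β]

theorem attr_sum {p : ι → ℕ} (hp : ∀ i, 2 ≤ p i) (yR yH : Finset ι → ℝ) (hH0 : yH ∅ = 1)
    (hHn : ∀ S, 0 ≤ yH S) (hHm : ∀ S T : Finset ι, T ⊆ S → yH S ≤ yH T) {DR DH T1 : ℝ}
    (hT1 : 1 ≤ T1) (hTD : T1 < DH) (hs : ∀ S, yH S ≠ 0 → PP p S ≤ T1)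
    (hN2 : ∀ S : Finset ι, PP p S ≤ DR * T1 ^ Fintype.card β →
      ∑ i ∈ S, 1 / ((p i : ℝ) - 1) ≤ 1 / 2)
    (hE : 4 * (Fintype.card β : ℝ) * SE p yH ≤ SX p yH * Real.log (DH / T1)) (m : β) :
    SA p yH ^ 2 / (8 * SX p yH) *
        ∑ σ : ι → Option (α ⊕ β), Y2 p yR yH DR DH σ ^ 2 / PH p (supp σ) ≤
      ∑ σ : ι → Option (α ⊕ β), ZB p yR yH DR DH m σ ^ 2 / PH p (supp σ) := by
  classical
  have hPP : ∀ S : Finset ι, 0 < PP p S := fun S => Finset.prod_pos (fun i _ => by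
    have := hp i
    have h2 : (2 : ℝ) ≤ (p i : ℝ) := by exact_mod_cast this
    linarith)
  have hPH : ∀ S : Finset ι, 0 < PH p S := fun S => Finset.prod_pos (fun i _ => by
    have := hp i
    have h2 : (2 : ℝ) ≤ (p i : ℝ) := by exact_mod_cast this
    linarith)
  have hT0 : 0 < T1 := lt_of_lt_of_le one_pos hT1
  have hSX : 0 < SX p yH := by
    unfold SX
    refine Finset.sum_pos' (fun S _ => div_nonneg (sq_nonneg _) (hPH S).le)
      ⟨∅, Finset.mem_univ _, ?_⟩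
    rw [hH0, PH_empty]
    norm_num
  have hSA : 0 ≤ SA p yH := by
    unfold SA
    exact Finset.sum_nonneg (fun S _ => div_nonneg (hHn S) (hPH S).le)
  have hwb : ∀ σ : ι → Option (α ⊕ β), 0 ≤ wb p yR yH DR σ := fun σ =>
    div_nonneg (sq_nonneg _) (hPH _).le
  have h1 : ∑ σ : ι → Option (α ⊕ β), Y2 p yR yH DR DH σ ^ 2 / PH p (supp σ) ≤
      ∑ σ : ι → Option (α ⊕ β), wb p yR yH DR σ := by
    refine Finset.sum_le_sum (fun σ _ => ?_)
    by_cases h : PP p (supp (rp σ)) ≤ DH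
    · have e : Yd p yH DH (rp σ) = Yt yH (rp σ) := by
        unfold Yd
        rw [if_pos h]
      unfold Y2 wb
      rw [e]
    · have e : Yd p yH DH (rp σ) = 0 := by
        unfold Yd
        rw [if_neg h]
      have e2 : Y2 p yR yH DR DH σ = 0 := by
        unfold Y2
        rw [e, mul_zero]
      rw [e2]
      simpa using hwb σ
  have h2 := wb_all (α := α) hp yR yH hH0 DR m
  have hT : 1 < DH / T1 := by
    rw [lt_div_iff₀ hT0, one_mul]
    exact hTD
  have h3 := wb_tail (α := α) hp yR yH hH0 hHn hHm hT0.le hT hs hN2 hE m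
  have h4 : ∑ σ ∈ (univ : Finset (ι → Option (α ⊕ β))).filter
        (fun σ => cell σ (Sum.inr m) = ∅), wb p yR yH DR σ =
      ∑ σ ∈ (univ : Finset (ι → Option (α ⊕ β))).filter
        (fun σ => cell σ (Sum.inr m) = ∅ ∧ DH / T1 < PP p (supp (rp σ))), wb p yR yH DR σ +
      ∑ σ ∈ (univ : Finset (ι → Option (α ⊕ β))).filter
        (fun σ => cell σ (Sum.inr m) = ∅ ∧ ¬ DH / T1 < PP p (supp (rp σ))), wb p yR yH DR σ := by
    rw [← Finset.sum_filter_add_sum_filter_not ((univ : Finset (ι → Option (α ⊕ β))).filter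
        (fun σ => cell σ (Sum.inr m) = ∅)) (fun σ => DH / T1 < PP p (supp (rp σ))),
      Finset.filter_filter, Finset.filter_filter]
  have h5 : SA p yH ^ 2 / 4 * ∑ σ ∈ (univ : Finset (ι → Option (α ⊕ β))).filter
        (fun σ => cell σ (Sum.inr m) = ∅ ∧ ¬ DH / T1 < PP p (supp (rp σ))), wb p yR yH DR σ ≤
      ∑ σ : ι → Option (α ⊕ β), ZB p yR yH DR DH m σ ^ 2 / PH p (supp σ) := by
    rw [Finset.mul_sum]
    refine le_trans (Finset.sum_le_sum (fun σ hσ => ?_)) (Finset.sum_le_univ_sum_of_nonneg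
      (fun σ => div_nonneg (sq_nonneg _) (hPH (supp σ)).le))
    obtain ⟨hc, hV⟩ := (Finset.mem_filter.1 hσ).2
    have hV' : PP p (supp (rp σ)) * T1 ≤ DH := by
      rw [not_lt, le_div_iff₀ hT0] at hV
      exact hV
    by_cases hw : wb p yR yH DR σ = 0
    · rw [hw, mul_zero]
      exact div_nonneg (sq_nonneg _) (hPH _).le
    · have hl := wb_level hp yR yH hT0.le hs hw
      have hN := hN2 _ hl
      have hcg := cg_ge hp hHn hHm hs (hPP (supp (rp σ))).le hV' (supp σ)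
      have hcg2 : SA p yH / 2 ≤ cg p yH DH (PP p (supp (rp σ))) (supp σ) := by
        refine le_trans ?_ hcg
        nlinarith
      have hz : ZB p yR yH DR DH m σ = Yd p yR DR (lp σ) * (Yt yH (rp σ) *
          cg p yH DH (PP p (supp (rp σ))) (supp σ)) := by
        unfold ZB
        rw [if_pos hc]
      have hz2 : ZB p yR yH DR DH m σ ^ 2 / PH p (supp σ) = wb p yR yH DR σ *
          cg p yH DH (PP p (supp (rp σ))) (supp σ) ^ 2 := by
        rw [hz]
        unfold wb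
        ring
      rw [hz2, mul_comm]
      refine mul_le_mul_of_nonneg_left ?_ (hwb σ)
      have h6 : (SA p yH / 2) ^ 2 ≤ cg p yH DH (PP p (supp (rp σ))) (supp σ) ^ 2 :=
        pow_le_pow_left₀ (by positivity) hcg2 2
      calc SA p yH ^ 2 / 4 = (SA p yH / 2) ^ 2 := by ring
        _ ≤ _ := h6
  refine le_trans ?_ h5
  have h7 : 0 ≤ SA p yH ^ 2 / (8 * SX p yH) := div_nonneg (sq_nonneg _) (by positivity)
  refine le_trans (mul_le_mul_of_nonneg_left (h1.trans h2) h7) ?_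
  have h8 : SA p yH ^ 2 / (8 * SX p yH) * (SX p yH * ∑ σ ∈ (univ : Finset (ι → Option (α ⊕ β))).filter
        (fun σ => cell σ (Sum.inr m) = ∅), wb p yR yH DR σ) = SA p yH ^ 2 / 8 *
      ∑ σ ∈ (univ : Finset (ι → Option (α ⊕ β))).filter
        (fun σ => cell σ (Sum.inr m) = ∅), wb p yR yH DR σ := by
    field_simp
  rw [h8]
  have h9 : 0 ≤ SA p yH ^ 2 := sq_nonneg _
  nlinarith

end Pool.Agent.IPT
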