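/-
IPT/Coll.lean.  The sum over σ of a product is, up to a factor 2, the product of the sums.
-/
import Pool.Agent.IPT.Split
import Pool.Agent.RS.Rough

namespace Pool.Agent.IPT
open Finset Pool.Agent.RS Pool.Agent.AT

variable {ι α β : Type} [Fintype ι] [DecidableEq ι] [DecidableEq α] [DecidableEq β] [Fintype α]
  [Fintype β]

theorem coll_le (FA : (ι → Option α) → ℝ) (FB : (ι → Option β) → ℝ) (hA : ∀ τ, 0 ≤ FA τ)
    (hB : ∀ υ, 0 ≤ FB υ) :
    ∑ σ : ι → Option (α ⊕ β), FA (lp σ) * FB (rp σ) ≤ (∑ τ, FA τ) * ∑ υ, FB υ := by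
  classical
  rw [sum_pair (fun τ υ => FA τ * FB υ), Finset.sum_mul_sum]
  refine Finset.sum_le_sum fun τ _ => Finset.sum_le_sum fun υ _ => ?_
  split_ifs
  · exact le_refl _
  · exact mul_nonneg (hA τ) (hB υ)

section loc

variable {κ : Type} [DecidableEq κ] [Fintype κ]

omit [Fintype κ] in
private theorem PH_era {p : ι → ℕ} (i : ι) (τ : ι → Option κ) (h : τ i ≠ none) :
    PH p (supp τ) = ((p i : ℝ) - 1) * PH p (supp (eraS {i} τ)) := by
  have h1 : i ∉ supp (eraS {i} τ) := by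
    rw [mem_supp]
    simp [eraS]
  have h2 : supp τ = insert i (supp (eraS {i} τ)) := by
    ext j
    rw [mem_insert, mem_supp, mem_supp]
    unfold eraS
    by_cases hj : j = i
    · simp [hj, h]
    · simp [hj]
  rw [h2]
  unfold PH
  rw [Finset.prod_insert h1]

private theorem loc_le {p : ι → ℕ} (hp : ∀ i, 2 ≤ p i) (Y : (ι → Option κ) → ℝ)
    (hY : ∀ S τ, |Y τ| ≤ |Y (eraS S τ)|) (i : ι) :
    ∑ τ : ι → Option κ, (if τ i ≠ none then Y τ ^ 2 / PH p (supp τ) else 0) ≤
      (Fintype.card κ : ℝ) / ((p i : ℝ) - 1) * ∑ τ, Y τ ^ 2 / PH p (supp τ) := by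
  classical
  have hPH : ∀ S : Finset ι, 0 < PH p S := fun S => lt_of_lt_of_le one_pos (one_le_PH hp S)
  have hpi : (0 : ℝ) < (p i : ℝ) - 1 := by
    have h2 : (2 : ℝ) ≤ (p i : ℝ) := by exact_mod_cast hp i
    linarith
  have h1 : ∀ τ : ι → Option κ, (if τ i ≠ none then Y τ ^ 2 / PH p (supp τ) else 0) ≤
      ∑ a : κ, (if τ i = some a then Y τ ^ 2 / PH p (supp τ) else 0) := by
    intro τ
    rcases h : τ i with _ | a
    · simp
    · have h3 : ∀ b ∈ (univ : Finset κ),
          (0 : ℝ) ≤ if some a = some b then Y τ ^ 2 / PH p (supp τ) else 0 := by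
        intro b _
        split_ifs
        · exact div_nonneg (sq_nonneg _) (hPH _).le
        · exact le_refl _
      have h4 := Finset.single_le_sum h3 (mem_univ a)
      rw [if_pos rfl] at h4
      rw [if_pos (Option.some_ne_none a)]
      exact h4
  have h2 : ∀ a : κ, ∑ τ : ι → Option κ, (if τ i = some a then Y τ ^ 2 / PH p (supp τ) else 0) ≤
      1 / ((p i : ℝ) - 1) * ∑ τ, Y τ ^ 2 / PH p (supp τ) := by
    intro a
    rw [← Finset.sum_filter]
    have h3 : ∀ τ ∈ univ.filter (fun τ : ι → Option κ => τ i = some a),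
        Y τ ^ 2 / PH p (supp τ) ≤
          1 / ((p i : ℝ) - 1) * (Y (eraS {i} τ) ^ 2 / PH p (supp (eraS {i} τ))) := by
      intro τ hτ
      have h4 : τ i ≠ none := by
        rw [(mem_filter.1 hτ).2]
        exact Option.some_ne_none a
      rw [PH_era i τ h4]
      have h5 : Y τ ^ 2 ≤ Y (eraS {i} τ) ^ 2 := sq_le_sq.2 (hY {i} τ)
      have h6 := hPH (supp (eraS {i} τ))
      rw [div_mul_div_comm, one_mul]
      exact div_le_div_of_nonneg_right h5 (mul_pos hpi h6).le
    refine (Finset.sum_le_sum h3).trans ?_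
    rw [← Finset.mul_sum]
    refine mul_le_mul_of_nonneg_left ?_ (one_div_nonneg.2 hpi.le)
    have hinj : Set.InjOn (fun τ : ι → Option κ => eraS {i} τ)
        (univ.filter (fun τ : ι → Option κ => τ i = some a) : Finset (ι → Option κ)) := by
      intro τ hτ υ hυ h
      have h7 : τ i = some a := (mem_filter.1 (Finset.mem_coe.1 hτ)).2
      have h8 : υ i = some a := (mem_filter.1 (Finset.mem_coe.1 hυ)).2
      funext j
      by_cases hj : j = i
      · rw [hj, h7, h8]
      · have h9 := congrFun h j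
        simpa [eraS, hj] using h9
    rw [← Finset.sum_image (f := fun τ : ι → Option κ => Y τ ^ 2 / PH p (supp τ)) hinj]
    exact Finset.sum_le_sum_of_subset_of_nonneg (subset_univ _)
      (fun τ _ _ => div_nonneg (sq_nonneg _) (hPH _).le)
  calc ∑ τ : ι → Option κ, (if τ i ≠ none then Y τ ^ 2 / PH p (supp τ) else 0)
      ≤ ∑ τ : ι → Option κ, ∑ a : κ, (if τ i = some a then Y τ ^ 2 / PH p (supp τ) else 0) :=
        Finset.sum_le_sum fun τ _ => h1 τ
    _ = ∑ a : κ, ∑ τ : ι → Option κ, (if τ i = some a then Y τ ^ 2 / PH p (supp τ) else 0) :=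
        Finset.sum_comm
    _ ≤ ∑ _a : κ, 1 / ((p i : ℝ) - 1) * ∑ τ, Y τ ^ 2 / PH p (supp τ) :=
        Finset.sum_le_sum fun a _ => h2 a
    _ = (Fintype.card κ : ℝ) / ((p i : ℝ) - 1) * ∑ τ, Y τ ^ 2 / PH p (supp τ) := by
        rw [Finset.sum_const, nsmul_eq_mul, Finset.card_univ]
        ring

end loc

theorem coll_ge {p : ι → ℕ} (hp : ∀ i, 2 ≤ p i) (YA : (ι → Option α) → ℝ)
    (YB : (ι → Option β) → ℝ) (hA : ∀ S τ, |YA τ| ≤ |YA (eraS S τ)|)
    (hB : ∀ S υ, |YB υ| ≤ |YB (eraS S υ)|)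
    (hs : ∑ i, (Fintype.card α : ℝ) * Fintype.card β / ((p i : ℝ) - 1) ^ 2 ≤ 1 / 2) :
    (∑ τ, YA τ ^ 2 / PH p (supp τ)) * (∑ υ, YB υ ^ 2 / PH p (supp υ)) ≤
      2 * ∑ σ : ι → Option (α ⊕ β), (YA (lp σ) * YB (rp σ)) ^ 2 / PH p (supp σ) := by
  classical
  have hPH : ∀ S : Finset ι, 0 < PH p S := fun S => lt_of_lt_of_le one_pos (one_le_PH hp S)
  set FA : (ι → Option α) → ℝ := fun τ => YA τ ^ 2 / PH p (supp τ) with hFA
  set FB : (ι → Option β) → ℝ := fun υ => YB υ ^ 2 / PH p (supp υ) with hFB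
  have hFA0 : ∀ τ, 0 ≤ FA τ := fun τ => div_nonneg (sq_nonneg _) (hPH _).le
  have hFB0 : ∀ υ, 0 ≤ FB υ := fun υ => div_nonneg (sq_nonneg _) (hPH _).le
  have e1 : ∑ σ : ι → Option (α ⊕ β), (YA (lp σ) * YB (rp σ)) ^ 2 / PH p (supp σ) =
      ∑ τ : ι → Option α, ∑ υ : ι → Option β,
        if Disjoint (supp τ) (supp υ) then FA τ * FB υ else 0 := by
    rw [← sum_pair (fun τ υ => FA τ * FB υ)]
    refine Finset.sum_congr rfl fun σ _ => ?_
    simp only [hFA, hFB]
    rw [PH_split, mul_pow, div_mul_div_comm]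
  rw [e1]
  set SAA : ℝ := ∑ τ, FA τ with hSA
  set SBB : ℝ := ∑ υ, FB υ with hSB
  have hSA0 : 0 ≤ SAA := Finset.sum_nonneg fun τ _ => hFA0 τ
  have hSB0 : 0 ≤ SBB := Finset.sum_nonneg fun υ _ => hFB0 υ
  have h1 : ∀ τ υ, FA τ * FB υ ≤ (if Disjoint (supp τ) (supp υ) then FA τ * FB υ else 0) +
      ∑ i, (if τ i ≠ none then FA τ else 0) * (if υ i ≠ none then FB υ else 0) := by
    intro τ υ
    have hnn : ∀ i ∈ (univ : Finset ι),
        0 ≤ (if τ i ≠ none then FA τ else 0) * (if υ i ≠ none then FB υ else 0) := by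
      intro i _
      refine mul_nonneg ?_ ?_
      · split_ifs <;> first | exact le_refl _ | exact hFA0 τ
      · split_ifs <;> first | exact le_refl _ | exact hFB0 υ
    by_cases hd : Disjoint (supp τ) (supp υ)
    · rw [if_pos hd]
      exact le_add_of_nonneg_right (Finset.sum_nonneg hnn)
    · rw [if_neg hd, zero_add]
      obtain ⟨i, hi1, hi2⟩ := Finset.not_disjoint_iff.1 hd
      have h2 := Finset.single_le_sum hnn (mem_univ i)
      rw [if_pos (mem_supp.1 hi1), if_pos (mem_supp.1 hi2)] at h2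
      exact h2
  have h2 : SAA * SBB ≤
      (∑ τ, ∑ υ, if Disjoint (supp τ) (supp υ) then FA τ * FB υ else 0) +
        ∑ i, (∑ τ : ι → Option α, if τ i ≠ none then FA τ else 0) *
          (∑ υ : ι → Option β, if υ i ≠ none then FB υ else 0) := by
    rw [hSA, hSB, Finset.sum_mul_sum]
    have e2 : ∑ i, (∑ τ : ι → Option α, if τ i ≠ none then FA τ else 0) *
          (∑ υ : ι → Option β, if υ i ≠ none then FB υ else 0) =
        ∑ τ : ι → Option α, ∑ υ : ι → Option β,
          ∑ i, (if τ i ≠ none then FA τ else 0) * (if υ i ≠ none then FB υ else 0) := by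
      calc ∑ i, (∑ τ : ι → Option α, if τ i ≠ none then FA τ else 0) *
            (∑ υ : ι → Option β, if υ i ≠ none then FB υ else 0)
          = ∑ i, ∑ τ : ι → Option α, ∑ υ : ι → Option β,
            (if τ i ≠ none then FA τ else 0) * (if υ i ≠ none then FB υ else 0) :=
            Finset.sum_congr rfl fun i _ => Finset.sum_mul_sum _ _ _ _
        _ = ∑ τ : ι → Option α, ∑ i, ∑ υ : ι → Option β,
            (if τ i ≠ none then FA τ else 0) * (if υ i ≠ none then FB υ else 0) :=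
            Finset.sum_comm
        _ = _ := Finset.sum_congr rfl fun τ _ => Finset.sum_comm
    rw [e2, ← Finset.sum_add_distrib]
    refine Finset.sum_le_sum fun τ _ => ?_
    rw [← Finset.sum_add_distrib]
    exact Finset.sum_le_sum fun υ _ => h1 τ υ
  have h3 : ∑ i, (∑ τ : ι → Option α, if τ i ≠ none then FA τ else 0) *
          (∑ υ : ι → Option β, if υ i ≠ none then FB υ else 0) ≤ 1 / 2 * (SAA * SBB) := by
    calc ∑ i, (∑ τ : ι → Option α, if τ i ≠ none then FA τ else 0) *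
          (∑ υ : ι → Option β, if υ i ≠ none then FB υ else 0)
        ≤ ∑ i, ((Fintype.card α : ℝ) / ((p i : ℝ) - 1) * SAA) *
            ((Fintype.card β : ℝ) / ((p i : ℝ) - 1) * SBB) := by
          refine Finset.sum_le_sum fun i _ => ?_
          have hpi : (0 : ℝ) < (p i : ℝ) - 1 := by
            have h2 : (2 : ℝ) ≤ (p i : ℝ) := by exact_mod_cast hp i
            linarith
          refine mul_le_mul (loc_le hp YA hA i) (loc_le hp YB hB i) ?_ ?_
          · refine Finset.sum_nonneg fun υ _ => ?_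
            split_ifs <;> first | exact le_refl _ | exact hFB0 υ
          · exact mul_nonneg (div_nonneg (Nat.cast_nonneg _) hpi.le) hSA0
      _ = (∑ i, (Fintype.card α : ℝ) * Fintype.card β / ((p i : ℝ) - 1) ^ 2) * (SAA * SBB) := by
          rw [Finset.sum_mul]
          refine Finset.sum_congr rfl fun i _ => ?_
          generalize (p i : ℝ) - 1 = u
          ring
      _ ≤ 1 / 2 * (SAA * SBB) := mul_le_mul_of_nonneg_right hs (mul_nonneg hSA0 hSB0)
  linarith

end Pool.Agent.IPT
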