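/-
IPT/YhF.lean.  The step function yh (IPT/Defs).
-/
import Pool.Agent.IPT.Defs
import Pool.Agent.RS.Rough

namespace Pool.Agent.IPT
open Finset Pool.Agent.RS

variable {ι : Type} [Fintype ι] [DecidableEq ι]

private theorem gsum (i0 G : ℕ) (h : i0 ≤ G) :
    (1 / 2 : ℝ) ^ G + ∑ i ∈ range G, (if i0 ≤ i then (1 / 2 : ℝ) ^ (i + 1) else 0) =
      (1 / 2 : ℝ) ^ i0 := by
  induction G, h using Nat.le_induction with
  | base =>
    rw [Finset.sum_eq_zero, add_zero]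
    intro i hi
    rw [if_neg (not_le.2 (Finset.mem_range.1 hi))]
  | succ n hn ih =>
    rw [Finset.sum_range_succ, if_pos hn, ← ih]
    ring

private theorem lev_mono (t0 : ℕ) {i j : ℕ} (h : i ≤ j) :
    (2 : ℝ) ^ (t0 * 2 ^ i) ≤ 2 ^ (t0 * 2 ^ j) :=
  pow_le_pow_right₀ one_le_two
    (Nat.mul_le_mul_left t0 (Nat.pow_le_pow_right (by norm_num) h))

private theorem yh_cases (p : ι → ℕ) (t0 G : ℕ) (S : Finset ι) :
    (¬ PP p S ≤ 2 ^ (t0 * 2 ^ G) ∧ yh p t0 G S = 0) ∨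
      ∃ i0, i0 ≤ G ∧ PP p S ≤ 2 ^ (t0 * 2 ^ i0) ∧
        (∀ i, i < i0 → ¬ PP p S ≤ 2 ^ (t0 * 2 ^ i)) ∧ yh p t0 G S = (1 / 2 : ℝ) ^ i0 := by
  classical
  by_cases hG : PP p S ≤ 2 ^ (t0 * 2 ^ G)
  · right
    have hex : ∃ i, PP p S ≤ 2 ^ (t0 * 2 ^ i) := ⟨G, hG⟩
    have hle : Nat.find hex ≤ G := Nat.find_min' hex hG
    have hsp := Nat.find_spec hex
    have hmin : ∀ i, i < Nat.find hex → ¬ PP p S ≤ 2 ^ (t0 * 2 ^ i) :=
      fun i hi => Nat.find_min hex hi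
    refine ⟨Nat.find hex, hle, hsp, hmin, ?_⟩
    unfold yh
    rw [if_pos hG, ← gsum (Nat.find hex) (G + 1) (hle.trans (Nat.le_succ G))]
    congr 1
    refine Finset.sum_congr rfl fun i _ => ?_
    by_cases hi : Nat.find hex ≤ i
    · rw [if_pos hi, if_pos (hsp.trans (lev_mono t0 hi))]
    · rw [if_neg hi, if_neg (hmin i (not_le.1 hi))]
  · left
    refine ⟨hG, ?_⟩
    unfold yh
    rw [if_neg hG, zero_add]
    refine Finset.sum_eq_zero fun i hi => ?_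
    rw [if_neg]
    intro h
    exact hG (h.trans (lev_mono t0 (Nat.lt_succ_iff.1 (Finset.mem_range.1 hi))))

private theorem yh_one {p : ι → ℕ} {t0 G : ℕ} {S : Finset ι} (h : PP p S ≤ 2 ^ t0) :
    yh p t0 G S = 1 := by
  have h0 : PP p S ≤ 2 ^ (t0 * 2 ^ 0) := by
    rw [pow_zero, mul_one]
    exact h
  rcases yh_cases p t0 G S with ⟨h1, _⟩ | ⟨i0, _, _, h3, h4⟩
  · exact absurd (h0.trans (lev_mono t0 (Nat.zero_le G))) h1
  · have hi : i0 = 0 := by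
      by_contra hne
      exact h3 0 (Nat.pos_of_ne_zero hne) h0
    rw [h4, hi, pow_zero]

theorem yh_empty (p : ι → ℕ) (t0 G : ℕ) : yh p t0 G ∅ = 1 := by
  apply yh_one
  rw [PP_empty]
  exact one_le_pow₀ one_le_two

theorem yh_nonneg (p : ι → ℕ) (t0 G : ℕ) (S : Finset ι) : 0 ≤ yh p t0 G S := by
  rcases yh_cases p t0 G S with ⟨_, h⟩ | ⟨i0, _, _, _, h⟩
  · rw [h]
  · rw [h]
    positivity

theorem yh_mono {p : ι → ℕ} (hp : ∀ i, 2 ≤ p i) (t0 G : ℕ) (S T : Finset ι) (h : T ⊆ S) :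
    yh p t0 G S ≤ yh p t0 G T := by
  classical
  have hPP : PP p T ≤ PP p S := by
    have h1 : PP p S = PP p (S \ T) * PP p T := by
      unfold PP
      rw [Finset.prod_sdiff h]
    rw [h1]
    have h2 := one_le_PP hp (S \ T)
    have h3 := one_le_PP hp T
    nlinarith
  have key : ∀ (x : ℝ) (c : ℝ), 0 ≤ c →
      (if PP p S ≤ x then c else 0) ≤ (if PP p T ≤ x then c else 0) := by
    intro x c hc
    by_cases h1 : PP p S ≤ x
    · rw [if_pos h1, if_pos (hPP.trans h1)]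
    · rw [if_neg h1]
      split_ifs
      · exact hc
      · exact le_refl _
  unfold yh
  refine add_le_add (key _ _ (by positivity)) ?_
  exact Finset.sum_le_sum fun i _ => key _ _ (by positivity)

theorem yh_supp {p : ι → ℕ} {t0 G : ℕ} {S : Finset ι} (h : yh p t0 G S ≠ 0) :
    PP p S ≤ 2 ^ (t0 * 2 ^ G) := by
  rcases yh_cases p t0 G S with ⟨_, h1⟩ | ⟨i0, h1, h2, _, _⟩
  · exact absurd h1 h
  · exact h2.trans (lev_mono t0 h1)

open Classical in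
theorem yh_sq (p : ι → ℕ) (t0 G : ℕ) (S : Finset ι) :
    yh p t0 G S ^ 2 ≤
      ∑ i ∈ range (G + 1), if PP p S ≤ 2 ^ (t0 * 2 ^ i) then (1 / 4 : ℝ) ^ i else 0 := by
  have hnn : ∀ i ∈ range (G + 1),
      (0 : ℝ) ≤ if PP p S ≤ 2 ^ (t0 * 2 ^ i) then (1 / 4 : ℝ) ^ i else 0 := by
    intro i _
    split_ifs
    · positivity
    · exact le_refl _
  rcases yh_cases p t0 G S with ⟨_, h1⟩ | ⟨i0, h1, h2, _, h4⟩
  · rw [h1, zero_pow two_ne_zero]
    exact Finset.sum_nonneg hnn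
  · have h5 := Finset.single_le_sum hnn (Finset.mem_range.2 (Nat.lt_succ_of_le h1))
    rw [if_pos h2] at h5
    refine le_trans (le_of_eq ?_) h5
    rw [h4, ← pow_mul, mul_comm, pow_mul]
    norm_num

open Classical in
theorem yh_sq_log {p : ι → ℕ} (hp : ∀ i, 2 ≤ p i) (t0 G : ℕ) (S : Finset ι) :
    yh p t0 G S ^ 2 * Real.log (PP p S) ≤
      ∑ i ∈ range (G + 1), if PP p S ≤ 2 ^ (t0 * 2 ^ i) then
        (1 / 4 : ℝ) ^ i * (((t0 * 2 ^ i : ℕ) : ℝ) * Real.log 2) else 0 := by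
  have hl2 : 0 ≤ Real.log 2 := Real.log_nonneg one_le_two
  have hnn : ∀ i ∈ range (G + 1),
      (0 : ℝ) ≤ if PP p S ≤ 2 ^ (t0 * 2 ^ i) then
        (1 / 4 : ℝ) ^ i * (((t0 * 2 ^ i : ℕ) : ℝ) * Real.log 2) else 0 := by
    intro i _
    split_ifs
    · exact mul_nonneg (by positivity) (mul_nonneg (Nat.cast_nonneg _) hl2)
    · exact le_refl _
  rcases yh_cases p t0 G S with ⟨_, h1⟩ | ⟨i0, h1, h2, _, h4⟩
  · rw [h1, zero_pow two_ne_zero, zero_mul]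
    exact Finset.sum_nonneg hnn
  · have h5 := Finset.single_le_sum hnn (Finset.mem_range.2 (Nat.lt_succ_of_le h1))
    rw [if_pos h2] at h5
    refine le_trans ?_ h5
    have h6 : yh p t0 G S ^ 2 = (1 / 4 : ℝ) ^ i0 := by
      rw [h4, ← pow_mul, mul_comm, pow_mul]
      norm_num
    rw [h6]
    refine mul_le_mul_of_nonneg_left ?_ (by positivity)
    rw [← Real.log_pow]
    exact Real.log_le_log (lt_of_lt_of_le one_pos (one_le_PP hp S)) h2

open Classical in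
theorem yh_sq_ge {p : ι → ℕ} (t0 G : ℕ) (S : Finset ι) :
    (if PP p S ≤ 2 ^ t0 then (1 : ℝ) else 0) ≤ yh p t0 G S ^ 2 := by
  by_cases h : PP p S ≤ 2 ^ t0
  · rw [if_pos h, yh_one h, one_pow]
  · rw [if_neg h]
    exact sq_nonneg _

open Classical in
theorem yh_ge (p : ι → ℕ) (t0 G : ℕ) (S : Finset ι) :
    (∑ i ∈ range (G + 1), if PP p S ≤ 2 ^ (t0 * 2 ^ i) then (1 / 2 : ℝ) ^ (i + 1) else 0) ≤
      yh p t0 G S := by
  unfold yh
  refine le_add_of_nonneg_left ?_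
  split_ifs
  · positivity
  · exact le_refl _

end Pool.Agent.IPT
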