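/-
IPT/Conc.lean.  Facts about the concrete data.
-/
import Pool.Agent.IPT.YhF
import Pool.Agent.IPT.Coll
import Pool.Agent.AT.ParB
import Pool.Agent.AT.Wm

namespace Pool.Agent.IPT
open Finset Pool.Agent.RS Pool.Agent.AT

private theorem cn_c0 : c0 ≤ 1 / 2 := by
  unfold c0
  have h1 : Real.exp (-9) ≤ 1 := by
    rw [Real.exp_le_one_iff]
    norm_num
  have h2 : Real.exp (-9) / 10 ^ 8 ≤ 1 / 10 ^ 8 :=
    div_le_div_of_nonneg_right h1 (by norm_num)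
  refine h2.trans ?_
  norm_num

private theorem cn_yh_abs {L : ℕ} (t0 G : ℕ) (S : Finset (Ix L)) : |yh (px L) t0 G S| ≤ 1 := by
  rw [abs_of_nonneg (yh_nonneg _ _ _ _)]
  have h1 := yh_mono (fun i => (px_prime (L := L) i).two_le) t0 G S ∅ (Finset.empty_subset S)
  rw [yh_empty] at h1
  exact h1

private theorem cn_Yt_abs {L : ℕ} {κ : Type} [DecidableEq κ] [Fintype κ]
    (y : Finset (Ix L) → ℝ) (hy : ∀ S, |y S| ≤ 1) (D : ℝ) (σ : Ix L → Option κ) :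
    |Yd (px L) y D σ| ≤ 1 := by
  unfold Yd
  split_ifs with h
  · unfold Yt
    rw [Finset.abs_prod]
    exact Finset.prod_le_one (fun j _ => abs_nonneg _) fun j _ => hy _
  · rw [abs_zero]
    exact zero_le_one

private theorem cn_level {L : ℕ} {κ : Type} [DecidableEq κ] [Fintype κ]
    {y : Finset (Ix L) → ℝ} {D : ℝ} {σ : Ix L → Option κ} (h : Yd (px L) y D σ ≠ 0) :
    PP (px L) (supp σ) ≤ D := by
  by_contra hc
  apply h
  unfold Yd
  rw [if_neg hc]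

private theorem cn_PP_nonneg {L : ℕ} (S : Finset (Ix L)) : 0 ≤ PP (px L) S := by
  unfold PP
  exact Finset.prod_nonneg fun i _ => Nat.cast_nonneg _

private theorem cn_none {L : ℕ} {κ : Type} [DecidableEq κ] [Fintype κ]
    {y : Finset (Ix L) → ℝ} (hy : y ∅ = 1) {D : ℝ} (hD : 1 ≤ D) :
    Yd (px L) y D (fun _ : Ix L => (none : Option κ)) = 1 := by
  have h2 : supp (fun _ : Ix L => (none : Option κ)) = ∅ := by
    simp [supp]
  have h3 : ∀ j, cell (fun _ : Ix L => (none : Option κ)) j = ∅ := by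
    intro j
    simp [cell]
  unfold Yd Yt
  rw [h2, PP_empty, if_pos hD]
  refine Finset.prod_eq_one fun j _ => ?_
  rw [h3, hy]

theorem a2_nd {P L M H : ℕ} {R : Finset ℕ} {k : ℕ} {t : Fin k → ℕ} (hL : 2 ≤ L)
    (h : Adm2 P L M H R t) :
    ∀ i, ∀ j j', j ≠ j' → ¬ (px L i : ℤ) ∣ a2 R t j - a2 R t j' := by
  have hk : ∀ j : {j : ℕ // j ∈ R}, (j : ℕ) < L ^ 2 := fun j =>
    lt_of_lt_of_le (Finset.mem_range.1 (h.adm.hR j.2)) h.adm.hH
  have hm : ∀ i, t i < L ^ 2 := fun i => lt_of_lt_of_le (h.tH i) h.adm.hH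
  intro i j j' hne
  rcases j with j | j <;> rcases j' with j' | j'
  · refine px_not_dvd hL i (hk j) (hk j') fun e => hne ?_
    rw [Subtype.ext e]
  · refine px_not_dvd hL i (hk j) (hm j') fun e => h.tR j' ?_
    rw [← e]
    exact j.2
  · refine px_not_dvd hL i (hm j) (hk j') fun e => h.tR j ?_
    rw [e]
    exact j'.2
  · refine px_not_dvd hL i (hm j) (hm j') fun e => hne ?_
    rw [h.tinj e]

theorem card2 (k : ℕ) : ∃ L0 : ℕ, ∀ L : ℕ, L0 ≤ L → ∀ R : Finset ℕ, (R.card : ℝ) ≤ c0 * L →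
    (Fintype.card ({j : ℕ // j ∈ R} ⊕ Fin k) : ℝ) + 2 ≤ L := by
  refine ⟨2 * (k + 2), fun L hL R hR => ?_⟩
  have h1 : (2 : ℝ) * (k + 2) ≤ L := by exact_mod_cast hL
  have h2 : c0 * L ≤ 1 / 2 * L := mul_le_mul_of_nonneg_right cn_c0 (Nat.cast_nonneg L)
  rw [Fintype.card_sum, Fintype.card_coe, Fintype.card_fin]
  push_cast
  linarith

theorem px_pow {L : ℕ} (hL : 2 ≤ L) (K : ℕ) (S : Finset (Ix L))
    (hS : PP (px L) S ≤ 2 ^ (K * L)) : ∑ i ∈ S, 1 / ((px L i : ℝ) - 1) ≤ K / (L : ℝ) ^ 5 := by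
  have hLr : (2 : ℝ) ≤ L := by exact_mod_cast hL
  have h0 : S.card ≤ K * L := by
    have h1 : (2 : ℝ) ^ S.card ≤ PP (px L) S := by
      unfold PP
      rw [← Finset.prod_const]
      exact Finset.prod_le_prod (fun _ _ => by norm_num)
        (fun i _ => by exact_mod_cast (px_prime i).two_le)
    have h2 : (2 : ℝ) ^ S.card ≤ 2 ^ (K * L) := h1.trans hS
    exact (pow_le_pow_iff_right₀ (by norm_num : (1 : ℝ) < 2)).1 h2
  have hL6 : (0 : ℝ) < (L : ℝ) ^ 6 := by positivity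
  have h3 : ∀ i ∈ S, 1 / ((px L i : ℝ) - 1) ≤ 1 / (L : ℝ) ^ 6 := by
    intro i _
    have h4 : (L : ℝ) ^ 6 + 1 ≤ (px L i : ℝ) := by
      have : L ^ 6 + 1 ≤ px L i := px_gt i
      exact_mod_cast this
    exact one_div_le_one_div_of_le hL6 (by linarith)
  refine (Finset.sum_le_sum h3).trans ?_
  rw [Finset.sum_const, nsmul_eq_mul]
  have h5 : (S.card : ℝ) ≤ K * L := by exact_mod_cast h0
  calc (S.card : ℝ) * (1 / (L : ℝ) ^ 6) ≤ (K * L) * (1 / (L : ℝ) ^ 6) :=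
        mul_le_mul_of_nonneg_right h5 (by positivity)
    _ = K / (L : ℝ) ^ 5 := by
        have : (L : ℝ) ≠ 0 := by positivity
        field_simp

theorem y2_level {L : ℕ} {R : Finset ℕ} {k t0 G : ℕ}
    {σ : Ix L → Option ({j : ℕ // j ∈ R} ⊕ Fin k)}
    (h : Y2 (px L) (yx L) (yh (px L) t0 G) (2 ^ dd L) (2 ^ dd L) σ ≠ 0) :
    PP (px L) (supp σ) ≤ 2 ^ dd L * 2 ^ dd L := by
  unfold Y2 at h
  obtain ⟨h1, h2⟩ := mul_ne_zero_iff.1 h
  rw [PP_split]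
  exact mul_le_mul (cn_level h1) (cn_level h2) (cn_PP_nonneg _) (by positivity)

theorem y2_abs {L : ℕ} (hH : ∀ i, 1 ≤ H1 (px L) (2 ^ sx L) * Real.log (px L i)) {R : Finset ℕ}
    {k t0 G : ℕ} (σ : Ix L → Option ({j : ℕ // j ∈ R} ⊕ Fin k)) :
    |Y2 (px L) (yx L) (yh (px L) t0 G) (2 ^ dd L) (2 ^ dd L) σ| ≤ 1 := by
  unfold Y2
  rw [abs_mul]
  refine mul_le_one₀ (cn_Yt_abs _ (fun S => ?_) _ _) (abs_nonneg _)
    (cn_Yt_abs _ (fun S => cn_yh_abs t0 G S) _ _)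
  unfold yx
  exact wt_abs (fun i => (px_prime i).two_le) hH S

theorem z2_one (L : ℕ) (R : Finset ℕ) (k t0 G : ℕ) : 1 ≤ Z2 L R k t0 G := by
  classical
  unfold Z2
  have hPH : ∀ σ : Ix L → Option ({j : ℕ // j ∈ R} ⊕ Fin k), 0 ≤ PH (px L) (supp σ) := by
    intro σ
    have := one_le_PH (fun i => (px_prime (L := L) i).two_le) (supp σ)
    linarith
  have h1 := Finset.single_le_sum
    (f := fun σ : Ix L → Option ({j : ℕ // j ∈ R} ⊕ Fin k) =>
      Y2 (px L) (yx L) (yh (px L) t0 G) (2 ^ dd L) (2 ^ dd L) σ ^ 2 / PH (px L) (supp σ))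
    (s := Finset.univ) (fun σ _ => div_nonneg (sq_nonneg _) (hPH σ))
    (Finset.mem_univ (fun _ : Ix L => (none : Option ({j : ℕ // j ∈ R} ⊕ Fin k))))
  refine le_trans (le_of_eq ?_) h1
  have h2 : supp (fun _ : Ix L => (none : Option ({j : ℕ // j ∈ R} ⊕ Fin k))) = ∅ := by
    simp [supp]
  have hD : (1 : ℝ) ≤ 2 ^ dd L := one_le_pow₀ (by norm_num)
  have hy : yx L ∅ = 1 := by
    unfold yx
    exact wt_empty _ _
  have h4 : Y2 (px L) (yx L) (yh (px L) t0 G) (2 ^ dd L) (2 ^ dd L)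
      (fun _ : Ix L => (none : Option ({j : ℕ // j ∈ R} ⊕ Fin k))) = 1 := by
    unfold Y2
    have e1 : lp (fun _ : Ix L => (none : Option ({j : ℕ // j ∈ R} ⊕ Fin k))) =
        fun _ => none := rfl
    have e2 : rp (fun _ : Ix L => (none : Option ({j : ℕ // j ∈ R} ⊕ Fin k))) =
        fun _ => none := rfl
    rw [e1, e2, cn_none hy hD, cn_none (yh_empty _ _ _) hD, one_mul]
  show 1 = Y2 (px L) (yx L) (yh (px L) t0 G) (2 ^ dd L) (2 ^ dd L)
      (fun _ : Ix L => (none : Option ({j : ℕ // j ∈ R} ⊕ Fin k))) ^ 2 /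
    PH (px L) (supp (fun _ : Ix L => (none : Option ({j : ℕ // j ∈ R} ⊕ Fin k))))
  rw [h4, h2, PH_empty]
  norm_num

theorem z2_prod (k : ℕ) : ∃ L0 : ℕ, ∀ L : ℕ, L0 ≤ L → ∀ R : Finset ℕ, (R.card : ℝ) ≤ c0 * L →
    ∀ t0 G : ℕ, Zx L R * (∑ υ : Ix L → Option (Fin k),
      Yd (px L) (yh (px L) t0 G) (2 ^ dd L) υ ^ 2 / PH (px L) (supp υ)) ≤
      2 * Z2 L R k t0 G := by
  obtain ⟨L1, hL1⟩ := H1_ge
  refine ⟨max L1 (max 4 (2 * k)), fun L hL R hR t0 G => ?_⟩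
  have hLa : L1 ≤ L := (le_max_left _ _).trans hL
  have hLb : 4 ≤ L := (le_max_left _ _).trans ((le_max_right _ _).trans hL)
  have hLc : 2 * k ≤ L := (le_max_right _ _).trans ((le_max_right _ _).trans hL)
  obtain ⟨-, h1, hH⟩ := hL1 L hLa
  have hH0 : 0 < H1 (px L) ((2 : ℝ) ^ sx L) := lt_of_lt_of_le (by positivity) h1
  have hp : ∀ i, 2 ≤ px L i := fun i => (px_prime i).two_le
  have hyx : ∀ S T : Finset (Ix L), T ⊆ S → |yx L S| ≤ |yx L T| := by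
    intro S T h
    unfold yx
    exact wt_mono hp hH0 hH S T h
  have hyh : ∀ S T : Finset (Ix L), T ⊆ S → |yh (px L) t0 G S| ≤ |yh (px L) t0 G T| := by
    intro S T h
    rw [abs_of_nonneg (yh_nonneg _ _ _ _), abs_of_nonneg (yh_nonneg _ _ _ _)]
    exact yh_mono hp t0 G S T h
  have hLr : (4 : ℝ) ≤ L := by exact_mod_cast hLb
  have hkr : (2 : ℝ) * k ≤ L := by exact_mod_cast hLc
  have hs : ∑ i, (Fintype.card {j : ℕ // j ∈ R} : ℝ) * Fintype.card (Fin k) /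
      ((px L i : ℝ) - 1) ^ 2 ≤ 1 / 2 := by
    rw [Fintype.card_coe, Fintype.card_fin]
    have e1 : ∑ i, (R.card : ℝ) * (k : ℝ) / ((px L i : ℝ) - 1) ^ 2 =
        (R.card : ℝ) * (k : ℝ) * ∑ i : Ix L, 1 / ((px L i : ℝ) - 1) ^ 2 := by
      rw [Finset.mul_sum]
      exact Finset.sum_congr rfl fun i _ => by rw [mul_one_div]
    rw [e1]
    have e2 : (R.card : ℝ) ≤ L := by
      have := mul_le_mul_of_nonneg_right cn_c0 (Nat.cast_nonneg L : (0 : ℝ) ≤ L)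
      linarith
    have e3 : (R.card : ℝ) * k ≤ L * (L / 2) :=
      mul_le_mul e2 (by linarith) (Nat.cast_nonneg k) (by linarith)
    calc (R.card : ℝ) * (k : ℝ) * ∑ i : Ix L, 1 / ((px L i : ℝ) - 1) ^ 2
        ≤ (L * (L / 2)) * (1 / (L : ℝ) ^ 5) :=
          mul_le_mul e3 (px_sum_sq hLb)
            (Finset.sum_nonneg fun i _ => by positivity) (by positivity)
      _ ≤ 1 / 2 := by
          have h5 : (0 : ℝ) < (L : ℝ) ^ 5 := by positivity
          rw [mul_one_div, div_le_div_iff₀ h5 (by norm_num)]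
          have h6 : (1 : ℝ) ≤ (L : ℝ) ^ 3 := one_le_pow₀ (by linarith)
          have h7 : (0 : ℝ) ≤ (L : ℝ) ^ 2 := by positivity
          have h8 : (L : ℝ) ^ 5 = (L : ℝ) ^ 2 * (L : ℝ) ^ 3 := by ring
          rw [h8]
          nlinarith [mul_le_mul_of_nonneg_left h6 h7]
  have key := coll_ge (α := {j : ℕ // j ∈ R}) (β := Fin k) hp
    (Yd (px L) (yx L) (2 ^ dd L)) (Yd (px L) (yh (px L) t0 G) (2 ^ dd L))
    (fun S τ => Yd_mono hp _ _ hyx S τ) (fun S υ => Yd_mono hp _ _ hyh S υ) hs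
  exact key

end Pool.Agent.IPT
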