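/-
IPT/AttrC.lean: AttrSum.attr_sum for the concrete data.
-/
import Pool.Agent.IPT.Conc
import Pool.Agent.IPT.AttrSum

namespace Pool.Agent.IPT
open Finset Pool.Agent.RS Pool.Agent.AT

theorem attr_c (k : ℕ) : ∃ L0 : ℕ, ∀ L : ℕ, L0 ≤ L → ∀ (R : Finset ℕ) (t0 G : ℕ),
    t0 * 2 ^ G < dd L →
    4 * (k : ℝ) * SE (px L) (yh (px L) t0 G) ≤ SX (px L) (yh (px L) t0 G) *
      (((dd L : ℝ) - ((t0 * 2 ^ G : ℕ) : ℝ)) * Real.log 2) → ∀ i : Fin k,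
    SA (px L) (yh (px L) t0 G) ^ 2 / (8 * SX (px L) (yh (px L) t0 G)) * Z2 L R k t0 G ≤
      Q2 L R t0 G i := by
  refine ⟨2 * (k + 1), fun L hL R t0 G hG hE i => ?_⟩
  have hL2 : 2 ≤ L := by omega
  have hLk : (2 : ℝ) * ((k : ℝ) + 1) ≤ (L : ℝ) := by exact_mod_cast hL
  have hL1 : (1 : ℝ) ≤ (L : ℝ) := by
    have h : (0 : ℝ) ≤ (k : ℝ) := Nat.cast_nonneg k
    linarith
  have hdd : dd L ≤ L := Nat.div_le_self _ _
  have hp : ∀ i : Ix L, 2 ≤ px L i := fun i => (px_prime i).two_le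
  have hlog : Real.log ((2 : ℝ) ^ dd L / 2 ^ (t0 * 2 ^ G)) =
      ((dd L : ℝ) - ((t0 * 2 ^ G : ℕ) : ℝ)) * Real.log 2 := by
    rw [Real.log_div (by positivity) (by positivity), Real.log_pow, Real.log_pow]
    ring
  have hN2 : ∀ S : Finset (Ix L), PP (px L) S ≤
      (2 : ℝ) ^ dd L * (2 ^ (t0 * 2 ^ G)) ^ Fintype.card (Fin k) →
      ∑ i ∈ S, 1 / ((px L i : ℝ) - 1) ≤ 1 / 2 := by
    intro S hS
    rw [Fintype.card_fin, ← pow_mul, ← pow_add] at hS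
    have h1 : dd L + t0 * 2 ^ G * k ≤ (k + 1) * L := by
      have h2 : t0 * 2 ^ G * k ≤ L * k := Nat.mul_le_mul_right k (by omega)
      calc dd L + t0 * 2 ^ G * k ≤ L + L * k := by omega
        _ = (k + 1) * L := by ring
    have h3 : PP (px L) S ≤ (2 : ℝ) ^ ((k + 1) * L) :=
      hS.trans (pow_le_pow_right₀ (by norm_num) h1)
    refine (px_pow hL2 (k + 1) S h3).trans ?_
    have h4 : (L : ℝ) ≤ (L : ℝ) ^ 5 := le_self_pow₀ hL1 (by norm_num)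
    rw [div_le_div_iff₀ (by positivity) (by norm_num)]
    push_cast
    linarith
  have h := attr_sum hp (yx L) (yh (px L) t0 G) (yh_empty _ t0 G) (yh_nonneg _ t0 G)
    (yh_mono hp t0 G) (DR := 2 ^ dd L) (DH := 2 ^ dd L) (T1 := 2 ^ (t0 * 2 ^ G))
    (α := {j : ℕ // j ∈ R}) (β := Fin k)
    (one_le_pow₀ (by norm_num)) (pow_lt_pow_right₀ (by norm_num) hG)
    (fun S hS => yh_supp hS) hN2 (by rw [hlog, Fintype.card_fin]; exact hE) i
  exact h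

end Pool.Agent.IPT
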