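/-
IPT/Collapse.lean: general collapse at a site m which no p i divides.
-/
import Pool.Agent.RS.Decomp
import Pool.Agent.RS.Rough

namespace Pool.Agent.IPT
open Finset Pool.Agent.RS

variable {ι κ : Type} [Fintype ι] [DecidableEq ι] [DecidableEq κ] [Fintype κ]

open Classical in
theorem collapse {p : ι → ℕ} (hp : ∀ i, 2 ≤ p i) (a : κ → ℤ) (Y : (ι → Option κ) → ℝ) (m : κ)
    (n : ℤ) (hn : ∀ i, ¬ (p i : ℤ) ∣ n - a m) :
    ∑ σ, Y σ * EE p a σ n = ∑ σ : ι → Option κ,
      (if cell σ m = ∅ then ∑ S ∈ (univ \ supp σ).powerset, Y (put σ S m) / PH p S else 0) *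
        EE p a σ n := by
  have hee : ∀ S : Finset ι, ∏ i ∈ S, ee (p i) (n - a m) = 1 / PH p S := by
    intro S
    have h1 : ∀ i ∈ S, ee (p i) (n - a m) = 1 / ((p i : ℝ) - 1) := by
      intro i _
      unfold ee
      rw [if_neg (hn i)]
    rw [Finset.prod_congr rfl h1, PH, Finset.prod_div_distrib]
    simp
  have hput : ∀ σ : ι → Option κ, put (era σ m) (cell σ m) m = σ := by
    intro σ
    funext i
    simp only [put, mem_cell, era]
    split_ifs with h
    · exact h.symm
    · rfl
  have hL : ∑ σ, Y σ * EE p a σ n =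
      ∑ σ : ι → Option κ, (fun (s : ι → Option κ) (S : Finset ι) =>
        Y (put s S m) / PH p S * EE p a s n) (era σ m) (cell σ m) := by
    refine Finset.sum_congr rfl fun σ _ => ?_
    simp only
    rw [hput, EE_split p a σ m n, hee]
    ring
  rw [hL]
  refine (decomp m (fun (s : ι → Option κ) (S : Finset ι) =>
    Y (put s S m) / PH p S * EE p a s n)).trans ?_
  rw [Finset.sum_filter]
  refine Finset.sum_congr rfl fun σ _ => ?_
  by_cases hc : cell σ m = ∅
  · rw [if_pos hc, if_pos hc, Finset.sum_mul]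
  · rw [if_neg hc, if_neg hc, zero_mul]

end Pool.Agent.IPT
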