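/- IPT/Ident.lean: the collapse of Y2 at a repelled site (ZA) and at an attracting site (ZB). -/
import Pool.Agent.IPT.Split
import Pool.Agent.IPT.Collapse

namespace Pool.Agent.IPT
open Finset Pool.Agent.RS

variable {ι α β : Type} [Fintype ι] [DecidableEq ι] [DecidableEq α] [DecidableEq β] [Fintype α]
  [Fintype β]

private theorem idn_put {κ : Type} [DecidableEq κ] [Fintype κ] (p : ι → ℕ) (y : Finset ι → ℝ)
    (hy0 : y ∅ = 1) (D : ℝ) {τ : ι → Option κ} {j : κ} (h0 : cell τ j = ∅) {S : Finset ι}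
    (hS : S ∈ (univ \ supp τ).powerset) :
    Yd p y D (put τ S j) =
      open Classical in if PP p S * PP p (supp τ) ≤ D then y S * Yt y τ else 0 := by
  unfold Yd
  rw [PP_supp_split p (put τ S j) j, Yt_split y hy0 (put τ S j) j, cell_put_self h0, era_put h0 hS]

private theorem idn_sum {κ : Type} [DecidableEq κ] [Fintype κ] (p : ι → ℕ) (y : Finset ι → ℝ)
    (hy0 : y ∅ = 1) (D : ℝ) {τ : ι → Option κ} {j : κ} (h0 : cell τ j = ∅) {U : Finset ι}
    (hU : supp τ ⊆ U) (C : ℝ) :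
    ∑ S ∈ (univ \ U).powerset, Yd p y D (put τ S j) * C / PH p S =
      Yt y τ * cg p y D (PP p (supp τ)) U * C := by
  unfold cg
  rw [mul_sum, sum_mul]
  refine sum_congr rfl fun S hS => ?_
  have hS' : S ∈ (univ \ supp τ).powerset := by
    rw [mem_powerset] at hS ⊢
    exact hS.trans (sdiff_subset_sdiff (Finset.Subset.refl _) hU)
  rw [idn_put p y hy0 D h0 hS']
  split_ifs
  · ring
  · ring

theorem id_A {p : ι → ℕ} (hp : ∀ i, 2 ≤ p i) (a : α ⊕ β → ℤ) (yR yH : Finset ι → ℝ)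
    (hR0 : yR ∅ = 1) (DR DH : ℝ) (j : α) (n : ℤ) (hn : ∀ i, ¬ (p i : ℤ) ∣ n - a (Sum.inl j)) :
    ∑ σ, Y2 p yR yH DR DH σ * EE p a σ n = ∑ σ, ZA p yR yH DR DH j σ * EE p a σ n := by
  rw [collapse hp a (Y2 p yR yH DR DH) (Sum.inl j) n hn]
  refine sum_congr rfl fun σ _ => ?_
  unfold ZA
  by_cases h : cell σ (Sum.inl j) = ∅
  · rw [if_pos h, if_pos h]
    have h0 : cell (lp σ) j = ∅ := by rw [← cell_inl, h]
    have hU : supp (lp σ) ⊆ supp σ := by
      rw [supp_split σ]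
      exact subset_union_left
    rw [← idn_sum p yR hR0 DR h0 hU (Yd p yH DH (rp σ))]
    refine congrArg (fun z => z * EE p a σ n) (sum_congr rfl fun S hS => ?_)
    unfold Y2
    rw [lp_put_inl, rp_put_inl σ j hS]
  · rw [if_neg h, if_neg h]

theorem id_B {p : ι → ℕ} (hp : ∀ i, 2 ≤ p i) (a : α ⊕ β → ℤ) (yR yH : Finset ι → ℝ)
    (hH0 : yH ∅ = 1) (DR DH : ℝ) (m : β) (n : ℤ) (hn : ∀ i, ¬ (p i : ℤ) ∣ n - a (Sum.inr m)) :
    ∑ σ, Y2 p yR yH DR DH σ * EE p a σ n = ∑ σ, ZB p yR yH DR DH m σ * EE p a σ n := by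
  rw [collapse hp a (Y2 p yR yH DR DH) (Sum.inr m) n hn]
  refine sum_congr rfl fun σ _ => ?_
  unfold ZB
  by_cases h : cell σ (Sum.inr m) = ∅
  · rw [if_pos h, if_pos h]
    have h0 : cell (rp σ) m = ∅ := by rw [← cell_inr, h]
    have hU : supp (rp σ) ⊆ supp σ := by
      rw [supp_split σ]
      exact subset_union_right
    rw [mul_comm (Yd p yR DR (lp σ)), ← idn_sum p yH hH0 DH h0 hU (Yd p yR DR (lp σ))]
    refine congrArg (fun z => z * EE p a σ n) (sum_congr rfl fun S hS => ?_)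
    unfold Y2
    rw [rp_put_inr, lp_put_inr σ m hS, mul_comm]
  · rw [if_neg h, if_neg h]

end Pool.Agent.IPT
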