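/-
IPT/Reidx.lean.  Assignments which do not use the site m.
-/
import Pool.Agent.AT.CdL

namespace Pool.Agent.IPT
open Finset Pool.Agent.RS Pool.Agent.AT

variable {ι κ : Type} [Fintype ι] [DecidableEq ι] [DecidableEq κ]

def up (m : κ) (σ : ι → Option {x : κ // x ≠ m}) : ι → Option κ :=
  fun i => (σ i).map Subtype.val

private def dn (m : κ) (σ : ι → Option κ) : ι → Option {x : κ // x ≠ m} :=
  fun i => (σ i).bind (fun x => if h : x ≠ m then some ⟨x, h⟩ else none)

omit [Fintype ι] [DecidableEq ι] in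
private theorem dn_up (m : κ) (σ : ι → Option {x : κ // x ≠ m}) : dn m (up m σ) = σ := by
  funext i
  unfold dn up
  rcases h : σ i with _ | x
  · rfl
  · simp only [Option.map_some, Option.bind_some]
    rw [dif_pos x.2]

omit [DecidableEq ι] in
private theorem up_dn (m : κ) (σ : ι → Option κ) (h : cell σ m = ∅) : up m (dn m σ) = σ := by
  funext i
  have hi : ¬ σ i = some m := by
    intro hi
    have := mem_cell.2 hi
    rw [h] at this
    exact absurd this (notMem_empty i)
  unfold up dn
  rcases hσ : σ i with _ | x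
  · rfl
  · have hx : x ≠ m := by
      intro hx
      rw [hx] at hσ
      exact hi hσ
    simp only [Option.bind_some]
    rw [dif_pos hx]
    rfl

theorem supp_up (m : κ) (σ : ι → Option {x : κ // x ≠ m}) : supp (up m σ) = supp σ := by
  ext i
  rw [mem_supp, mem_supp]
  unfold up
  cases σ i <;> simp

theorem cell_up_self (m : κ) (σ : ι → Option {x : κ // x ≠ m}) : cell (up m σ) m = ∅ := by
  ext i
  rw [mem_cell]
  unfold up
  rcases σ i with _ | x
  · simp
  · simp only [Option.map_some, Option.some.injEq, notMem_empty, iff_false]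
    exact x.2

theorem up_eraS (m : κ) (S : Finset ι) (σ : ι → Option {x : κ // x ≠ m}) :
    up m (eraS S σ) = eraS S (up m σ) := by
  funext i
  unfold up eraS
  split_ifs <;> rfl

theorem EE_up (p : ι → ℕ) (a : κ → ℤ) (m : κ) (σ : ι → Option {x : κ // x ≠ m}) (n : ℤ) :
    EE p a (up m σ) n = EE p (fun x : {x : κ // x ≠ m} => a x.1) σ n := by
  unfold EE
  refine prod_congr rfl fun i _ => ?_
  unfold up
  cases σ i <;> rfl

theorem reidx [Fintype κ] (m : κ) (f : (ι → Option κ) → ℝ)
    (hf : ∀ σ, cell σ m ≠ ∅ → f σ = 0) :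
    ∑ σ, f σ = ∑ σ : ι → Option {x : κ // x ≠ m}, f (up m σ) := by
  classical
  rw [← Finset.sum_filter_add_sum_filter_not univ (fun σ : ι → Option κ => cell σ m = ∅)]
  have h0 : ∑ σ ∈ univ.filter (fun σ : ι → Option κ => ¬ cell σ m = ∅), f σ = 0 := by
    refine Finset.sum_eq_zero fun σ hσ => ?_
    exact hf σ (mem_filter.1 hσ).2
  rw [h0, add_zero]
  refine Finset.sum_nbij' (dn m) (up m) ?_ ?_ ?_ ?_ ?_
  · intro σ _
    exact mem_univ _
  · intro σ _
    exact mem_filter.2 ⟨mem_univ _, cell_up_self m σ⟩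
  · intro σ hσ
    exact up_dn m σ (mem_filter.1 hσ).2
  · intro σ _
    exact dn_up m σ
  · intro σ hσ
    rw [up_dn m σ (mem_filter.1 hσ).2]

end Pool.Agent.IPT
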