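/-
IPT/PrimeB.lean.  The weights at the primes q = r mod M, n = q + a (inr m).
-/
import Pool.Agent.IPT.Ident
import Pool.Agent.IPT.CgB
import Pool.Agent.IPT.Reidx
import Pool.Agent.AT.Pr

namespace Pool.Agent.IPT
open Finset Pool.Agent.RS Pool.Agent.AT

variable {ι α β : Type} [Fintype ι] [DecidableEq ι] [DecidableEq α] [DecidableEq β] [Fintype α]
  [Fintype β]

/-- the collapsed coefficient without the condition on the cell -/
private noncomputable def FF (p : ι → ℕ) (yR yH : Finset ι → ℝ) (DR DH : ℝ)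
    (σ : ι → Option (α ⊕ β)) : ℝ :=
  Yd p yR DR (lp σ) * (Yt yH (rp σ) * cg p yH DH (PP p (supp (rp σ))) (supp σ))

private theorem ZB_up (p : ι → ℕ) (yR yH : Finset ι → ℝ) (DR DH : ℝ) (m : β)
    (σ : ι → Option {x : α ⊕ β // x ≠ Sum.inr m}) :
    ZB p yR yH DR DH m (up (Sum.inr m) σ) = FF p yR yH DR DH (up (Sum.inr m) σ) := by
  unfold ZB FF
  rw [if_pos (cell_up_self _ _)]

section
variable {κ : Type} [DecidableEq κ] [Fintype κ]

omit [DecidableEq ι] in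
private theorem Yt_nn {y : Finset ι → ℝ} (hn : ∀ S, 0 ≤ y S) (σ : ι → Option κ) :
    0 ≤ Yt y σ := prod_nonneg fun _ _ => hn _

omit [DecidableEq ι] in
private theorem Yt_le {y : Finset ι → ℝ} (h0 : y ∅ = 1) (hn : ∀ S, 0 ≤ y S)
    (hm : ∀ S T : Finset ι, T ⊆ S → y S ≤ y T) (σ : ι → Option κ) : Yt y σ ≤ 1 :=
  prod_le_one (fun _ _ => hn _) fun _ _ => (hm _ ∅ (empty_subset _)).trans h0.le

omit [DecidableEq ι] in
private theorem Yd_le (p : ι → ℕ) {y : Finset ι → ℝ} (D : ℝ) (h1 : ∀ S, |y S| ≤ 1)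
    (σ : ι → Option κ) : |Yd p y D σ| ≤ 1 := by
  unfold Yd
  split_ifs
  · unfold Yt
    rw [abs_prod]
    exact prod_le_one (fun _ _ => abs_nonneg _) fun _ _ => h1 _
  · rw [abs_zero]
    exact zero_le_one

private theorem Yt_era {y : Finset ι → ℝ} (hn : ∀ S, 0 ≤ y S)
    (hm : ∀ S T : Finset ι, T ⊆ S → y S ≤ y T) (S : Finset ι) (σ : ι → Option κ) :
    Yt y σ ≤ Yt y (eraS S σ) := by
  unfold Yt
  refine prod_le_prod (fun _ _ => hn _) fun j _ => hm _ _ ?_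
  intro i hi
  rw [mem_cell] at hi ⊢
  unfold eraS at hi
  split_ifs at hi with h3
  exact hi

omit [Fintype κ] [DecidableEq κ] in
private theorem supp_era (S : Finset ι) (σ : ι → Option κ) : supp (eraS S σ) ⊆ supp σ := by
  intro i hi
  rw [mem_supp] at hi ⊢
  intro h2
  apply hi
  unfold eraS
  rw [h2]
  split_ifs <;> rfl

omit [DecidableEq ι] in
private theorem Yt_none {y : Finset ι → ℝ} (h0 : y ∅ = 1) :
    Yt y (fun _ => (none : Option κ)) = 1 := by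
  unfold Yt
  refine prod_eq_one fun j _ => ?_
  have : cell (fun _ : ι => (none : Option κ)) j = ∅ := by
    apply eq_empty_of_forall_notMem
    intro i hi
    rw [mem_cell] at hi
    exact (Option.some_ne_none j hi.symm)
  rw [this, h0]

omit [Fintype κ] [DecidableEq κ] [DecidableEq ι] in
private theorem supp_none : supp (fun _ : ι => (none : Option κ)) = ∅ := by
  apply eq_empty_of_forall_notMem
  intro i hi
  rw [mem_supp] at hi
  exact hi rfl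

end

private theorem PP_mono {p : ι → ℕ} (hp : ∀ i, 2 ≤ p i) {S T : Finset ι} (h : S ⊆ T) :
    PP p S ≤ PP p T := by
  have h1 : PP p T = PP p (T \ S) * PP p S := by
    unfold PP
    rw [prod_sdiff h]
  have h2 := one_le_PP hp (T \ S)
  have h3 := one_le_PP hp S
  rw [h1]
  exact le_mul_of_one_le_left (by linarith) h2

private theorem one_le_SA {p : ι → ℕ} (hp : ∀ i, 2 ≤ p i) {y : Finset ι → ℝ} (h0 : y ∅ = 1)
    (hn : ∀ S, 0 ≤ y S) : 1 ≤ SA p y := by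
  unfold SA
  have h1 : y ∅ / PH p ∅ = 1 := by rw [h0, PH_empty, div_one]
  rw [← h1]
  refine single_le_sum (f := fun S : Finset ι => y S / PH p S) (fun S _ => ?_) (mem_univ _)
  have := one_le_PH hp S
  exact div_nonneg (hn S) (by linarith)

private theorem FF_abs {p : ι → ℕ} (hp : ∀ i, 2 ≤ p i) {yR yH : Finset ι → ℝ} (DR DH : ℝ)
    (hR1 : ∀ S, |yR S| ≤ 1) (hH0 : yH ∅ = 1) (hHn : ∀ S, 0 ≤ yH S)
    (hHm : ∀ S T : Finset ι, T ⊆ S → yH S ≤ yH T) (σ : ι → Option (α ⊕ β)) :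
    |FF p yR yH DR DH σ| ≤ SA p yH := by
  unfold FF
  have h1 := one_le_SA hp hH0 hHn
  have h2 := cg_nonneg hp hHn DH (PP p (supp (rp σ))) (supp σ)
  have h3 := cg_le hp hHn DH (PP p (supp (rp σ))) (supp σ)
  have h4 := Yt_nn hHn (rp σ)
  have h5 := Yt_le hH0 hHn hHm (rp σ)
  rw [abs_mul, abs_of_nonneg (mul_nonneg h4 h2)]
  calc |Yd p yR DR (lp σ)| * (Yt yH (rp σ) * cg p yH DH (PP p (supp (rp σ))) (supp σ))
      ≤ 1 * (1 * SA p yH) :=
        mul_le_mul (Yd_le p DR hR1 _) (mul_le_mul h5 h3 h2 zero_le_one) (mul_nonneg h4 h2)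
          zero_le_one
    _ = _ := by ring

private theorem FF_supp {p : ι → ℕ} (hp : ∀ i, 2 ≤ p i) {yR yH : Finset ι → ℝ} {DR DH : ℝ}
    {σ : ι → Option (α ⊕ β)} (h : FF p yR yH DR DH σ ≠ 0) : PP p (supp σ) ≤ DR * DH := by
  unfold FF at h
  rw [mul_ne_zero_iff, mul_ne_zero_iff] at h
  obtain ⟨h1, -, h3⟩ := h
  have h4 : PP p (supp (lp σ)) ≤ DR := by
    by_contra h5
    apply h1
    unfold Yd
    rw [if_neg h5]
  have h6 := one_le_PP hp (supp (lp σ))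
  have h7 := one_le_PP hp (supp (rp σ))
  have h5 : PP p (supp (rp σ)) ≤ DH := by
    by_contra h8
    apply h3
    exact cg_zero hp yH (by linarith) (not_le.1 h8) _
  rw [PP_split]
  exact mul_le_mul h4 h5 (by linarith) (by linarith)

private theorem FF_mono {p : ι → ℕ} (hp : ∀ i, 2 ≤ p i) {yR yH : Finset ι → ℝ} (DR DH : ℝ)
    (hRm : ∀ S T : Finset ι, T ⊆ S → |yR S| ≤ |yR T|) (hHn : ∀ S, 0 ≤ yH S)
    (hHm : ∀ S T : Finset ι, T ⊆ S → yH S ≤ yH T) (S : Finset ι) (σ : ι → Option (α ⊕ β)) :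
    |FF p yR yH DR DH σ| ≤ |FF p yR yH DR DH (eraS S σ)| := by
  unfold FF
  rw [lp_eraS, rp_eraS, abs_mul (Yd p yR DR (lp σ)), abs_mul (Yd p yR DR (eraS S (lp σ)))]
  have h2 := cg_nonneg hp hHn DH (PP p (supp (rp σ))) (supp σ)
  have h2' := cg_nonneg hp hHn DH (PP p (supp (eraS S (rp σ)))) (supp (eraS S σ))
  have h3 : cg p yH DH (PP p (supp (rp σ))) (supp σ) ≤
      cg p yH DH (PP p (supp (eraS S (rp σ)))) (supp (eraS S σ)) :=
    cg_mono hp hHn DH (PP_mono hp (supp_era _ _)) (supp_era _ _)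
  have h4 := Yt_nn hHn (rp σ)
  have h4' := Yt_nn hHn (eraS S (rp σ))
  rw [abs_of_nonneg (mul_nonneg h4 h2), abs_of_nonneg (mul_nonneg h4' h2')]
  exact mul_le_mul (Yd_mono hp yR DR hRm S (lp σ))
    (mul_le_mul (Yt_era hHn hHm S (rp σ)) h3 h2 h4') (mul_nonneg h4 h2) (abs_nonneg _)

private theorem FF_none {p : ι → ℕ} {yR yH : Finset ι → ℝ} {DR DH : ℝ} (hDR : 1 ≤ DR)
    (hR0 : yR ∅ = 1) (hH0 : yH ∅ = 1) (hHs : ∀ S, yH S ≠ 0 → PP p S ≤ DH) :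
    FF p yR yH DR DH (fun _ => (none : Option (α ⊕ β))) = SA p yH := by
  unfold FF
  have h1 : lp (fun _ : ι => (none : Option (α ⊕ β))) = fun _ => none := rfl
  have h2 : rp (fun _ : ι => (none : Option (α ⊕ β))) = fun _ => none := rfl
  rw [h1, h2, supp_none, supp_none, Yt_none hH0, PP_empty, cg_one hHs]
  unfold Yd
  rw [supp_none, PP_empty, if_pos hDR, Yt_none hR0, one_mul, one_mul]

theorem prime_B {p : ι → ℕ} (hp : ∀ i, (p i).Prime) (h3 : ∀ i, 3 ≤ p i)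
    (hinj : Function.Injective p) {P M r : ℕ} (hP : 2 ≤ P) (hpP : ∀ i, p i ≤ P)
    (a : α ⊕ β → ℤ) (m : β)
    (hd : ∀ i j j', j ≠ j' → ¬ (p i : ℤ) ∣ a j - a j')
    (hk : ∑ i, (Fintype.card (α ⊕ β) : ℝ) / ((p i : ℝ) - 1) ^ 2 ≤ 1 / 100)
    (hkp : ∀ i, 10 * (Fintype.card (α ⊕ β) : ℝ) / ((p i : ℝ) - 1) ≤ (p i : ℝ) ^ (-(3 / 4) : ℝ))
    {DR DH : ℝ} (hDR : 1 ≤ DR) (hDH : 1 ≤ DH)
    (hN : ∀ S : Finset ι, PP p S ≤ DR * DH →
      ∑ i ∈ S, (Fintype.card (α ⊕ β) : ℝ) / ((p i : ℝ) - 1) ≤ 1 / 100)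
    (yR yH : Finset ι → ℝ) (hR0 : yR ∅ = 1) (hR1 : ∀ S, |yR S| ≤ 1)
    (hRm : ∀ S T : Finset ι, T ⊆ S → |yR S| ≤ |yR T|) (hH0 : yH ∅ = 1) (hHn : ∀ S, 0 ≤ yH S)
    (hHm : ∀ S T : Finset ι, T ⊆ S → yH S ≤ yH T) (hHs : ∀ S, yH S ≠ 0 → PP p S ≤ DH) {B : ℝ}
    (hB : ∑ χ ∈ (univ : Finset (Fam p)).filter
        (fun χ => fsupp χ ≠ ∅ ∧ (fcd χ : ℝ) ≤ (DR * DH) ^ 2),
      (fcd χ : ℝ) ^ (-(3 / 4) : ℝ) *
        ‖∑ m ∈ (Ioc P (4 * P)).filter (fun m => m ≡ r [MOD M]),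
          ((ArithmeticFunction.vonMangoldt m : ℝ) : ℂ) * fch χ m‖ ≤ B) :
    (∑ σ : ι → Option (α ⊕ β), ZB p yR yH DR DH m σ ^ 2 / PH p (supp σ)) *
        (4 / 5 * psi M r P - 6 / 5 * B - 100 * (DR * DH) ^ 4 * √P * Real.log (4 * P) ^ 2) ≤
      ∑ q ∈ (Ioc P (4 * P)).filter (fun q => q ≡ r [MOD M] ∧ q.Prime),
        Real.log q * (∑ σ : ι → Option (α ⊕ β),
          Y2 p yR yH DR DH σ * EE p a σ ((q : ℤ) + a (Sum.inr m))) ^ 2 := by
  have hp2 : ∀ i, 2 ≤ p i := fun i => (hp i).two_le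
  have hpi : ∀ i, (0 : ℝ) < (p i : ℝ) - 1 := by
    intro i
    have : (3 : ℝ) ≤ p i := by exact_mod_cast h3 i
    linarith
  obtain ⟨S0, hS0⟩ : ∃ S0 : ℝ, S0 = SA p yH := ⟨_, rfl⟩
  have hS1 : 1 ≤ S0 := by
    rw [hS0]
    exact one_le_SA hp2 hH0 hHn
  have hSpos : 0 < S0 := by linarith
  have hcard : (Fintype.card {x : α ⊕ β // x ≠ Sum.inr m} : ℝ) ≤
      (Fintype.card (α ⊕ β) : ℝ) := by
    exact_mod_cast Fintype.card_subtype_le _
  obtain ⟨Y', hY'⟩ : ∃ Y' : (ι → Option {x : α ⊕ β // x ≠ Sum.inr m}) → ℝ,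
      ∀ σ, Y' σ = FF p yR yH DR DH (up (Sum.inr m) σ) / S0 := ⟨_, fun _ => rfl⟩
  have hY1 : ∀ σ, |Y' σ| ≤ 1 := by
    intro σ
    rw [hY', abs_div, abs_of_pos hSpos, div_le_one hSpos, hS0]
    exact FF_abs hp2 DR DH hR1 hH0 hHn hHm _
  have hYs : ∀ σ, Y' σ ≠ 0 → PP p (supp σ) ≤ DR * DH := by
    intro σ hσ
    rw [← supp_up (Sum.inr m) σ]
    apply FF_supp hp2 (yR := yR) (yH := yH)
    intro h0
    apply hσ
    rw [hY', h0, zero_div]
  have hN' : ∀ σ, Y' σ ≠ 0 → ∑ i ∈ supp σ,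
      (Fintype.card {x : α ⊕ β // x ≠ Sum.inr m} : ℝ) / ((p i : ℝ) - 1) ≤ 1 / 100 := by
    intro σ hσ
    refine le_trans (sum_le_sum fun i _ => ?_) (hN _ (hYs σ hσ))
    exact div_le_div_of_nonneg_right hcard (hpi i).le
  have hmono' : ∀ S σ, |Y' σ| ≤ |Y' (eraS S σ)| := by
    intro S σ
    rw [hY', hY', abs_div, abs_div, up_eraS]
    exact div_le_div_of_nonneg_right (FF_mono hp2 DR DH hRm hHn hHm S _) (abs_nonneg _)
  obtain ⟨Z', hZ'⟩ : ∃ Z' : ℝ, Z' = ∑ σ : ι → Option {x : α ⊕ β // x ≠ Sum.inr m},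
      Y' σ ^ 2 / PH p (supp σ) := ⟨_, rfl⟩
  have hZ1 : 1 ≤ Z' := by
    rw [hZ']
    have h1 : Y' (fun _ => none) ^ 2 / PH p (supp (fun _ : ι =>
        (none : Option {x : α ⊕ β // x ≠ Sum.inr m}))) = 1 := by
      have h2 : up (Sum.inr m) (fun _ : ι => (none : Option {x : α ⊕ β // x ≠ Sum.inr m})) =
          fun _ => none := rfl
      rw [hY', h2, FF_none hDR hR0 hH0 hHs, ← hS0, div_self hSpos.ne', supp_none, PH_empty]
      norm_num
    rw [← h1]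
    refine single_le_sum (f := fun σ : ι → Option {x : α ⊕ β // x ≠ Sum.inr m} =>
      Y' σ ^ 2 / PH p (supp σ)) (fun σ _ => ?_) (mem_univ _)
    have := one_le_PH hp2 (supp σ)
    exact div_nonneg (sq_nonneg _) (by linarith)
  have main := prime_sum hp h3 hinj hP hpP (r := r) (M := M)
    (fun x : {x : α ⊕ β // x ≠ Sum.inr m} => a x.1) (a (Sum.inr m))
    (fun i j => hd i _ _ j.2) (fun i j j' hjj => hd i _ _ fun h => hjj (Subtype.ext h))
    (le_trans (sum_le_sum fun i _ => div_le_div_of_nonneg_right hcard (sq_nonneg _)) hk)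
    (fun i => le_trans (div_le_div_of_nonneg_right (mul_le_mul_of_nonneg_left hcard
      (by norm_num)) (hpi i).le) (hkp i))
    (one_le_mul_of_one_le_of_one_le hDR hDH) hY1 hYs hN' hmono' hZ' hZ1 hB
  have hZZ : ∑ σ : ι → Option (α ⊕ β), ZB p yR yH DR DH m σ ^ 2 / PH p (supp σ) =
      S0 ^ 2 * Z' := by
    rw [reidx (Sum.inr m) (fun σ : ι → Option (α ⊕ β) =>
      ZB p yR yH DR DH m σ ^ 2 / PH p (supp σ)) (by
        intro σ hσ
        unfold ZB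
        rw [if_neg hσ]
        norm_num), hZ', mul_sum]
    refine sum_congr rfl fun σ _ => ?_
    rw [ZB_up, supp_up, hY', div_pow]
    field_simp
  have hG : ∀ q ∈ (Ioc P (4 * P)).filter (fun q => q ≡ r [MOD M] ∧ q.Prime),
      ∑ σ : ι → Option (α ⊕ β), Y2 p yR yH DR DH σ * EE p a σ ((q : ℤ) + a (Sum.inr m)) =
      S0 * ∑ σ : ι → Option {x : α ⊕ β // x ≠ Sum.inr m},
        Y' σ * EE p (fun x : {x : α ⊕ β // x ≠ Sum.inr m} => a x.1) σ
          ((q : ℤ) + a (Sum.inr m)) := by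
    intro q hq
    obtain ⟨hq1, -, hq2⟩ := mem_filter.1 hq
    rw [id_B hp2 a yR yH hH0 DR DH m _ (by
      intro i hi
      rw [add_sub_cancel_right] at hi
      have h1 : p i ∣ q := by exact_mod_cast hi
      have h2 := (Nat.prime_dvd_prime_iff_eq (hp i) hq2).1 h1
      have h3 := (mem_Ioc.1 hq1).1
      have h4 := hpP i
      omega), reidx (Sum.inr m) (fun σ : ι → Option (α ⊕ β) =>
      ZB p yR yH DR DH m σ * EE p a σ ((q : ℤ) + a (Sum.inr m))) (by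
        intro σ hσ
        unfold ZB
        rw [if_neg hσ, zero_mul]), mul_sum]
    refine sum_congr rfl fun σ _ => ?_
    rw [ZB_up, EE_up, hY']
    field_simp
  rw [hZZ]
  have hfin := mul_le_mul_of_nonneg_left main (sq_nonneg S0)
  have hL : S0 ^ 2 * Z' * (4 / 5 * psi M r P - 6 / 5 * B -
      100 * (DR * DH) ^ 4 * √P * Real.log (4 * P) ^ 2) =
      S0 ^ 2 * (4 / 5 * Z' * psi M r P - 6 / 5 * Z' * B -
        100 * Z' * (DR * DH) ^ 4 * √P * Real.log (4 * P) ^ 2) := by ring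
  rw [hL]
  refine hfin.trans (le_of_eq ?_)
  rw [mul_sum]
  refine sum_congr rfl fun q hq => ?_
  rw [hG q hq]
  ring

end Pool.Agent.IPT
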