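/-
IPT/AttrP.lean.  The mass at the n with n + t i prime.
-/
import Pool.Agent.IPT.Conc
import Pool.Agent.IPT.PrimeB
import Pool.Agent.AT.BV

namespace Pool.Agent.IPT
open Finset Pool.Agent.RS Pool.Agent.AT

private theorem ap_log {P L : ℕ} (hL : L = Nat.log 2 P) (hP : P ≠ 0) (hL3 : 10 ≤ L) :
    Real.log P ≤ L := by
  have h1 : P < 2 ^ (L + 1) := by rw [hL]; exact Nat.lt_pow_succ_log_self (by norm_num) P
  have h2 : (P : ℝ) ≤ 2 ^ (L + 1) := by exact_mod_cast h1.le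
  have hP0 : (0 : ℝ) < P := by exact_mod_cast Nat.pos_of_ne_zero hP
  have h3 := Real.log_le_log hP0 h2
  rw [Real.log_pow] at h3
  have h4 := Real.log_two_lt_d9
  have h5 : (10 : ℝ) ≤ L := by exact_mod_cast hL3
  push_cast at h3
  nlinarith

private theorem ap_two {P L : ℕ} (hL : L = Nat.log 2 P) (hP : P ≠ 0) : (2 : ℝ) ^ L ≤ P := by
  have h1 : 2 ^ L ≤ P := by rw [hL]; exact Nat.pow_log_le_self 2 hP
  exact_mod_cast h1

private theorem ap_D {P L : ℕ} (hL : L = Nat.log 2 P) (hP : P ≠ 0) :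
    (2 : ℝ) ^ dd L ≤ (P : ℝ) ^ (1 / 10000 : ℝ) := by
  have h1 : ((dd L : ℕ) : ℝ) ≤ (L : ℝ) * (1 / 10000) := by
    unfold dd
    have := Nat.cast_div_le (α := ℝ) (m := L) (n := 10000)
    push_cast at this
    linarith
  calc (2 : ℝ) ^ dd L = (2 : ℝ) ^ ((dd L : ℕ) : ℝ) := (Real.rpow_natCast _ _).symm
    _ ≤ (2 : ℝ) ^ ((L : ℝ) * (1 / 10000)) := Real.rpow_le_rpow_of_exponent_le (by norm_num) h1
    _ = ((2 : ℝ) ^ L) ^ (1 / 10000 : ℝ) := by
        rw [Real.rpow_mul (by norm_num), Real.rpow_natCast]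
    _ ≤ (P : ℝ) ^ (1 / 10000 : ℝ) :=
        Real.rpow_le_rpow (by positivity) (ap_two hL hP) (by norm_num)

private theorem ap_quarter {P L : ℕ} (hL : L = Nat.log 2 P) (hP : P ≠ 0) (hL8 : 10 ^ 8 ≤ L) :
    800 * (L : ℝ) ^ 3 ≤ (P : ℝ) ^ (1 / 4 : ℝ) := by
  have hL' : (10 : ℝ) ^ 8 ≤ L := by exact_mod_cast hL8
  have h1 : ((2 : ℝ) ^ L) ^ (1 / 4 : ℝ) ≤ (P : ℝ) ^ (1 / 4 : ℝ) :=
    Real.rpow_le_rpow (by positivity) (ap_two hL hP) (by norm_num)
  have h2 : ((2 : ℝ) ^ L) ^ (1 / 4 : ℝ) = Real.exp ((L : ℝ) * Real.log 2 / 4) := by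
    rw [← Real.rpow_natCast, ← Real.rpow_mul (by norm_num), Real.rpow_def_of_pos (by norm_num)]
    congr 1
    ring
  have hl : 0.69 ≤ Real.log 2 := by linarith [Real.log_two_gt_d9]
  have h3 : 0.17 * (L : ℝ) ≤ (L : ℝ) * Real.log 2 / 4 := by nlinarith
  have h4 := Real.pow_div_factorial_le_exp (0.17 * (L : ℝ)) (by positivity) 4
  have h5 : Real.exp (0.17 * (L : ℝ)) ≤ Real.exp ((L : ℝ) * Real.log 2 / 4) :=
    Real.exp_le_exp.2 h3
  have h6 : ((Nat.factorial 4 : ℕ) : ℝ) = 24 := by norm_num [Nat.factorial]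
  rw [h6] at h4
  have h7 : 800 * (L : ℝ) ^ 3 ≤ (0.17 * (L : ℝ)) ^ 4 / 24 := by
    have h8 : (0.17 * (L : ℝ)) ^ 4 / 24 = (0.17 ^ 4 / 24 * L) * (L : ℝ) ^ 3 := by ring
    rw [h8]
    refine mul_le_mul_of_nonneg_right ?_ (by positivity)
    norm_num
    linarith
  rw [← h2] at h5
  linarith

private theorem ap_pow {L : ℕ} (hL : 1 ≤ L) :
    (L : ℝ) ^ 3 * ((L : ℝ) ^ 6) ^ (-(3 / 4) : ℝ) = 1 / ((L : ℝ) * √(L : ℝ)) := by
  have hL0 : (0 : ℝ) < L := by exact_mod_cast hL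
  have h1 : (L : ℝ) ^ 3 = (L : ℝ) ^ (3 : ℝ) := by
    rw [← Real.rpow_natCast]; norm_num
  have h2 : ((L : ℝ) ^ 6) ^ (-(3 / 4) : ℝ) = (L : ℝ) ^ (-(9 / 2) : ℝ) := by
    rw [← Real.rpow_natCast, ← Real.rpow_mul hL0.le]
    norm_num
  have h3 : 1 / ((L : ℝ) * √(L : ℝ)) = (L : ℝ) ^ (-(3 / 2) : ℝ) := by
    rw [Real.rpow_neg hL0.le, one_div, Real.sqrt_eq_rpow]
    congr 1
    rw [show (3 / 2 : ℝ) = 1 + 1 / 2 by norm_num, Real.rpow_add hL0, Real.rpow_one]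
  rw [h1, h2, h3, ← Real.rpow_add hL0]
  norm_num

theorem attr_p (k : ℕ) : ∃ P0 : ℕ, ∀ P : ℕ, P0 ≤ P → ∀ (L M H : ℕ) (R : Finset ℕ)
    (t : Fin k → ℕ), Adm2 P L M H R t → ∀ t0 G : ℕ, t0 * 2 ^ G ≤ dd L → ∀ (b : ℕ) (i : Fin k),
    Nat.Coprime (b + t i) M →
    Q2 L R t0 G i * (4 / 5 * psi M (b + t i) P - ((P : ℝ) / M) / L) ≤
      2 * Real.log P * ∑ n ∈ (Nw P H M b).filter (fun n => (n + t i).Prime),
        g2 L R t t0 G (n : ℤ) ^ 2 := by
  classical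
  obtain ⟨C, hC, P1, hbv⟩ := bv
  obtain ⟨L1, hH1⟩ := H1_ge
  obtain ⟨L3, hcard2⟩ := card2 k
  obtain ⟨L2, hL2⟩ := exists_nat_ge ((12 / 5 * C) ^ 2)
  refine ⟨max P1 (2 ^ (max (max (max L1 L3) L2) (10 ^ 8))), ?_⟩
  intro P hP L M H R t hA2 t0 G hG b i hcop
  have hA := hA2.adm
  have hPP1 : P1 ≤ P := le_trans (le_max_left _ _) hP
  have hP2 : 2 ^ (max (max (max L1 L3) L2) (10 ^ 8)) ≤ P := le_trans (le_max_right _ _) hP
  have hP0 : P ≠ 0 := by
    have : 0 < 2 ^ (max (max (max L1 L3) L2) (10 ^ 8)) := by positivity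
    omega
  have hLL : max (max (max L1 L3) L2) (10 ^ 8) ≤ L := by
    rw [hA.hL]
    exact Nat.le_log_of_pow_le (by norm_num) hP2
  have hLL1 : L1 ≤ L :=
    le_trans (le_trans (le_trans (le_max_left _ _) (le_max_left _ _)) (le_max_left _ _)) hLL
  have hLL3 : L3 ≤ L :=
    le_trans (le_trans (le_trans (le_max_right _ _) (le_max_left _ _)) (le_max_left _ _)) hLL
  have hLL2 : L2 ≤ L := le_trans (le_trans (le_max_right _ _) (le_max_left _ _)) hLL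
  have hL8 : 10 ^ 8 ≤ L := le_trans (le_max_right _ _) hLL
  obtain ⟨-, hHpos', hHlog⟩ := hH1 L hLL1
  have hHpos : 0 < H1 (px L) (2 ^ sx L) := lt_of_lt_of_le (by positivity) hHpos'
  have hLr : (10 : ℝ) ^ 8 ≤ L := by exact_mod_cast hL8
  have hL0 : (0 : ℝ) < L := lt_of_lt_of_le (by norm_num) hLr
  have h2L := ap_two hA.hL hP0
  have hlogP := ap_log hA.hL hP0 (by omega)
  have hPbig : (10 : ℝ) ^ 8 ≤ P := by
    have h1 : (L : ℝ) ≤ 2 ^ L := by exact_mod_cast (Nat.lt_two_pow_self (n := L)).le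
    linarith
  have hPr0 : (0 : ℝ) < P := lt_of_lt_of_le (by norm_num) hPbig
  have hPnat : 10 ^ 8 ≤ P := by exact_mod_cast hPbig
  have hquart := ap_quarter hA.hL hP0 hL8
  have hLsq : L ^ 2 ≤ P := by
    have h1 : (P : ℝ) ^ (1 / 4 : ℝ) ≤ (P : ℝ) ^ (1 : ℝ) :=
      Real.rpow_le_rpow_of_exponent_le (by linarith) (by norm_num)
    rw [Real.rpow_one] at h1
    have h2 : (L : ℝ) ^ 2 ≤ 800 * (L : ℝ) ^ 3 := by
      have h3 : 800 * (L : ℝ) ^ 3 = (800 * L) * (L : ℝ) ^ 2 := by ring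
      rw [h3]
      exact le_mul_of_one_le_left (by positivity) (by linarith)
    have h4 : (L : ℝ) ^ 2 ≤ P := by linarith
    exact_mod_cast h4
  have hM0 : (0 : ℝ) < M := by exact_mod_cast hA.hM0
  have hd1 : (1 : ℝ) ≤ 2 ^ dd L := one_le_pow₀ (by norm_num)
  have hdP : (2 : ℝ) ^ dd L ≤ (P : ℝ) ^ (1 / 10000 : ℝ) := ap_D hA.hL hP0
  obtain ⟨D, hD⟩ : ∃ D : ℝ, D = 2 ^ dd L * 2 ^ dd L := ⟨_, rfl⟩
  have hD1 : 1 ≤ D := by
    rw [hD]
    exact one_le_mul_of_one_le_of_one_le hd1 hd1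
  have hDP : D ≤ (P : ℝ) ^ (2 / 10000 : ℝ) := by
    calc D = 2 ^ dd L * 2 ^ dd L := hD
      _ ≤ (P : ℝ) ^ (1 / 10000 : ℝ) * (P : ℝ) ^ (1 / 10000 : ℝ) :=
          mul_le_mul hdP hdP (by positivity) (by positivity)
      _ = (P : ℝ) ^ (2 / 10000 : ℝ) := by rw [← Real.rpow_add hPr0]; norm_num
  have hkL : (Fintype.card ({j : ℕ // j ∈ R} ⊕ Fin k) : ℝ) ≤ L := by
    have := hcard2 L hLL3 R hA.hk
    linarith
  have hp : ∀ i : Ix L, (px L i).Prime := px_prime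
  have hp2 : ∀ i : Ix L, 2 ≤ px L i := fun i => (hp i).two_le
  have h3 : ∀ i : Ix L, 3 ≤ px L i := fun i => by
    have h1 := px_gt i
    have h2 : 3 ≤ L ^ 6 := by
      calc 3 ≤ L := by omega
        _ = L ^ 1 := (pow_one L).symm
        _ ≤ L ^ 6 := Nat.pow_le_pow_right (by omega) (by norm_num)
    omega
  have hddL : dd L ≤ L := Nat.div_le_self _ _
  have hdd2 : dd L + dd L ≤ 1 * L := by
    unfold dd
    omega
  have hpP : ∀ i : Ix L, px L i ≤ P := fun i => by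
    have h1 := px_le i
    have h2 : 2 ^ dd L ≤ 2 ^ L := Nat.pow_le_pow_right (by norm_num) hddL
    have h4 : 2 ^ L ≤ P := by exact_mod_cast h2L
    omega
  have hHL : H ≤ L ^ 2 := hA.hH
  have htH := hA2.tH i
  have hL5 : (L : ℝ) * (1 / (L : ℝ) ^ 5) ≤ 1 / 100 := by
    have h1 : (L : ℝ) * (1 / (L : ℝ) ^ 5) = 1 / (L : ℝ) ^ 4 := by
      field_simp
    rw [h1]
    apply one_div_le_one_div_of_le (by norm_num)
    calc (100 : ℝ) ≤ L := by linarith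
      _ = (L : ℝ) ^ 1 := (pow_one _).symm
      _ ≤ (L : ℝ) ^ 4 := pow_le_pow_right₀ (by linarith) (by norm_num)
  have hk : ∑ i : Ix L, (Fintype.card ({j : ℕ // j ∈ R} ⊕ Fin k) : ℝ) / ((px L i : ℝ) - 1) ^ 2 ≤
      1 / 100 := by
    have h1 : ∑ i : Ix L, (Fintype.card ({j : ℕ // j ∈ R} ⊕ Fin k) : ℝ) / ((px L i : ℝ) - 1) ^ 2 =
        (Fintype.card ({j : ℕ // j ∈ R} ⊕ Fin k) : ℝ) * ∑ i : Ix L, 1 / ((px L i : ℝ) - 1) ^ 2 := by
      rw [Finset.mul_sum]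
      exact Finset.sum_congr rfl fun i _ => by rw [mul_one_div]
    rw [h1]
    have h2 := px_sum_sq (L := L) (by omega)
    refine le_trans (mul_le_mul hkL h2 ?_ hL0.le) hL5
    exact Finset.sum_nonneg fun i _ => div_nonneg zero_le_one (sq_nonneg _)
  have hkp : ∀ i : Ix L, 10 * (Fintype.card ({j : ℕ // j ∈ R} ⊕ Fin k) : ℝ) / ((px L i : ℝ) - 1) ≤
      (px L i : ℝ) ^ (-(3 / 4) : ℝ) := fun i => px_quarter (by omega) i hkL
  have hN : ∀ S : Finset (Ix L), PP (px L) S ≤ 2 ^ dd L * 2 ^ dd L →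
      ∑ i ∈ S, (Fintype.card ({j : ℕ // j ∈ R} ⊕ Fin k) : ℝ) / ((px L i : ℝ) - 1) ≤ 1 / 100 := by
    intro S hS
    have h1 : ∑ i ∈ S, (Fintype.card ({j : ℕ // j ∈ R} ⊕ Fin k) : ℝ) / ((px L i : ℝ) - 1) =
        (Fintype.card ({j : ℕ // j ∈ R} ⊕ Fin k) : ℝ) * ∑ i ∈ S, 1 / ((px L i : ℝ) - 1) := by
      rw [Finset.mul_sum]
      exact Finset.sum_congr rfl fun i _ => by rw [mul_one_div]
    rw [h1]
    have h2 := px_pow (L := L) (by omega) 1 S (hS.trans (by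
      rw [← pow_add]
      exact pow_le_pow_right₀ (by norm_num) hdd2))
    rw [Nat.cast_one] at h2
    refine le_trans (mul_le_mul hkL h2 ?_ hL0.le) hL5
    refine Finset.sum_nonneg fun i _ => ?_
    have h4 : (3 : ℝ) ≤ px L i := by exact_mod_cast h3 i
    exact div_nonneg zero_le_one (by linarith)
  have hQn : 0 ≤ Q2 L R t0 G i := by
    unfold Q2
    refine Finset.sum_nonneg fun σ _ => div_nonneg (sq_nonneg _) ?_
    unfold PH
    refine Finset.prod_nonneg fun i _ => ?_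
    have h4 : (3 : ℝ) ≤ px L i := by exact_mod_cast h3 i
    linarith
  have hL6 : (1 : ℝ) ≤ (L : ℝ) ^ 6 := one_le_pow₀ (by linarith)
  have hD2P : D ^ 2 ≤ (P : ℝ) ^ (1 / 1000 : ℝ) := by
    calc D ^ 2 ≤ ((P : ℝ) ^ (2 / 10000 : ℝ)) ^ 2 := pow_le_pow_left₀ (by linarith) hDP 2
      _ = (P : ℝ) ^ (4 / 10000 : ℝ) := by
          rw [← Real.rpow_natCast, ← Real.rpow_mul hPr0.le]; norm_num
      _ ≤ (P : ℝ) ^ (1 / 1000 : ℝ) :=
          Real.rpow_le_rpow_of_exponent_le (by linarith) (by norm_num)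
  have hB := hbv P hPP1 M (b + t i) hA.hM0 hA.hMP hcop (Ix L) (px L) hp (px_inj L)
    (fun i => hA.hM _ (hp i) (px_gt i)) ((L : ℝ) ^ 6) (D ^ 2) hL6
    (fun i => by exact_mod_cast (px_gt i).le) hD2P
  rw [hD] at hB
  have hmain := prime_B hp h3 (px_inj L) (P := P) (M := M) (r := b + t i) (by omega) hpP
    (a2 R t) i (a2_nd (by omega) hA2) hk hkp hd1 hd1 hN (yx L) (yh (px L) t0 G)
    (wt_empty _ _) (wt_abs hp2 hHlog) (wt_mono hp2 hHpos hHlog) (yh_empty _ _ _)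
    (yh_nonneg _ _ _) (yh_mono hp2 t0 G)
    (fun S hS => (yh_supp hS).trans (pow_le_pow_right₀ (by norm_num) hG)) hB
  rw [← hD] at hmain
  have hPM0 : 0 < (P : ℝ) / M := by positivity
  -- first error
  have herr1 : 6 / 5 * (C * (P / M) * Real.log P ^ 3 * ((L : ℝ) ^ 6) ^ (-(3 / 4) : ℝ)) ≤
      ((P : ℝ) / M) / (2 * L) := by
    clear hmain hB hbv hH1 hkp hk hpP h3 hp hHlog hA hP hP2 hA2 hcard2 hN hp2
    have hlp0 : 0 ≤ Real.log P := Real.log_natCast_nonneg P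
    have h1 : Real.log P ^ 3 ≤ (L : ℝ) ^ 3 := pow_le_pow_left₀ hlp0 hlogP 3
    have h2 : (0 : ℝ) ≤ ((L : ℝ) ^ 6) ^ (-(3 / 4) : ℝ) := by positivity
    have h4 : 12 / 5 * C ≤ √(L : ℝ) := by
      apply Real.le_sqrt_of_sq_le
      refine hL2.trans ?_
      exact_mod_cast hLL2
    have hs0 : 0 < √(L : ℝ) := Real.sqrt_pos.2 hL0
    calc 6 / 5 * (C * (P / M) * Real.log P ^ 3 * ((L : ℝ) ^ 6) ^ (-(3 / 4) : ℝ))
        ≤ 6 / 5 * (C * (P / M) * (L : ℝ) ^ 3 * ((L : ℝ) ^ 6) ^ (-(3 / 4) : ℝ)) := by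
          gcongr
      _ = 6 / 5 * (C * (P / M)) * ((L : ℝ) ^ 3 * ((L : ℝ) ^ 6) ^ (-(3 / 4) : ℝ)) := by ring
      _ = 6 / 5 * (C * (P / M)) * (1 / ((L : ℝ) * √(L : ℝ))) := by rw [ap_pow (by omega)]
      _ = ((P : ℝ) / M) / (2 * L) * (12 / 5 * C / √(L : ℝ)) := by
          field_simp
          ring
      _ ≤ ((P : ℝ) / M) / (2 * L) * 1 := by
          refine mul_le_mul_of_nonneg_left ?_ (by positivity)
          rw [div_le_one hs0]
          exact h4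
      _ = _ := mul_one _
  -- second error
  have hlog4 : Real.log (4 * P) ≤ 2 * Real.log P := by
    have h1 : Real.log (4 * P) ≤ Real.log ((P : ℝ) ^ 2) := by
      apply Real.log_le_log (by positivity)
      nlinarith
    rw [Real.log_pow] at h1
    exact_mod_cast h1
  have herr2 : 100 * D ^ 4 * √P * Real.log (4 * P) ^ 2 ≤ ((P : ℝ) / M) / (2 * L) := by
    have hMP := hA.hMP
    clear hmain hB hbv hH1 hkp hk hpP h3 hp hHlog hA hP hP2 hA2 hcard2 hN hp2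
    have h1 : Real.log (4 * P) ^ 2 ≤ (2 * (L : ℝ)) ^ 2 := by
      refine pow_le_pow_left₀ (Real.log_nonneg (by linarith)) ?_ 2
      linarith
    have h2 : D ^ 4 ≤ (P : ℝ) ^ (8 / 10000 : ℝ) := by
      calc D ^ 4 ≤ ((P : ℝ) ^ (2 / 10000 : ℝ)) ^ 4 := pow_le_pow_left₀ (by linarith) hDP 4
        _ = (P : ℝ) ^ (8 / 10000 : ℝ) := by
            rw [← Real.rpow_natCast, ← Real.rpow_mul hPr0.le]; norm_num
    have h4 : √(P : ℝ) = (P : ℝ) ^ (1 / 2 : ℝ) := Real.sqrt_eq_rpow _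
    have h5 : (P : ℝ) ^ (999 / 1000 : ℝ) ≤ (P : ℝ) / M := by
      rw [le_div_iff₀ hM0]
      calc (P : ℝ) ^ (999 / 1000 : ℝ) * M
          ≤ (P : ℝ) ^ (999 / 1000 : ℝ) * (P : ℝ) ^ (1 / 1000 : ℝ) :=
            mul_le_mul_of_nonneg_left hMP (by positivity)
        _ = P := by rw [← Real.rpow_add hPr0]; norm_num
    have h6 : 800 * (L : ℝ) ^ 3 * (P : ℝ) ^ (5008 / 10000 : ℝ) ≤ (P : ℝ) ^ (999 / 1000 : ℝ) := by
      calc 800 * (L : ℝ) ^ 3 * (P : ℝ) ^ (5008 / 10000 : ℝ)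
          ≤ (P : ℝ) ^ (1 / 4 : ℝ) * (P : ℝ) ^ (5008 / 10000 : ℝ) :=
            mul_le_mul_of_nonneg_right hquart (by positivity)
        _ = (P : ℝ) ^ (7508 / 10000 : ℝ) := by rw [← Real.rpow_add hPr0]; norm_num
        _ ≤ (P : ℝ) ^ (999 / 1000 : ℝ) :=
            Real.rpow_le_rpow_of_exponent_le (by linarith) (by norm_num)
    calc 100 * D ^ 4 * √P * Real.log (4 * P) ^ 2
        ≤ 100 * (P : ℝ) ^ (8 / 10000 : ℝ) * (P : ℝ) ^ (1 / 2 : ℝ) * (2 * (L : ℝ)) ^ 2 := by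
          rw [h4]
          gcongr
      _ = 400 * (L : ℝ) ^ 2 * ((P : ℝ) ^ (8 / 10000 : ℝ) * (P : ℝ) ^ (1 / 2 : ℝ)) := by ring
      _ = 400 * (L : ℝ) ^ 2 * (P : ℝ) ^ (5008 / 10000 : ℝ) := by
          rw [← Real.rpow_add hPr0]; norm_num
      _ = 800 * (L : ℝ) ^ 3 * (P : ℝ) ^ (5008 / 10000 : ℝ) / (2 * L) := by
          field_simp
          ring
      _ ≤ (P : ℝ) ^ (999 / 1000 : ℝ) / (2 * L) :=
          div_le_div_of_nonneg_right h6 (by positivity)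
      _ ≤ ((P : ℝ) / M) / (2 * L) := div_le_div_of_nonneg_right h5 (by positivity)
  -- the sums
  have hsum : ∑ m ∈ (Ioc P (4 * P)).filter (fun m => m ≡ b + t i [MOD M] ∧ m.Prime),
        Real.log m * (∑ σ : Ix L → Option ({j : ℕ // j ∈ R} ⊕ Fin k),
          Y2 (px L) (yx L) (yh (px L) t0 G) (2 ^ dd L) (2 ^ dd L) σ *
            EE (px L) (a2 R t) σ ((m : ℤ) + a2 R t (Sum.inr i))) ^ 2 ≤
      2 * Real.log P * ∑ n ∈ (Nw P H M b).filter (fun n => (n + t i).Prime),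
        g2 L R t t0 G (n : ℤ) ^ 2 := by
    have hmj : ∀ m ∈ (Ioc P (4 * P)).filter (fun m => m ≡ b + t i [MOD M] ∧ m.Prime), t i ≤ m := by
      intro m hm
      have := (mem_Ioc.1 (mem_filter.1 hm).1).1
      omega
    rw [Finset.mul_sum]
    calc ∑ m ∈ (Ioc P (4 * P)).filter (fun m => m ≡ b + t i [MOD M] ∧ m.Prime),
        Real.log m * (∑ σ : Ix L → Option ({j : ℕ // j ∈ R} ⊕ Fin k),
          Y2 (px L) (yx L) (yh (px L) t0 G) (2 ^ dd L) (2 ^ dd L) σ *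
            EE (px L) (a2 R t) σ ((m : ℤ) + a2 R t (Sum.inr i))) ^ 2
        ≤ ∑ m ∈ (Ioc P (4 * P)).filter (fun m => m ≡ b + t i [MOD M] ∧ m.Prime),
          2 * Real.log P * g2 L R t t0 G (((m - t i : ℕ) : ℕ) : ℤ) ^ 2 := by
          refine Finset.sum_le_sum fun m hm => ?_
          have h1 := mem_Ioc.1 (mem_filter.1 hm).1
          have h2 : ((m : ℤ) + a2 R t (Sum.inr i)) = ((m - t i : ℕ) : ℤ) := by
            rw [Nat.cast_sub (hmj m hm)]
            show (m : ℤ) + -(t i : ℤ) = _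
            ring
          rw [h2]
          have h4 : Real.log m ≤ 2 * Real.log P := by
            refine le_trans (Real.log_le_log ?_ ?_) hlog4
            · have : 0 < m := by omega
              exact_mod_cast this
            · exact_mod_cast h1.2
          exact mul_le_mul_of_nonneg_right h4 (sq_nonneg _)
      _ = ∑ n ∈ ((Ioc P (4 * P)).filter (fun m => m ≡ b + t i [MOD M] ∧ m.Prime)).image
            (fun m => m - t i), 2 * Real.log P * g2 L R t t0 G (n : ℤ) ^ 2 := by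
          rw [Finset.sum_image]
          intro m hm m' hm' h
          have h1 := hmj m hm
          have h2 := hmj m' hm'
          simp only at h
          omega
      _ ≤ ∑ n ∈ (Nw P H M b).filter (fun n => (n + t i).Prime),
            2 * Real.log P * g2 L R t t0 G (n : ℤ) ^ 2 := by
          refine Finset.sum_le_sum_of_subset_of_nonneg ?_ ?_
          · intro n hn
            obtain ⟨m, hm, rfl⟩ := mem_image.1 hn
            have h1 := mem_Ioc.1 (mem_filter.1 hm).1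
            have h2 := (mem_filter.1 hm).2
            have h4 := hmj m hm
            have h5 : m - t i + t i = m := Nat.sub_add_cancel h4
            rw [mem_filter, h5]
            refine ⟨?_, h2.2⟩
            unfold Nw
            rw [mem_filter, mem_Ioc]
            refine ⟨⟨by omega, by omega⟩, ?_⟩
            have h6 : m - t i + t i ≡ b + t i [MOD M] := by rw [h5]; exact h2.1
            exact Nat.ModEq.add_right_cancel' (t i) h6
          · intro n _ _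
            have : 0 ≤ Real.log P := Real.log_natCast_nonneg P
            exact mul_nonneg (mul_nonneg zero_le_two this) (sq_nonneg _)
  have hhalf : ((P : ℝ) / M) / (2 * L) + ((P : ℝ) / M) / (2 * L) = ((P : ℝ) / M) / L := by
    field_simp
    ring
  have hfin : Q2 L R t0 G i * (4 / 5 * psi M (b + t i) P - ((P : ℝ) / M) / L) ≤
      Q2 L R t0 G i * (4 / 5 * psi M (b + t i) P -
        6 / 5 * (C * (P / M) * Real.log P ^ 3 * ((L : ℝ) ^ 6) ^ (-(3 / 4) : ℝ)) -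
        100 * D ^ 4 * √P * Real.log (4 * P) ^ 2) := by
    refine mul_le_mul_of_nonneg_left ?_ hQn
    linarith
  exact hfin.trans (hmain.trans hsum)

end Pool.Agent.IPT
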