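/-
IPT/CrtCnt.lean (job IPT-CrtCnt).  Counting by the Chinese remainder theorem.
-/
import Pool.Agent.REC.SsDef

namespace Pool.Agent.IPT
open Finset

theorem crt_eq (S : Finset ℕ) (hS : ∀ p ∈ S, p.Prime) (V : ℕ → Finset ℕ)
    (hV : ∀ p ∈ S, V p ⊆ range p) :
    ((range (∏ p ∈ S, p)).filter (fun j => ∀ p ∈ S, j % p ∈ V p)).card =
      ∏ p ∈ S, (V p).card := by
  induction S using Finset.induction_on with
  | empty => simp
  | insert p S hp ih =>
    have ih' := ih (fun q hq => hS q (mem_insert_of_mem hq)) (fun q hq => hV q (mem_insert_of_mem hq))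
    have hpp : p.Prime := hS p (mem_insert_self p S)
    rw [prod_insert hp, prod_insert hp, ← ih', ← card_product]
    obtain ⟨Q, hQ⟩ : ∃ Q, Q = ∏ q ∈ S, q := ⟨_, rfl⟩
    rw [← hQ]
    have hcop : Nat.Coprime p Q := by
      rw [hQ]
      refine Nat.Coprime.prod_right fun q hq => ?_
      refine (Nat.coprime_primes hpp (hS q (mem_insert_of_mem hq))).2 ?_
      rintro rfl
      exact hp hq
    have hQ0 : 0 < Q := by
      rw [hQ]
      exact prod_pos fun q hq => (hS q (mem_insert_of_mem hq)).pos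
    have hdvd : ∀ q ∈ S, q ∣ Q := fun q hq => by
      rw [hQ]
      exact dvd_prod_of_mem _ hq
    refine card_bij (fun t _ => (t % p, t % Q)) ?_ ?_ ?_
    · intro t ht
      rw [mem_filter] at ht
      rw [mem_product, mem_filter]
      refine ⟨ht.2 p (mem_insert_self p S), mem_range.2 (Nat.mod_lt _ hQ0), fun q hq => ?_⟩
      change t % Q % q ∈ V q
      rw [Nat.mod_mod_of_dvd _ (hdvd q hq)]
      exact ht.2 q (mem_insert_of_mem hq)
    · intro t ht t' ht' h
      have h1 : t % p = t' % p := congrArg Prod.fst h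
      have h2 : t % Q = t' % Q := congrArg Prod.snd h
      have h3 : t ≡ t' [MOD p * Q] := (Nat.modEq_and_modEq_iff_modEq_mul hcop).1 ⟨h1, h2⟩
      have h4 := mem_range.1 (mem_filter.1 ht).1
      have h5 := mem_range.1 (mem_filter.1 ht').1
      exact Nat.ModEq.eq_of_lt_of_lt h3 h4 h5
    · rintro ⟨u, s⟩ hus
      rw [mem_product, mem_filter] at hus
      obtain ⟨hu, hs, hs'⟩ := hus
      have hup : u < p := mem_range.1 (hV p (mem_insert_self p S) hu)
      have hsQ : s < Q := mem_range.1 hs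
      obtain ⟨t, ht1, ht2⟩ := Nat.chineseRemainder hcop u s
      have e1 : t % (p * Q) % p = u := by
        rw [Nat.mod_mod_of_dvd _ (dvd_mul_right p Q)]
        exact (Nat.mod_eq_of_modEq ht1 hup)
      have e2 : t % (p * Q) % Q = s := by
        rw [Nat.mod_mod_of_dvd _ (dvd_mul_left Q p)]
        exact (Nat.mod_eq_of_modEq ht2 hsQ)
      refine ⟨t % (p * Q), ?_, ?_⟩
      · rw [mem_filter]
        refine ⟨mem_range.2 (Nat.mod_lt _ (Nat.mul_pos hpp.pos hQ0)), fun q hq => ?_⟩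
        rcases mem_insert.1 hq with rfl | hq
        · rw [e1]
          exact hu
        · have h1 : t % (p * Q) % q = s % q := by
            rw [← e2, Nat.mod_mod_of_dvd _ (hdvd q hq)]
          rw [h1]
          exact hs' q hq
      · rw [e1, e2]

theorem crt_cnt (S : Finset ℕ) (hS : ∀ p ∈ S, p.Prime) (V : ℕ → Finset ℕ)
    (hV : ∀ p ∈ S, V p ⊆ range p) (H : ℕ) :
    (((range H).filter (fun j => ∀ p ∈ S, j % p ∈ V p)).card : ℝ) ≤
      ((H : ℝ) / ∏ p ∈ S, (p : ℝ) + 1) * ∏ p ∈ S, ((V p).card : ℝ) := by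
  have key := crt_eq S hS V hV
  have hcast : ∏ p ∈ S, (p : ℝ) = ((∏ p ∈ S, p : ℕ) : ℝ) := by
    push_cast
    rfl
  have hcast2 : ∏ p ∈ S, ((V p).card : ℝ) = ((∏ p ∈ S, (V p).card : ℕ) : ℝ) := by
    push_cast
    rfl
  rw [hcast, hcast2, ← key]
  have hdvd : ∀ q ∈ S, q ∣ ∏ p ∈ S, p := fun q hq => dvd_prod_of_mem _ hq
  have hQ0 : 0 < ∏ p ∈ S, p := prod_pos fun q hq => (hS q hq).pos
  obtain ⟨Q, hQ⟩ : ∃ Q, Q = ∏ q ∈ S, q := ⟨_, rfl⟩
  rw [← hQ] at hdvd hQ0 ⊢
  have hsub : (range H).filter (fun j => ∀ p ∈ S, j % p ∈ V p) ⊆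
      (range (H / Q + 1)).biUnion (fun a =>
        ((range Q).filter (fun j => ∀ p ∈ S, j % p ∈ V p)).image (fun s => a * Q + s)) := by
    intro j hj
    rw [mem_filter] at hj
    rw [mem_biUnion]
    refine ⟨j / Q, mem_range.2 (Nat.lt_succ_of_le (Nat.div_le_div_right (mem_range.1 hj.1).le)), ?_⟩
    rw [mem_image]
    refine ⟨j % Q, mem_filter.2 ⟨mem_range.2 (Nat.mod_lt _ hQ0), fun q hq => ?_⟩, ?_⟩
    · rw [Nat.mod_mod_of_dvd _ (hdvd q hq)]
      exact hj.2 q hq
    · rw [mul_comm]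
      exact Nat.div_add_mod j Q
  have h1 : ((range H).filter (fun j => ∀ p ∈ S, j % p ∈ V p)).card ≤
      (H / Q + 1) * ((range Q).filter (fun j => ∀ p ∈ S, j % p ∈ V p)).card := by
    refine (card_le_card hsub).trans (card_biUnion_le.trans ?_)
    refine (sum_le_sum fun a _ => card_image_le).trans ?_
    rw [sum_const, card_range, smul_eq_mul]
  have h2 : ((H / Q : ℕ) : ℝ) ≤ (H : ℝ) / Q := Nat.cast_div_le
  calc (((range H).filter (fun j => ∀ p ∈ S, j % p ∈ V p)).card : ℝ)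
      ≤ (((H / Q + 1) * ((range Q).filter (fun j => ∀ p ∈ S, j % p ∈ V p)).card : ℕ) : ℝ) := by
        exact_mod_cast h1
    _ = (((H / Q : ℕ) : ℝ) + 1) *
        (((range Q).filter (fun j => ∀ p ∈ S, j % p ∈ V p)).card : ℝ) := by
        push_cast
        ring
    _ ≤ _ := mul_le_mul_of_nonneg_right (by linarith) (Nat.cast_nonneg _)

end Pool.Agent.IPT
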