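/-
IPT/TDefs.lean.  Definitions for the selection of the classes.
-/
import Pool.Agent.REC.SsDef

namespace Pool.Agent.IPT
open Finset Pool.Agent.REC

/-- the number of classes mod p of a tuple -/
def nu (p : ℕ) {k : ℕ} (t : Fin k → ℕ) : ℕ := ((univ : Finset (Fin k)).image (fun i => t i % p)).card

/-- the primes p ≤ z for which j is congruent mod p to one of the t i -/
def Ta (z : ℕ) {k : ℕ} (t : Fin k → ℕ) (j : ℕ) : Finset ℕ :=
  (prs z).filter (fun p => ∃ i, j % p = t i % p)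

noncomputable def Ph (z : ℕ) {k : ℕ} (t : Fin k → ℕ) (j : ℕ) : ℝ :=
  ∏ p ∈ Ta z t j, (1 - 1 / (p : ℝ))⁻¹

noncomputable def Sg (z : ℕ) {k : ℕ} (t : Fin k → ℕ) : ℝ :=
  ∏ p ∈ prs z, (1 + (nu p t : ℝ) / ((p : ℝ) * ((p : ℝ) - 1)))

/-- the classes mod pmod z for which all sites are coprime to pmod z -/
def Gb (z : ℕ) {k : ℕ} (t : Fin k → ℕ) : Finset ℕ :=
  (range (pmod z)).filter (fun b => ∀ i, Nat.Coprime (b + t i) (pmod z))

end Pool.Agent.IPT
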