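/-
IPT/AvgT.lean.  The average of Ph over j < H (expansion over the sets of primes, CrtCnt.crt_cnt).
-/
import Pool.Agent.IPT.TDefs
import Pool.Agent.IPT.CrtCnt

namespace Pool.Agent.IPT
open Finset Pool.Agent.REC

private theorem inv_form {p : ℕ} (hp : p.Prime) :
    (1 - 1 / (p : ℝ))⁻¹ = 1 + 1 / ((p : ℝ) - 1) := by
  have h2 : (2 : ℝ) ≤ p := by exact_mod_cast hp.two_le
  have h0 : (p : ℝ) ≠ 0 := by linarith
  have h1 : (p : ℝ) - 1 ≠ 0 := by linarith
  have e : (1 - 1 / (p : ℝ)) = ((p : ℝ) - 1) / p := by field_simp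
  rw [e, inv_div]
  field_simp
  ring

/-- the residues mod `p` of the sites -/
private def Vr {k : ℕ} (t : Fin k → ℕ) (p : ℕ) : Finset ℕ :=
  (univ : Finset (Fin k)).image (fun i => t i % p)

private theorem sub_Ta {z : ℕ} {k : ℕ} (t : Fin k → ℕ) (j : ℕ) {S : Finset ℕ}
    (hS : S ⊆ prs z) : S ⊆ Ta z t j ↔ ∀ p ∈ S, j % p ∈ Vr t p := by
  constructor
  · intro h p hp
    obtain ⟨i, hi⟩ := (mem_filter.1 (h hp)).2
    exact mem_image.2 ⟨i, mem_univ _, hi.symm⟩
  · intro h p hp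
    obtain ⟨i, _, hi⟩ := mem_image.1 (h p hp)
    exact mem_filter.2 ⟨hS hp, i, hi.symm⟩

private theorem Ph_eq (z : ℕ) {k : ℕ} (t : Fin k → ℕ) (j : ℕ) :
    Ph z t j = ∑ S ∈ (prs z).powerset,
      (∏ p ∈ S, 1 / ((p : ℝ) - 1)) * (if ∀ p ∈ S, j % p ∈ Vr t p then 1 else 0) := by
  classical
  have h1 : Ph z t j = ∏ p ∈ Ta z t j, (1 + 1 / ((p : ℝ) - 1)) := by
    unfold Ph
    refine Finset.prod_congr rfl fun p hp => inv_form ?_
    exact (mem_prs.1 (mem_filter.1 hp).1).1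
  rw [h1, Finset.prod_one_add]
  have h2 : (Ta z t j).powerset = (prs z).powerset.filter (fun S => ∀ p ∈ S, j % p ∈ Vr t p) := by
    ext S
    rw [mem_powerset, mem_filter, mem_powerset]
    constructor
    · intro h
      have h3 : S ⊆ prs z := fun p hp => (mem_filter.1 (h hp)).1
      exact ⟨h3, (sub_Ta t j h3).1 h⟩
    · rintro ⟨h3, h4⟩
      exact (sub_Ta t j h3).2 h4
  rw [h2, Finset.sum_filter]
  refine Finset.sum_congr rfl fun S _ => ?_
  split_ifs <;> simp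

theorem avg_T (z H : ℕ) {k : ℕ} (t : Fin k → ℕ) :
    ∑ j ∈ range H, Ph z t j ≤ H * Sg z t + (dens z)⁻¹ ^ k := by
  classical
  have hpr : ∀ p ∈ prs z, (2 : ℝ) ≤ p := fun p hp => by
    exact_mod_cast (mem_prs.1 hp).1.two_le
  have h1 : ∑ j ∈ range H, Ph z t j = ∑ S ∈ (prs z).powerset,
      (∏ p ∈ S, 1 / ((p : ℝ) - 1)) *
        (((range H).filter (fun j => ∀ p ∈ S, j % p ∈ Vr t p)).card : ℝ) := by
    rw [Finset.sum_congr rfl fun j _ => Ph_eq z t j, Finset.sum_comm]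
    refine Finset.sum_congr rfl fun S _ => ?_
    rw [← Finset.mul_sum, Finset.card_filter]
    push_cast
    rfl
  have h2 : ∀ S ∈ (prs z).powerset, (∏ p ∈ S, 1 / ((p : ℝ) - 1)) *
      (((range H).filter (fun j => ∀ p ∈ S, j % p ∈ Vr t p)).card : ℝ) ≤
      H * ∏ p ∈ S, ((nu p t : ℝ) / ((p : ℝ) * ((p : ℝ) - 1))) +
        ∏ p ∈ S, ((nu p t : ℝ) / ((p : ℝ) - 1)) := by
    intro S hS
    have hS' := mem_powerset.1 hS
    have h3 := crt_cnt S (fun p hp => (mem_prs.1 (hS' hp)).1) (Vr t)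
      (fun p hp => by
        intro x hx
        obtain ⟨i, _, hi⟩ := mem_image.1 hx
        rw [mem_range, ← hi]
        exact Nat.mod_lt _ (mem_prs.1 (hS' hp)).1.pos) H
    have h4 : (0 : ℝ) ≤ ∏ p ∈ S, 1 / ((p : ℝ) - 1) := by
      refine Finset.prod_nonneg fun p hp => ?_
      have := hpr p (hS' hp)
      exact div_nonneg zero_le_one (by linarith)
    refine (mul_le_mul_of_nonneg_left h3 h4).trans (le_of_eq ?_)
    have e1 : ∏ p ∈ S, ((nu p t : ℝ) / ((p : ℝ) * ((p : ℝ) - 1))) =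
        (∏ p ∈ S, 1 / ((p : ℝ) - 1)) * (∏ p ∈ S, (p : ℝ))⁻¹ * ∏ p ∈ S, ((Vr t p).card : ℝ) := by
      rw [← Finset.prod_inv_distrib, ← Finset.prod_mul_distrib, ← Finset.prod_mul_distrib]
      refine Finset.prod_congr rfl fun p _ => ?_
      have : (nu p t : ℝ) = ((Vr t p).card : ℝ) := rfl
      rw [this, div_eq_mul_inv, mul_inv]
      ring
    have e2 : ∏ p ∈ S, ((nu p t : ℝ) / ((p : ℝ) - 1)) =
        (∏ p ∈ S, 1 / ((p : ℝ) - 1)) * ∏ p ∈ S, ((Vr t p).card : ℝ) := by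
      rw [← Finset.prod_mul_distrib]
      refine Finset.prod_congr rfl fun p _ => ?_
      have : (nu p t : ℝ) = ((Vr t p).card : ℝ) := rfl
      rw [this, div_eq_mul_inv]
      ring
    rw [e1, e2, div_eq_mul_inv]
    ring
  rw [h1]
  refine (Finset.sum_le_sum h2).trans ?_
  rw [Finset.sum_add_distrib, ← Finset.mul_sum, ← Finset.prod_one_add, ← Finset.prod_one_add]
  refine add_le_add (le_of_eq rfl) ?_
  unfold REC.dens
  rw [← Finset.prod_inv_distrib, ← Finset.prod_pow]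
  refine Finset.prod_le_prod (fun p hp => ?_) fun p hp => ?_
  · have := hpr p hp
    have h5 : (0 : ℝ) ≤ (nu p t : ℝ) / ((p : ℝ) - 1) :=
      div_nonneg (Nat.cast_nonneg _) (by linarith)
    linarith
  · have h6 := hpr p hp
    have h7 : (0 : ℝ) ≤ 1 / ((p : ℝ) - 1) := div_nonneg zero_le_one (by linarith)
    rw [inv_form (mem_prs.1 hp).1]
    have h8 : (nu p t : ℝ) ≤ k := by
      have : nu p t ≤ k := by
        unfold nu
        refine Finset.card_image_le.trans ?_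
        simp
      exact_mod_cast this
    have h9 := one_add_mul_le_pow (show (-2 : ℝ) ≤ 1 / ((p : ℝ) - 1) by linarith) k
    refine le_trans ?_ h9
    have h10 : (nu p t : ℝ) / ((p : ℝ) - 1) = nu p t * (1 / ((p : ℝ) - 1)) := by ring
    rw [h10]
    have := mul_le_mul_of_nonneg_right h8 h7
    linarith

end Pool.Agent.IPT
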