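/-
IPT/KillSum.lean.  The square sum of the coefficients collapsed at a repelled site is tiny.
-/
import Pool.Agent.IPT.Coll
import Pool.Agent.IPT.CgB

namespace Pool.Agent.IPT
open Finset Pool.Agent.RS

variable {ι α β : Type} [Fintype ι] [DecidableEq ι] [DecidableEq α] [DecidableEq β] [Fintype α]
  [Fintype β]

open Classical in
theorem kill_sum {p : ι → ℕ} (hp : ∀ i, 2 ≤ p i) (yR yH : Finset ι → ℝ) {DR DH D2 δ θ : ℝ}
    (h1 : ∀ V U, 0 < V → |cg p yR DR V U| ≤ 1)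
    (h2 : ∀ σ : ι → Option (α ⊕ β), PP p (supp (lp σ)) ≤ D2 → PP p (supp (rp σ)) ≤ DH →
      |cg p yR DR (PP p (supp (lp σ))) (supp σ)| ≤ δ)
    (hD2 : D2 ≤ DR)
    (htail : ∑ τ ∈ (univ : Finset (ι → Option α)).filter (fun τ => D2 < PP p (supp τ)),
        Yd p yR DR τ ^ 2 / PH p (supp τ) ≤
      θ * ∑ τ : ι → Option α, Yd p yR DR τ ^ 2 / PH p (supp τ)) (j : α) :
    ∑ σ : ι → Option (α ⊕ β), ZA p yR yH DR DH j σ ^ 2 / PH p (supp σ) ≤
      (δ ^ 2 + θ) * ((∑ τ : ι → Option α, Yd p yR DR τ ^ 2 / PH p (supp τ)) *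
        ∑ υ : ι → Option β, Yd p yH DH υ ^ 2 / PH p (supp υ)) := by
  have hPP : ∀ S : Finset ι, 0 < PP p S := fun S => Finset.prod_pos (fun i _ => by
    have := hp i
    have h2 : (2 : ℝ) ≤ (p i : ℝ) := by exact_mod_cast this
    linarith)
  have hPH : ∀ S : Finset ι, 0 < PH p S := fun S => Finset.prod_pos (fun i _ => by
    have := hp i
    have h2 : (2 : ℝ) ≤ (p i : ℝ) := by exact_mod_cast this
    linarith)
  have hA0 : ∀ τ : ι → Option α, 0 ≤ Yd p yR DR τ ^ 2 / PH p (supp τ) := fun τ =>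
    div_nonneg (sq_nonneg _) (hPH _).le
  have hB0 : ∀ υ : ι → Option β, 0 ≤ Yd p yH DH υ ^ 2 / PH p (supp υ) := fun υ =>
    div_nonneg (sq_nonneg _) (hPH _).le
  have hT0 : ∀ τ : ι → Option α, 0 ≤ (if D2 < PP p (supp τ) then
      Yd p yR DR τ ^ 2 / PH p (supp τ) else 0) := fun τ => by
    split_ifs
    · exact hA0 τ
    · exact le_rfl
  have key : ∀ σ : ι → Option (α ⊕ β), ZA p yR yH DR DH j σ ^ 2 / PH p (supp σ) ≤
      (δ ^ 2 * (Yd p yR DR (lp σ) ^ 2 / PH p (supp (lp σ)))) *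
        (Yd p yH DH (rp σ) ^ 2 / PH p (supp (rp σ))) +
      (if D2 < PP p (supp (lp σ)) then Yd p yR DR (lp σ) ^ 2 / PH p (supp (lp σ)) else 0) *
        (Yd p yH DH (rp σ) ^ 2 / PH p (supp (rp σ))) := by
    intro σ
    have hR : 0 ≤ (δ ^ 2 * (Yd p yR DR (lp σ) ^ 2 / PH p (supp (lp σ)))) *
        (Yd p yH DH (rp σ) ^ 2 / PH p (supp (rp σ))) :=
      mul_nonneg (mul_nonneg (sq_nonneg _) (hA0 _)) (hB0 _)
    have hR2 : 0 ≤ (if D2 < PP p (supp (lp σ)) then
        Yd p yR DR (lp σ) ^ 2 / PH p (supp (lp σ)) else 0) *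
        (Yd p yH DH (rp σ) ^ 2 / PH p (supp (rp σ))) := mul_nonneg (hT0 _) (hB0 _)
    have hz0 : ZA p yR yH DR DH j σ = 0 → ZA p yR yH DR DH j σ ^ 2 / PH p (supp σ) ≤
      (δ ^ 2 * (Yd p yR DR (lp σ) ^ 2 / PH p (supp (lp σ)))) *
        (Yd p yH DH (rp σ) ^ 2 / PH p (supp (rp σ))) +
      (if D2 < PP p (supp (lp σ)) then Yd p yR DR (lp σ) ^ 2 / PH p (supp (lp σ)) else 0) *
        (Yd p yH DH (rp σ) ^ 2 / PH p (supp (rp σ))) := fun h => by
      rw [h]
      have : (0 : ℝ) ^ 2 / PH p (supp σ) = 0 := by simp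
      rw [this]
      exact add_nonneg hR hR2
    by_cases hc : cell σ (Sum.inl j) = ∅
    swap
    · exact hz0 (by unfold ZA; rw [if_neg hc])
    have hz : ZA p yR yH DR DH j σ = Yt yR (lp σ) *
        cg p yR DR (PP p (supp (lp σ))) (supp σ) * Yd p yH DH (rp σ) := by
      unfold ZA
      rw [if_pos hc]
    rcases lt_or_ge DR (PP p (supp (lp σ))) with hV | hV
    · refine hz0 ?_
      rw [hz, cg_zero hp yR (hPP _) hV]
      ring
    have hYt : Yd p yR DR (lp σ) = Yt yR (lp σ) := by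
      unfold Yd
      rw [if_pos hV]
    have hz2 : ZA p yR yH DR DH j σ ^ 2 / PH p (supp σ) =
        cg p yR DR (PP p (supp (lp σ))) (supp σ) ^ 2 *
          ((Yd p yR DR (lp σ) ^ 2 / PH p (supp (lp σ))) *
          (Yd p yH DH (rp σ) ^ 2 / PH p (supp (rp σ)))) := by
      rw [hz, ← hYt, PH_split]
      have n1 := (hPH (supp (lp σ))).ne'
      have n2 := (hPH (supp (rp σ))).ne'
      field_simp
    rcases lt_or_ge D2 (PP p (supp (lp σ))) with hV2 | hV2
    · have h3 : cg p yR DR (PP p (supp (lp σ))) (supp σ) ^ 2 ≤ 1 := by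
        have h4 := h1 _ (supp σ) (hPP (supp (lp σ)))
        rw [← sq_abs]
        exact pow_le_one₀ (abs_nonneg _) h4
      rw [hz2, if_pos hV2]
      have h5 := mul_le_mul_of_nonneg_right h3 (mul_nonneg (hA0 (lp σ)) (hB0 (rp σ)))
      linarith
    · by_cases hY : Yd p yH DH (rp σ) = 0
      · refine hz0 ?_
        rw [hz, hY, mul_zero]
      · have hU : PP p (supp (rp σ)) ≤ DH := by
          by_contra hcon
          exact hY (by unfold Yd; rw [if_neg hcon])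
        have h4 := h2 σ hV2 hU
        have h3 : cg p yR DR (PP p (supp (lp σ))) (supp σ) ^ 2 ≤ δ ^ 2 := by
          rw [← sq_abs]
          exact pow_le_pow_left₀ (abs_nonneg _) h4 2
        rw [hz2]
        have h5 := mul_le_mul_of_nonneg_right h3 (mul_nonneg (hA0 (lp σ)) (hB0 (rp σ)))
        linarith
  refine le_trans (Finset.sum_le_sum (fun σ _ => key σ)) ?_
  rw [Finset.sum_add_distrib]
  have c1 := coll_le (fun τ : ι → Option α => δ ^ 2 * (Yd p yR DR τ ^ 2 / PH p (supp τ)))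
    (fun υ : ι → Option β => Yd p yH DH υ ^ 2 / PH p (supp υ))
    (fun τ => mul_nonneg (sq_nonneg _) (hA0 τ)) hB0
  have c2 := coll_le (fun τ : ι → Option α => (if D2 < PP p (supp τ) then
      Yd p yR DR τ ^ 2 / PH p (supp τ) else 0))
    (fun υ : ι → Option β => Yd p yH DH υ ^ 2 / PH p (supp υ)) hT0 hB0
  refine le_trans (add_le_add c1 c2) ?_
  rw [← Finset.mul_sum, ← Finset.sum_filter]
  have hB : 0 ≤ ∑ υ : ι → Option β, Yd p yH DH υ ^ 2 / PH p (supp υ) :=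
    Finset.sum_nonneg (fun υ _ => hB0 υ)
  have c3 := mul_le_mul_of_nonneg_right htail hB
  linarith

end Pool.Agent.IPT
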