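/-
IPT/Killed.lean.  The n for which some repelled n + j is prime have tiny mass: collapse at the
repelled site (Ident), near-orthogonality (RS/Near) and KillSum.
-/
import Pool.Agent.IPT.Conc
import Pool.Agent.IPT.KillSum
import Pool.Agent.IPT.Ident
import Pool.Agent.AT.Prog
import Pool.Agent.RS.Near

namespace Pool.Agent.IPT
open Finset Pool.Agent.RS Pool.Agent.AT

private theorem kl_pow {L : ℕ} (hL : 100 ≤ L) : 256 * L ^ 4 * 2 ^ (24 * dd L) ≤ 2 ^ L := by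
  have h1 : L / 64 + 1 ≤ 2 ^ (L / 64) := Nat.lt_two_pow_self
  have h2 : L ≤ 64 * 2 ^ (L / 64) := by omega
  have h3 : L ^ 4 ≤ (64 * 2 ^ (L / 64)) ^ 4 := Nat.pow_le_pow_left h2 4
  have h4 : 256 * (64 * 2 ^ (L / 64)) ^ 4 * 2 ^ (24 * dd L) =
      2 ^ (32 + 4 * (L / 64) + 24 * dd L) := by
    rw [mul_pow, ← pow_mul, pow_add, pow_add, mul_comm (L / 64) 4]
    norm_num
    ring
  have h5 : 32 + 4 * (L / 64) + 24 * dd L ≤ L := by
    unfold dd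
    omega
  calc 256 * L ^ 4 * 2 ^ (24 * dd L) ≤ 256 * (64 * 2 ^ (L / 64)) ^ 4 * 2 ^ (24 * dd L) := by
        gcongr
    _ = 2 ^ (32 + 4 * (L / 64) + 24 * dd L) := h4
    _ ≤ 2 ^ L := Nat.pow_le_pow_right (by norm_num) h5

private theorem kl_win {L H P : ℕ} (hL : 100 ≤ L) (hH : H ≤ L ^ 2) (hP : 2 ^ L ≤ P) :
    2 ^ dd L ≤ P - H := by
  have h1 := kl_pow hL
  have h2 : 1 ≤ 2 ^ (24 * dd L) := Nat.one_le_two_pow
  have h3 : 256 * L ^ 4 ≤ 2 ^ L := le_trans (Nat.le_mul_of_pos_right _ h2) h1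
  have h4 : L ^ 2 ≤ L ^ 4 := Nat.pow_le_pow_right (by omega) (by norm_num)
  have h6 : dd L ≤ L - 1 := by unfold dd; omega
  have h7 : 2 ^ dd L ≤ 2 ^ (L - 1) := Nat.pow_le_pow_right (by norm_num) h6
  have h8 : 2 ^ L = 2 * 2 ^ (L - 1) := by
    rw [← pow_succ']
    congr 1
    omega
  omega

private theorem kl_not_dvd {P H L M b n : ℕ} {R : Finset ℕ} {k : ℕ} (t : Fin k → ℕ)
    (hL : 100 ≤ L) (hH : H ≤ L ^ 2)
    (hP : 2 ^ L ≤ P) (hn : n ∈ Nw P H M b) {j : ℕ} (hj : j ∈ R) (hp : (n + j).Prime) (i : Ix L) :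
    ¬ (px L i : ℤ) ∣ (n : ℤ) - a2 R t (Sum.inl ⟨j, hj⟩) := by
  intro h
  have h1 : (n : ℤ) - a2 R t (Sum.inl ⟨j, hj⟩) = ((n + j : ℕ) : ℤ) := by
    show (n : ℤ) - (-(j : ℤ)) = ((n + j : ℕ) : ℤ)
    push_cast
    ring
  rw [h1, Int.natCast_dvd_natCast] at h
  have h2 := (Nat.prime_dvd_prime_iff_eq (px_prime i) hp).1 h
  have h3 := px_le i
  have h4 := kl_win hL hH hP
  unfold Nw at hn
  have h5 := (mem_Ioc.1 (mem_filter.1 hn).1).1
  omega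

private theorem kl_M {P M : ℕ} (hP : 1 ≤ P) (hMP : (M : ℝ) ≤ (P : ℝ) ^ (1 / 1000 : ℝ)) :
    (M : ℝ) ^ 2 ≤ P := by
  have hP1 : (1 : ℝ) ≤ P := by exact_mod_cast hP
  have h1 : (M : ℝ) ≤ (P : ℝ) ^ (1 / 2 : ℝ) :=
    hMP.trans (Real.rpow_le_rpow_of_exponent_le hP1 (by norm_num))
  have h2 : ((P : ℝ) ^ (1 / 2 : ℝ)) ^ 2 = P := by
    rw [← Real.rpow_natCast, ← Real.rpow_mul (by positivity)]
    norm_num
  calc (M : ℝ) ^ 2 ≤ ((P : ℝ) ^ (1 / 2 : ℝ)) ^ 2 := by gcongr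
    _ = (P : ℝ) := h2

private theorem kl_main {P L M : ℕ} (hL : 100 ≤ L) (hP : 2 ^ L ≤ P) (hM0 : 0 < M)
    (hMP : (M : ℝ) ≤ (P : ℝ) ^ (1 / 1000 : ℝ)) :
    16 * (L : ℝ) ^ 2 * (2 ^ dd L * 2 ^ dd L) ^ 6 ≤ (P : ℝ) / M := by
  have hP1 : 1 ≤ P := le_trans Nat.one_le_two_pow hP
  have h1 := kl_M hP1 hMP
  have hM : (0 : ℝ) < M := by exact_mod_cast hM0
  have h2 : (16 * (L : ℝ) ^ 2 * (2 ^ dd L * 2 ^ dd L) ^ 6) ^ 2 ≤ P := by
    have h3 : ((256 * L ^ 4 * 2 ^ (24 * dd L) : ℕ) : ℝ) ≤ P := by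
      exact_mod_cast (kl_pow hL).trans hP
    have h4 : (16 * (L : ℝ) ^ 2 * (2 ^ dd L * 2 ^ dd L) ^ 6) ^ 2 =
        ((256 * L ^ 4 * 2 ^ (24 * dd L) : ℕ) : ℝ) := by
      push_cast
      rw [mul_comm 24 (dd L), pow_mul 2 (dd L) 24]
      ring
    rw [h4]
    exact h3
  rw [le_div_iff₀ hM]
  have h5 : (16 * (L : ℝ) ^ 2 * (2 ^ dd L * 2 ^ dd L) ^ 6 * M) ^ 2 ≤ (P : ℝ) ^ 2 := by
    rw [mul_pow, sq (P : ℝ)]
    exact mul_le_mul h2 h1 (by positivity) (by positivity)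
  exact (pow_le_pow_iff_left₀ (by positivity) (by positivity) (by norm_num)).1 h5

private theorem kl_num {L X Z k T D6 : ℝ} (hL : 100 ≤ L) (hX : 16 * L ^ 2 * D6 ≤ X) (hX1 : 1 ≤ X)
    (hZ : 1 ≤ Z) (hk : k ≤ L) (hT : T ≤ 5 * X) (hD : 0 ≤ D6) (hT0 : 0 ≤ T) :
    k * (6 / 5 * (T * (((1 / L ^ 4) ^ 2 + 1 / L ^ 4) * (2 * Z))) + 8 * D6) ≤ X / L * Z := by
  have hL0 : 0 < L := by linarith
  have h1 : (1 / L ^ 4) ^ 2 + 1 / L ^ 4 ≤ 2 / L ^ 4 := by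
    have h2 : 1 / L ^ 4 ≤ 1 := by
      rw [div_le_one (by positivity)]
      exact one_le_pow₀ (by linarith)
    have h3 : 0 ≤ 1 / L ^ 4 := by positivity
    have h4 : 2 / L ^ 4 = 1 / L ^ 4 + 1 / L ^ 4 := by ring
    rw [h4]
    nlinarith
  have h5 : 6 / 5 * (T * (((1 / L ^ 4) ^ 2 + 1 / L ^ 4) * (2 * Z))) ≤
      6 / 5 * (5 * X * (2 / L ^ 4 * (2 * Z))) := by
    gcongr
  have h6 : 6 / 5 * (5 * X * (2 / L ^ 4 * (2 * Z))) ≤ X * Z / (2 * L ^ 2) := by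
    have h7 : 6 / 5 * (5 * X * (2 / L ^ 4 * (2 * Z))) = X * Z * (24 / L ^ 4) := by ring
    have h8 : X * Z / (2 * L ^ 2) = X * Z * (1 / (2 * L ^ 2)) := by ring
    rw [h7, h8]
    apply mul_le_mul_of_nonneg_left _ (by positivity)
    rw [div_le_div_iff₀ (by positivity) (by positivity)]
    have h9 : L ^ 4 = L ^ 2 * L ^ 2 := by ring
    rw [h9]
    have h10 : 48 ≤ L ^ 2 := by nlinarith
    have h11 : 0 ≤ L ^ 2 := by positivity
    nlinarith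
  have h12 : 8 * D6 ≤ X * Z / (2 * L ^ 2) := by
    rw [le_div_iff₀ (by positivity)]
    nlinarith
  have h13 : 0 ≤ 6 / 5 * (T * (((1 / L ^ 4) ^ 2 + 1 / L ^ 4) * (2 * Z))) + 8 * D6 := by positivity
  calc k * (6 / 5 * (T * (((1 / L ^ 4) ^ 2 + 1 / L ^ 4) * (2 * Z))) + 8 * D6)
      ≤ L * (X * Z / (2 * L ^ 2) + X * Z / (2 * L ^ 2)) :=
        mul_le_mul hk (by linarith) h13 hL0.le
    _ = X / L * Z := by
        field_simp
        ring

private theorem kl_inv {L : ℝ} (hL : 100 ≤ L) : 2 * (1 / L ^ 5) ≤ 1 / L ^ 4 := by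
  have h0 : 0 < L := by linarith
  rw [mul_one_div, div_le_div_iff₀ (by positivity) (by positivity)]
  have e6 : L ^ 5 = L * L ^ 4 := by ring
  rw [e6]
  have e7 : 0 < L ^ 4 := by positivity
  nlinarith

section abs

variable {ι α β : Type} [Fintype ι] [DecidableEq ι] [DecidableEq α] [DecidableEq β] [Fintype α]
  [Fintype β]

private theorem kl_Yt_abs {y : Finset ι → ℝ} (h : ∀ S, |y S| ≤ 1) (σ : ι → Option α) :
    |Yt y σ| ≤ 1 := by
  unfold Yt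
  rw [Finset.abs_prod]
  exact Finset.prod_le_one (fun _ _ => abs_nonneg _) (fun j _ => h _)

private theorem kl_Yd_abs (p : ι → ℕ) {y : Finset ι → ℝ} (h : ∀ S, |y S| ≤ 1) (D : ℝ)
    (σ : ι → Option α) : |Yd p y D σ| ≤ 1 := by
  unfold Yd
  split_ifs
  · exact kl_Yt_abs h σ
  · rw [abs_zero]; exact zero_le_one

private theorem kl_Yd_level {p : ι → ℕ} {y : Finset ι → ℝ} {D : ℝ} {σ : ι → Option α}
    (h : Yd p y D σ ≠ 0) : PP p (supp σ) ≤ D := by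
  by_contra hc
  apply h
  unfold Yd
  rw [if_neg hc]

private theorem kl_ZA_abs {p : ι → ℕ} (hp : ∀ i, 2 ≤ p i) {yR yH : Finset ι → ℝ} {DR DH : ℝ}
    (h1 : ∀ S, |yR S| ≤ 1) (h2 : ∀ S, |yH S| ≤ 1)
    (hc : ∀ V U, 0 < V → |cg p yR DR V U| ≤ 1) (j : α) (σ : ι → Option (α ⊕ β)) :
    |ZA p yR yH DR DH j σ| ≤ 1 := by
  unfold ZA
  split_ifs
  · rw [abs_mul, abs_mul]
    have e1 := kl_Yt_abs h1 (lp σ)
    have e2 := hc (PP p (supp (lp σ))) (supp σ)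
      (lt_of_lt_of_le one_pos (one_le_PP hp _))
    have e3 := kl_Yd_abs p h2 DH (rp σ)
    have e4 : |Yt yR (lp σ)| * |cg p yR DR (PP p (supp (lp σ))) (supp σ)| ≤ 1 :=
      mul_le_one₀ e1 (abs_nonneg _) e2
    exact mul_le_one₀ e4 (abs_nonneg _) e3
  · rw [abs_zero]; exact zero_le_one

private theorem kl_ZA_level {p : ι → ℕ} (hp : ∀ i, 2 ≤ p i) {yR yH : Finset ι → ℝ} {DR DH : ℝ}
    (hDR : 0 ≤ DR) (j : α) (σ : ι → Option (α ⊕ β))
    (h : ZA p yR yH DR DH j σ ≠ 0) : PP p (supp σ) ≤ DR * DH := by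
  unfold ZA at h
  split_ifs at h with hcell
  · have h1 : cg p yR DR (PP p (supp (lp σ))) (supp σ) ≠ 0 :=
      (mul_ne_zero_iff.1 (mul_ne_zero_iff.1 h).1).2
    have h2 : Yd p yH DH (rp σ) ≠ 0 := (mul_ne_zero_iff.1 h).2
    have hpos : ∀ S, 0 < PP p S := fun S => lt_of_lt_of_le one_pos (one_le_PP hp S)
    have h3 : PP p (supp (lp σ)) ≤ DR := by
      by_contra hc
      exact h1 (cg_zero hp yR (hpos _) (not_le.1 hc) (supp σ))
    rw [PP_split]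
    exact mul_le_mul h3 (kl_Yd_level h2) (hpos _).le hDR
  · exact absurd rfl h

end abs

private theorem kl_yh_abs {L : ℕ} (t0 G : ℕ) (S : Finset (Ix L)) : |yh (px L) t0 G S| ≤ 1 := by
  rw [abs_of_nonneg (yh_nonneg (px L) t0 G S)]
  have h := yh_mono (p := px L) (fun i => (px_prime i).two_le) t0 G S ∅ (Finset.empty_subset S)
  rw [yh_empty] at h
  exact h

open Classical in
theorem killed (k : ℕ) : ∃ P0 : ℕ, ∀ P : ℕ, P0 ≤ P → ∀ (L M H : ℕ) (R : Finset ℕ)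
    (t : Fin k → ℕ), Adm2 P L M H R t → ∀ t0 G b : ℕ,
    ∑ n ∈ (Nw P H M b).filter (fun n => ∃ j ∈ R, (n + j).Prime), g2 L R t t0 G (n : ℤ) ^ 2 ≤
      ((P : ℝ) / M) / L * Z2 L R k t0 G := by
  obtain ⟨L1, h1⟩ := H1_ge
  obtain ⟨L2, h2⟩ := tail_x
  obtain ⟨L3, h3⟩ := card2 k
  obtain ⟨L4, h4⟩ := z2_prod k
  refine ⟨2 ^ (L1 + L2 + L3 + L4 + 100), fun P hP L M H R t hA2 t0 G b => ?_⟩
  have hA := hA2.adm
  have hL : L1 + L2 + L3 + L4 + 100 ≤ L := by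
    rw [hA.hL]
    exact Nat.le_log_of_pow_le (by norm_num) hP
  have hP0 : P ≠ 0 := by
    have : 1 ≤ 2 ^ (L1 + L2 + L3 + L4 + 100) := Nat.one_le_two_pow
    omega
  have hLP : 2 ^ L ≤ P := by
    rw [hA.hL]
    exact Nat.pow_log_le_self 2 hP0
  have hL100 : 100 ≤ L := by omega
  have hLr : (100 : ℝ) ≤ L := by exact_mod_cast hL100
  have hcardκ : (Fintype.card ({j : ℕ // j ∈ R} ⊕ Fin k) : ℝ) ≤ L := by
    have := h3 L (by omega) R hA.hk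
    linarith
  have hcard : (Fintype.card {j : ℕ // j ∈ R} : ℝ) = R.card := by
    rw [Fintype.card_coe]
  have hk0 : (R.card : ℝ) ≤ L := by
    have h5 : (Fintype.card {j : ℕ // j ∈ R} : ℝ) ≤
        (Fintype.card ({j : ℕ // j ∈ R} ⊕ Fin k) : ℝ) := by
      rw [Fintype.card_sum]
      push_cast
      have : (0 : ℝ) ≤ (Fintype.card (Fin k) : ℝ) := Nat.cast_nonneg _
      linarith
    rw [hcard] at h5
    linarith
  have hMX := kl_main hL100 hLP hA.hM0 hA.hMP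
  have hD1 : (1 : ℝ) ≤ 2 ^ dd L := one_le_pow₀ (by norm_num)
  have hDD1 : (1 : ℝ) ≤ 2 ^ dd L * 2 ^ dd L := one_le_mul_of_one_le_of_one_le hD1 hD1
  have hX1 : (1 : ℝ) ≤ (P : ℝ) / M := by
    refine le_trans ?_ hMX
    have h5 : (1 : ℝ) ≤ (2 ^ dd L * 2 ^ dd L) ^ 6 := one_le_pow₀ hDD1
    nlinarith
  have hHP : H ≤ P := by
    have h5 := kl_win hL100 hA.hH hLP
    have h6 : 0 < 2 ^ dd L := by positivity
    omega
  obtain ⟨n0, T, hT, hprog⟩ := prog hA.hM0 hHP b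
  obtain ⟨hs1, hH1, hH2⟩ := h1 L (by omega)
  have hH0 : 0 < H1 (px L) (2 ^ sx L) := lt_of_lt_of_le (by positivity) hH1
  have hp2 : ∀ i, 2 ≤ px L i := fun i => (px_prime i).two_le
  have hsub : ∀ i : Ix L, (1 : ℝ) ≤ (px L i : ℝ) - 1 := by
    intro i
    have : (2 : ℝ) ≤ px L i := by exact_mod_cast hp2 i
    linarith
  have hpow : (2 : ℝ) ^ dd L * 2 ^ dd L ≤ 2 ^ L := by
    rw [← pow_add]
    exact pow_le_pow_right₀ (by norm_num) (by unfold dd; omega)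
  have hL1 : (1 : ℝ) ≤ (L : ℝ) := by linarith
  have hL4 : (1 : ℝ) / (L : ℝ) ^ 4 ≤ 1 / 6 :=
    one_div_le_one_div_of_le (by norm_num) (by
      have : (1 : ℝ) ≤ (L : ℝ) ^ 3 := one_le_pow₀ hL1
      nlinarith)
  have hyx : ∀ S, |yx L S| ≤ 1 := fun S => wt_abs hp2 hH2 S
  have hcg : ∀ V U, 0 < V → |cg (px L) (yx L) (2 ^ dd L) V U| ≤ 1 :=
    fun V U hV => cg_wt_abs hp2 hH0 hV U
  have hkk : ∑ i : Ix L, (Fintype.card ({j : ℕ // j ∈ R} ⊕ Fin k) : ℝ) / (px L i : ℝ) ^ 2 ≤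
      1 / 2 := by
    have h4' := px_sum_sq (L := L) (by omega)
    have h5 : ∀ i ∈ (univ : Finset (Ix L)),
        (Fintype.card ({j : ℕ // j ∈ R} ⊕ Fin k) : ℝ) / (px L i : ℝ) ^ 2 ≤
          L * (1 / ((px L i : ℝ) - 1) ^ 2) := by
      intro i _
      have h6 := hsub i
      rw [mul_one_div]
      have h7 : ((px L i : ℝ) - 1) ^ 2 ≤ (px L i : ℝ) ^ 2 := by nlinarith
      exact div_le_div₀ (by positivity) hcardκ (by positivity) h7
    refine (sum_le_sum h5).trans ?_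
    rw [← mul_sum]
    have h8 : (L : ℝ) * ∑ i : Ix L, 1 / ((px L i : ℝ) - 1) ^ 2 ≤ L * (1 / (L : ℝ) ^ 5) :=
      mul_le_mul_of_nonneg_left h4' (by positivity)
    refine h8.trans ?_
    have h9 : (L : ℝ) * (1 / (L : ℝ) ^ 5) = 1 / (L : ℝ) ^ 4 := by
      field_simp
    rw [h9]
    linarith
  have hNN : ∀ S : Finset (Ix L), PP (px L) S ≤ 2 ^ dd L * 2 ^ dd L →
      ∑ i ∈ S, (Fintype.card ({j : ℕ // j ∈ R} ⊕ Fin k) : ℝ) / ((px L i : ℝ) - 1) ≤ 1 / 6 := by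
    intro S hS
    have h4' := px_sum (L := L) (by omega) S (hS.trans hpow)
    have h5 : ∀ i ∈ S, (Fintype.card ({j : ℕ // j ∈ R} ⊕ Fin k) : ℝ) / ((px L i : ℝ) - 1) ≤
          L * (1 / ((px L i : ℝ) - 1)) := by
      intro i _
      have h6 := hsub i
      rw [mul_one_div]
      exact div_le_div_of_nonneg_right hcardκ (by linarith)
    refine (sum_le_sum h5).trans ?_
    rw [← mul_sum]
    have h8 : (L : ℝ) * ∑ i ∈ S, 1 / ((px L i : ℝ) - 1) ≤ L * (1 / (L : ℝ) ^ 5) :=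
      mul_le_mul_of_nonneg_left h4' (by positivity)
    refine h8.trans ?_
    have h9 : (L : ℝ) * (1 / (L : ℝ) ^ 5) = 1 / (L : ℝ) ^ 4 := by
      field_simp
    rw [h9]
    exact hL4
  -- the square sums of the collapsed coefficients
  have hD2 : (2 : ℝ) ^ dd L / 2 ^ sx L ≤ 2 ^ dd L :=
    div_le_self (by positivity) (one_le_pow₀ (by norm_num))
  have hZA : ∀ j : {j : ℕ // j ∈ R},
      ∑ σ : Ix L → Option ({j : ℕ // j ∈ R} ⊕ Fin k),
        ZA (px L) (yx L) (yh (px L) t0 G) (2 ^ dd L) (2 ^ dd L) j σ ^ 2 / PH (px L) (supp σ) ≤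
      ((1 / (L : ℝ) ^ 4) ^ 2 + 1 / (L : ℝ) ^ 4) * (2 * Z2 L R k t0 G) := by
    intro j
    have hks := kill_sum (p := px L) hp2 (yx L) (yh (px L) t0 G) (DR := 2 ^ dd L)
      (DH := 2 ^ dd L) (D2 := 2 ^ dd L / 2 ^ sx L) (δ := 1 / (L : ℝ) ^ 4)
      (θ := 1 / (L : ℝ) ^ 4) (α := {j : ℕ // j ∈ R}) (β := Fin k) hcg (by
        intro σ hσ1 hσ2
        have hV : 0 < PP (px L) (supp (lp σ)) := lt_of_lt_of_le one_pos (one_le_PP hp2 _)
        have e1 := cg_wt_small hp2 (S1 := 2 ^ sx L) (one_le_pow₀ (by norm_num)) hH0 hH2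
          (D := 2 ^ dd L) hV (by
            rw [← le_div_iff₀ (by positivity)]
            exact hσ1) (supp σ)
        have e2 : PP (px L) (supp σ) ≤ 2 ^ dd L * 2 ^ dd L := by
          rw [PP_split]
          exact mul_le_mul (hσ1.trans hD2) hσ2
            (le_trans zero_le_one (one_le_PP hp2 _)) (by positivity)
        have e3 := px_sum (L := L) (by omega) (supp σ) (e2.trans hpow)
        refine e1.trans ?_
        have e4 : ∑ i ∈ supp σ, 2 / ((px L i : ℝ) - 1) =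
            2 * ∑ i ∈ supp σ, 1 / ((px L i : ℝ) - 1) := by
          rw [mul_sum]
          refine sum_congr rfl fun i _ => ?_
          ring
        rw [e4]
        exact (mul_le_mul_of_nonneg_left e3 (by norm_num)).trans (kl_inv hLr)) hD2 (h2 L (by omega) R hA.hk) j
    have hz := h4 L (by omega) R hA.hk t0 G
    have hLL : (0 : ℝ) ≤ (1 / (L : ℝ) ^ 4) ^ 2 + 1 / (L : ℝ) ^ 4 := by positivity
    exact hks.trans (mul_le_mul_of_nonneg_left hz hLL)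
  have hnear : ∀ j : {j : ℕ // j ∈ R},
      ∑ s ∈ range T, (∑ σ : Ix L → Option ({j : ℕ // j ∈ R} ⊕ Fin k),
        ZA (px L) (yx L) (yh (px L) t0 G) (2 ^ dd L) (2 ^ dd L) j σ *
          EE (px L) (a2 R t) σ (n0 + M * (s : ℤ))) ^ 2 ≤
      6 / 5 * (T * (((1 / (L : ℝ) ^ 4) ^ 2 + 1 / (L : ℝ) ^ 4) * (2 * Z2 L R k t0 G))) +
        8 * (2 ^ dd L * 2 ^ dd L) ^ 6 := by
    intro j
    have hN := near_orth (κ := {j : ℕ // j ∈ R} ⊕ Fin k) (p := px L) (M := M) hp2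
      (fun i j h => px_coprime i j h) (fun i => hA.hM _ (px_prime i) (px_gt i)) n0 (a2 R t)
      (a2_nd (by omega) hA2) hkk (D := 2 ^ dd L * 2 ^ dd L) (by positivity) hNN
      (ZA (px L) (yx L) (yh (px L) t0 G) (2 ^ dd L) (2 ^ dd L) j)
      (fun σ => kl_ZA_abs hp2 hyx (kl_yh_abs t0 G) hcg j σ)
      (fun σ hσ => kl_ZA_level hp2 (by positivity) j σ hσ) T
    have e1 := (abs_le.mp hN).2
    have e2 := hZA j
    have e3 := mul_le_mul_of_nonneg_left e2 (Nat.cast_nonneg (α := ℝ) T)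
    linarith
  have hT5 : (T : ℝ) ≤ 5 * ((P : ℝ) / M) := by
    have h5 : 4 * (P : ℝ) / M = 4 * ((P : ℝ) / M) := by ring
    rw [h5] at hT
    linarith
  have hnum := kl_num (L := L) (X := (P : ℝ) / M) (Z := Z2 L R k t0 G) (k := (R.card : ℝ)) (T := T)
    (D6 := (2 ^ dd L * 2 ^ dd L) ^ 6) hLr hMX hX1 (z2_one L R k t0 G) hk0 hT5 (by positivity)
    (by positivity)
  have hpr := hprog (fun n => g2 L R t t0 G n ^ 2)
    (fun n => ∃ j : {j : ℕ // j ∈ R}, ∀ i, ¬ (px L i : ℤ) ∣ n - a2 R t (Sum.inl j))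
    (fun n => sq_nonneg _)
  refine le_trans (sum_le_sum_of_subset_of_nonneg ?_ fun n _ _ => sq_nonneg _) (hpr.trans ?_)
  · intro n hn
    obtain ⟨hn1, j, hj, hjp⟩ := mem_filter.1 hn
    simp only [Finset.mem_filter]
    exact ⟨hn1, ⟨j, hj⟩, fun i => kl_not_dvd t hL100 hA.hH hLP hn1 hj hjp i⟩
  · refine le_trans ?_ hnum
    have hyx0 : yx L ∅ = 1 := wt_empty _ _
    have hpt : ∀ s ∈ (range T).filter (fun s : ℕ => ∃ j : {j : ℕ // j ∈ R},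
        ∀ i, ¬ (px L i : ℤ) ∣ (n0 + M * (s : ℤ)) - a2 R t (Sum.inl j)),
        g2 L R t t0 G (n0 + M * (s : ℤ)) ^ 2 ≤
        ∑ j : {j : ℕ // j ∈ R}, (∑ σ : Ix L → Option ({j : ℕ // j ∈ R} ⊕ Fin k),
          ZA (px L) (yx L) (yh (px L) t0 G) (2 ^ dd L) (2 ^ dd L) j σ *
          EE (px L) (a2 R t) σ (n0 + M * (s : ℤ))) ^ 2 := by
      intro s hs
      obtain ⟨j, hj⟩ := (Finset.mem_filter.mp hs).2
      have e1 : g2 L R t t0 G (n0 + M * (s : ℤ)) =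
          ∑ σ : Ix L → Option ({j : ℕ // j ∈ R} ⊕ Fin k),
          ZA (px L) (yx L) (yh (px L) t0 G) (2 ^ dd L) (2 ^ dd L) j σ *
          EE (px L) (a2 R t) σ (n0 + M * (s : ℤ)) :=
        id_A hp2 (a2 R t) (yx L) (yh (px L) t0 G) hyx0 _ _ j _ hj
      rw [e1]
      exact Finset.single_le_sum
        (f := fun j : {j : ℕ // j ∈ R} => (∑ σ : Ix L → Option ({j : ℕ // j ∈ R} ⊕ Fin k),
          ZA (px L) (yx L) (yh (px L) t0 G) (2 ^ dd L) (2 ^ dd L) j σ *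
          EE (px L) (a2 R t) σ (n0 + M * (s : ℤ))) ^ 2)
        (fun m _ => sq_nonneg _) (Finset.mem_univ j)
    refine le_trans (le_of_eq (sum_congr ?_ fun _ _ => rfl)) ((Finset.sum_le_sum hpt).trans ?_)
    · ext s
      simp only [Finset.mem_filter]
    refine (Finset.sum_le_sum_of_subset_of_nonneg (Finset.filter_subset _ _)
      fun s _ _ => Finset.sum_nonneg fun m _ => sq_nonneg _).trans ?_
    rw [Finset.sum_comm]
    refine (Finset.sum_le_sum fun j _ => hnear j).trans ?_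
    rw [Finset.sum_const, Finset.card_univ, nsmul_eq_mul, hcard]

end Pool.Agent.IPT
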