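/-
IPT/MassC.lean (job IPT-MassC).  The total mass (near orthogonality, as in AT/E0.lean).
-/
import Pool.Agent.IPT.Conc
import Pool.Agent.AT.Prog
import Pool.Agent.RS.Near

namespace Pool.Agent.IPT
open Finset Pool.Agent.RS Pool.Agent.AT

private theorem mass_sq_le {n : ℕ} (hn : 4 ≤ n) : n ^ 2 ≤ 2 ^ n := by
  induction n, hn using Nat.le_induction with
  | base => norm_num
  | succ m hm ih =>
    rw [pow_succ 2 m]
    nlinarith

private theorem mass_scale {P L M : ℕ} (hL : L = Nat.log 2 P) (hP : P ≠ 0) (hL7 : 10 ≤ L)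
    (hM0 : 0 < M) (hMP : (M : ℝ) ≤ (P : ℝ) ^ (1 / 1000 : ℝ)) :
    6 / 5 + 8 * ((2 : ℝ) ^ dd L * (2 : ℝ) ^ dd L) ^ 6 ≤ 11 / 5 * ((P : ℝ) / M) := by
  obtain ⟨A, hA⟩ : ∃ A : ℝ, A = (2 : ℝ) ^ ((L : ℝ) / 2) := ⟨_, rfl⟩
  have hLr : (10 : ℝ) ≤ L := by exact_mod_cast hL7
  have hA1 : 1 ≤ A := by
    rw [hA]
    exact Real.one_le_rpow (by norm_num) (by positivity)
  have hD : ((2 : ℝ) ^ dd L * (2 : ℝ) ^ dd L) ^ 6 ≤ A := by
    rw [hA, ← pow_add, ← pow_mul, ← Real.rpow_natCast]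
    apply Real.rpow_le_rpow_of_exponent_le (by norm_num)
    have h1 : (dd L + dd L) * 6 * 2 ≤ L := by
      unfold dd
      omega
    have h2 : (((dd L + dd L) * 6 : ℕ) : ℝ) * 2 ≤ L := by exact_mod_cast h1
    linarith
  have hPr : (0 : ℝ) < P := by exact_mod_cast Nat.pos_of_ne_zero hP
  have hMr : (0 : ℝ) < M := by exact_mod_cast hM0
  have h2L : (2 : ℝ) ^ L ≤ P := by
    have h1 : 2 ^ L ≤ P := by
      rw [hL]
      exact Nat.pow_log_le_self 2 hP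
    exact_mod_cast h1
  have hX : 8 * A ≤ (P : ℝ) / M := by
    have h1 : (P : ℝ) ^ (999 / 1000 : ℝ) ≤ (P : ℝ) / M := by
      rw [le_div_iff₀ hMr]
      calc (P : ℝ) ^ (999 / 1000 : ℝ) * M ≤ (P : ℝ) ^ (999 / 1000 : ℝ) * (P : ℝ) ^ (1 / 1000 : ℝ) :=
            mul_le_mul_of_nonneg_left hMP (Real.rpow_nonneg hPr.le _)
        _ = P := by
            rw [← Real.rpow_add hPr]
            norm_num
    have h2 : 8 * A ≤ (P : ℝ) ^ (999 / 1000 : ℝ) := by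
      have h3 : ((2 : ℝ) ^ L) ^ (999 / 1000 : ℝ) ≤ (P : ℝ) ^ (999 / 1000 : ℝ) :=
        Real.rpow_le_rpow (by positivity) h2L (by norm_num)
      refine le_trans ?_ h3
      rw [← Real.rpow_natCast, ← Real.rpow_mul (by norm_num), hA]
      have h4 : (8 : ℝ) * 2 ^ ((L : ℝ) / 2) = 2 ^ (3 + (L : ℝ) / 2) := by
        rw [Real.rpow_add (by norm_num)]
        norm_num
      rw [h4]
      apply Real.rpow_le_rpow_of_exponent_le (by norm_num)
      linarith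
    exact h2.trans h1
  linarith

theorem mass (k : ℕ) : ∃ P0 : ℕ, ∀ P : ℕ, P0 ≤ P → ∀ (L M H : ℕ) (R : Finset ℕ)
    (t : Fin k → ℕ), Adm2 P L M H R t → ∀ t0 G b : ℕ,
    ∑ n ∈ Nw P H M b, g2 L R t t0 G (n : ℤ) ^ 2 ≤ 7 * ((P : ℝ) / M) * Z2 L R k t0 G := by
  classical
  obtain ⟨L0, hL0⟩ := H1_ge
  obtain ⟨L1, hL1⟩ := card2 k
  refine ⟨2 ^ (max (max L0 L1) 10), fun P hP L M H R t hadm2 t0 G b => ?_⟩
  have hadm := hadm2.adm
  have hP0 : P ≠ 0 := by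
    have : 0 < 2 ^ (max (max L0 L1) 10) := by positivity
    omega
  have hLge : max (max L0 L1) 10 ≤ L := by
    rw [hadm.hL]
    exact Nat.le_log_of_pow_le (by norm_num) hP
  have hLL0 : L0 ≤ L := (le_max_left _ _).trans ((le_max_left _ _).trans hLge)
  have hLL1 : L1 ≤ L := (le_max_right _ _).trans ((le_max_left _ _).trans hLge)
  have hL10 : 10 ≤ L := (le_max_right _ _).trans hLge
  have hLr : (10 : ℝ) ≤ L := by exact_mod_cast hL10
  obtain ⟨hsx, hH1, hH1i⟩ := hL0 L hLL0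
  have h2L : 2 ^ L ≤ P := by
    rw [hadm.hL]
    exact Nat.pow_log_le_self 2 hP0
  have hHP : H ≤ P := hadm.hH.trans ((mass_sq_le (by omega)).trans h2L)
  obtain ⟨n0, T, hT, hsum⟩ := prog (P := P) (H := H) (M := M) hadm.hM0 hHP b
  have hs := hsum (fun n => g2 L R t t0 G n ^ 2) (fun _ => True) (fun n => sq_nonneg _)
  simp only [Finset.filter_true] at hs
  have hcard : (Fintype.card ({j : ℕ // j ∈ R} ⊕ Fin k) : ℝ) ≤ L := by
    have := hL1 L hLL1 R hadm.hk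
    linarith
  have hcard0 : (0 : ℝ) ≤ (Fintype.card ({j : ℕ // j ∈ R} ⊕ Fin k) : ℝ) := Nat.cast_nonneg _
  have hL4 : (L : ℝ) * (1 / (L : ℝ) ^ 5) ≤ 1 / 6 := by
    have h1 : (L : ℝ) * (1 / (L : ℝ) ^ 5) = 1 / (L : ℝ) ^ 4 := by
      field_simp
    rw [h1]
    apply one_div_le_one_div_of_le (by norm_num)
    calc (6 : ℝ) ≤ 10 ^ 4 := by norm_num
      _ ≤ (L : ℝ) ^ 4 := pow_le_pow_left₀ (by norm_num) hLr 4
  have hp2 : ∀ i, 2 ≤ px L i := fun i => (px_prime i).two_le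
  have hpr : ∀ i, (2 : ℝ) ≤ px L i := fun i => by exact_mod_cast hp2 i
  have key := near_orth (p := px L) (M := M) hp2 (fun i j h => px_coprime i j h)
    (fun i => hadm.hM _ (px_prime i) (px_gt i)) n0 (a2 R t)
    (a2_nd (by omega) hadm2)
    (by
      calc ∑ i, (Fintype.card ({j : ℕ // j ∈ R} ⊕ Fin k) : ℝ) / (px L i : ℝ) ^ 2 ≤
          ∑ i, (L : ℝ) * (1 / ((px L i : ℝ) - 1) ^ 2) := by
            refine sum_le_sum fun i _ => ?_
            have h1 := hpr i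
            have h2 : (0 : ℝ) < ((px L i : ℝ) - 1) ^ 2 := by
              apply pow_pos
              linarith
            have h3 : ((px L i : ℝ) - 1) ^ 2 ≤ (px L i : ℝ) ^ 2 := by
              apply pow_le_pow_left₀ <;> linarith
            calc (Fintype.card ({j : ℕ // j ∈ R} ⊕ Fin k) : ℝ) / (px L i : ℝ) ^ 2 ≤
                (Fintype.card ({j : ℕ // j ∈ R} ⊕ Fin k) : ℝ) / ((px L i : ℝ) - 1) ^ 2 :=
                  div_le_div_of_nonneg_left hcard0 h2 h3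
              _ ≤ (L : ℝ) / ((px L i : ℝ) - 1) ^ 2 := div_le_div_of_nonneg_right hcard h2.le
              _ = (L : ℝ) * (1 / ((px L i : ℝ) - 1) ^ 2) := by ring
        _ = (L : ℝ) * ∑ i, 1 / ((px L i : ℝ) - 1) ^ 2 := by rw [mul_sum]
        _ ≤ (L : ℝ) * (1 / (L : ℝ) ^ 5) :=
            mul_le_mul_of_nonneg_left (px_sum_sq (by omega)) (by linarith)
        _ ≤ 1 / 2 := by linarith)
    (D := (2 : ℝ) ^ dd L * (2 : ℝ) ^ dd L) (by positivity)
    (by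
      intro S hS
      have hS2 : PP (px L) S ≤ 2 ^ L := by
        refine hS.trans ?_
        rw [← pow_add]
        apply pow_le_pow_right₀ (by norm_num)
        unfold dd
        omega
      calc ∑ i ∈ S, (Fintype.card ({j : ℕ // j ∈ R} ⊕ Fin k) : ℝ) / ((px L i : ℝ) - 1) ≤
          ∑ i ∈ S, (L : ℝ) * (1 / ((px L i : ℝ) - 1)) := by
            refine sum_le_sum fun i _ => ?_
            have h1 := hpr i
            have h2 : (0 : ℝ) < (px L i : ℝ) - 1 := by linarith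
            calc (Fintype.card ({j : ℕ // j ∈ R} ⊕ Fin k) : ℝ) / ((px L i : ℝ) - 1) ≤
                (L : ℝ) / ((px L i : ℝ) - 1) := div_le_div_of_nonneg_right hcard h2.le
              _ = (L : ℝ) * (1 / ((px L i : ℝ) - 1)) := by ring
        _ = (L : ℝ) * ∑ i ∈ S, 1 / ((px L i : ℝ) - 1) := by rw [mul_sum]
        _ ≤ (L : ℝ) * (1 / (L : ℝ) ^ 5) :=
            mul_le_mul_of_nonneg_left (px_sum (by omega) S hS2) (by linarith)
        _ ≤ 1 / 6 := hL4)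
    (Y2 (px L) (yx L) (yh (px L) t0 G) (2 ^ dd L) (2 ^ dd L)) (fun σ => y2_abs hH1i σ)
    (fun σ h => y2_level h) T
  have hkey : ∑ s ∈ range T, g2 L R t t0 G (n0 + M * (s : ℤ)) ^ 2 ≤
      T * Z2 L R k t0 G + (1 / 5 * (T * Z2 L R k t0 G) +
        8 * ((2 : ℝ) ^ dd L * (2 : ℝ) ^ dd L) ^ 6) := by
    have h1 := (abs_le.1 key).2
    have h2 : ∑ s ∈ range T, g2 L R t t0 G (n0 + M * (s : ℤ)) ^ 2 - T * Z2 L R k t0 G ≤
        1 / 5 * (T * Z2 L R k t0 G) + 8 * ((2 : ℝ) ^ dd L * (2 : ℝ) ^ dd L) ^ 6 := h1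
    linarith
  refine hs.trans (hkey.trans ?_)
  have hZ := z2_one L R k t0 G
  have hsc := mass_scale hadm.hL hP0 hL10 hadm.hM0 hadm.hMP
  have hX0 : (0 : ℝ) ≤ (P : ℝ) / M := by positivity
  have hT' : (T : ℝ) ≤ 4 * ((P : ℝ) / M) + 1 := by
    refine hT.trans (le_of_eq ?_)
    ring
  have hD0 : (0 : ℝ) ≤ 8 * ((2 : ℝ) ^ dd L * (2 : ℝ) ^ dd L) ^ 6 := by positivity
  have h1 : (T : ℝ) * Z2 L R k t0 G ≤ (4 * ((P : ℝ) / M) + 1) * Z2 L R k t0 G :=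
    mul_le_mul_of_nonneg_right hT' (by linarith)
  have h2 : 8 * ((2 : ℝ) ^ dd L * (2 : ℝ) ^ dd L) ^ 6 ≤
      (8 * ((2 : ℝ) ^ dd L * (2 : ℝ) ^ dd L) ^ 6) * Z2 L R k t0 G :=
    le_mul_of_one_le_right hD0 hZ
  have h3 : (6 / 5 + 8 * ((2 : ℝ) ^ dd L * (2 : ℝ) ^ dd L) ^ 6) * Z2 L R k t0 G ≤
      11 / 5 * ((P : ℝ) / M) * Z2 L R k t0 G :=
    mul_le_mul_of_nonneg_right hsc (by linarith)
  nlinarith

end Pool.Agent.IPT
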