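/-
IPT/NLow.lean.  The mass of the products up to `2 ^ t` has the order of magnitude `t / log L`.
-/
import Pool.Agent.IPT.Defs
import Pool.Agent.AT.ParC
import Pool.Agent.RS.Tot
import Pool.Agent.Helper52.PrimeSums

namespace Pool.Agent.IPT
open Finset Pool.Agent.RS Pool.Agent.AT

/-- transfer of the sum -/
private theorem nn_eq {L : ℕ} (t : ℕ) :
    (open Classical in ∑ S ∈ (prz (2 ^ dd L) \ excl L ∅ (2 ^ dd L)).powerset.filter
      (fun S : Finset ℕ => (∏ q ∈ S, (q : ℝ)) ≤ 2 ^ t), 1 / ∏ q ∈ S, ((q : ℝ) - 1)) = NN L t := by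
  classical
  unfold NN
  symm
  refine Finset.sum_nbij' (fun S => S.map (Function.Embedding.subtype _))
    (fun S => S.subtype _) ?_ ?_ ?_ ?_ ?_
  · intro S hS
    rw [Finset.mem_filter] at hS
    rw [Finset.mem_filter, Finset.mem_powerset]
    constructor
    · intro q hq
      rw [Finset.mem_map] at hq
      obtain ⟨a, ha, rfl⟩ := hq
      exact a.2
    · rw [Finset.prod_map]
      exact hS.2
  · intro S hS
    rw [Finset.mem_filter, Finset.mem_powerset] at hS
    rw [Finset.mem_filter]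
    have h4 : (S.subtype (· ∈ prz (2 ^ dd L) \ excl L ∅ (2 ^ dd L))).map
        (Function.Embedding.subtype _) = S := by
      rw [Finset.subtype_map]
      exact Finset.filter_true_of_mem fun x hx => hS.1 hx
    have h5 : PP (px L) (S.subtype (· ∈ prz (2 ^ dd L) \ excl L ∅ (2 ^ dd L))) =
        ∏ q ∈ S, (q : ℝ) := by
      conv_rhs => rw [← h4]
      rw [Finset.prod_map]; rfl
    exact ⟨Finset.mem_univ _, by rw [h5]; exact hS.2⟩
  · intro S _
    exact Finset.map_injective (Function.Embedding.subtype _) (by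
      rw [Finset.subtype_map]
      refine Finset.filter_true_of_mem fun x hx => ?_
      rw [Finset.mem_map] at hx
      obtain ⟨a, _, rfl⟩ := hx
      exact a.2)
  · intro S hS
    rw [Finset.mem_filter, Finset.mem_powerset] at hS
    rw [Finset.subtype_map]
    exact Finset.filter_true_of_mem fun x hx => hS.1 hx
  · intro S _
    rw [Finset.prod_map]; rfl

theorem nn_low : ∃ c : ℝ, 0 < c ∧ ∃ L0 : ℕ, ∀ L : ℕ, L0 ≤ L → ∀ t : ℕ, t ≤ dd L →
    c * t / (Nat.log 2 L : ℝ) ≤ NN L t := by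
  classical
  have hlog2 : 0 < Real.log 2 := Real.log_pos (by norm_num)
  refine ⟨Real.exp (-9) * Real.log 2 / 24, by positivity, 4, ?_⟩
  intro L hL t ht
  set lam := Nat.log 2 L with hlam
  have hlam1 : 1 ≤ lam := Nat.le_log_of_pow_le (by norm_num) (by omega)
  have hlr : (1 : ℝ) ≤ lam := by exact_mod_cast hlam1
  set E0 := excl L ∅ (2 ^ dd L) with hE0
  have hE0p : E0 ⊆ prz (2 ^ dd L) := by
    rw [hE0]; unfold excl; exact Finset.filter_subset _ _
  have h1 := tot2 (z := 2 ^ dd L) (y := 2 ^ t) (one_le_pow₀ (by norm_num))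
    (by push_cast; exact pow_le_pow_right₀ (by norm_num) ht) hE0p
  rw [nn_eq t] at h1
  refine le_trans ?_ h1
  rw [Real.log_pow]
  have h2 := excl_prod (L := L) (by omega) (B := ∅) (by simp) (by simp) (2 ^ dd L)
  rw [← hE0, ← hlam] at h2
  have h5 : Real.exp (-9) / (24 * (lam : ℝ)) ≤ Real.exp (-9) / (12 * ((lam : ℝ) + 1)) := by
    apply div_le_div_of_nonneg_left (Real.exp_pos _).le (by positivity)
    linarith
  calc Real.exp (-9) * Real.log 2 / 24 * t / (lam : ℝ)
      = Real.exp (-9) / (24 * (lam : ℝ)) * ((t : ℝ) * Real.log 2) := by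
        field_simp
    _ ≤ (∏ q ∈ E0, (1 - 1 / (q : ℝ))) * ((t : ℝ) * Real.log 2) :=
        mul_le_mul_of_nonneg_right (h5.trans h2) (by positivity)

private theorem px_two {L : ℕ} (i : Ix L) : (2 : ℝ) ≤ px L i := by
  exact_mod_cast (px_prime i).two_le

private theorem px_le_PP {L : ℕ} {S : Finset (Ix L)} {i : Ix L} (hi : i ∈ S) :
    (px L i : ℝ) ≤ PP (px L) S := by
  unfold PP
  rw [← Finset.mul_prod_erase S _ hi]
  have h1 : (1 : ℝ) ≤ ∏ j ∈ S.erase i, (px L j : ℝ) := by
    have h2 := Finset.prod_le_prod (s := S.erase i) (f := fun _ => (1 : ℝ))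
      (g := fun j => (px L j : ℝ)) (fun _ _ => zero_le_one) (fun j _ => by
        have := px_two j
        linarith)
    rwa [Finset.prod_const_one] at h2
  have h3 := px_two i
  nlinarith

private theorem prod_split {a b : ℕ} (hab : a ≤ b) :
    ∏ q ∈ Helper52.pr 0 (2 ^ b), (1 - 1 / (q : ℝ)) =
      (∏ q ∈ Helper52.pr 0 (2 ^ a), (1 - 1 / (q : ℝ))) *
        ∏ q ∈ Helper52.pr (2 ^ a) (2 ^ b), (1 - 1 / (q : ℝ)) := by
  have hpw : 2 ^ a ≤ 2 ^ b := Nat.pow_le_pow_right (by norm_num) hab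
  rw [← Finset.prod_union]
  · apply Finset.prod_congr _ (fun _ _ => rfl)
    ext q
    rw [mem_union, Helper52.mem_pr, Helper52.mem_pr, Helper52.mem_pr]
    have h2 : 0 < 2 ^ a := by positivity
    constructor
    · rintro ⟨x, y, z⟩
      by_cases h : q ≤ 2 ^ a
      · left; exact ⟨x, h, z⟩
      · right; exact ⟨by omega, y, z⟩
    · rintro (⟨x, y, z⟩ | ⟨x, y, z⟩)
      · exact ⟨x, by omega, z⟩
      · exact ⟨by omega, y, z⟩
  · rw [Finset.disjoint_left]
    intro q h1 h2
    rw [Helper52.mem_pr] at h1 h2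
    omega

/-- the product of `1 + 1/(q-1)` over the primes between `2 ^ a` and `2 ^ b` -/
private theorem prod_up {a b : ℕ} (ha : 1 ≤ a) (hab : a ≤ b) :
    ∏ q ∈ Helper52.pr (2 ^ a) (2 ^ b), (1 + 1 / ((q : ℝ) - 1)) ≤
      Real.exp 9 / Real.log 2 * b / a := by
  have hl2 : 0 < Real.log 2 := Real.log_pos (by norm_num)
  have har : (0:ℝ) < a := by exact_mod_cast ha
  have hbr : (0:ℝ) < b := by exact_mod_cast (by omega : 0 < b)
  have h1 := prod_split hab
  have h2 := Helper52.prod_upper ha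
  have h3 := Helper52.prod_lower (a := b) (by omega)
  set A := ∏ q ∈ Helper52.pr 0 (2 ^ a), (1 - 1 / (q : ℝ)) with hA
  set B := ∏ q ∈ Helper52.pr 0 (2 ^ b), (1 - 1 / (q : ℝ)) with hB
  set M := ∏ q ∈ Helper52.pr (2 ^ a) (2 ^ b), (1 - 1 / (q : ℝ)) with hM
  have hMpos : 0 < M := by
    apply Finset.prod_pos
    intro q hq
    rw [Helper52.mem_pr] at hq
    have hq2 : (2:ℝ) ≤ q := by exact_mod_cast hq.2.2.two_le
    have : 1 / (q:ℝ) < 1 := by rw [div_lt_one (by linarith)]; linarith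
    linarith
  have hX : ∏ q ∈ Helper52.pr (2 ^ a) (2 ^ b), (1 + 1 / ((q : ℝ) - 1)) = M⁻¹ := by
    rw [hM, ← Finset.prod_inv_distrib]
    apply Finset.prod_congr rfl
    intro q hq
    rw [Helper52.mem_pr] at hq
    have hq2 : (2:ℝ) ≤ q := by exact_mod_cast hq.2.2.two_le
    have h5 : (q : ℝ) - 1 ≠ 0 := by linarith
    have h6 : (q : ℝ) ≠ 0 := by linarith
    have h7 : 1 - 1 / (q : ℝ) = ((q : ℝ) - 1) / q := by field_simp
    rw [h7, inv_div]
    field_simp
    ring
  rw [hX]
  have h4 : Real.exp (-9) / b ≤ 1 / (a * Real.log 2) * M := by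
    calc Real.exp (-9) / b ≤ B := h3
      _ = A * M := h1
      _ ≤ 1 / (a * Real.log 2) * M := mul_le_mul_of_nonneg_right h2 hMpos.le
  have h5 : Real.exp (-9) * Real.exp 9 = 1 := by rw [← Real.exp_add]; norm_num
  rw [inv_le_iff_one_le_mul₀ hMpos]
  have h6 : 1 / (a * Real.log 2) * M * (Real.exp 9 * b) =
      M * (Real.exp 9 / Real.log 2 * b / a) := by
    field_simp
  have h7 : Real.exp (-9) / b * (Real.exp 9 * b) = 1 := by
    field_simp
    linarith
  have h8 := mul_le_mul_of_nonneg_right h4 (by positivity : (0:ℝ) ≤ Real.exp 9 * b)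
  rw [h6, h7] at h8
  linarith

theorem nn_up : ∃ C : ℝ, 0 < C ∧ ∃ L0 : ℕ, ∀ L : ℕ, L0 ≤ L → ∀ t : ℕ, Nat.log 2 L ≤ t →
    NN L t ≤ C * t / (Nat.log 2 L : ℝ) := by
  classical
  have hl2 : 0 < Real.log 2 := Real.log_pos (by norm_num)
  refine ⟨Real.exp 9 / Real.log 2 + 1, by positivity, 4, ?_⟩
  intro L hL t ht
  set lam := Nat.log 2 L with hlam
  have hlam1 : 1 ≤ lam := Nat.le_log_of_pow_le (by norm_num) (by omega)
  have hlr : (1 : ℝ) ≤ lam := by exact_mod_cast hlam1
  have htr : (lam : ℝ) ≤ t := by exact_mod_cast ht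
  have hlL : 2 ^ lam ≤ L := Nat.pow_log_le_self 2 (by omega)
  have hL6 : 2 ^ (6 * lam) ≤ L ^ 6 := by
    rw [mul_comm, pow_mul]
    exact Nat.pow_le_pow_left hlL 6
  have hPH : ∀ S : Finset (Ix L), 0 ≤ 1 / PH (px L) S := fun S => by
    have := one_le_PH (fun i => (px_prime i).two_le) S
    positivity
  by_cases hc : t ≤ 6 * lam
  · -- only the empty set
    have h1 : (univ : Finset (Finset (Ix L))).filter (fun S => PP (px L) S ≤ 2 ^ t) ⊆ {∅} := by
      intro S hS
      rw [Finset.mem_filter] at hS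
      rw [Finset.mem_singleton]
      by_contra hne
      obtain ⟨i, hi⟩ := Finset.nonempty_iff_ne_empty.2 hne
      have h2 := (px_le_PP hi).trans hS.2
      have h3 : ((2 ^ t : ℕ) : ℝ) < (px L i : ℝ) := by
        have h4 : 2 ^ t < px L i :=
          lt_of_le_of_lt ((Nat.pow_le_pow_right (by norm_num) hc).trans hL6) (px_gt i)
        exact_mod_cast h4
      push_cast at h3
      linarith
    have h2 : NN L t ≤ 1 := by
      unfold NN
      refine (Finset.sum_le_sum_of_subset_of_nonneg h1 (fun S _ _ => hPH S)).trans ?_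
      rw [Finset.sum_singleton]
      unfold PH
      simp
    refine h2.trans ?_
    rw [le_div_iff₀ (by linarith)]
    have h3 : 0 ≤ Real.exp 9 / Real.log 2 * t := by positivity
    nlinarith
  · push Not at hc
    set W : Finset (Ix L) := univ.filter (fun i => px L i ≤ 2 ^ t) with hW
    have h1 : (univ : Finset (Finset (Ix L))).filter (fun S => PP (px L) S ≤ 2 ^ t) ⊆
        W.powerset := by
      intro S hS
      rw [Finset.mem_filter] at hS
      rw [Finset.mem_powerset]
      intro i hi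
      rw [hW, Finset.mem_filter]
      refine ⟨Finset.mem_univ _, ?_⟩
      have h2 := (px_le_PP hi).trans hS.2
      have h3 : (px L i : ℝ) ≤ ((2 ^ t : ℕ) : ℝ) := by push_cast; exact h2
      exact_mod_cast h3
    have h2 : NN L t ≤ ∑ S ∈ W.powerset, 1 / PH (px L) S := by
      unfold NN
      exact Finset.sum_le_sum_of_subset_of_nonneg h1 (fun S _ _ => hPH S)
    have h3 : ∑ S ∈ W.powerset, 1 / PH (px L) S = ∏ i ∈ W, (1 + 1 / ((px L i : ℝ) - 1)) := by
      rw [Finset.prod_one_add]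
      apply Finset.sum_congr rfl
      intro S _
      unfold PH
      rw [Finset.prod_div_distrib, Finset.prod_const_one]
    have h4 : ∏ i ∈ W, (1 + 1 / ((px L i : ℝ) - 1)) =
        ∏ q ∈ W.image (px L), (1 + 1 / ((q : ℝ) - 1)) := by
      rw [Finset.prod_image fun a _ b _ h => px_inj L h]
    have h5 : W.image (px L) ⊆ Helper52.pr (2 ^ (6 * lam)) (2 ^ t) := by
      intro q hq
      obtain ⟨i, hi, rfl⟩ := Finset.mem_image.1 hq
      rw [hW, Finset.mem_filter] at hi
      rw [Helper52.mem_pr]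
      exact ⟨lt_of_le_of_lt hL6 (px_gt i), hi.2, px_prime i⟩
    have h6 : ∏ q ∈ W.image (px L), (1 + 1 / ((q : ℝ) - 1)) ≤
        ∏ q ∈ Helper52.pr (2 ^ (6 * lam)) (2 ^ t), (1 + 1 / ((q : ℝ) - 1)) := by
      apply Finset.prod_le_prod_of_subset_of_one_le h5
      · intro q hq
        have hq := h5 hq
        rw [Helper52.mem_pr] at hq
        have hq2 : (2:ℝ) ≤ q := by exact_mod_cast hq.2.2.two_le
        have : 0 ≤ 1 / ((q : ℝ) - 1) := div_nonneg zero_le_one (by linarith)
        linarith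
      · intro q hq _
        rw [Helper52.mem_pr] at hq
        have hq2 : (2:ℝ) ≤ q := by exact_mod_cast hq.2.2.two_le
        have : 0 ≤ 1 / ((q : ℝ) - 1) := div_nonneg zero_le_one (by linarith)
        linarith
    have h7 := prod_up (a := 6 * lam) (b := t) (by omega) hc.le
    have h9 : NN L t ≤ Real.exp 9 / Real.log 2 * t / ((6 * lam : ℕ) : ℝ) := by
      calc NN L t ≤ ∑ S ∈ W.powerset, 1 / PH (px L) S := h2
        _ = ∏ i ∈ W, (1 + 1 / ((px L i : ℝ) - 1)) := h3
        _ = ∏ q ∈ W.image (px L), (1 + 1 / ((q : ℝ) - 1)) := h4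
        _ ≤ _ := h6
        _ ≤ _ := h7
    refine h9.trans ?_
    have h8 : Real.exp 9 / Real.log 2 * t / ((6 * lam : ℕ) : ℝ) ≤
        Real.exp 9 / Real.log 2 * t / lam := by
      apply div_le_div_of_nonneg_left (by positivity) (by linarith)
      push_cast
      linarith
    refine h8.trans ?_
    apply div_le_div_of_nonneg_right _ (by linarith)
    have h10 : (0:ℝ) ≤ t := Nat.cast_nonneg t
    rw [add_mul, one_mul]
    linarith

end Pool.Agent.IPT
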