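/-
IPT/YhS.lean.  The three moments of the step function.
-/
import Pool.Agent.IPT.YhF
import Pool.Agent.IPT.NLow

namespace Pool.Agent.IPT
open Finset Pool.Agent.RS Pool.Agent.AT

/-- interchange of the sums over the sets and over the steps -/
private theorem swap_sum (L t0 G : ℕ) (a : ℕ → ℝ) :
    (open Classical in ∑ S : Finset (Ix L),
      (∑ i ∈ range (G + 1), if PP (px L) S ≤ 2 ^ (t0 * 2 ^ i) then a i else 0) / PH (px L) S) =
      ∑ i ∈ range (G + 1), a i * NN L (t0 * 2 ^ i) := by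
  classical
  simp_rw [Finset.sum_div]
  rw [Finset.sum_comm]
  apply Finset.sum_congr rfl
  intro i _
  unfold NN
  rw [Finset.mul_sum, Finset.sum_filter]
  apply Finset.sum_congr rfl
  intro S _
  split_ifs
  · rw [mul_one_div]
  · rw [zero_div]

theorem yh_sums : ∃ c : ℝ, 0 < c ∧ ∃ C : ℝ, 0 < C ∧ ∃ L0 : ℕ, ∀ L : ℕ, L0 ≤ L → ∀ t0 G : ℕ,
    Nat.log 2 L ≤ t0 → t0 * 2 ^ G ≤ dd L →
    c * (((G : ℝ) + 1) * t0 / (Nat.log 2 L : ℝ)) ≤ SA (px L) (yh (px L) t0 G) ∧
    c * ((t0 : ℝ) / (Nat.log 2 L : ℝ)) ≤ SX (px L) (yh (px L) t0 G) ∧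
    SX (px L) (yh (px L) t0 G) ≤ C * ((t0 : ℝ) / (Nat.log 2 L : ℝ)) ∧
    SE (px L) (yh (px L) t0 G) ≤ C * (((G : ℝ) + 1) * t0 ^ 2 / (Nat.log 2 L : ℝ)) := by
  classical
  obtain ⟨c1, hc1, L1, hlow⟩ := nn_low
  obtain ⟨C1, hC1, L2, hup⟩ := nn_up
  refine ⟨c1 / 2, by positivity, 2 * C1, by positivity, max (max L1 L2) 4, ?_⟩
  intro L hL t0 G ht0 htG
  have hL1 : L1 ≤ L := (le_max_left _ _).trans ((le_max_left _ _).trans hL)
  have hL2 : L2 ≤ L := (le_max_right _ _).trans ((le_max_left _ _).trans hL)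
  have hL4 : 4 ≤ L := (le_max_right _ _).trans hL
  have hl2 : 0 < Real.log 2 := Real.log_pos (by norm_num)
  have hl2' : Real.log 2 ≤ 1 := by
    have := Real.log_two_lt_d9
    linarith
  set lam := Nat.log 2 L with hlam
  have hlam1 : 1 ≤ lam := Nat.le_log_of_pow_le (by norm_num) (by omega)
  have hlr : (1 : ℝ) ≤ lam := by exact_mod_cast hlam1
  have hlr0 : (0 : ℝ) < lam := by linarith
  have htr : (lam : ℝ) ≤ t0 := by exact_mod_cast ht0
  have ht0r : (0 : ℝ) ≤ t0 := Nat.cast_nonneg t0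
  have hp2 : ∀ i, 2 ≤ px L i := fun i => (px_prime i).two_le
  have hPH : ∀ S : Finset (Ix L), 0 < PH (px L) S := fun S => by
    have := one_le_PH hp2 S
    linarith
  have hti : ∀ i ∈ range (G + 1), t0 * 2 ^ i ≤ dd L := by
    intro i hi
    rw [Finset.mem_range] at hi
    exact (Nat.mul_le_mul_left t0 (Nat.pow_le_pow_right (by norm_num) (by omega))).trans htG
  have hti' : ∀ i : ℕ, lam ≤ t0 * 2 ^ i := by
    intro i
    exact ht0.trans (Nat.le_mul_of_pos_right t0 (by positivity))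
  have hlo : ∀ i ∈ range (G + 1), c1 * (t0 * 2 ^ i) / lam ≤ NN L (t0 * 2 ^ i) := by
    intro i hi
    have := hlow L hL1 (t0 * 2 ^ i) (hti i hi)
    push_cast at this
    exact this
  have hhi : ∀ i ∈ range (G + 1), NN L (t0 * 2 ^ i) ≤ C1 * (t0 * 2 ^ i) / lam := by
    intro i _
    have := hup L hL2 (t0 * 2 ^ i) (hti' i)
    push_cast at this
    exact this
  have hpow : ∀ i : ℕ, (1 / 2 : ℝ) ^ i * 2 ^ i = 1 := by
    intro i
    rw [← mul_pow]
    norm_num
  have hpow4 : ∀ i : ℕ, (1 / 4 : ℝ) ^ i * 2 ^ i = (1 / 2) ^ i := by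
    intro i
    rw [← mul_pow]
    norm_num
  have hgeo : ∑ i ∈ range (G + 1), (1 / 2 : ℝ) ^ i ≤ 2 := by
    have h1 := geom_sum_eq (x := (1 / 2 : ℝ)) (by norm_num) (G + 1)
    rw [h1]
    have h2 : (0 : ℝ) < (1 / 2) ^ (G + 1) := by positivity
    rw [div_le_iff_of_neg (by norm_num)]
    linarith
  refine ⟨?_, ?_, ?_, ?_⟩
  · -- first moment
    have h1 : ∑ i ∈ range (G + 1), (1 / 2 : ℝ) ^ (i + 1) * NN L (t0 * 2 ^ i) ≤
        SA (px L) (yh (px L) t0 G) := by
      rw [← swap_sum L t0 G (fun i => (1 / 2 : ℝ) ^ (i + 1))]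
      unfold SA
      apply Finset.sum_le_sum
      intro S _
      exact div_le_div_of_nonneg_right (yh_ge (px L) t0 G S) (hPH S).le
    refine le_trans ?_ h1
    have h2 : ∑ i ∈ range (G + 1), c1 / 2 * (t0 / lam : ℝ) ≤
        ∑ i ∈ range (G + 1), (1 / 2 : ℝ) ^ (i + 1) * NN L (t0 * 2 ^ i) := by
      apply Finset.sum_le_sum
      intro i hi
      have h3 := mul_le_mul_of_nonneg_left (hlo i hi)
        (by positivity : (0 : ℝ) ≤ (1 / 2) ^ (i + 1))
      refine le_trans (le_of_eq ?_) h3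
      have h4 : (1 / 2 : ℝ) ^ (i + 1) * (c1 * (t0 * 2 ^ i) / lam) =
          c1 / 2 * (t0 / lam) * ((1 / 2) ^ i * 2 ^ i) := by
        rw [pow_succ]
        ring
      rw [h4, hpow, mul_one]
    refine le_trans (le_of_eq ?_) h2
    rw [Finset.sum_const, Finset.card_range, nsmul_eq_mul]
    push_cast
    ring
  · -- lower bound of the second moment
    have h1 : NN L t0 ≤ SX (px L) (yh (px L) t0 G) := by
      unfold SX NN
      rw [Finset.sum_filter]
      apply Finset.sum_le_sum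
      intro S _
      have h2 := div_le_div_of_nonneg_right (yh_sq_ge (p := px L) t0 G S) (hPH S).le
      refine le_trans (le_of_eq ?_) h2
      split_ifs
      · rfl
      · rw [zero_div]
    have h2 := hlo 0 (by rw [Finset.mem_range]; omega)
    rw [pow_zero, mul_one, pow_zero, mul_one] at h2
    refine le_trans ?_ (h2.trans h1)
    have h3 : 0 ≤ c1 * ((t0 : ℝ) / lam) := by positivity
    have h4 : c1 * (t0 : ℝ) / lam = c1 * ((t0 : ℝ) / lam) := by ring
    rw [h4]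
    linarith
  · -- upper bound of the second moment
    have h1 : SX (px L) (yh (px L) t0 G) ≤
        ∑ i ∈ range (G + 1), (1 / 4 : ℝ) ^ i * NN L (t0 * 2 ^ i) := by
      rw [← swap_sum L t0 G (fun i => (1 / 4 : ℝ) ^ i)]
      unfold SX
      apply Finset.sum_le_sum
      intro S _
      exact div_le_div_of_nonneg_right (yh_sq (px L) t0 G S) (hPH S).le
    refine h1.trans ?_
    have h2 : ∑ i ∈ range (G + 1), (1 / 4 : ℝ) ^ i * NN L (t0 * 2 ^ i) ≤
        ∑ i ∈ range (G + 1), (1 / 2 : ℝ) ^ i * (C1 * (t0 / lam)) := by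
      apply Finset.sum_le_sum
      intro i hi
      have h3 := mul_le_mul_of_nonneg_left (hhi i hi)
        (by positivity : (0 : ℝ) ≤ (1 / 4) ^ i)
      refine le_trans h3 (le_of_eq ?_)
      have h4 : (1 / 4 : ℝ) ^ i * (C1 * (t0 * 2 ^ i) / lam) =
          ((1 / 4) ^ i * 2 ^ i) * (C1 * (t0 / lam)) := by ring
      rw [h4, hpow4]
    refine h2.trans ?_
    rw [← Finset.sum_mul]
    have h5 : 0 ≤ C1 * ((t0 : ℝ) / lam) := by positivity
    have h6 := mul_le_mul_of_nonneg_right hgeo h5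
    linarith
  · -- logarithmic moment
    have h1 : SE (px L) (yh (px L) t0 G) ≤
        ∑ i ∈ range (G + 1), (1 / 4 : ℝ) ^ i * (((t0 * 2 ^ i : ℕ) : ℝ) * Real.log 2) *
          NN L (t0 * 2 ^ i) := by
      rw [← swap_sum L t0 G (fun i => (1 / 4 : ℝ) ^ i * (((t0 * 2 ^ i : ℕ) : ℝ) * Real.log 2))]
      unfold SE
      apply Finset.sum_le_sum
      intro S _
      have h2 := div_le_div_of_nonneg_right (yh_sq_log hp2 t0 G S) (hPH S).le
      refine le_trans (le_of_eq ?_) h2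
      ring
    refine h1.trans ?_
    have h2 : ∑ i ∈ range (G + 1), (1 / 4 : ℝ) ^ i * (((t0 * 2 ^ i : ℕ) : ℝ) * Real.log 2) *
          NN L (t0 * 2 ^ i) ≤
        ∑ i ∈ range (G + 1), C1 * (t0 ^ 2 / lam : ℝ) := by
      apply Finset.sum_le_sum
      intro i hi
      have h3 := mul_le_mul_of_nonneg_left (hhi i hi)
        (by positivity : (0 : ℝ) ≤ (1 / 4 : ℝ) ^ i * (((t0 * 2 ^ i : ℕ) : ℝ) * Real.log 2))
      refine le_trans h3 ?_
      have h4 : (1 / 4 : ℝ) ^ i * (((t0 * 2 ^ i : ℕ) : ℝ) * Real.log 2) *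
          (C1 * (t0 * 2 ^ i) / lam) =
          (((1 / 4) ^ i * 2 ^ i) * 2 ^ i) * (C1 * (t0 ^ 2 / lam)) * Real.log 2 := by
        push_cast
        ring
      rw [h4, hpow4, hpow, one_mul]
      have h5 : 0 ≤ C1 * ((t0 : ℝ) ^ 2 / lam) := by positivity
      have h6 := mul_le_mul_of_nonneg_left hl2' h5
      rwa [mul_one] at h6
    refine h2.trans ?_
    rw [Finset.sum_const, Finset.card_range, nsmul_eq_mul]
    have h5 : 0 ≤ C1 * (((G : ℝ) + 1) * t0 ^ 2 / lam) := by positivity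
    have h6 : ((G + 1 : ℕ) : ℝ) * (C1 * ((t0 : ℝ) ^ 2 / lam)) =
        C1 * (((G : ℝ) + 1) * t0 ^ 2 / lam) := by
      push_cast
      ring
    rw [h6]
    linarith

end Pool.Agent.IPT
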