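/-
IPT/Cls.lean.  One residue class: some n has no prime n + j, j ∈ R, and at least m + 1 primes n + t i.
-/
import Pool.Agent.IPT.MassC
import Pool.Agent.IPT.Killed
import Pool.Agent.IPT.AttrP
import Pool.Agent.IPT.AttrC
import Pool.Agent.IPT.YhS

namespace Pool.Agent.IPT
open Finset Pool.Agent.RS Pool.Agent.AT

private theorem cls_sq_pow (n : ℕ) (h : 4 ≤ n) : n ^ 2 ≤ 2 ^ n := by
  induction n, h using Nat.le_induction with
  | base => norm_num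
  | succ n hn ih =>
    rw [pow_succ 2 n]
    nlinarith

/-- the numbers -/
private theorem cls_num {c5 κ0 K : ℝ} (hκ : 0 < κ0) (hK : 0 < K) {k G : ℕ}
    (hKd : K = 20000 * k * ((G : ℝ) + 1) / c5) (hk : 0 < k) (h5 : 0 < c5)
    {Λ : ℕ} (hΛ4 : 4 ≤ Λ) (hΛK : 2 * K ≤ Λ) (hΛκ : 1 / (3 / 10 * κ0) ≤ Λ)
    {L : ℕ} (hL : 2 ^ Λ ≤ L) (hL2 : 20000 ≤ L) :
    (1 : ℝ) ≤ Nat.log 2 L ∧ (L : ℝ) / 20000 ≤ dd L ∧
      (Nat.log 2 L : ℝ) + 1 ≤ c5 * dd L / (k * ((G : ℝ) + 1)) ∧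
      1 / (L : ℝ) ≤ 3 / 10 * κ0 * Nat.log 2 L := by
  have hL0 : L ≠ 0 := by omega
  have h1 : Λ ≤ Nat.log 2 L := (Nat.le_log_iff_pow_le (by norm_num) hL0).2 hL
  have h2 : (Λ : ℝ) ≤ Nat.log 2 L := by exact_mod_cast h1
  have h3 : (4 : ℝ) ≤ Λ := by exact_mod_cast hΛ4
  have h4 : (Nat.log 2 L) ^ 2 ≤ L :=
    (cls_sq_pow _ (hΛ4.trans h1)).trans (Nat.pow_log_le_self 2 hL0)
  have h5' : (Nat.log 2 L : ℝ) ^ 2 ≤ L := by exact_mod_cast h4
  have hLr : (20000 : ℝ) ≤ L := by exact_mod_cast hL2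
  have hdd : (L : ℝ) / 20000 ≤ dd L := by
    have h6 : L < 10000 * (L / 10000 + 1) := by omega
    have h7 : (L : ℝ) < 10000 * ((dd L : ℝ) + 1) := by
      unfold dd
      exact_mod_cast h6
    linarith
  refine ⟨by linarith, hdd, ?_, ?_⟩
  · have hkr : (0 : ℝ) < k := by exact_mod_cast hk
    have hG : (0 : ℝ) < (G : ℝ) + 1 := by positivity
    have e1 : (L : ℝ) / K ≤ c5 * dd L / (k * ((G : ℝ) + 1)) := by
      have e2 : (L : ℝ) / K = c5 * (L / 20000) / (k * ((G : ℝ) + 1)) := by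
        rw [hKd]
        field_simp
      rw [e2]
      refine div_le_div_of_nonneg_right ?_ (by positivity)
      exact mul_le_mul_of_nonneg_left hdd h5.le
    refine le_trans ?_ e1
    rw [le_div_iff₀ hK]
    have h8 : 2 * K ≤ Nat.log 2 L := hΛK.trans h2
    have h9 : (4 : ℝ) ≤ Nat.log 2 L := h3.trans h2
    nlinarith
  · have h8 : 1 / (3 / 10 * κ0) ≤ Nat.log 2 L := hΛκ.trans h2
    have h9 : 1 ≤ 3 / 10 * κ0 * Nat.log 2 L := by
      rw [div_le_iff₀ (by positivity)] at h8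
      linarith
    refine le_trans ?_ h9
    rw [div_le_one (by linarith)]
    linarith

open Classical in
/-- exchange of the sums and the bound if no n is good -/
private theorem cls_cnt {k m : ℕ} (N : Finset ℕ) (R : Finset ℕ) (t : Fin k → ℕ) (w : ℕ → ℝ)
    (hw : ∀ n, 0 ≤ w n)
    (hcon : ∀ n ∈ N, (∀ j ∈ R, ¬ (n + j).Prime) →
      ((univ : Finset (Fin k)).filter (fun i => (n + t i).Prime)).card < m + 1) :
    ∑ i : Fin k, ∑ n ∈ N.filter (fun n => (n + t i).Prime), w n ≤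
      m * ∑ n ∈ N, w n + k * ∑ n ∈ N.filter (fun n => ∃ j ∈ R, (n + j).Prime), w n := by
  have h1 : ∑ i : Fin k, ∑ n ∈ N.filter (fun n => (n + t i).Prime), w n =
      ∑ n ∈ N, w n * (((univ : Finset (Fin k)).filter (fun i => (n + t i).Prime)).card : ℝ) := by
    have h2 : ∀ i : Fin k, ∑ n ∈ N.filter (fun n => (n + t i).Prime), w n =
        ∑ n ∈ N, if (n + t i).Prime then w n else 0 := fun i => Finset.sum_filter _ _
    rw [Finset.sum_congr rfl (fun i _ => h2 i), Finset.sum_comm]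
    refine Finset.sum_congr rfl fun n _ => ?_
    rw [← Finset.sum_filter, Finset.sum_const, nsmul_eq_mul, mul_comm]
  rw [h1, Finset.mul_sum, Finset.mul_sum, Finset.sum_filter, ← Finset.sum_add_distrib]
  refine Finset.sum_le_sum fun n hn => ?_
  have h0 := hw n
  by_cases h : ∃ j ∈ R, (n + j).Prime
  · rw [if_pos h]
    have h3 : (((univ : Finset (Fin k)).filter (fun i => (n + t i).Prime)).card : ℝ) ≤ k := by
      have h4 := Finset.card_filter_le (univ : Finset (Fin k)) (fun i => (n + t i).Prime)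
      rw [Finset.card_univ, Fintype.card_fin] at h4
      exact_mod_cast h4
    have h5 : (0 : ℝ) ≤ (m : ℝ) * w n := by positivity
    have h6 := mul_le_mul_of_nonneg_left h3 h0
    linarith
  · rw [if_neg h, add_zero]
    push Not at h
    have h3 := hcon n hn h
    have h4 : (((univ : Finset (Fin k)).filter (fun i => (n + t i).Prime)).card : ℝ) ≤ m := by
      exact_mod_cast Nat.lt_succ_iff.1 h3
    have h6 := mul_le_mul_of_nonneg_left h4 h0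
    linarith

/-- the lower bound for one site -/
private theorem cls_site {A B Q lP Lr T ps y : ℝ} (hA : 0 ≤ A) (hB : 0 ≤ B) (hQ : A ≤ Q)
    (hps : B ≤ 4 / 5 * ps - y) (h : Q * (4 / 5 * ps - y) ≤ 2 * lP * T) (hT : 0 ≤ T)
    (hl : lP ≤ Lr) : A * B ≤ 2 * Lr * T := by
  have h1 : A * B ≤ Q * (4 / 5 * ps - y) := mul_le_mul hQ hps hB (hA.trans hQ)
  have h2 : lP * T ≤ Lr * T := mul_le_mul_of_nonneg_right hl hT
  linarith

/-- the final numerical contradiction -/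
private theorem cls_fin {c C c5 κ0 L lam t0 G k A B Z Pm T sa sx mr : ℝ} (hc : 0 < c) (hC : 0 < C)
    (hL : 0 < L) (hlam : 0 < lam) (ht : 0 < t0) (hG : 0 < G) (hk : 0 < k) (hZ : 0 < Z)
    (hPm : 0 < Pm) (hκ : 0 < κ0)
    (hsa : c * (G * t0 / lam) ≤ sa) (hsx0 : 0 < sx) (hsx : sx ≤ C * (t0 / lam))
    (hA : A = sa ^ 2 / (8 * sx) * Z) (hB : B = Pm * (κ0 * lam) / 2)
    (ht0 : c5 * L / 40000 ≤ k * G * t0)
    (hGG : 7 * mr + 9 ≤ c ^ 2 * c5 / (320000 * C) * κ0 / 4 * G)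
    (hT : k * (A * B) ≤ 2 * L * T) (hT2 : T ≤ (7 * mr + 1) * (Pm * Z)) : False := by
  have h1 : c ^ 2 * G ^ 2 * t0 / (8 * C * lam) ≤ sa ^ 2 / (8 * sx) := by
    have e1 : c ^ 2 * G ^ 2 * t0 / (8 * C * lam) = (c * (G * t0 / lam)) ^ 2 / (8 * (C * (t0 / lam))) := by
      field_simp
    rw [e1]
    have h2 : 0 ≤ c * (G * t0 / lam) := by positivity
    have h3 : (c * (G * t0 / lam)) ^ 2 ≤ sa ^ 2 := pow_le_pow_left₀ h2 hsa 2
    exact div_le_div₀ (by positivity) h3 (by positivity) (by linarith)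
  have h4 : c ^ 2 * c5 / (320000 * C) * G * (L / lam) ≤ k * (sa ^ 2 / (8 * sx)) := by
    have h5 : k * (c ^ 2 * G ^ 2 * t0 / (8 * C * lam)) ≤ k * (sa ^ 2 / (8 * sx)) :=
      mul_le_mul_of_nonneg_left h1 hk.le
    refine le_trans ?_ h5
    have e2 : c ^ 2 * c5 / (320000 * C) * G * (L / lam) =
        (c ^ 2 * G / (8 * C * lam)) * (c5 * L / 40000) := by
      field_simp
      ring
    have e3 : k * (c ^ 2 * G ^ 2 * t0 / (8 * C * lam)) = (c ^ 2 * G / (8 * C * lam)) * (k * G * t0) := by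
      field_simp
    rw [e2, e3]
    exact mul_le_mul_of_nonneg_left ht0 (by positivity)
  have h6 : c ^ 2 * c5 / (320000 * C) * G * (L / lam) * (Z * B) ≤ k * (A * B) := by
    have hB0 : 0 ≤ Z * B := by
      rw [hB]
      positivity
    have h7 := mul_le_mul_of_nonneg_right h4 hB0
    have e4 : k * (sa ^ 2 / (8 * sx)) * (Z * B) = k * (A * B) := by
      rw [hA]
      ring
    rw [e4] at h7
    exact h7
  have e5 : c ^ 2 * c5 / (320000 * C) * G * (L / lam) * (Z * B) =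
      2 * L * ((c ^ 2 * c5 / (320000 * C) * κ0 / 4 * G) * (Pm * Z)) := by
    rw [hB]
    field_simp
    ring
  rw [e5] at h6
  have h8 : 2 * L * ((c ^ 2 * c5 / (320000 * C) * κ0 / 4 * G) * (Pm * Z)) ≤
      2 * L * ((7 * mr + 1) * (Pm * Z)) := by
    refine h6.trans (hT.trans ?_)
    exact mul_le_mul_of_nonneg_left hT2 (by positivity)
  have h9 : (c ^ 2 * c5 / (320000 * C) * κ0 / 4 * G) * (Pm * Z) ≤ (7 * mr + 1) * (Pm * Z) :=
    le_of_mul_le_mul_left h8 (by positivity)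
  have h10 : 0 < Pm * Z := by positivity
  have h11 := le_of_mul_le_mul_right h9 h10
  linarith

open Classical in
theorem tuple_class (m : ℕ) {κ0 : ℝ} (hκ : 0 < κ0) : ∃ k : ℕ, 0 < k ∧ ∃ P0 : ℕ, ∀ P : ℕ,
    P0 ≤ P → ∀ (L M H : ℕ) (R : Finset ℕ), Adm P L M H R → ∀ (b : ℕ) (t : Fin k → ℕ),
    Function.Injective t → (∀ i, t i < H) → (∀ i, t i ∉ R) →
    (∀ i, Nat.Coprime (b + t i) M ∧ κ0 * ((P : ℝ) / M) * (Nat.log 2 L : ℝ) ≤
      psi M (b + t i) P) →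
    ∃ n ∈ Nw P H M b, (∀ j ∈ R, ¬ (n + j).Prime) ∧
      m + 1 ≤ ((univ : Finset (Fin k)).filter (fun i => (n + t i).Prime)).card := by
  obtain ⟨c, hc, C, hC, L1, hy⟩ := yh_sums
  obtain ⟨c5, hc5⟩ : ∃ c5 : ℝ, c5 = min (1 / 2) (c / (16 * C)) := ⟨_, rfl⟩
  have h50 : 0 < c5 := by
    rw [hc5]
    exact lt_min (by norm_num) (by positivity)
  have h51 : c5 ≤ 1 / 2 := by
    rw [hc5]
    exact min_le_left _ _
  have h52 : 16 * C * c5 ≤ c := by
    have h1 : c5 ≤ c / (16 * C) := by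
      rw [hc5]
      exact min_le_right _ _
    rw [le_div_iff₀ (by positivity)] at h1
    linarith
  have hc6 : 0 < c ^ 2 * c5 / (320000 * C) * κ0 / 4 := by positivity
  obtain ⟨G, hG⟩ := exists_nat_ge ((7 * (m : ℝ) + 9) / (c ^ 2 * c5 / (320000 * C) * κ0 / 4))
  have hGG : 7 * (m : ℝ) + 9 ≤ c ^ 2 * c5 / (320000 * C) * κ0 / 4 * ((G : ℝ) + 1) := by
    rw [div_le_iff₀ hc6] at hG
    linarith
  obtain ⟨k, hk⟩ : ∃ k : ℕ, k = 2 ^ G := ⟨_, rfl⟩
  have hk0 : 0 < k := by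
    rw [hk]
    positivity
  obtain ⟨P1, hP1⟩ := mass k
  obtain ⟨P2, hP2⟩ := killed k
  obtain ⟨P3, hP3⟩ := attr_p k
  obtain ⟨L2, hL2⟩ := attr_c k
  obtain ⟨K, hKd⟩ : ∃ K : ℝ, K = 20000 * k * ((G : ℝ) + 1) / c5 := ⟨_, rfl⟩
  have hkr : (0 : ℝ) < k := by exact_mod_cast hk0
  have hG1 : (0 : ℝ) < (G : ℝ) + 1 := by positivity
  have hK : 0 < K := by
    rw [hKd]
    positivity
  obtain ⟨Λ0, hΛ0⟩ := exists_nat_ge (2 * K + 1 / (3 / 10 * κ0))
  have hΛp : (0 : ℝ) < 1 / (3 / 10 * κ0) := by positivity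
  obtain ⟨Λ, hΛ⟩ : ∃ Λ : ℕ, Λ = Λ0 + 4 := ⟨_, rfl⟩
  have hΛr : (Λ0 : ℝ) ≤ Λ := by
    rw [hΛ]
    push_cast
    linarith
  obtain ⟨wΛ, hwΛ⟩ : ∃ wΛ : ℕ, wΛ = 2 ^ Λ := ⟨_, rfl⟩
  obtain ⟨N0, hN0⟩ : ∃ N0 : ℕ, N0 = L1 + L2 + wΛ + 20000 + k := ⟨_, rfl⟩
  obtain ⟨wN, hwN⟩ : ∃ wN : ℕ, wN = 2 ^ N0 := ⟨_, rfl⟩
  refine ⟨k, hk0, P1 + P2 + P3 + wN, ?_⟩
  intro P hP L M H R hA b t ht1 ht2 ht3 hpsi
  by_contra hcon
  push Not at hcon
  have hwN0 : 0 < wN := by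
    rw [hwN]
    exact pow_pos (by norm_num) _
  have hkc : ((2 ^ G : ℕ) : ℝ) = k := by rw [hk]
  clear hk
  have hPN' : wN ≤ P := by omega
  have hP1P : P1 ≤ P := by omega
  have hP2P : P2 ≤ P := by omega
  have hP3P : P3 ≤ P := by omega
  have hP0 : P ≠ 0 := by omega
  have hPN : 2 ^ N0 ≤ P := by
    rw [← hwN]
    exact hPN'
  have hLN : N0 ≤ L := by
    rw [hA.hL]
    exact (Nat.le_log_iff_pow_le (by norm_num) hP0).2 hPN
  have hLΛ' : wΛ ≤ L := by omega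
  have hLΛ : 2 ^ Λ ≤ L := by
    rw [← hwΛ]
    exact hLΛ'
  have hL20 : 20000 ≤ L := by omega
  have hL1L : L1 ≤ L := by omega
  have hL2L : L2 ≤ L := by omega
  have hkL : k ≤ L := by omega
  have hΛ4 : 4 ≤ Λ := by omega
  have hA2 : Adm2 P L M H R t := ⟨hA, ht1, ht2, ht3⟩
  obtain ⟨n1, n2, n3, n4⟩ := cls_num (L := L) hκ hK hKd hk0 h50 (Λ := Λ) hΛ4
    (by linarith) (by linarith) hLΛ hL20
  obtain ⟨lam, hlam⟩ : ∃ lam : ℝ, lam = (Nat.log 2 L : ℝ) := ⟨_, rfl⟩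
  obtain ⟨t0, ht0⟩ : ∃ t0 : ℕ, t0 = ⌊c5 * dd L / (k * ((G : ℝ) + 1))⌋₊ := ⟨_, rfl⟩
  have hX0 : 0 ≤ c5 * dd L / (k * ((G : ℝ) + 1)) :=
    div_nonneg (mul_nonneg h50.le (Nat.cast_nonneg _)) (mul_nonneg hkr.le hG1.le)
  have hf1 : (t0 : ℝ) ≤ c5 * dd L / (k * ((G : ℝ) + 1)) := by
    rw [ht0]
    exact Nat.floor_le hX0
  have hf2 : c5 * dd L / (k * ((G : ℝ) + 1)) < (t0 : ℝ) + 1 := by
    rw [ht0]
    exact Nat.lt_floor_add_one _
  have hLr : (20000 : ℝ) ≤ L := by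
    exact_mod_cast hL20
  have hD0 : (0 : ℝ) < dd L := by linarith
  have hlt : (Nat.log 2 L : ℝ) < (t0 : ℝ) + 1 - 0 := by linarith
  have hll : Nat.log 2 L ≤ t0 := by
    have h1 : (Nat.log 2 L : ℝ) + 1 < (t0 : ℝ) + 1 := by linarith
    have h2 : Nat.log 2 L < t0 := by
      have h3 : (Nat.log 2 L : ℝ) < t0 := by linarith
      exact_mod_cast h3
    exact h2.le
  have ht01 : (1 : ℝ) ≤ t0 := by
    have : (Nat.log 2 L : ℝ) ≤ t0 := by exact_mod_cast hll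
    linarith
  have hkGt : k * ((G : ℝ) + 1) * t0 ≤ c5 * dd L := by
    rw [le_div_iff₀ (mul_pos hkr hG1)] at hf1
    linarith
  have hktD : (t0 : ℝ) * k ≤ dd L / 2 := by
    have h1 : (k : ℝ) * t0 ≤ k * ((G : ℝ) + 1) * t0 := by
      have e3 : 0 ≤ (k : ℝ) * G * t0 :=
        mul_nonneg (mul_nonneg hkr.le (Nat.cast_nonneg _)) (Nat.cast_nonneg _)
      have e4 : (k : ℝ) * ((G : ℝ) + 1) * t0 = k * G * t0 + k * t0 := by ring
      rw [e4]
      exact le_add_of_nonneg_left e3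
    have h2 : c5 * dd L ≤ 1 / 2 * dd L := mul_le_mul_of_nonneg_right h51 hD0.le
    linarith
  have hi : t0 * 2 ^ G < dd L := by
    have h1 : ((t0 * 2 ^ G : ℕ) : ℝ) < dd L := by
      rw [Nat.cast_mul, hkc]
      linarith
    exact_mod_cast h1
  obtain ⟨y1, y2, y3, y4⟩ := hy L hL1L t0 G hll hi.le
  rw [← hlam] at y1 y2 y3 y4
  have hlam0 : 0 < lam := by
    rw [hlam]
    linarith
  have ht0p : (0 : ℝ) < t0 := by linarith
  have hSX0 : 0 < SX (px L) (yh (px L) t0 G) := lt_of_lt_of_le (mul_pos hc (div_pos ht0p hlam0)) y2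
  have hiii : 4 * (k : ℝ) * SE (px L) (yh (px L) t0 G) ≤ SX (px L) (yh (px L) t0 G) *
      (((dd L : ℝ) - ((t0 * 2 ^ G : ℕ) : ℝ)) * Real.log 2) := by
    have h1 : (dd L : ℝ) / 4 ≤ ((dd L : ℝ) - ((t0 * 2 ^ G : ℕ) : ℝ)) * Real.log 2 := by
      rw [Nat.cast_mul, hkc]
      have h2 := Real.log_two_gt_d9
      have h3 : (dd L : ℝ) / 2 ≤ (dd L : ℝ) - t0 * k := by linarith
      have h4 : (dd L : ℝ) / 2 * (1 / 2) ≤ ((dd L : ℝ) - t0 * k) * Real.log 2 :=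
        mul_le_mul h3 (by linarith) (by norm_num) (by linarith)
      linarith
    have h5 : c * ((t0 : ℝ) / lam) * ((dd L : ℝ) / 4) ≤ SX (px L) (yh (px L) t0 G) *
      (((dd L : ℝ) - ((t0 * 2 ^ G : ℕ) : ℝ)) * Real.log 2) :=
      mul_le_mul y2 h1 (div_nonneg (Nat.cast_nonneg _) (by norm_num)) hSX0.le
    refine le_trans ?_ h5
    have h6 : 4 * (k : ℝ) * SE (px L) (yh (px L) t0 G) ≤
        4 * (k : ℝ) * (C * (((G : ℝ) + 1) * t0 ^ 2 / lam)) :=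
      mul_le_mul_of_nonneg_left y4 (mul_nonneg (by norm_num) hkr.le)
    refine h6.trans ?_
    have e1 : 4 * (k : ℝ) * (C * (((G : ℝ) + 1) * t0 ^ 2 / lam)) =
        (t0 / lam) / 4 * (16 * C * (k * ((G : ℝ) + 1) * t0)) := by
      field_simp
      ring
    have e2 : c * ((t0 : ℝ) / lam) * ((dd L : ℝ) / 4) = (t0 / lam) / 4 * (c * dd L) := by ring
    rw [e1, e2]
    refine mul_le_mul_of_nonneg_left ?_ (div_nonneg (div_nonneg ht0p.le hlam0.le) (by norm_num))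
    have h7 : 16 * C * (k * ((G : ℝ) + 1) * t0) ≤ 16 * C * (c5 * dd L) :=
      mul_le_mul_of_nonneg_left hkGt (mul_nonneg (by norm_num) hC.le)
    have h8 : 16 * C * c5 * dd L ≤ c * dd L := mul_le_mul_of_nonneg_right h52 hD0.le
    linarith
  have hZ1 := z2_one L R k t0 G
  have hZ0 : 0 < Z2 L R k t0 G := lt_of_lt_of_le one_pos hZ1
  have hM0 : (0 : ℝ) < M := by exact_mod_cast hA.hM0
  have hPr : (0 : ℝ) < P := by
    have : 0 < P := Nat.pos_of_ne_zero hP0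
    exact_mod_cast this
  have hPm : 0 < (P : ℝ) / M := div_pos hPr hM0
  have hlogP : Real.log P ≤ L := by
    have h1 : P < 2 ^ (L + 1) := by
      rw [hA.hL]
      exact Nat.lt_pow_succ_log_self (by norm_num) P
    have h2 : (P : ℝ) ≤ 2 ^ (L + 1) := by exact_mod_cast h1.le
    have h3 : Real.log P ≤ (L + 1 : ℝ) * Real.log 2 := by
      refine (Real.log_le_log hPr h2).trans ?_
      rw [Real.log_pow]
      push_cast
      exact le_refl _
    have h4 := Real.log_two_lt_d9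
    have h5 : (L + 1 : ℝ) * Real.log 2 ≤ (L + 1 : ℝ) * (7 / 10) :=
      mul_le_mul_of_nonneg_left (by linarith only [h4]) (by linarith only [hLr])
    linarith
  have hA0 : 0 ≤ SA (px L) (yh (px L) t0 G) ^ 2 / (8 * SX (px L) (yh (px L) t0 G)) *
      Z2 L R k t0 G :=
    mul_nonneg (div_nonneg (sq_nonneg _) (mul_nonneg (by norm_num) hSX0.le)) hZ0.le
  have hB0 : 0 ≤ (P : ℝ) / M * (κ0 * lam) / 2 :=
    div_nonneg (mul_nonneg hPm.le (mul_nonneg hκ.le hlam0.le)) (by norm_num)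
  have hsites : ∀ i : Fin k, (SA (px L) (yh (px L) t0 G) ^ 2 / (8 * SX (px L) (yh (px L) t0 G)) *
      Z2 L R k t0 G) * ((P : ℝ) / M * (κ0 * lam) / 2) ≤
      2 * (L : ℝ) * ∑ n ∈ (Nw P H M b).filter (fun n => (n + t i).Prime), g2 L R t t0 G (n : ℤ) ^ 2 := by
    intro i
    refine cls_site hA0 hB0 (hL2 L hL2L R t0 G hi hiii i) ?_
      (hP3 P hP3P L M H R t hA2 t0 G hi.le b i (hpsi i).1)
      (Finset.sum_nonneg fun n _ => sq_nonneg _) hlogP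
    have h1 := (hpsi i).2
    rw [← hlam] at h1
    have h2 : ((P : ℝ) / M) / L ≤ (P : ℝ) / M * (3 / 10 * κ0 * lam) := by
      rw [div_eq_mul_one_div, hlam]
      exact mul_le_mul_of_nonneg_left n4 hPm.le
    linarith
  have hsum : (k : ℝ) * ((SA (px L) (yh (px L) t0 G) ^ 2 / (8 * SX (px L) (yh (px L) t0 G)) *
      Z2 L R k t0 G) * ((P : ℝ) / M * (κ0 * lam) / 2)) ≤
      2 * (L : ℝ) * ∑ i : Fin k, ∑ n ∈ (Nw P H M b).filter (fun n => (n + t i).Prime),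
        g2 L R t t0 G (n : ℤ) ^ 2 := by
    have h1 := Finset.sum_le_sum (s := (univ : Finset (Fin k))) fun i _ => hsites i
    rw [Finset.sum_const, Finset.card_univ, Fintype.card_fin, nsmul_eq_mul, ← Finset.mul_sum] at h1
    exact h1
  have hcnt := cls_cnt (m := m) (Nw P H M b) R t (fun n => g2 L R t t0 G (n : ℤ) ^ 2)
    (fun n => sq_nonneg _) (fun n hn hj => hcon n hn hj)
  have hm1 := hP1 P hP1P L M H R t hA2 t0 G b
  have hm2 := hP2 P hP2P L M H R t hA2 t0 G b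
  have hTT : ∑ i : Fin k, ∑ n ∈ (Nw P H M b).filter (fun n => (n + t i).Prime),
        g2 L R t t0 G (n : ℤ) ^ 2 ≤ (7 * (m : ℝ) + 1) * ((P : ℝ) / M * Z2 L R k t0 G) := by
    refine hcnt.trans ?_
    have h1 : (m : ℝ) * ∑ n ∈ Nw P H M b, g2 L R t t0 G (n : ℤ) ^ 2 ≤
        (m : ℝ) * (7 * ((P : ℝ) / M) * Z2 L R k t0 G) :=
      mul_le_mul_of_nonneg_left hm1 (Nat.cast_nonneg m)
    have h2 : (k : ℝ) * ∑ n ∈ (Nw P H M b).filter (fun n => ∃ j ∈ R, (n + j).Prime),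
        g2 L R t t0 G (n : ℤ) ^ 2 ≤ (k : ℝ) * (((P : ℝ) / M) / L * Z2 L R k t0 G) :=
      mul_le_mul_of_nonneg_left hm2 hkr.le
    have h3 : (k : ℝ) * (((P : ℝ) / M) / L * Z2 L R k t0 G) ≤ (P : ℝ) / M * Z2 L R k t0 G := by
      have hkL' : (k : ℝ) ≤ L := by
        exact_mod_cast hkL
      have e1 : (k : ℝ) * (((P : ℝ) / M) / L * Z2 L R k t0 G) =
          (k / L) * ((P : ℝ) / M * Z2 L R k t0 G) := by ring
      rw [e1]
      have h4 : (k : ℝ) / L ≤ 1 := by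
        rw [div_le_one (by linarith)]
        exact hkL'
      exact mul_le_of_le_one_left (mul_nonneg hPm.le hZ0.le) h4
    linarith
  refine cls_fin (c := c) (C := C) (c5 := c5) (κ0 := κ0) (L := L) (lam := lam) (t0 := t0)
    (G := (G : ℝ) + 1) (k := k) (Z := Z2 L R k t0 G) (Pm := (P : ℝ) / M) (mr := m)
    (sa := SA (px L) (yh (px L) t0 G)) (sx := SX (px L) (yh (px L) t0 G)) hc hC (by linarith) hlam0
    ht0p hG1 hkr hZ0 hPm hκ y1 hSX0 y3 rfl rfl ?_ hGG hsum hTT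
  have h1 : c5 * dd L / (k * ((G : ℝ) + 1)) / 2 ≤ t0 := by linarith
  have h2 : c5 * dd L / 2 ≤ k * ((G : ℝ) + 1) * t0 := by
    have e1 : c5 * dd L / 2 = k * ((G : ℝ) + 1) * (c5 * dd L / (k * ((G : ℝ) + 1)) / 2) := by
      field_simp
    rw [e1]
    exact mul_le_mul_of_nonneg_left h1 (mul_nonneg hkr.le hG1.le)
  have h3 : c5 * (L / 20000) ≤ c5 * dd L := mul_le_mul_of_nonneg_left n2 h50.le
  linarith

end Pool.Agent.IPT
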