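import Pool.Agent.AT.Pt1

/-! IPT/Cons.  From the tuple to consecutive primes. -/

namespace Pool.Agent.IPT
open Finset Pool.Agent.AT

theorem consec {m k n : ℕ} {W : ℝ} {t : Fin k → ℕ} (ht : StrictMono t) (hW1 : 1 ≤ W)
    (hWn : W < n) (htW : ∀ i, (t i : ℝ) + 1 ≤ W)
    (hw : ∀ q : ℕ, q.Prime → |(q : ℝ) - n| ≤ W → ∃ i, q = n + t i)
    (hc : m + 1 ≤ ((univ : Finset (Fin k)).filter (fun i => (n + t i).Prime)).card) :
    ∃ r s : ℕ, m ≤ s ∧ 1 ≤ r ∧ (∃ e : Fin (s + 1) → Fin k, StrictMono e ∧
      ∀ i : Fin (s + 1), Nat.nth Nat.Prime (r + i) = n + t (e i)) ∧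
      (Nat.nth Nat.Prime (r - 1) : ℝ) ≤ n - W ∧
      n + W ≤ (Nat.nth Nat.Prime (r + s + 1) : ℝ) := by
  classical
  have hinf : (Set.ofPred Nat.Prime).Infinite := Nat.infinite_setOfPred_prime
  have hprime : ∀ j : ℕ, (Nat.nth Nat.Prime j).Prime := fun j => Nat.nth_mem_of_infinite hinf j
  set G := (univ : Finset (Fin k)).filter (fun i => (n + t i).Prime) with hG
  obtain ⟨s, hs⟩ : ∃ s, G.card = s + 1 := ⟨G.card - 1, by omega⟩
  have hms : m ≤ s := by omega
  have hGne : G.Nonempty := by
    rw [← Finset.card_pos]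
    omega
  obtain ⟨j0, -⟩ := hGne
  have hkne : (univ : Finset (Fin k)).Nonempty := ⟨j0, mem_univ _⟩
  obtain ⟨jm, -, hjm⟩ := Finset.exists_mem_eq_sup univ hkne t
  set H := (univ : Finset (Fin k)).sup t + 1 with hH
  have htH : ∀ i, t i + 1 ≤ H := fun i => Nat.succ_le_succ (Finset.le_sup (mem_univ i))
  have hHW : (H : ℝ) ≤ W := by
    rw [hH, hjm]
    push_cast
    exact htW jm
  have hwin : ∀ q : ℕ, q.Prime → q ∈ Ico n (n + H) → ∃ i, q = n + t i := by
    intro q hq hqI
    rw [mem_Ico] at hqI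
    apply hw q hq
    have h1 : (n : ℝ) ≤ q := by exact_mod_cast hqI.1
    have h2 : (q : ℝ) ≤ n + H := by exact_mod_cast hqI.2.le
    rw [abs_le]
    constructor
    · linarith
    · linarith
  -- the number of primes of the window
  have hcard : s + 1 ≤ ((Ico n (n + H)).filter Nat.Prime).card := by
    rw [← hs]
    apply Finset.card_le_card_of_injOn (fun i => n + t i)
    · intro i hi
      have hi' := (mem_filter.1 (Finset.mem_coe.1 hi)).2
      refine Finset.mem_coe.2 (mem_filter.2 ⟨mem_Ico.2 ⟨Nat.le_add_right _ _, ?_⟩, hi'⟩)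
      have := htH i
      show n + t i < n + H
      omega
    · intro i _ j _ hij
      have h1 : n + t i = n + t j := hij
      exact ht.injective (by omega)
  have hcfg : Cfg H t 1 := ⟨htH, fun i j hij => ht hij⟩
  obtain ⟨N, e, he, hNe⟩ := pt1 (m := s) (n := n) hcfg
    (fun q hq hqp => by
      obtain ⟨i, hi⟩ := hwin q hqp hq
      exact ⟨i, by omega, by omega⟩)
    (fun i q q' _ _ h1 h2 h3 h4 => by omega) hcard
  have hval : ∀ i : Fin (s + 1), Nat.nth Nat.Prime (N + i) = n + t (e i) := by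
    intro i
    have := hNe i
    omega
  -- the map to the filter is surjective
  have hsurj : ∀ j : Fin k, (n + t j).Prime → ∃ l : Fin (s + 1), e l = j := by
    have himg : (univ : Finset (Fin (s + 1))).image e = G := by
      apply Finset.eq_of_subset_of_card_le
      · intro j hj
        obtain ⟨l, -, rfl⟩ := mem_image.1 hj
        rw [hG, mem_filter]
        refine ⟨mem_univ _, ?_⟩
        rw [← hval l]
        exact hprime _
      · rw [Finset.card_image_of_injective _ he.injective, Finset.card_univ, Fintype.card_fin, hs]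
    intro j hj
    have h1 : j ∈ (univ : Finset (Fin (s + 1))).image e := by
      rw [himg, hG, mem_filter]
      exact ⟨mem_univ _, hj⟩
    obtain ⟨l, -, hl⟩ := mem_image.1 h1
    exact ⟨l, hl⟩
  -- primes of the window are among the `nth (N + l)`
  have hall : ∀ q : ℕ, q.Prime → |(q : ℝ) - n| ≤ W → ∃ l : Fin (s + 1),
      q = Nat.nth Nat.Prime (N + l) := by
    intro q hq hqW
    obtain ⟨j, hj⟩ := hw q hq hqW
    rw [hj] at hq
    obtain ⟨l, hl⟩ := hsurj j hq
    exact ⟨l, by rw [hval l, hl, hj]⟩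
  -- `n ≥ 3`
  have hn1 : 1 < (n : ℝ) := lt_of_le_of_lt hW1 hWn
  have hn2 : 2 ≤ n := by exact_mod_cast hn1
  have hn3 : 3 ≤ n := by
    by_contra hlt
    have hn : n = 2 := by omega
    have h3 : |((3 : ℕ) : ℝ) - n| ≤ W := by
      rw [hn]
      norm_num
      exact hW1
    obtain ⟨i, hi⟩ := hw 3 Nat.prime_three h3
    have h4 := htW i
    have h5 : t i = 1 := by omega
    rw [h5] at h4
    rw [hn] at hWn
    push_cast at h4 hWn
    linarith
  have h0 : Nat.nth Nat.Prime 0 = 2 := Nat.nth_prime_zero_eq_two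
  have hN1 : 1 ≤ N := by
    by_contra hlt
    have hN0 : N = 0 := by omega
    have h1 := hval 0
    rw [hN0] at h1
    simp only [Fin.val_zero, add_zero] at h1
    rw [h0] at h1
    omega
  refine ⟨N, s, hms, hN1, ⟨e, he, hval⟩, ?_, ?_⟩
  · by_contra hcon
    push Not at hcon
    have hlt : Nat.nth Nat.Prime (N - 1) < Nat.nth Nat.Prime N :=
      Nat.nth_strictMono hinf (by omega)
    have hle : Nat.nth Nat.Prime N ≤ n + H := by
      have h1 := hval 0
      simp only [Fin.val_zero, add_zero] at h1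
      rw [h1]
      have := htH (e 0)
      omega
    have h2 : (Nat.nth Nat.Prime (N - 1) : ℝ) ≤ n + H := by
      exact_mod_cast (hlt.le.trans hle)
    obtain ⟨l, hl⟩ := hall _ (hprime (N - 1)) (by
      rw [abs_le]
      constructor <;> linarith)
    have h3 := (Nat.nth_injective hinf) hl
    omega
  · by_contra hcon
    push Not at hcon
    have hlt : Nat.nth Nat.Prime N ≤ Nat.nth Nat.Prime (N + s + 1) :=
      (Nat.nth_strictMono hinf (by omega)).le
    have hge : n ≤ Nat.nth Nat.Prime N := by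
      have h1 := hval 0
      simp only [Fin.val_zero, add_zero] at h1
      rw [h1]
      omega
    have h2 : (n : ℝ) ≤ Nat.nth Nat.Prime (N + s + 1) := by
      exact_mod_cast hge.trans hlt
    obtain ⟨l, hl⟩ := hall _ (hprime (N + s + 1)) (by
      rw [abs_le]
      constructor <;> linarith)
    have h3 := (Nat.nth_injective hinf) hl
    have := l.isLt
    omega

end Pool.Agent.IPT
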