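/-
IPT/CrtO.lean.  The class b and the number of survivors.
-/
import Pool.Agent.IPT.TDefs
import Pool.Agent.REC.Crt
import Pool.Agent.REC.ModTot

namespace Pool.Agent.IPT
open Finset Pool.Agent.REC Pool.Agent.Helper9.GW

private theorem exists_class {ℓ kk : ℕ} (hℓ : ℓ.Prime) (hk : kk < ℓ) (t : Fin kk → ℕ) :
    ∃ r : ℕ, ∀ i, ¬ ℓ ∣ r + t i := by
  classical
  have : Fact ℓ.Prime := ⟨hℓ⟩
  have h1 : ((univ : Finset (Fin kk)).image (fun i => -((t i : ℕ) : ZMod ℓ))).card <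
      (univ : Finset (ZMod ℓ)).card := by
    calc ((univ : Finset (Fin kk)).image (fun i => -((t i : ℕ) : ZMod ℓ))).card
        ≤ (univ : Finset (Fin kk)).card := card_image_le
      _ = kk := by rw [card_univ, Fintype.card_fin]
      _ < ℓ := hk
      _ = (univ : Finset (ZMod ℓ)).card := by rw [card_univ, ZMod.card]
  obtain ⟨x, -, hx⟩ := Finset.exists_mem_notMem_of_card_lt_card h1
  refine ⟨x.val, fun i hi => hx ?_⟩
  rw [mem_image]
  refine ⟨i, mem_univ i, ?_⟩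
  have h2 : ((x.val + t i : ℕ) : ZMod ℓ) = 0 := (ZMod.natCast_eq_zero_iff _ _).2 hi
  rw [Nat.cast_add, ZMod.natCast_zmod_val] at h2
  exact (eq_neg_of_add_eq_zero_left h2).symm

theorem crt_O {z1 z2 : ℕ} (hz : 2 ≤ z1) (h b1 : ℕ) {kk : ℕ} (t : Fin kk → ℕ) (hk : kk ≤ z1) :
    ∃ b : ℕ, b ≡ b1 [MOD pmod z1] ∧
      (∀ ℓ ∈ medium z1 z2, (∀ i, ¬ h ≡ t i [MOD ℓ]) → ℓ ∣ b + h) ∧
      ∀ ℓ ∈ medium z1 z2, ∀ i, ¬ ℓ ∣ b + t i := by
  classical
  set Q := ∏ ℓ ∈ medium z1 z2, ℓ with hQ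
  have hc : Nat.Coprime (pmod z1) Q := by
    unfold pmod
    refine Nat.Coprime.prod_right fun ℓ hℓ => Nat.Coprime.prod_left fun p hp => ?_
    have h1 := (mem_medium hz).1 hℓ
    have h2 := mem_prs.1 hp
    exact (Nat.coprime_primes h2.1 h1.1).2 (fun e => by omega)
  -- the residue for each medium prime
  have hr : ∀ ℓ : ℕ, ∃ r : ℕ, ℓ ∈ medium z1 z2 →
      ((∀ i, ¬ h ≡ t i [MOD ℓ]) → ℓ ∣ r + h) ∧ ∀ i, ¬ ℓ ∣ r + t i := by
    intro ℓ
    by_cases hℓ : ℓ ∈ medium z1 z2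
    · have h1 := (mem_medium hz).1 hℓ
      by_cases hall : ∀ i, ¬ h ≡ t i [MOD ℓ]
      · refine ⟨h * (ℓ - 1), fun _ => ?_⟩
        have h3 : h * (ℓ - 1) + h = h * ℓ := by
          obtain ⟨m, hm⟩ := Nat.exists_eq_succ_of_ne_zero h1.1.ne_zero
          rw [hm]
          simp only [Nat.succ_eq_add_one, Nat.add_sub_cancel]
          ring
        have h4 : ℓ ∣ h * (ℓ - 1) + h := by
          rw [h3]
          exact Dvd.intro_left h rfl
        refine ⟨fun _ => h4, fun i hi => ?_⟩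
        apply hall i
        have h5 : h * (ℓ - 1) + h ≡ h * (ℓ - 1) + t i [MOD ℓ] :=
          ((Nat.modEq_zero_iff_dvd).2 h4).trans ((Nat.modEq_zero_iff_dvd).2 hi).symm
        exact Nat.ModEq.add_left_cancel' _ h5
      · obtain ⟨r, hr⟩ := exists_class h1.1 (lt_of_le_of_lt hk h1.2.1) t
        exact ⟨r, fun _ => ⟨fun h => absurd h hall, hr⟩⟩
    · exact ⟨0, fun h => absurd h hℓ⟩
  choose r hr using hr
  obtain ⟨c, hcr⟩ := Nat.chineseRemainderOfFinset r (fun ℓ => ℓ) (medium z1 z2)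
    (fun ℓ hℓ => ((mem_medium hz).1 hℓ).1.ne_zero)
    (fun a ha b hb hab => (Nat.coprime_primes ((mem_medium hz).1 ha).1
      ((mem_medium hz).1 hb).1).2 hab)
  obtain ⟨b, hb1, hb2⟩ := Nat.chineseRemainder hc b1 c
  have hbr : ∀ ℓ ∈ medium z1 z2, b ≡ r ℓ [MOD ℓ] := fun ℓ hℓ =>
    (hb2.of_dvd (Finset.dvd_prod_of_mem _ hℓ)).trans (hcr ℓ hℓ)
  refine ⟨b, hb1, fun ℓ hℓ hall => ?_, fun ℓ hℓ i hi => ?_⟩
  · have h1 := (hr ℓ hℓ).1 hall
    exact (Nat.modEq_zero_iff_dvd).1 (((hbr ℓ hℓ).add_right h).trans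
      ((Nat.modEq_zero_iff_dvd).2 h1))
  · apply (hr ℓ hℓ).2 i
    exact (Nat.modEq_zero_iff_dvd).1 (((hbr ℓ hℓ).add_right (t i)).symm.trans
      ((Nat.modEq_zero_iff_dvd).2 hi))

private theorem cnt (p b H : ℕ) (_hp : 0 < p) :
    ((((range H).filter (fun j => p ∣ b + j)).card : ℕ) : ℝ) ≤ (H : ℝ) / p + 1 := by
  have h1 : ((range H).filter (fun j => p ∣ b + j)).card ≤ H / p + 1 := by
    have hinj : Set.InjOn (fun j => j / p) ((range H).filter (fun j => p ∣ b + j) : Set ℕ) := by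
      intro i hi j hj hij
      simp only [coe_filter, mem_range, Set.mem_setOf_eq] at hi hj
      have h2 : i / p = j / p := hij
      have h3 : i ≡ j [MOD p] := by
        have h4 : b + i ≡ b + j [MOD p] :=
          ((Nat.modEq_zero_iff_dvd).2 hi.2).trans ((Nat.modEq_zero_iff_dvd).2 hj.2).symm
        exact Nat.ModEq.add_left_cancel' b h4
      have h5 := Nat.div_add_mod i p
      have h6 := Nat.div_add_mod j p
      have h7 : i % p = j % p := h3
      rw [h2, h7] at h5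
      omega
    have hmaps : ((range H).filter (fun j => p ∣ b + j)).card ≤ (range (H / p + 1)).card := by
      apply Finset.card_le_card_of_injOn (fun j => j / p) _ hinj
      intro j hj
      simp only [coe_filter, mem_range, Set.mem_setOf_eq] at hj
      simp only [coe_range, Set.mem_Iio]
      exact Nat.lt_succ_of_le (Nat.div_le_div_right hj.1.le)
    rwa [card_range] at hmaps
  have h2 : ((((range H).filter (fun j => p ∣ b + j)).card : ℕ) : ℝ) ≤ ((H / p + 1 : ℕ) : ℝ) := by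
    exact_mod_cast h1
  refine h2.trans ?_
  push_cast
  have h3 : ((H / p : ℕ) : ℝ) ≤ (H : ℝ) / p := Nat.cast_div_le
  linarith

private theorem cnt_mod (p h H : ℕ) (hp : 0 < p) :
    ((((range H).filter (fun j => j ≡ h [MOD p])).card : ℕ) : ℝ) ≤ (H : ℝ) / p + 1 := by
  refine le_trans ?_ (cnt p (h * (p - 1)) H hp)
  have h1 : (range H).filter (fun j => j ≡ h [MOD p]) ⊆
      (range H).filter (fun j => p ∣ h * (p - 1) + j) := by
    intro j hj
    rw [mem_filter] at hj ⊢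
    refine ⟨hj.1, ?_⟩
    have h3 : h * (p - 1) + h = h * p := by
      obtain ⟨m, hm⟩ := Nat.exists_eq_succ_of_ne_zero hp.ne'
      rw [hm]
      simp only [Nat.succ_eq_add_one, Nat.add_sub_cancel]
      ring
    have h4 : h * (p - 1) + j ≡ h * (p - 1) + h [MOD p] := hj.2.add_left _
    rw [h3] at h4
    exact (Nat.modEq_zero_iff_dvd).1 (h4.trans ((Nat.modEq_zero_iff_dvd).2
      (Dvd.intro_left h rfl)))
  exact_mod_cast card_le_card h1

private theorem card_pf_le (n : ℕ) (hn : n ≠ 0) : n.primeFactors.card ≤ Nat.log 2 n := by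
  apply Nat.le_log_of_pow_le (by norm_num)
  calc 2 ^ n.primeFactors.card = ∏ p ∈ n.primeFactors, 2 := by rw [prod_const]
    _ ≤ ∏ p ∈ n.primeFactors, p :=
        Finset.prod_le_prod' fun p hp => (Nat.prime_of_mem_primeFactors hp).two_le
    _ ≤ n := Nat.le_of_dvd (Nat.pos_of_ne_zero hn) (Nat.prod_primeFactors_dvd n)

theorem surv_T {z1 z2 h b1 b kk : ℕ} (hz : 2 ≤ z1) (hz12 : z1 ≤ z2) (t : Fin kk → ℕ)
    (hb1 : b ≡ b1 [MOD pmod z1])
    (hb2 : ∀ ℓ ∈ medium z1 z2, (∀ i, ¬ h ≡ t i [MOD ℓ]) → ℓ ∣ b + h) (hh : ∀ i, t i < h)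
    {R : Finset ℕ} (hR : R ⊆ prs z2) (H : ℕ) :
    ((((range H).filter (fun j => Nat.Coprime (b + j) (Mod z2 R))).card : ℕ) : ℝ) ≤
      (Sv z1 z2 h b1 H).card + ∑ p ∈ R, ((H : ℝ) / p + 1) +
        kk * (Nat.log 2 h : ℝ) * ((H : ℝ) / z1 + 1) := by
  classical
  set O : Finset ℕ := (medium z1 z2).filter (fun ℓ => ∃ i, h ≡ t i [MOD ℓ]) with hO
  have hsub : (range H).filter (fun j => Nat.Coprime (b + j) (Mod z2 R)) ⊆
      (Sv z1 z2 h b1 H ∪ R.biUnion (fun p => (range H).filter (fun j => p ∣ b + j))) ∪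
        O.biUnion (fun ℓ => (range H).filter (fun j => j ≡ h [MOD ℓ])) := by
    intro j hj
    rw [mem_filter] at hj
    obtain ⟨hjH, hjc⟩ := hj
    rw [mem_union, mem_union]
    by_cases hRj : ∃ p ∈ R, p ∣ b + j
    · left
      right
      obtain ⟨p, hp, hpj⟩ := hRj
      exact mem_biUnion.2 ⟨p, hp, mem_filter.2 ⟨hjH, hpj⟩⟩
    · have hall : ∀ p : ℕ, p.Prime → p ≤ z2 → ¬ p ∣ b + j := by
        intro p hp hpz hpd
        have h1 : p ∉ R := fun h2 => hRj ⟨p, h2, hpd⟩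
        have h2 : p ∣ Mod z2 R :=
          Finset.dvd_prod_of_mem _ (mem_sdiff.2 ⟨mem_prs.2 ⟨hp, hpz⟩, h1⟩)
        exact hp.one_lt.ne' (Nat.eq_one_of_dvd_coprimes hjc hpd h2)
      by_cases hOj : ∃ ℓ ∈ O, j ≡ h [MOD ℓ]
      · right
        obtain ⟨ℓ, hℓ, hℓj⟩ := hOj
        exact mem_biUnion.2 ⟨ℓ, hℓ, mem_filter.2 ⟨hjH, hℓj⟩⟩
      · left
        left
        unfold Sv
        refine mem_filter.2 ⟨hjH, ?_, ?_⟩
        · intro ℓ hℓ hmod
          have h1 := (mem_medium hz).1 hℓ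
          by_cases hi : ∃ i, h ≡ t i [MOD ℓ]
          · exact hOj ⟨ℓ, mem_filter.2 ⟨hℓ, hi⟩, hmod⟩
          · push Not at hi
            apply hall ℓ h1.1 h1.2.2
            have h2 : b + j ≡ b + h [MOD ℓ] := hmod.add_left b
            exact (Nat.modEq_zero_iff_dvd).1 (h2.trans
              ((Nat.modEq_zero_iff_dvd).2 (hb2 ℓ hℓ hi)))
        · unfold pmod
          refine Nat.Coprime.prod_right fun p hp => ?_
          have h1 := mem_prs.1 hp
          rw [Nat.coprime_comm, h1.1.coprime_iff_not_dvd]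
          intro hpd
          apply hall p h1.1 (h1.2.trans hz12)
          have h2 : b ≡ b1 [MOD p] := hb1.of_dvd (Finset.dvd_prod_of_mem _ hp)
          have h3 : b + j ≡ b1 + j [MOD p] := h2.add_right j
          exact (Nat.modEq_zero_iff_dvd).1 (h3.trans ((Nat.modEq_zero_iff_dvd).2 hpd))
  have hcard : ((((range H).filter (fun j => Nat.Coprime (b + j) (Mod z2 R))).card : ℕ) : ℝ) ≤
      (Sv z1 z2 h b1 H).card +
        ∑ p ∈ R, ((((range H).filter (fun j => p ∣ b + j)).card : ℕ) : ℝ) +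
        ∑ ℓ ∈ O, ((((range H).filter (fun j => j ≡ h [MOD ℓ])).card : ℕ) : ℝ) := by
    have h1 := (card_le_card hsub).trans ((card_union_le _ _).trans
      (Nat.add_le_add ((card_union_le _ _).trans
        (Nat.add_le_add_left card_biUnion_le _)) card_biUnion_le))
    exact_mod_cast h1
  have h2 : ∑ p ∈ R, ((((range H).filter (fun j => p ∣ b + j)).card : ℕ) : ℝ) ≤
      ∑ p ∈ R, ((H : ℝ) / p + 1) :=
    Finset.sum_le_sum fun p hp => cnt p b H (mem_prs.1 (hR hp)).1.pos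
  have hz1 : (0:ℝ) < z1 := by exact_mod_cast (by omega : 0 < z1)
  have h3 : ∑ ℓ ∈ O, ((((range H).filter (fun j => j ≡ h [MOD ℓ])).card : ℕ) : ℝ) ≤
      (O.card : ℝ) * ((H : ℝ) / z1 + 1) := by
    rw [← nsmul_eq_mul]
    apply Finset.sum_le_card_nsmul
    intro ℓ hℓ
    have h1 := (mem_medium hz).1 (mem_filter.1 hℓ).1
    refine (cnt_mod ℓ h H h1.1.pos).trans ?_
    have h4 : (z1:ℝ) ≤ ℓ := by exact_mod_cast h1.2.1.le
    have h5 : (H:ℝ) / ℓ ≤ H / z1 := div_le_div_of_nonneg_left (Nat.cast_nonneg H) hz1 h4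
    linarith
  have h4 : O.card ≤ kk * Nat.log 2 h := by
    have hs : O ⊆ (univ : Finset (Fin kk)).biUnion (fun i => (h - t i).primeFactors) := by
      intro ℓ hℓ
      obtain ⟨hℓm, i, hi⟩ := mem_filter.1 hℓ
      have h1 := (mem_medium hz).1 hℓm
      refine mem_biUnion.2 ⟨i, mem_univ i, ?_⟩
      rw [Nat.mem_primeFactors]
      refine ⟨h1.1, ?_, by have := hh i; omega⟩
      exact (Nat.modEq_iff_dvd' (hh i).le).1 hi.symm
    calc O.card ≤ ((univ : Finset (Fin kk)).biUnion (fun i => (h - t i).primeFactors)).card :=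
          card_le_card hs
      _ ≤ ∑ i : Fin kk, (h - t i).primeFactors.card := card_biUnion_le
      _ ≤ ∑ _i : Fin kk, Nat.log 2 h := by
          refine Finset.sum_le_sum fun i _ => ?_
          refine (card_pf_le _ (by have := hh i; omega)).trans ?_
          exact Nat.log_mono_right (Nat.sub_le _ _)
      _ = kk * Nat.log 2 h := by
          rw [sum_const, card_univ, Fintype.card_fin, smul_eq_mul]
  have h5 : (O.card : ℝ) ≤ kk * (Nat.log 2 h : ℝ) := by exact_mod_cast h4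
  have h6 : (O.card : ℝ) * ((H : ℝ) / z1 + 1) ≤ kk * (Nat.log 2 h : ℝ) * ((H : ℝ) / z1 + 1) :=
    mul_le_mul_of_nonneg_right h5 (by positivity)
  linarith

theorem cop_T {z1 z2 b1 b kk : ℕ} (hz : 2 ≤ z1) (hz12 : z1 ≤ z2) {t : Fin kk → ℕ}
    (hb1 : b ≡ b1 [MOD pmod z1]) (hb3 : ∀ ℓ ∈ medium z1 z2, ∀ i, ¬ ℓ ∣ b + t i)
    (hc : ∀ i, Nat.Coprime (b1 + t i) (pmod z1)) (R : Finset ℕ) (i : Fin kk) :
    Nat.Coprime (b + t i) (Mod z2 R) := by
  have _ := hz12
  unfold Pool.Agent.REC.Mod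
  refine Nat.Coprime.prod_right fun p hp => ?_
  have h1 := mem_prs.1 (mem_sdiff.1 hp).1
  rw [Nat.coprime_comm, h1.1.coprime_iff_not_dvd]
  intro hpd
  by_cases hpz : p ≤ z1
  · have hpm : p ∈ prs z1 := mem_prs.2 ⟨h1.1, hpz⟩
    have h2 : b ≡ b1 [MOD p] := hb1.of_dvd (Finset.dvd_prod_of_mem _ hpm)
    have h3 : b + t i ≡ b1 + t i [MOD p] := h2.add_right _
    have h4 : p ∣ b1 + t i :=
      (Nat.modEq_zero_iff_dvd).1 (h3.symm.trans ((Nat.modEq_zero_iff_dvd).2 hpd))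
    have h5 : p ∣ pmod z1 := Finset.dvd_prod_of_mem _ hpm
    exact h1.1.one_lt.ne' (Nat.eq_one_of_dvd_coprimes (hc i) h4 h5)
  · exact hb3 p ((mem_medium hz).2 ⟨h1.1, by omega, h1.2⟩) i hpd

end Pool.Agent.IPT
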