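/-
IPT/XDefs.lean.  Versions with one omitted prime p1 (a prime factor of the exceptional conductor).
-/
import Pool.Agent.IPT.TDefs
import Pool.Agent.REC.Scale

namespace Pool.Agent.IPT
open Finset Pool.Agent.REC Pool.Agent.Helper9.GW DirichletCharacter

/-- no exceptional real character of conductor prime to p1 (compare REC/Scale.Good) -/
def GoodX (P p1 : ℕ) : Prop :=
  ∀ (q : ℕ) [NeZero q], (q : ℝ) ≤ Real.exp (4 * Real.log (Real.log P) ^ 8) → ¬ p1 ∣ q →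
    ∀ χ : DirichletCharacter ℂ q, χ ≠ 1 → χ.IsPrimitive → χ ^ 2 = 1 →
      1 / (32 * Real.log (Real.log P) ^ 12) ^ 30 ≤ ‖LFunction χ 1‖

def pmX (z p1 : ℕ) : ℕ := ∏ p ∈ (prs z).erase p1, p

def SvX (z1 z2 p1 h b H : ℕ) : Finset ℕ :=
  (range H).filter (fun j => (∀ ℓ ∈ medium z1 z2, ¬ j ≡ h [MOD ℓ]) ∧
    Nat.Coprime (b + j) (pmX z1 p1))

end Pool.Agent.IPT
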