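/-
IPT/CrtOX.lean.  The number of survivors for the composite class, one prime omitted.
-/
import Pool.Agent.IPT.XDefs
import Pool.Agent.IPT.CrtO

namespace Pool.Agent.IPT
open Finset Pool.Agent.REC Pool.Agent.Helper9.GW

private theorem crtox_count (p b H : ℕ) :
    ((((range H).filter (fun j => p ∣ b + j)).card : ℕ) : ℝ) ≤ (H : ℝ) / p + 1 := by
  have h1 : ((range H).filter (fun j => p ∣ b + j)).card ≤ H / p + 1 := by
    have hinj : Set.InjOn (fun j => j / p) ((range H).filter (fun j => p ∣ b + j) : Set ℕ) := by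
      intro i hi j hj hij
      rw [mem_coe, mem_filter, mem_range] at hi hj
      have h2 : i / p = j / p := hij
      have h3 : i ≡ j [MOD p] := by
        have h4 : b + i ≡ b + j [MOD p] :=
          ((Nat.modEq_zero_iff_dvd).2 hi.2).trans ((Nat.modEq_zero_iff_dvd).2 hj.2).symm
        exact Nat.ModEq.add_left_cancel' b h4
      have h5 := Nat.div_add_mod i p
      have h6 := Nat.div_add_mod j p
      have h7 : i % p = j % p := h3
      rw [h2, h7] at h5
      omega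
    have hmaps : ((range H).filter (fun j => p ∣ b + j)).card ≤ (range (H / p + 1)).card := by
      apply Finset.card_le_card_of_injOn (fun j => j / p) _ hinj
      intro j hj
      rw [mem_coe, mem_filter, mem_range] at hj
      simp only [coe_range, Set.mem_Iio]
      exact Nat.lt_succ_of_le (Nat.div_le_div_right hj.1.le)
    rwa [card_range] at hmaps
  have h2 : ((((range H).filter (fun j => p ∣ b + j)).card : ℕ) : ℝ) ≤ ((H / p + 1 : ℕ) : ℝ) := by
    exact_mod_cast h1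
  refine h2.trans ?_
  push_cast
  have h3 : ((H / p : ℕ) : ℝ) ≤ (H : ℝ) / p := Nat.cast_div_le
  linarith

private theorem crtox_count_gt {z1 p : ℕ} (b H : ℕ) (hz : 2 ≤ z1) (hp : z1 < p) :
    ((((range H).filter (fun j => p ∣ b + j)).card : ℕ) : ℝ) ≤ (H : ℝ) / z1 + 1 := by
  refine (crtox_count p b H).trans ?_
  have h1 : (0 : ℝ) < z1 := by
    have : 0 < z1 := by omega
    exact_mod_cast this
  have h2 : (z1 : ℝ) ≤ p := by exact_mod_cast hp.le
  have h3 : (H : ℝ) / p ≤ (H : ℝ) / z1 := div_le_div_of_nonneg_left (Nat.cast_nonneg _) h1 h2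
  linarith

private theorem crtox_count_mod {z1 p : ℕ} (h H : ℕ) (hz : 2 ≤ z1) (hp : z1 < p) :
    ((((range H).filter (fun j => j ≡ h [MOD p])).card : ℕ) : ℝ) ≤ (H : ℝ) / z1 + 1 := by
  refine le_trans ?_ (crtox_count_gt (h * (p - 1)) H hz hp)
  have hsub : (range H).filter (fun j => j ≡ h [MOD p]) ⊆
      (range H).filter (fun j => p ∣ h * (p - 1) + j) := by
    intro j hj
    rw [mem_filter] at hj ⊢
    refine ⟨hj.1, ?_⟩
    have h2 : h * (p - 1) + j ≡ h * (p - 1) + h [MOD p] := hj.2.add_left _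
    have h3 : h * (p - 1) + h = h * p := by
      obtain ⟨m, hm⟩ := Nat.exists_eq_succ_of_ne_zero (show p ≠ 0 by omega)
      rw [hm]
      simp only [Nat.succ_eq_add_one, Nat.add_sub_cancel]
      ring
    rw [h3] at h2
    have h4 : h * p ≡ 0 [MOD p] := (Nat.modEq_zero_iff_dvd).2 (Dvd.intro_left h rfl)
    exact (Nat.modEq_zero_iff_dvd).1 (h2.trans h4)
  exact_mod_cast card_le_card hsub

private theorem crtox_log (n : ℕ) (hn : n ≠ 0) : n.primeFactors.card ≤ Nat.log 2 n := by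
  apply Nat.le_log_of_pow_le (by norm_num)
  have h1 : 2 ^ n.primeFactors.card ≤ ∏ p ∈ n.primeFactors, p :=
    Finset.pow_card_le_prod _ _ _ fun p hp => (Nat.prime_of_mem_primeFactors hp).two_le
  exact h1.trans (Nat.le_of_dvd (Nat.pos_of_ne_zero hn) (Nat.prod_primeFactors_dvd n))

open Classical in
private theorem crtox_O {z1 z2 h kk : ℕ} (hz : 2 ≤ z1) (t : Fin kk → ℕ) (hh : ∀ i, t i < h) :
    ((medium z1 z2).filter (fun ℓ => ∃ i, h ≡ t i [MOD ℓ])).card ≤ kk * Nat.log 2 h := by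
  have hsub : (medium z1 z2).filter (fun ℓ => ∃ i, h ≡ t i [MOD ℓ]) ⊆
      (univ : Finset (Fin kk)).biUnion (fun i => (h - t i).primeFactors) := by
    intro ℓ hℓ
    rw [mem_filter] at hℓ
    obtain ⟨h1, i, hi⟩ := hℓ
    have h2 := (mem_medium hz).1 h1
    refine mem_biUnion.2 ⟨i, mem_univ i, ?_⟩
    have h3 := hh i
    rw [Nat.mem_primeFactors]
    refine ⟨h2.1, (Nat.modEq_iff_dvd' h3.le).1 hi.symm, by omega⟩
  refine (card_le_card hsub).trans (card_biUnion_le.trans ?_)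
  calc ∑ i : Fin kk, (h - t i).primeFactors.card ≤ ∑ _i : Fin kk, Nat.log 2 h := by
        refine Finset.sum_le_sum fun i _ => ?_
        have h3 := hh i
        exact (crtox_log _ (by omega)).trans (Nat.log_mono_right (by omega))
    _ = kk * Nat.log 2 h := by
        rw [sum_const, card_univ, Fintype.card_fin, smul_eq_mul]

theorem surv_TX {z1 z2 p1 h b1 b kk : ℕ} (hz : 2 ≤ z1) (hz12 : z1 ≤ z2) (t : Fin kk → ℕ)
    (hb1 : b ≡ b1 [MOD pmod z1])
    (hb2 : ∀ ℓ ∈ medium z1 z2, (∀ i, ¬ h ≡ t i [MOD ℓ]) → ℓ ∣ b + h) (hh : ∀ i, t i < h)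
    {R : Finset ℕ} (hR : R ⊆ prs z2) (H : ℕ) :
    ((((range H).filter (fun j => Nat.Coprime (b + j) (Mod z2 R))).card : ℕ) : ℝ) ≤
      (SvX z1 z2 p1 h b1 H).card + ∑ p ∈ R.erase p1, ((H : ℝ) / p + 1) +
        (kk * (Nat.log 2 h : ℝ) + 1) * ((H : ℝ) / z1 + 1) := by
  classical
  set O := (medium z1 z2).filter (fun ℓ => ∃ i, h ≡ t i [MOD ℓ]) with hO
  have hsub : (range H).filter (fun j => Nat.Coprime (b + j) (Mod z2 R)) ⊆
      (SvX z1 z2 p1 h b1 H ∪ (R.erase p1).biUnion (fun p => (range H).filter (fun j => p ∣ b + j)))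
        ∪ (O.biUnion (fun ℓ => (range H).filter (fun j => j ≡ h [MOD ℓ])) ∪
          (range H).filter (fun j => z1 < p1 ∧ p1 ∣ b + j)) := by
    intro j hj
    rw [mem_filter] at hj
    obtain ⟨hjH, hjc⟩ := hj
    have hall : ∀ p : ℕ, p.Prime → p ≤ z2 → p ∣ b + j → p ∈ R := by
      intro p hp hpz hpd
      by_contra h1
      have h2 : p ∣ Mod z2 R :=
        Finset.dvd_prod_of_mem _ (mem_sdiff.2 ⟨mem_prs.2 ⟨hp, hpz⟩, h1⟩)
      exact hp.one_lt.ne' (Nat.eq_one_of_dvd_coprimes hjc hpd h2)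
    by_cases hRj : ∃ p ∈ R.erase p1, p ∣ b + j
    · obtain ⟨p, hp, hpj⟩ := hRj
      exact mem_union_left _ (mem_union_right _ (mem_biUnion.2 ⟨p, hp, mem_filter.2 ⟨hjH, hpj⟩⟩))
    by_cases hOj : ∃ ℓ ∈ O, j ≡ h [MOD ℓ]
    · obtain ⟨ℓ, hℓ, hlj⟩ := hOj
      exact mem_union_right _ (mem_union_left _ (mem_biUnion.2 ⟨ℓ, hℓ, mem_filter.2 ⟨hjH, hlj⟩⟩))
    by_cases hpj : z1 < p1 ∧ p1 ∣ b + j
    · exact mem_union_right _ (mem_union_right _ (mem_filter.2 ⟨hjH, hpj⟩))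
    refine mem_union_left _ (mem_union_left _ ?_)
    unfold SvX
    refine mem_filter.2 ⟨hjH, ?_, ?_⟩
    · intro ℓ hℓ hmod
      have h1 := (mem_medium hz).1 hℓ
      have h0 : ∀ i, ¬ h ≡ t i [MOD ℓ] := fun i hi =>
        hOj ⟨ℓ, mem_filter.2 ⟨hℓ, i, hi⟩, hmod⟩
      have h2 : b + j ≡ b + h [MOD ℓ] := hmod.add_left b
      have h3 : ℓ ∣ b + j :=
        (Nat.modEq_zero_iff_dvd).1 (h2.trans ((Nat.modEq_zero_iff_dvd).2 (hb2 ℓ hℓ h0)))
      have h4 := hall ℓ h1.1 h1.2.2 h3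
      by_cases h5 : ℓ = p1
      · subst h5
        exact hpj ⟨h1.2.1, h3⟩
      · exact hRj ⟨ℓ, mem_erase.2 ⟨h5, h4⟩, h3⟩
    · unfold pmX
      refine Nat.Coprime.prod_right fun p hp => ?_
      obtain ⟨hne, hp'⟩ := mem_erase.1 hp
      have h1 := mem_prs.1 hp'
      rw [Nat.coprime_comm, h1.1.coprime_iff_not_dvd]
      intro hpd
      have h2 : b ≡ b1 [MOD p] := hb1.of_dvd (Finset.dvd_prod_of_mem _ hp')
      have h3 : b + j ≡ b1 + j [MOD p] := h2.add_right j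
      have h4 : p ∣ b + j :=
        (Nat.modEq_zero_iff_dvd).1 (h3.trans ((Nat.modEq_zero_iff_dvd).2 hpd))
      exact hRj ⟨p, mem_erase.2 ⟨hne, hall p h1.1 (h1.2.trans hz12) h4⟩, h4⟩
  have hcard : ((((range H).filter (fun j => Nat.Coprime (b + j) (Mod z2 R))).card : ℕ) : ℝ) ≤
      ((SvX z1 z2 p1 h b1 H).card +
        ∑ p ∈ R.erase p1, ((((range H).filter (fun j => p ∣ b + j)).card : ℕ) : ℝ)) +
      (∑ ℓ ∈ O, ((((range H).filter (fun j => j ≡ h [MOD ℓ])).card : ℕ) : ℝ) +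
        ((((range H).filter (fun j => z1 < p1 ∧ p1 ∣ b + j)).card : ℕ) : ℝ)) := by
    have h1 := (card_le_card hsub).trans ((card_union_le _ _).trans
      (Nat.add_le_add ((card_union_le _ _).trans (Nat.add_le_add_left card_biUnion_le _))
        ((card_union_le _ _).trans (Nat.add_le_add_right card_biUnion_le _))))
    exact_mod_cast h1
  have hq : (0 : ℝ) ≤ (H : ℝ) / z1 + 1 := by positivity
  have h2 : ∑ p ∈ R.erase p1, ((((range H).filter (fun j => p ∣ b + j)).card : ℕ) : ℝ) ≤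
      ∑ p ∈ R.erase p1, ((H : ℝ) / p + 1) :=
    Finset.sum_le_sum fun p _ => crtox_count p b H
  have h3 : ∑ ℓ ∈ O, ((((range H).filter (fun j => j ≡ h [MOD ℓ])).card : ℕ) : ℝ) ≤
      kk * (Nat.log 2 h : ℝ) * ((H : ℝ) / z1 + 1) := by
    calc ∑ ℓ ∈ O, ((((range H).filter (fun j => j ≡ h [MOD ℓ])).card : ℕ) : ℝ) ≤
        ∑ _ℓ ∈ O, ((H : ℝ) / z1 + 1) := Finset.sum_le_sum fun ℓ hℓ =>
          crtox_count_mod h H hz ((mem_medium hz).1 (mem_filter.1 hℓ).1).2.1
      _ = (O.card : ℝ) * ((H : ℝ) / z1 + 1) := by rw [sum_const, nsmul_eq_mul]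
      _ ≤ kk * (Nat.log 2 h : ℝ) * ((H : ℝ) / z1 + 1) := by
          refine mul_le_mul_of_nonneg_right ?_ hq
          exact_mod_cast crtox_O hz t hh
  have h4 : ((((range H).filter (fun j => z1 < p1 ∧ p1 ∣ b + j)).card : ℕ) : ℝ) ≤
      (H : ℝ) / z1 + 1 := by
    by_cases hp : z1 < p1
    · simp only [hp, true_and]
      exact crtox_count_gt b H hz hp
    · simp only [hp, false_and, filter_false, card_empty, Nat.cast_zero]
      exact hq
  have h5 : (kk * (Nat.log 2 h : ℝ) + 1) * ((H : ℝ) / z1 + 1) =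
      kk * (Nat.log 2 h : ℝ) * ((H : ℝ) / z1 + 1) + ((H : ℝ) / z1 + 1) := by ring
  rw [h5]
  linarith

end Pool.Agent.IPT
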