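/-
IPT/OPar.lean.  Size of 2^bb.
-/
import Pool.Agent.Helper9.GW.Final

namespace Pool.Agent.IPT
open Pool.Agent.Helper9.GW

private theorem op_y {kk l E n x y : ℝ} (h8 : 8 * kk ≤ l) (hk0 : 0 ≤ kk) (hl1 : 1 ≤ l)
    (hn : n ≤ 4 * l) (hn0 : 0 ≤ n) (hx0 : 0 ≤ x) (hxy : x ≤ y) (hy : y * l ^ 3 = E)
    (hE : l ^ 3 ≤ E) : kk * n * (x + 1) ≤ E / l := by
  have p1 : 0 < l := by linarith
  have hy0 : 0 ≤ y := hx0.trans hxy
  rw [le_div_iff₀ p1]
  have a1 : kk * n * (x + 1) ≤ kk * (4 * l) * (y + 1) :=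
    mul_le_mul (mul_le_mul_of_nonneg_left hn hk0) (by linarith) (by linarith)
      (mul_nonneg hk0 (by linarith))
  have a2 : kk * n * (x + 1) * l ≤ kk * (4 * l) * (y + 1) * l := mul_le_mul_of_nonneg_right a1 p1.le
  have a3 : 4 * kk * (l ^ 2 * (y + 1)) ≤ (l / 2) * (l ^ 2 * (y + 1)) :=
    mul_le_mul_of_nonneg_right (by linarith) (by positivity)
  have e1 : kk * (4 * l) * (y + 1) * l = 4 * kk * (l ^ 2 * (y + 1)) := by ring
  have e2 : (l / 2) * (l ^ 2 * (y + 1)) = y * l ^ 3 / 2 + l ^ 3 / 2 := by ring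
  rw [e1] at a2
  rw [e2, hy] at a3
  linarith

theorem o_par (kk : ℕ) : ∃ k0 : ℕ, ∀ (k : ℕ) (l l2 l3 : ℝ), k0 ≤ k → Par k l l2 l3 →
    kk ≤ 2 ^ bb l l2 l3 ∧ ∀ h H : ℕ, h ≤ HH l 3 → H ≤ HH l 3 →
      (kk : ℝ) * (Nat.log 2 h : ℝ) * ((H : ℝ) / ((2 ^ bb l l2 l3 : ℕ) : ℝ) + 1) ≤
        Real.exp l / l := by
  refine ⟨⌈Real.exp (8 * kk + 1)⌉₊, ?_⟩
  intro k l l2 l3 hk h
  obtain ⟨e1, e2, e3, g1, g2, g3⟩ := h.facts
  obtain ⟨b1, b2, b3⟩ := h.bb_facts
  obtain ⟨H1, H2, H3⟩ := h.HH_facts 3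
  have h3 := h.h3
  have p1 := h.p1
  have p2 := h.p2
  have hk0 : (0 : ℝ) ≤ kk := Nat.cast_nonneg kk
  have hlM : 8 * (kk : ℝ) + 1 ≤ l := by
    have h4 : Real.exp (8 * kk + 1) ≤ (k : ℝ) := by
      refine (Nat.le_ceil _).trans ?_
      exact_mod_cast hk
    rw [e1] at h4
    exact Real.exp_le_exp.1 h4
  have hl1 : 1 ≤ l := by linarith
  have hl2 : 256 ≤ l2 := by
    have h5 : (2 : ℝ) ≤ Real.exp 1 := by
      have := Real.add_one_le_exp (1 : ℝ)
      linarith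
    have h6 : Real.exp 8 = Real.exp 1 ^ 8 := by
      rw [← Real.exp_nat_mul]
      norm_num
    have h7 : (256 : ℝ) ≤ Real.exp 8 := by
      rw [h6]
      calc (256 : ℝ) = 2 ^ 8 := by norm_num
        _ ≤ _ := pow_le_pow_left₀ (by norm_num) h5 8
    rw [e3]
    exact h7.trans (Real.exp_le_exp.2 h3)
  have hl40 : 40 * l2 ^ 2 ≤ l := by
    have h8 := exp_ge (t := l2) p2.le
    rw [← e2] at h8
    have h9 : (l2 / 4) ^ 4 ≤ (1 + l2 / 4) ^ 4 :=
      pow_le_pow_left₀ (by positivity) (by linarith) 4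
    have h10 : (65536 : ℝ) ≤ l2 ^ 2 := by
      have := mul_le_mul hl2 hl2 (by norm_num) p2.le
      linarith
    have h11 : 40 * l2 ^ 2 ≤ (l2 / 4) ^ 4 := by
      have e : (l2 / 4) ^ 4 = l2 ^ 2 / 256 * l2 ^ 2 := by ring
      rw [e]
      exact mul_le_mul_of_nonneg_right (by linarith) (sq_nonneg _)
    linarith
  have h2b : l ^ 20 ≤ ((2 ^ bb l l2 l3 : ℕ) : ℝ) := by
    have e4 : ((2 ^ bb l l2 l3 : ℕ) : ℝ) = Real.exp ((bb l l2 l3 : ℝ) * Real.log 2) := by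
      rw [mul_comm, Real.exp_mul, Real.exp_log (by norm_num), Real.rpow_natCast]
      push_cast
      rfl
    have e5 : l ^ 20 = Real.exp (20 * l2) := by
      conv_lhs => rw [e2]
      rw [← Real.exp_nat_mul]
      norm_num
    rw [e4, e5]
    apply Real.exp_le_exp.2
    refine le_trans ?_ b3
    rw [le_div_iff₀ (by positivity)]
    have h12 : l * 8 ≤ l * l3 := mul_le_mul_of_nonneg_left h3 p1.le
    nlinarith
  have hlE : l ^ 3 ≤ Real.exp l := by
    have h13 : l ^ 3 ≤ l ^ 4 := pow_le_pow_right₀ hl1 (by norm_num)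
    have h14 : Real.exp (l / 2) ≤ Real.exp l := Real.exp_le_exp.2 (by linarith)
    exact h13.trans (h.grow.trans h14)
  refine ⟨?_, ?_⟩
  · have h15 : (kk : ℝ) ≤ ((2 ^ bb l l2 l3 : ℕ) : ℝ) := by
      have h16 : l ≤ l ^ 20 := le_self_pow₀ hl1 (by norm_num)
      linarith
    exact_mod_cast h15
  · intro a H ha hH
    have hlog : (Nat.log 2 a : ℝ) ≤ 4 * l := by
      rcases Nat.eq_zero_or_pos a with rfl | ha0
      · rw [Nat.log_zero_right, Nat.cast_zero]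
        linarith
      have h4 : 2 ^ Nat.log 2 a ≤ a := Nat.pow_log_le_self 2 ha0.ne'
      have h5 : (2 : ℝ) ^ Nat.log 2 a ≤ Real.exp l * l ^ 3 := by
        have h6 : ((2 ^ Nat.log 2 a : ℕ) : ℝ) ≤ (HH l 3 : ℝ) := by exact_mod_cast h4.trans ha
        push_cast at h6
        linarith
      have h6 := Real.log_le_log (by positivity) h5
      rw [Real.log_pow, Real.log_mul (Real.exp_pos l).ne' (by positivity), Real.log_exp,
        Real.log_pow, h.hl2] at h6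
      push_cast at h6
      have h7 := Real.log_two_gt_d9
      have h8 : (0 : ℝ) ≤ (Nat.log 2 a : ℝ) := Nat.cast_nonneg _
      have h9 : (Nat.log 2 a : ℝ) * (1 / 2) ≤ (Nat.log 2 a : ℝ) * Real.log 2 :=
        mul_le_mul_of_nonneg_left (by linarith) h8
      linarith
    have hy : Real.exp l / l ^ 3 * l ^ 3 = Real.exp l := div_mul_cancel₀ _ (by positivity)
    refine op_y (y := Real.exp l / l ^ 3) (by linarith) hk0 hl1 hlog (Nat.cast_nonneg _)
      (by positivity) ?_ hy hlE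
    have hH' : (H : ℝ) ≤ Real.exp l * l ^ 3 := by
      have h6 : (H : ℝ) ≤ (HH l 3 : ℝ) := by exact_mod_cast hH
      linarith
    have h20 : (0 : ℝ) < l ^ 20 := by positivity
    refine (div_le_div₀ (by positivity) hH' h20 h2b).trans ?_
    rw [div_le_div_iff₀ h20 (by positivity)]
    have h21 : l ^ 3 * l ^ 3 ≤ l ^ 20 := by
      rw [← pow_add]
      exact pow_le_pow_right₀ hl1 (by norm_num)
    have h22 := mul_le_mul_of_nonneg_left h21 (Real.exp_pos l).le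
    linarith

end Pool.Agent.IPT
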