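/-
IPT/PRemX.lean.  REC/PRem.primes_removed for GoodX (one omitted prime p1): adaptation of that file.
-/
import Pool.Agent.IPT.XDefs
import Pool.Agent.REC.PRem

namespace Pool.Agent.IPT
open Finset Pool.Agent.REC

/-- the sum over the primitive characters -/
private noncomputable def Psi (P f : ℕ) : ℝ := ∑ χ ∈ Pool.Agent.ATL.prim f, PC P χ

private theorem Psi_nonneg (P f : ℕ) : 0 ≤ Psi P f :=
  Finset.sum_nonneg fun _ _ => norm_nonneg _

private theorem sum_sets (g : ℕ → ℝ) (hg : ∀ f, 0 ≤ g f) (A : Finset (Finset ℕ)) (F : ℕ)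
    (hA : ∀ T ∈ A, (∀ p ∈ T, p.Prime) ∧ 2 ≤ ∏ p ∈ T, p ∧ ∏ p ∈ T, p ≤ F) :
    ∑ T ∈ A, g (∏ p ∈ T, p) ≤ ∑ f ∈ Pool.Agent.ATL.mods 1 F, g f := by
  classical
  have hinj : Set.InjOn (fun T : Finset ℕ => ∏ p ∈ T, p) (A : Set (Finset ℕ)) := by
    intro S hS T hT h
    rw [← Nat.primeFactors_prod (hA S hS).1, ← Nat.primeFactors_prod (hA T hT).1]
    exact congrArg Nat.primeFactors h
  rw [← Finset.sum_image (f := g) hinj]
  refine Finset.sum_le_sum_of_subset_of_nonneg ?_ fun f _ _ => hg f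
  intro f hf
  obtain ⟨T, hT, rfl⟩ := Finset.mem_image.1 hf
  rw [Pool.Agent.ATL.mem_mods]
  exact ⟨(hA T hT).2.1, (hA T hT).2.2, Nat.coprime_one_right _⟩

private theorem sum_divs (g : ℕ → ℝ) (hg : ∀ f, 0 ≤ g f) (S : Finset ℕ) (hS : ∀ p ∈ S, p.Prime) :
    ∑ f ∈ (∏ p ∈ S, p).divisors.erase 1, g f ≤ ∑ T ∈ S.powerset.erase ∅, g (∏ p ∈ T, p) := by
  classical
  have hsq : Squarefree (∏ p ∈ S, p) := by
    refine Finset.squarefree_prod_of_pairwise_isCoprime (fun p hp q hq hpq ↦ ?_)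
      (fun p hp ↦ (hS p hp).squarefree)
    exact Nat.coprime_iff_isRelPrime.1 ((Nat.coprime_primes (hS p hp) (hS q hq)).2 hpq)
  have hn : ∏ p ∈ S, p ≠ 0 := hsq.ne_zero
  have h1 : ∀ f ∈ (∏ p ∈ S, p).divisors.erase 1, ∏ p ∈ f.primeFactors, p = f := by
    intro f hf
    rw [mem_erase, Nat.mem_divisors] at hf
    exact Nat.prod_primeFactors_of_squarefree (hsq.squarefree_of_dvd hf.2.1)
  have hinj : Set.InjOn Nat.primeFactors (((∏ p ∈ S, p).divisors.erase 1 : Finset ℕ) : Set ℕ) := by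
    intro a ha b hb h
    rw [← h1 a ha, ← h1 b hb, h]
  calc ∑ f ∈ (∏ p ∈ S, p).divisors.erase 1, g f
      = ∑ f ∈ (∏ p ∈ S, p).divisors.erase 1, g (∏ p ∈ f.primeFactors, p) :=
        Finset.sum_congr rfl fun f hf => by rw [h1 f hf]
    _ = ∑ T ∈ ((∏ p ∈ S, p).divisors.erase 1).image Nat.primeFactors, g (∏ p ∈ T, p) :=
        (Finset.sum_image (f := fun T => g (∏ p ∈ T, p)) hinj).symm
    _ ≤ _ := by
        refine Finset.sum_le_sum_of_subset_of_nonneg ?_ fun f _ _ => hg _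
        intro T hT
        obtain ⟨f, hf, rfl⟩ := Finset.mem_image.1 hT
        have hf' := hf
        rw [mem_erase, Nat.mem_divisors] at hf
        rw [mem_erase, mem_powerset]
        refine ⟨?_, ?_⟩
        · intro h0
          have h2 := h1 f hf'
          rw [h0, prod_empty] at h2
          exact hf.1 h2.symm
        · have h2 := Nat.primeFactors_mono hf.2.1 hn
          rwa [Nat.primeFactors_prod hS] at h2

private theorem two_le_prod {T : Finset ℕ} (hT : ∀ p ∈ T, p.Prime) (h0 : T ≠ ∅) :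
    2 ≤ ∏ p ∈ T, p := by
  obtain ⟨p, hp⟩ := Finset.nonempty_iff_ne_empty.2 h0
  have h1 : p ∣ ∏ p ∈ T, p := dvd_prod_of_mem _ hp
  have h2 : 0 < ∏ p ∈ T, p := prod_pos fun q hq => (hT q hq).pos
  exact (hT p hp).two_le.trans (Nat.le_of_dvd h2 h1)

private theorem prime_of_mem {w p : ℕ} (h : p ∈ prs w) : p.Prime := (mem_filter.1 h).2

private theorem prod_le_four {w : ℕ} {T : Finset ℕ} (hT : T ⊆ prs w) : ∏ p ∈ T, p ≤ 4 ^ w := by
  have h1 : ∏ p ∈ T, p ≤ ∏ p ∈ prs w, p :=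
    prod_le_prod_of_subset_of_one_le' hT fun p hp _ => (prime_of_mem hp).one_le
  have h2 : ∏ p ∈ prs w, p = primorial w := by
    unfold primorial prs
    refine prod_congr ?_ fun _ _ => rfl
    ext p
    rw [mem_filter, mem_filter, mem_Icc, mem_range]
    constructor
    · rintro ⟨⟨_, h⟩, h'⟩
      exact ⟨by omega, h'⟩
    · rintro ⟨h, h'⟩
      exact ⟨⟨h'.one_le, by omega⟩, h'⟩
  rw [h2] at h1
  exact h1.trans (primorial_le_four_pow w)

/-- the total of all characters -/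
private theorem total {C : ℝ} {P w : ℕ} (hP1 : 1 < P) (hw : (w : ℝ) ≤ Real.log P / 100)
    (hls : ∀ M F a y1 y2 : ℕ, 1 ≤ M →
      (M : ℝ) ≤ (P : ℝ) ^ (1 / 20 : ℝ) → (F : ℝ) ≤ (P : ℝ) ^ (1 / 50 : ℝ) → a.Coprime M →
      P ≤ y1 → y1 ≤ y2 → y2 ≤ 4 * P →
      Pool.Agent.ATL.ps M F (fun _ χ => ‖∑ q ∈ (Ioc y1 y2).filter (fun q => q ≡ a [MOD M]),
        ((ArithmeticFunction.vonMangoldt q : ℝ) : ℂ) * χ q‖) ≤ C * (Real.log P) ^ 2 * (P / M)) :
    ∑ T ∈ (prs w).powerset.erase ∅, Psi P (∏ p ∈ T, p) ≤ C * (Real.log P) ^ 2 * P := by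
  have hPr : (1 : ℝ) ≤ P := by exact_mod_cast hP1.le
  have hP0 : (0 : ℝ) < P := by linarith
  have h1 := hls 1 ⌊(P : ℝ) ^ (1 / 50 : ℝ)⌋₊ 1 P (4 * P) le_rfl
    (by
      rw [Nat.cast_one]
      exact Real.one_le_rpow hPr (by norm_num))
    (Nat.floor_le (Real.rpow_nonneg hP0.le _)) (Nat.coprime_one_right 1) le_rfl (by omega) le_rfl
  rw [Nat.cast_one, div_one] at h1
  refine le_trans ?_ h1
  have h2 : Pool.Agent.ATL.ps 1 ⌊(P : ℝ) ^ (1 / 50 : ℝ)⌋₊
      (fun _ χ => ‖∑ q ∈ (Ioc P (4 * P)).filter (fun q => q ≡ 1 [MOD 1]),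
        ((ArithmeticFunction.vonMangoldt q : ℝ) : ℂ) * χ q‖) =
      ∑ f ∈ Pool.Agent.ATL.mods 1 ⌊(P : ℝ) ^ (1 / 50 : ℝ)⌋₊, Psi P f := by
    unfold Pool.Agent.ATL.ps Psi PC
    refine sum_congr rfl fun f _ => sum_congr rfl fun χ _ => ?_
    rw [filter_true_of_mem fun q _ => Nat.modEq_one]
  rw [h2]
  refine sum_sets (Psi P) (Psi_nonneg P) _ _ ?_
  intro T hT
  rw [mem_erase, mem_powerset] at hT
  have hT' : ∀ p ∈ T, p.Prime := fun p hp => prime_of_mem (hT.2 hp)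
  refine ⟨hT', two_le_prod hT' hT.1, ?_⟩
  refine (prod_le_four hT.2).trans (Nat.le_floor ?_)
  rw [Nat.cast_pow, Nat.cast_ofNat, Real.rpow_def_of_pos hP0]
  have h4 : (4 : ℝ) ^ w = Real.exp (w * Real.log 4) := by
    rw [mul_comm, Real.exp_mul, Real.exp_log (by norm_num), Real.rpow_natCast]
  rw [h4, Real.exp_le_exp]
  have h5 : Real.log 4 ≤ 2 := by
    have h6 : Real.log 4 = 2 * Real.log 2 := by
      rw [show (4 : ℝ) = 2 ^ 2 by norm_num, Real.log_pow]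
      norm_num
    have := Real.log_two_lt_d9
    linarith
  have h7 : 0 ≤ (w : ℝ) := Nat.cast_nonneg _
  have h8 : (w : ℝ) * Real.log 4 ≤ w * 2 := mul_le_mul_of_nonneg_left h5 h7
  linarith

/-- the characters of small conductor -/
private theorem small {P w : ℕ} {l : ℝ} (hl : l = Real.log (Real.log P)) (hl1 : 1 ≤ l)
    (hX : 1 ≤ Real.log P) (hP0 : (0 : ℝ) < P) (hw : (w : ℝ) ≤ Real.log P) {p1 : ℕ}
    (hp1 : p1.Prime) (hgood : GoodX P p1)
    (hq : ∀ l : ℝ, l = Real.log (Real.log P) →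
      ∀ (q : ℕ) [NeZero q], (q : ℝ) ≤ Real.exp (4 * l ^ 8) → ∀ χ : DirichletCharacter ℂ q, χ ≠ 1 →
      (χ ^ 2 = 1 → 1 / (32 * l ^ 12) ^ 30 ≤ ‖DirichletCharacter.LFunction χ 1‖) →
      ∀ y1 y2 : ℕ, P ≤ y1 → y1 ≤ y2 → y2 ≤ 4 * P →
      ‖∑ n ∈ Ioc y1 y2, ((ArithmeticFunction.vonMangoldt n : ℝ) : ℂ) * χ n‖ ≤
        P * Real.exp (-l ^ 9))
    (B : Finset (Finset ℕ)) (hB : ∀ T ∈ B, T ⊆ prs w ∧ T ≠ ∅ ∧ (T.card : ℝ) ≤ 3 * l ^ 7)
    (hB1 : ∀ T ∈ B, p1 ∉ T) :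
    ∑ T ∈ B, Psi P (∏ p ∈ T, p) ≤ P * Real.exp (-l ^ 9) * Real.exp (4 * l ^ 8) ^ 2 := by
  have hX0 : 0 < Real.log P := by linarith
  have hsmall : ∀ T ∈ B, (∀ p ∈ T, p.Prime) ∧ 2 ≤ ∏ p ∈ T, p ∧
      ((∏ p ∈ T, p : ℕ) : ℝ) ≤ Real.exp (4 * l ^ 8) := by
    intro T hT
    obtain ⟨h1, h2, h3⟩ := hB T hT
    have hT' : ∀ p ∈ T, p.Prime := fun p hp => prime_of_mem (h1 hp)
    refine ⟨hT', two_le_prod hT' h2, ?_⟩
    have h4 : ∏ p ∈ T, (p : ℝ) ≤ ∏ p ∈ T, Real.log P := by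
      refine prod_le_prod (fun _ _ => Nat.cast_nonneg _) fun p hp => ?_
      have h5 := (mem_Icc.1 (mem_filter.1 (h1 hp)).1).2
      have h6 : (p : ℝ) ≤ w := by exact_mod_cast h5
      exact h6.trans hw
    rw [prod_const] at h4
    push_cast
    refine h4.trans ?_
    have h7 : Real.log P = Real.exp l := by rw [hl, Real.exp_log hX0]
    rw [h7, ← Real.exp_nat_mul, Real.exp_le_exp]
    have h8 : (T.card : ℝ) * l ≤ 3 * l ^ 7 * l := mul_le_mul_of_nonneg_right h3 (by linarith)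
    have h9 : 0 ≤ l ^ 8 := by positivity
    have h10 : 3 * l ^ 7 * l = 3 * l ^ 8 := by ring
    linarith
  have hE : 0 ≤ (P : ℝ) * Real.exp (-l ^ 9) := mul_nonneg hP0.le (Real.exp_pos _).le
  have hterm : ∀ T ∈ B, Psi P (∏ p ∈ T, p) ≤
      (fun f => P * Real.exp (-l ^ 9) * ∑ χ ∈ Pool.Agent.ATL.prim f, (1 : ℝ)) (∏ p ∈ T, p) := by
    intro T hT
    obtain ⟨h1, h2, h3⟩ := hsmall T hT
    have hnd : ¬ p1 ∣ ∏ p ∈ T, p := by
      intro hd
      obtain ⟨p, hp, hd'⟩ := (hp1.prime.dvd_finsetProd_iff _).1 hd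
      have h4 := (Nat.prime_dvd_prime_iff_eq hp1 (h1 p hp)).1 hd'
      exact hB1 T hT (by rw [h4]; exact hp)
    clear h1
    generalize ∏ p ∈ T, p = f at h2 h3 hnd
    have hf0 : f ≠ 0 := by omega
    have : NeZero f := ⟨hf0⟩
    unfold Psi
    dsimp only
    rw [mul_sum]
    refine sum_le_sum fun χ hχ => ?_
    rw [mul_one]
    have hprim := (Pool.Agent.ATL.mem_prim hf0).1 hχ
    have hχ1 : χ ≠ 1 := by
      rintro rfl
      have h4 : DirichletCharacter.conductor (1 : DirichletCharacter ℂ f) = f := hprim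
      rw [DirichletCharacter.conductor_one] at h4
      omega
    have h5 : (f : ℝ) ≤ Real.exp (4 * Real.log (Real.log P) ^ 8) := by
      rw [← hl]
      exact h3
    exact hq l hl f h3 χ hχ1 (fun h => by
      have h6 := hgood f h5 hnd χ hχ1 hprim h
      rw [← hl] at h6
      exact h6) P (4 * P) le_rfl (by omega) le_rfl
  refine (sum_le_sum hterm).trans ?_
  have h6 := sum_sets (fun f => P * Real.exp (-l ^ 9) * ∑ χ ∈ Pool.Agent.ATL.prim f, (1 : ℝ))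
    (fun f => mul_nonneg hE (sum_nonneg fun _ _ => zero_le_one)) B ⌊Real.exp (4 * l ^ 8)⌋₊
    (fun T hT => ⟨(hsmall T hT).1, (hsmall T hT).2.1, Nat.le_floor (hsmall T hT).2.2⟩)
  refine h6.trans ?_
  rw [← mul_sum]
  refine mul_le_mul_of_nonneg_left ?_ hE
  have h7 := Pool.Agent.ATL.ps_one_le 1 ⌊Real.exp (4 * l ^ 8)⌋₊
  unfold Pool.Agent.ATL.ps at h7
  refine h7.trans ?_
  exact pow_le_pow_left₀ (Nat.cast_nonneg _) (Nat.floor_le (Real.exp_pos _).le) 2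

private theorem erase_ite (A : Finset (Finset ℕ)) (g : Finset ℕ → ℝ) :
    ∑ T ∈ A, (if T = ∅ then 0 else g T) = ∑ T ∈ A.erase ∅, g T := by
  rw [← Finset.sum_erase A (a := ∅) (f := fun T => if T = ∅ then 0 else g T) (if_pos rfl)]
  refine sum_congr rfl fun T hT => ?_
  rw [if_neg (mem_erase.1 hT).1]

private theorem inv_sum {w : ℕ} {X l : ℝ} (hl : l = Real.log X) (hl1 : 100 ≤ l)
    (hw : (w : ℝ) ≤ X) : ∑ p ∈ prs w, 1 / (p : ℝ) ≤ 1 + l := by
  have h1 : ∑ p ∈ prs w, 1 / (p : ℝ) ≤ ∑ p ∈ Icc 1 w, 1 / (p : ℝ) := by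
    refine sum_le_sum_of_subset_of_nonneg (filter_subset _ _) fun p _ _ => ?_
    positivity
  have h2 := harmonic_le_one_add_log w
  rw [harmonic_eq_sum_Icc] at h2
  push_cast at h2
  have h3 : ∑ p ∈ Icc 1 w, 1 / (p : ℝ) = ∑ p ∈ Icc 1 w, ((p : ℝ))⁻¹ :=
    sum_congr rfl fun p _ => by rw [one_div]
  rw [h3] at h1
  refine (h1.trans h2).trans ?_
  have h4 : Real.log w ≤ l := by
    rcases Nat.eq_zero_or_pos w with rfl | h
    · rw [Nat.cast_zero, Real.log_zero]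
      linarith
    · rw [hl]
      exact Real.log_le_log (by exact_mod_cast h) hw
  linarith

private theorem cubic {y : ℝ} (hy : 0 ≤ y) : y ^ 3 / 6 ≤ Real.exp y := by
  have h := Real.pow_div_factorial_le_exp y hy 3
  have h2 : ((Nat.factorial 3 : ℕ) : ℝ) = 6 := by norm_num [Nat.factorial]
  rw [h2] at h
  exact h

theorem primes_removedX {c0 : ℝ} (hc0 : 0 < c0)
    (cheb : ∀ᶠ P : ℕ in Filter.atTop, c0 * P ≤ ∑ m ∈ Ioc P (4 * P), ArithmeticFunction.vonMangoldt m) :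
    ∃ P0 : ℕ, ∀ P : ℕ, P0 ≤ P → ∀ p1 : ℕ, p1.Prime → GoodX P p1 → ∀ l : ℝ,
      l = Real.log (Real.log P) → ∀ w : ℕ, (w : ℝ) ≤ Real.log P / 100 →
      ∃ R ⊆ prs w, (p1 ≤ w → p1 ∈ R) ∧ ∑ p ∈ R.erase p1, 1 / (p : ℝ) ≤ 1 / l ^ 4 ∧
        ∀ r : ℕ, r.Coprime (Mod w R) →
          c0 / 2 * P / (Mod w R).totient ≤ Pool.Agent.AT.psi (Mod w R) r P := by
  classical
  obtain ⟨C, hC, P1, hls⟩ := Pool.Agent.ATL.ls_primes
  obtain ⟨P2, hq⟩ := qpnt
  obtain ⟨P3, hP3⟩ := Filter.eventually_atTop.1 cheb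
  obtain ⟨P4, hP4⟩ := Filter.eventually_atTop.1
    ((Real.tendsto_log_atTop.comp (tendsto_natCast_atTop_atTop (R := ℝ))).eventually_ge_atTop
      (max (24 * C / c0) (max (20000 / c0) (Real.exp 100))))
  refine ⟨max (max P1 P2) (max P3 P4), ?_⟩
  intro P hP p1 hp1 hgood l hl w hw
  have hPP1 : P1 ≤ P := le_trans (le_max_left _ _) (le_trans (le_max_left _ _) hP)
  have hPP2 : P2 ≤ P := le_trans (le_max_right _ _) (le_trans (le_max_left _ _) hP)
  have hPP3 : P3 ≤ P := le_trans (le_max_left _ _) (le_trans (le_max_right _ _) hP)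
  have hPP4 : P4 ≤ P := le_trans (le_max_right _ _) (le_trans (le_max_right _ _) hP)
  have hcheb := hP3 P hPP3
  have hlog := hP4 P hPP4
  rw [Function.comp_apply] at hlog
  have hX1 : 24 * C / c0 ≤ Real.log P := (le_max_left _ _).trans hlog
  have hX2 : 20000 / c0 ≤ Real.log P := (le_max_left _ _).trans ((le_max_right _ _).trans hlog)
  have hX3 : Real.exp 100 ≤ Real.log P :=
    (le_max_right _ _).trans ((le_max_right _ _).trans hlog)
  obtain ⟨X, hX⟩ : ∃ X, X = Real.log P := ⟨_, rfl⟩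
  have hXb : 101 ≤ X := by
    have := Real.add_one_le_exp (100 : ℝ)
    rw [hX]
    linarith
  have hX0 : 0 < X := by linarith
  have hl100 : 100 ≤ l := by
    rw [hl, Real.le_log_iff_exp_le (by rw [← hX]; exact hX0)]
    exact hX3
  have hlX : Real.exp l = X := by
    rw [hl, ← hX, Real.exp_log hX0]
  have hP1' : 1 < P := by
    by_contra hcon
    have h1 : P = 0 ∨ P = 1 := by omega
    rcases h1 with h1 | h1
    · rw [h1, Nat.cast_zero, Real.log_zero] at hX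
      linarith
    · rw [h1, Nat.cast_one, Real.log_one] at hX
      linarith
  have hP0 : (0 : ℝ) < P := by
    have : (1 : ℝ) < P := by exact_mod_cast hP1'
    linarith
  have hPexp : (P : ℝ) = Real.exp X := by rw [hX, Real.exp_log hP0]
  have hwX : (w : ℝ) ≤ X := by
    rw [hX]
    refine hw.trans ?_
    rw [← hX]
    linarith
  -- the removal
  have hε0 : (0 : ℝ) < 1 / l ^ 6 := by positivity
  have hl6 : (1 : ℝ) < l ^ 6 := one_lt_pow₀ (by linarith) (by norm_num)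
  have hε1 : 1 / l ^ 6 < 1 := by
    rw [div_lt_one (by positivity)]
    exact hl6
  obtain ⟨Q, hQ⟩ : ∃ Q, Q = (prs w).erase p1 := ⟨_, rfl⟩
  have hQs : Q ⊆ prs w := by
    rw [hQ]
    exact erase_subset _ _
  obtain ⟨R', hRQ', hR1', hR2'⟩ := exists_removal Q (fun p => 1 / (p : ℝ))
    (fun p _ => by positivity) (fun T => if T = ∅ then 0 else Psi P (∏ p ∈ T, p))
    (fun T => by
      split_ifs
      · exact le_rfl
      · exact Psi_nonneg _ _) hε0 hε1 ⌈3 * l ^ 7⌉₊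
  obtain ⟨R, hR⟩ : ∃ R, R = prs w \ (Q \ R') := ⟨_, rfl⟩
  have hRQ : R ⊆ prs w := by
    rw [hR]
    exact sdiff_subset
  have hdiff : prs w \ R = Q \ R' := by
    rw [hR, Finset.sdiff_sdiff_eq_self]
    exact sdiff_subset.trans hQs
  have hp1R : ∀ T ⊆ prs w \ R, p1 ∉ T := by
    intro T hT hpT
    have h1 := hT hpT
    rw [hdiff, mem_sdiff, hQ, mem_erase] at h1
    exact h1.1.1 rfl
  have hR1 : ∑ p ∈ R.erase p1, 1 / (p : ℝ) ≤ 3 * (1 / l ^ 6 * ∑ p ∈ prs w, 1 / (p : ℝ)) := by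
    have h1 : ∑ p ∈ R.erase p1, 1 / (p : ℝ) ≤ ∑ p ∈ R', 1 / (p : ℝ) := by
      refine sum_le_sum_of_subset_of_nonneg ?_ fun p _ _ => by positivity
      intro p hp
      rw [mem_erase, hR, mem_sdiff, mem_sdiff, hQ, mem_erase] at hp
      by_contra hcon
      exact hp.2.2 ⟨⟨hp.1, hp.2.1⟩, hcon⟩
    have h2 : ∑ p ∈ Q, 1 / (p : ℝ) ≤ ∑ p ∈ prs w, 1 / (p : ℝ) :=
      sum_le_sum_of_subset_of_nonneg hQs fun p _ _ => by positivity
    refine h1.trans (hR1'.trans ?_)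
    exact mul_le_mul_of_nonneg_left (mul_le_mul_of_nonneg_left h2 hε0.le) (by norm_num)
  have hR2 : ∑ T ∈ (prs w \ R).powerset.filter (fun T => ⌈3 * l ^ 7⌉₊ ≤ T.card),
      (if T = ∅ then 0 else Psi P (∏ p ∈ T, p)) ≤ 3 * ((1 - 1 / l ^ 6) ^ ⌈3 * l ^ 7⌉₊ *
        ∑ T ∈ (prs w).powerset, (if T = ∅ then 0 else Psi P (∏ p ∈ T, p))) := by
    rw [hdiff]
    refine hR2'.trans ?_
    have h1 : ∑ T ∈ Q.powerset, (if T = ∅ then 0 else Psi P (∏ p ∈ T, p)) ≤
        ∑ T ∈ (prs w).powerset, (if T = ∅ then 0 else Psi P (∏ p ∈ T, p)) := by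
      refine sum_le_sum_of_subset_of_nonneg (powerset_mono.2 hQs) fun T _ _ => ?_
      split_ifs
      · exact le_rfl
      · exact Psi_nonneg _ _
    exact mul_le_mul_of_nonneg_left (mul_le_mul_of_nonneg_left h1 (pow_nonneg (by linarith) _))
      (by norm_num)
  refine ⟨R, hRQ, ?_, ?_, ?_⟩
  · intro hp1w
    rw [hR, mem_sdiff]
    refine ⟨mem_filter.2 ⟨mem_Icc.2 ⟨hp1.one_le, hp1w⟩, hp1⟩, ?_⟩
    intro h1
    rw [mem_sdiff, hQ, mem_erase] at h1
    exact h1.1.1 rfl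
  · refine hR1.trans ?_
    have h1 := inv_sum (w := w) (by rw [hX]; exact hl) hl100 hwX
    have h2 : 3 * (1 / l ^ 6 * ∑ p ∈ prs w, 1 / (p : ℝ)) ≤ 3 * (1 / l ^ 6 * (1 + l)) := by
      refine mul_le_mul_of_nonneg_left (mul_le_mul_of_nonneg_left h1 hε0.le) (by norm_num)
    refine h2.trans ?_
    have h3 : 3 * (1 / l ^ 6 * (1 + l)) = 3 * (1 + l) / l ^ 6 := by ring
    rw [h3, div_le_div_iff₀ (by positivity) (by positivity)]
    have h4 : 3 * (1 + l) ≤ l ^ 2 := by nlinarith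
    calc 3 * (1 + l) * l ^ 4 ≤ l ^ 2 * l ^ 4 := mul_le_mul_of_nonneg_right h4 (by positivity)
      _ = 1 * l ^ 6 := by ring
  -- the sum over the divisors
  have hpr : ∀ p ∈ prs w \ R, p.Prime := fun p hp => prime_of_mem (mem_sdiff.1 hp).1
  have hall : ∑ T ∈ (prs w).powerset, (if T = ∅ then 0 else Psi P (∏ p ∈ T, p)) ≤
      C * X ^ 2 * P := by
    have h1 := total hP1' hw (hls P hPP1)
    rw [← hX] at h1
    exact (erase_ite _ _).le.trans h1
  have hpow : (1 - 1 / l ^ 6) ^ ⌈3 * l ^ 7⌉₊ ≤ 1 / X ^ 3 := by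
    have h1 : 1 - 1 / l ^ 6 ≤ Real.exp (-(1 / l ^ 6)) := Real.one_sub_le_exp_neg _
    refine (pow_le_pow_left₀ (by linarith) h1 _).trans ?_
    rw [← Real.exp_nat_mul]
    have h2 : 1 / X ^ 3 = Real.exp (-(3 * l)) := by
      rw [Real.exp_neg, ← hlX, ← Real.exp_nat_mul, one_div]
      norm_num
    rw [h2, Real.exp_le_exp]
    have h3 := Nat.le_ceil (3 * l ^ 7)
    have h4 : 3 * l ^ 7 * (1 / l ^ 6) ≤ (⌈3 * l ^ 7⌉₊ : ℝ) * (1 / l ^ 6) :=
      mul_le_mul_of_nonneg_right h3 hε0.le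
    have h5 : 3 * l ^ 7 * (1 / l ^ 6) = 3 * l := by
      field_simp
    rw [h5] at h4
    linarith
  have hbig : ∑ T ∈ (prs w \ R).powerset.filter (fun T => ⌈3 * l ^ 7⌉₊ ≤ T.card),
      (if T = ∅ then 0 else Psi P (∏ p ∈ T, p)) ≤ c0 * P / 8 := by
    refine hR2.trans ?_
    have h1 : 0 ≤ (1 - 1 / l ^ 6) ^ ⌈3 * l ^ 7⌉₊ := pow_nonneg (by linarith) _
    have h2 : (1 - 1 / l ^ 6) ^ ⌈3 * l ^ 7⌉₊ *
        ∑ T ∈ (prs w).powerset, (if T = ∅ then 0 else Psi P (∏ p ∈ T, p)) ≤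
        1 / X ^ 3 * (C * X ^ 2 * P) :=
      (mul_le_mul_of_nonneg_left hall h1).trans
        (mul_le_mul_of_nonneg_right hpow (by positivity))
    have h3 : 3 * (1 / X ^ 3 * (C * X ^ 2 * P)) = 3 * C / X * P := by
      field_simp
    have h4 : 3 * C / X ≤ c0 / 8 := by
      rw [← hX, div_le_iff₀ hc0] at hX1
      rw [div_le_div_iff₀ hX0 (by norm_num)]
      linarith
    have h5 : 3 * C / X * P ≤ c0 / 8 * P := mul_le_mul_of_nonneg_right h4 hP0.le
    have h6 : c0 / 8 * P = c0 * P / 8 := by ring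
    linarith
  have hlow : ∑ T ∈ (prs w \ R).powerset.filter (fun T => ¬ ⌈3 * l ^ 7⌉₊ ≤ T.card),
      (if T = ∅ then 0 else Psi P (∏ p ∈ T, p)) ≤ c0 * P / 8 := by
    have h1 : ∑ T ∈ (prs w \ R).powerset.filter (fun T => ¬ ⌈3 * l ^ 7⌉₊ ≤ T.card),
        (if T = ∅ then 0 else Psi P (∏ p ∈ T, p)) =
        ∑ T ∈ ((prs w \ R).powerset.filter (fun T => ¬ ⌈3 * l ^ 7⌉₊ ≤ T.card)).erase ∅,
          Psi P (∏ p ∈ T, p) := erase_ite _ _
    rw [h1]
    have h2 := small hl (by linarith) (by rw [← hX]; linarith) hP0 (by rw [← hX]; exact hwX) hp1 hgood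
      (hq P hPP2)
      (((prs w \ R).powerset.filter (fun T => ¬ ⌈3 * l ^ 7⌉₊ ≤ T.card)).erase ∅) (by
        intro T hT
        rw [mem_erase, mem_filter, mem_powerset] at hT
        refine ⟨hT.2.1.trans sdiff_subset, hT.1, ?_⟩
        have h3 := Nat.lt_ceil.1 (not_le.1 hT.2.2)
        exact h3.le) (by
        intro T hT
        rw [mem_erase, mem_filter, mem_powerset] at hT
        exact hp1R T hT.2.1)
    refine h2.trans ?_
    rw [← Real.exp_nat_mul, mul_assoc, ← Real.exp_add]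
    have h3 : -l ^ 9 + ((2 : ℕ) : ℝ) * (4 * l ^ 8) ≤ -l := by
      have h4 : l ^ 9 = l * l ^ 8 := by ring
      have h5 : l ≤ l ^ 8 := by
        calc l = l ^ 1 := (pow_one l).symm
          _ ≤ l ^ 8 := pow_le_pow_right₀ (by linarith) (by norm_num)
      have h6 : 100 * l ^ 8 ≤ l * l ^ 8 := mul_le_mul_of_nonneg_right hl100 (by positivity)
      rw [h4]
      push_cast
      linarith
    have h4 : Real.exp (-l ^ 9 + ((2 : ℕ) : ℝ) * (4 * l ^ 8)) ≤ 1 / X := by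
      refine (Real.exp_le_exp.2 h3).trans ?_
      rw [Real.exp_neg, hlX, one_div]
    have h5 : 1 / X ≤ c0 / 8 := by
      rw [← hX, div_le_iff₀ hc0] at hX2
      rw [div_le_div_iff₀ hX0 (by norm_num)]
      linarith
    have h6 : (P : ℝ) * Real.exp (-l ^ 9 + ((2 : ℕ) : ℝ) * (4 * l ^ 8)) ≤ P * (c0 / 8) :=
      mul_le_mul_of_nonneg_left (h4.trans h5) hP0.le
    have h7 : (P : ℝ) * (c0 / 8) = c0 * P / 8 := by ring
    linarith
  have hdiv : ∑ f ∈ (Mod w R).divisors.erase 1, Psi P f ≤ c0 * P / 4 := by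
    have h1 := sum_divs (Psi P) (Psi_nonneg P) (prs w \ R) hpr
    have h2 : ∑ T ∈ (prs w \ R).powerset.erase ∅, Psi P (∏ p ∈ T, p) =
        ∑ T ∈ (prs w \ R).powerset, (if T = ∅ then 0 else Psi P (∏ p ∈ T, p)) :=
      (erase_ite _ _).symm
    rw [h2, ← sum_filter_add_sum_filter_not _ (fun T : Finset ℕ => ⌈3 * l ^ 7⌉₊ ≤ T.card)] at h1
    unfold Pool.Agent.REC.Mod
    linarith
  -- the modulus
  have hMpos : 0 < Mod w R := prod_pos fun p hp => (hpr p hp).pos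
  have hM4 : Mod w R ≤ 4 ^ w := prod_le_four sdiff_subset
  have hMr : ((Mod w R : ℕ) : ℝ) ≤ Real.exp (X / 50) := by
    have h1 : ((Mod w R : ℕ) : ℝ) ≤ 4 ^ w := by exact_mod_cast hM4
    refine h1.trans ?_
    have h4 : (4 : ℝ) ^ w = Real.exp (w * Real.log 4) := by
      rw [mul_comm, Real.exp_mul, Real.exp_log (by norm_num), Real.rpow_natCast]
    rw [h4, Real.exp_le_exp]
    have h5 : Real.log 4 ≤ 2 := by
      have h6 : Real.log 4 = 2 * Real.log 2 := by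
        rw [show (4 : ℝ) = 2 ^ 2 by norm_num, Real.log_pow]
        norm_num
      have := Real.log_two_lt_d9
      linarith
    have h7 : 0 ≤ (w : ℝ) := Nat.cast_nonneg _
    have h8 : (w : ℝ) * Real.log 4 ≤ w * 2 := mul_le_mul_of_nonneg_left h5 h7
    rw [← hX] at hw
    linarith
  have hMP : Mod w R ≤ P := by
    have h1 : ((Mod w R : ℕ) : ℝ) ≤ P := by
      rw [hPexp]
      refine hMr.trans (Real.exp_le_exp.2 ?_)
      linarith
    exact_mod_cast h1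
  intro r hr
  have hφpos : (0 : ℝ) < (Mod w R).totient := by
    exact_mod_cast Nat.totient_pos.2 hMpos
  have hmain := psi_ge hMpos hMP (by omega : 2 ≤ P) hr
  refine le_trans ?_ hmain
  have hφle : (((Mod w R).totient : ℕ) : ℝ) ≤ Real.exp (X / 50) := by
    have h1 : (((Mod w R).totient : ℕ) : ℝ) ≤ (Mod w R : ℕ) := by
      exact_mod_cast Nat.totient_le _
    exact h1.trans hMr
  have hA : (1 / ((Mod w R).totient : ℝ)) * (c0 * P - c0 * P / 4) ≤
      (1 / ((Mod w R).totient : ℝ)) * (∑ m ∈ Ioc P (4 * P), ArithmeticFunction.vonMangoldt m -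
        ∑ f ∈ (Mod w R).divisors.erase 1, ∑ χ ∈ Pool.Agent.ATL.prim f, PC P χ) := by
    refine mul_le_mul_of_nonneg_left ?_ (by positivity)
    have : ∑ f ∈ (Mod w R).divisors.erase 1, ∑ χ ∈ Pool.Agent.ATL.prim f, PC P χ ≤ c0 * P / 4 := hdiv
    linarith
  have hB : 2 * (10 * √(P : ℝ) * Real.log (4 * P) ^ 2) ≤
      (1 / ((Mod w R).totient : ℝ)) * (c0 * P / 4) := by
    have h1 : √(P : ℝ) = Real.exp (X / 2) := by
      rw [hPexp, Real.exp_half]
    have h2 : Real.log (4 * P) ≤ 2 * X := by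
      rw [Real.log_mul (by norm_num) hP0.ne', ← hX]
      have h6 : Real.log 4 = 2 * Real.log 2 := by
        rw [show (4 : ℝ) = 2 ^ 2 by norm_num, Real.log_pow]
        norm_num
      have := Real.log_two_lt_d9
      linarith
    have h2' : 0 ≤ Real.log (4 * P) := by
      rw [Real.log_mul (by norm_num) hP0.ne', ← hX]
      have := Real.log_nonneg (by norm_num : (1 : ℝ) ≤ 4)
      linarith
    have h3 : Real.log (4 * P) ^ 2 ≤ (2 * X) ^ 2 := pow_le_pow_left₀ h2' h2 2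
    rw [one_div, inv_mul_eq_div, le_div_iff₀ hφpos, h1]
    have h4 : 2 * (10 * Real.exp (X / 2) * Real.log (4 * P) ^ 2) * ((Mod w R).totient : ℝ) ≤
        2 * (10 * Real.exp (X / 2) * (2 * X) ^ 2) * Real.exp (X / 50) := by
      have h5 : 2 * (10 * Real.exp (X / 2) * Real.log (4 * P) ^ 2) ≤
          2 * (10 * Real.exp (X / 2) * (2 * X) ^ 2) := by
        have : 0 ≤ 10 * Real.exp (X / 2) := by positivity
        nlinarith [mul_le_mul_of_nonneg_left h3 this]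
      exact mul_le_mul h5 hφle hφpos.le (by positivity)
    refine h4.trans ?_
    have h6 : (P : ℝ) = Real.exp (X / 2) * Real.exp (X / 50) * Real.exp (12 * X / 25) := by
      rw [hPexp, ← Real.exp_add, ← Real.exp_add]
      congr 1
      ring
    have h7 := cubic (by positivity : 0 ≤ 12 * X / 25)
    have h8 : 80 * X ^ 2 ≤ c0 / 4 * Real.exp (12 * X / 25) := by
      have h9 : 20000 ≤ X * c0 := by
        rw [← hX, div_le_iff₀ hc0] at hX2
        exact hX2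
      have h10 : c0 / 4 * ((12 * X / 25) ^ 3 / 6) ≤ c0 / 4 * Real.exp (12 * X / 25) :=
        mul_le_mul_of_nonneg_left h7 (by positivity)
      refine le_trans ?_ h10
      have h11 : c0 / 4 * ((12 * X / 25) ^ 3 / 6) = (X * c0) * X ^ 2 * (1728 / 375000) := by ring
      rw [h11]
      have h12 : 20000 * X ^ 2 ≤ X * c0 * X ^ 2 := mul_le_mul_of_nonneg_right h9 (by positivity)
      nlinarith [sq_nonneg X]
    have h13 : 0 ≤ Real.exp (X / 2) * Real.exp (X / 50) := by positivity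
    have h14 := mul_le_mul_of_nonneg_left h8 h13
    rw [h6]
    calc 2 * (10 * Real.exp (X / 2) * (2 * X) ^ 2) * Real.exp (X / 50) =
          Real.exp (X / 2) * Real.exp (X / 50) * (80 * X ^ 2) := by ring
      _ ≤ Real.exp (X / 2) * Real.exp (X / 50) * (c0 / 4 * Real.exp (12 * X / 25)) := h14
      _ = _ := by ring
  have hC' : c0 / 2 * P / ((Mod w R).totient : ℝ) =
      (1 / ((Mod w R).totient : ℝ)) * (c0 * P - c0 * P / 4) -
        (1 / ((Mod w R).totient : ℝ)) * (c0 * P / 4) := by ring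
  rw [hC']
  linarith

end Pool.Agent.IPT
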