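/-
IPT/ScaleX.lean.  For all large P there is a prime p1 with GoodX P p1: a prime factor of an
exceptional conductor, if there is one (REC/Rep.repulsion).
-/
import Pool.Agent.IPT.XDefs

namespace Pool.Agent.IPT
open Finset Pool.Agent.REC DirichletCharacter

private theorem sx_cond {q1 q2 : ℕ} [NeZero q1] [NeZero q2] {χ1 : DirichletCharacter ℂ q1}
    {χ2 : DirichletCharacter ℂ q2} (h1 : χ1.IsPrimitive)
    (h : changeLevel (dvd_mul_right q1 q2) χ1 = changeLevel (dvd_mul_left q2 q1) χ2) : q1 ∣ q2 := by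
  have hN : NeZero (q1 * q2) := ⟨mul_ne_zero (NeZero.ne q1) (NeZero.ne q2)⟩
  obtain ⟨ψ, hψ⟩ : ∃ ψ, ψ = changeLevel (dvd_mul_right q1 q2) χ1 := ⟨_, rfl⟩
  rw [← hψ] at h
  have h2 : ψ.FactorsThrough q2 := ⟨dvd_mul_left q2 q1, χ2, h⟩
  have h3 : ψ.FactorsThrough q1 := ⟨dvd_mul_right q1 q2, χ1, hψ⟩
  have h4 : ψ.conductor ∣ q2 := conductor_dvd_of_mem_conductorSet ψ h2
  have h5 : ψ.conductor ∣ q1 := conductor_dvd_of_mem_conductorSet ψ h3
  have h6 : χ1.FactorsThrough ψ.conductor := by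
    refine ⟨h5, ψ.primitiveCharacter, ?_⟩
    apply changeLevel_injective (dvd_mul_right q1 q2)
    rw [← changeLevel_trans, ← hψ]
    exact (ψ.changeLevel_primitiveCharacter).symm
  have h7 : χ1.conductor ∣ ψ.conductor := conductor_dvd_of_mem_conductorSet χ1 h6
  rw [h1] at h7
  exact h7.trans h4

private theorem sx_tendsto :
    Filter.Tendsto (fun P : ℕ => Real.log (Real.log (P : ℝ))) Filter.atTop Filter.atTop :=
  Real.tendsto_log_atTop.comp (Real.tendsto_log_atTop.comp tendsto_natCast_atTop_atTop)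

private theorem sx_size {l a b : ℝ} (hl : 1000 ≤ l) (_ha0 : 0 ≤ a) (hb0 : 0 ≤ b)
    (ha : a ≤ Real.exp (4 * l ^ 8)) (hb : b ≤ Real.exp (4 * l ^ 8)) :
    a * b * 3 ≤ Real.exp (2 * l ^ 12) := by
  have h3 : (3 : ℝ) ≤ Real.exp (l ^ 8) := by
    have h5 : l ≤ l ^ 8 := le_self_pow₀ (by linarith) (by norm_num)
    have h6 := Real.add_one_le_exp (l ^ 8)
    linarith
  have h7 : 9 * l ^ 8 ≤ 2 * l ^ 12 := by
    have h8 : (9 : ℝ) ≤ 2 * l ^ 4 := by
      have h9 : l ≤ l ^ 4 := le_self_pow₀ (by linarith) (by norm_num)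
      linarith
    have h10 : 2 * l ^ 12 = 2 * l ^ 4 * l ^ 8 := by ring
    rw [h10]
    exact mul_le_mul_of_nonneg_right h8 (by positivity)
  calc a * b * 3 ≤ Real.exp (4 * l ^ 8) * Real.exp (4 * l ^ 8) * Real.exp (l ^ 8) := by
        gcongr
    _ = Real.exp (9 * l ^ 8) := by rw [← Real.exp_add, ← Real.exp_add]; ring_nf
    _ ≤ Real.exp (2 * l ^ 12) := Real.exp_le_exp.2 h7

private theorem sx_bd {l b : ℝ} (hl : 1000 ≤ l) (hb : b < 1 / (32 * l ^ 12) ^ 30) :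
    b ≤ 2 / (16 * (2 * l ^ 12)) ^ 30 := by
  have hV : (16 : ℝ) * (2 * l ^ 12) = 32 * l ^ 12 := by ring
  rw [hV]
  refine hb.le.trans ?_
  have h0 : 0 < l := by linarith
  gcongr
  norm_num

theorem goodX_all : ∃ P0 : ℕ, ∀ P : ℕ, P0 ≤ P → ∃ p1 : ℕ, p1.Prime ∧ GoodX P p1 := by
  obtain ⟨K, hK⟩ := Filter.eventually_atTop.1 (sx_tendsto.eventually_ge_atTop 1000)
  refine ⟨K, fun P hP => ?_⟩
  have hl : 1000 ≤ Real.log (Real.log (P : ℝ)) := hK P hP
  by_cases hg : Good P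
  · exact ⟨2, Nat.prime_two, fun q _ hq _ χ h1 h2 h3 => hg q hq χ h1 h2 h3⟩
  unfold Good at hg
  push Not at hg
  obtain ⟨q1, _, hq1, χ1, hχ1, hp1, hr1, hb1⟩ := hg
  have hq1ne : q1 ≠ 1 := by
    intro h
    subst h
    exact hχ1 (DirichletCharacter.level_one χ1)
  obtain ⟨p1, hp1p, hp1d⟩ := Nat.exists_prime_and_dvd hq1ne
  refine ⟨p1, hp1p, fun q2 _ hq2 hnd χ2 hχ2 hp2 hr2 => ?_⟩
  by_contra hb
  have hne : changeLevel (dvd_mul_right q1 q2) χ1 ≠ changeLevel (dvd_mul_left q2 q1) χ2 :=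
    fun h => hnd (hp1d.trans (sx_cond hp1 h))
  refine repulsion (V := 2 * Real.log (Real.log (P : ℝ)) ^ 12) hχ1 hχ2 hr1 hr2 hne ?_ ?_
    (sx_bd hl hb1) (sx_bd hl (not_le.1 hb))
  · have h1 : 1 ≤ Real.log (Real.log (P : ℝ)) ^ 12 := one_le_pow₀ (by linarith)
    linarith
  · push_cast
    exact sx_size hl (Nat.cast_nonneg _) (Nat.cast_nonneg _) hq1 hq2

end Pool.Agent.IPT
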