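/-
IPT/CntB.lean.  Classes b mod pmod z with all b + t i coprime to pmod z.
-/
import Pool.Agent.IPT.TDefs
import Pool.Agent.IPT.CrtCnt

namespace Pool.Agent.IPT
open Finset Pool.Agent.REC

/-- the class of `-x` -/
private def cl (p x : ℕ) : ℕ := (p - x % p) % p

private theorem cl_lt {p : ℕ} (hp : 0 < p) (x : ℕ) : cl p x < p := Nat.mod_lt _ hp

private theorem dvd_iff_cl {p : ℕ} (hp : 0 < p) (b x : ℕ) : p ∣ b + x ↔ b % p = cl p x := by
  have h1 : (b + x) % p = (b % p + x % p) % p := Nat.add_mod b x p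
  have hb := Nat.mod_lt b hp
  have hx := Nat.mod_lt x hp
  unfold cl
  rw [Nat.dvd_iff_mod_eq_zero, h1]
  rcases Nat.eq_zero_or_pos (x % p) with h0 | h0
  · rw [h0, add_zero, Nat.sub_zero, Nat.mod_self, Nat.mod_eq_of_lt hb]
  · rw [Nat.mod_eq_of_lt (by omega : p - x % p < p)]
    rcases lt_or_ge (b % p + x % p) p with h2 | h2
    · rw [Nat.mod_eq_of_lt h2]
      omega
    · rw [Nat.mod_eq_sub_mod h2, Nat.mod_eq_of_lt (by omega)]
      omega

private theorem cl_inj {p : ℕ} (hp : 0 < p) {x y : ℕ} (h : cl p x = cl p y) : x % p = y % p := by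
  have hx := Nat.mod_lt x hp
  have hy := Nat.mod_lt y hp
  unfold cl at h
  rcases Nat.eq_zero_or_pos (x % p) with h0 | h0 <;> rcases Nat.eq_zero_or_pos (y % p) with h1 | h1
  · rw [h0, h1]
  · rw [h0, Nat.sub_zero, Nat.mod_self, Nat.mod_eq_of_lt (by omega : p - y % p < p)] at h
    omega
  · rw [h1, Nat.sub_zero, Nat.mod_self, Nat.mod_eq_of_lt (by omega : p - x % p < p)] at h
    omega
  · rw [Nat.mod_eq_of_lt (by omega : p - x % p < p), Nat.mod_eq_of_lt (by omega : p - y % p < p)]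
      at h
    omega

/-- allowed classes -/
private def WW (p : ℕ) {k : ℕ} (t : Fin k → ℕ) : Finset ℕ :=
  (range p) \ (univ : Finset (Fin k)).image (fun i => cl p (t i))

private theorem WW_sub (p : ℕ) {k : ℕ} (t : Fin k → ℕ) : WW p t ⊆ range p := sdiff_subset

private theorem mem_WW {p : ℕ} {k : ℕ} {t : Fin k → ℕ} {x : ℕ} :
    x ∈ WW p t ↔ x < p ∧ ∀ i, x ≠ cl p (t i) := by
  unfold WW
  rw [mem_sdiff, mem_range, mem_image]
  constructor
  · rintro ⟨h1, h2⟩
    exact ⟨h1, fun i hi => h2 ⟨i, mem_univ i, hi.symm⟩⟩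
  · rintro ⟨h1, h2⟩
    refine ⟨h1, ?_⟩
    rintro ⟨i, -, hi⟩
    exact h2 i hi.symm

private theorem card_WW {p : ℕ} {k : ℕ} (t : Fin k → ℕ) (h : nu p t < p) :
    0 < (WW p t).card := by
  have h1 : ((univ : Finset (Fin k)).image (fun i => cl p (t i))).card ≤ nu p t := by
    unfold nu
    have h2 : (univ : Finset (Fin k)).image (fun i => cl p (t i)) =
        ((univ : Finset (Fin k)).image (fun i => t i % p)).image (fun y => (p - y) % p) := by
      rw [image_image]
      rfl
    rw [h2]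
    exact card_image_le
  have h2 := le_card_sdiff ((univ : Finset (Fin k)).image (fun i => cl p (t i))) (range p)
  rw [card_range] at h2
  unfold WW
  omega

private theorem copr_iff (z b x : ℕ) :
    Nat.Coprime (b + x) (pmod z) ↔ ∀ p ∈ prs z, b % p ≠ cl p x := by
  unfold pmod
  rw [Nat.coprime_prod_right_iff]
  refine forall₂_congr fun p hp => ?_
  have hpp : p.Prime := by
    unfold prs at hp
    exact (mem_filter.1 hp).2
  rw [Nat.coprime_comm, hpp.coprime_iff_not_dvd, dvd_iff_cl hpp.pos]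

private theorem prs_prime {z p : ℕ} (hp : p ∈ prs z) : p.Prime := by
  unfold prs at hp
  exact (mem_filter.1 hp).2

private theorem Gb_eq (z : ℕ) {k : ℕ} (t : Fin k → ℕ) :
    Gb z t = (range (∏ p ∈ prs z, p)).filter (fun b => ∀ p ∈ prs z, b % p ∈ WW p t) := by
  unfold Gb
  ext b
  rw [mem_filter, mem_filter]
  have h1 : pmod z = ∏ p ∈ prs z, p := rfl
  rw [← h1]
  refine and_congr_right fun _ => ?_
  constructor
  · intro h p hp
    rw [mem_WW]
    exact ⟨Nat.mod_lt _ (prs_prime hp).pos, fun i => (copr_iff z b (t i)).1 (h i) p hp⟩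
  · intro h i
    rw [copr_iff]
    intro p hp
    exact (mem_WW.1 (h p hp)).2 i

private theorem card_Gb (z : ℕ) {k : ℕ} (t : Fin k → ℕ) :
    (Gb z t).card = ∏ p ∈ prs z, (WW p t).card := by
  rw [Gb_eq]
  exact crt_eq _ (fun p hp => prs_prime hp) (fun p => WW p t) fun p _ => WW_sub p t

theorem Gb_pos {z k : ℕ} {t : Fin k → ℕ} (h : ∀ p : ℕ, p.Prime → nu p t < p) :
    0 < (Gb z t).card := by
  rw [card_Gb]
  exact prod_pos fun p hp => card_WW t (h p (prs_prime hp))

theorem cnt_B {z k : ℕ} {t : Fin k → ℕ} (h : ∀ p : ℕ, p.Prime → nu p t < p) (j : ℕ) :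
    (((Gb z t).filter (fun b => Nat.Coprime (b + j) (pmod z))).card : ℝ) ≤
      (Gb z t).card * (dens z * Ph z t j) := by
  have h1 : ((Gb z t).filter (fun b => Nat.Coprime (b + j) (pmod z))).card =
      ∏ p ∈ prs z, ((WW p t).erase (cl p j)).card := by
    rw [← crt_eq _ (fun p hp => prs_prime hp) (fun p => (WW p t).erase (cl p j))
      fun p _ => (erase_subset _ _).trans (WW_sub p t), Gb_eq, filter_filter]
    congr 1
    ext b
    rw [mem_filter, mem_filter]
    refine and_congr_right fun _ => ?_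
    rw [copr_iff]
    constructor
    · rintro ⟨h2, h3⟩ p hp
      exact mem_erase.2 ⟨h3 p hp, h2 p hp⟩
    · intro h2
      exact ⟨fun p hp => (mem_erase.1 (h2 p hp)).2, fun p hp => (mem_erase.1 (h2 p hp)).1⟩
  rw [h1, card_Gb]
  unfold Pool.Agent.REC.dens Ph Ta
  rw [prod_filter, ← prod_mul_distrib]
  push_cast
  rw [← prod_mul_distrib]
  refine prod_le_prod (fun p _ => Nat.cast_nonneg _) fun p hp => ?_
  have hpp := prs_prime hp
  have hp2 : (2 : ℝ) ≤ p := by exact_mod_cast hpp.two_le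
  have hp0 : (0 : ℝ) < p := by linarith
  have hq : (0 : ℝ) < 1 - 1 / (p : ℝ) := by
    rw [sub_pos, div_lt_one hp0]
    linarith
  split_ifs with hc
  · rw [mul_inv_cancel₀ hq.ne', mul_one]
    exact_mod_cast card_le_card (erase_subset _ _)
  · rw [mul_one]
    have h2 : cl p j ∈ WW p t := by
      rw [mem_WW]
      exact ⟨cl_lt hpp.pos j, fun i hi => hc ⟨i, cl_inj hpp.pos hi⟩⟩
    rw [card_erase_of_mem h2]
    have h3 : 0 < (WW p t).card := card_pos.2 ⟨_, h2⟩
    rw [Nat.cast_sub (by omega), Nat.cast_one]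
    have h4 : ((WW p t).card : ℝ) ≤ p := by
      have := card_le_card (WW_sub p t)
      rw [card_range] at this
      exact_mod_cast this
    have h5 : ((WW p t).card : ℝ) * (1 / p) ≤ 1 := by
      rw [mul_one_div, div_le_one hp0]
      exact h4
    linarith

end Pool.Agent.IPT
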