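/-
IPT/SelTX.lean (job IPT-SelTX).  Choice of the shift and of the class by averaging, with one
omitted prime.
-/
import Pool.Agent.IPT.AvgT
import Pool.Agent.IPT.CntBX

namespace Pool.Agent.IPT
open Finset Pool.Agent.REC Pool.Agent.Helper9.GW

private theorem stx_exch (A R C : Finset ℕ) (p q : ℕ → ℕ → Prop)
    [∀ j, DecidablePred fun h => p h j]
    [∀ j, DecidablePred fun b => q b j] [∀ ω : ℕ × ℕ, DecidablePred fun j => p ω.1 j ∧ q ω.2 j] :
    ∑ ω ∈ A ×ˢ R, ((C.filter (fun j => p ω.1 j ∧ q ω.2 j)).card : ℝ) =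
      ∑ j ∈ C, ((A.filter (fun h => p h j)).card : ℝ) * ((R.filter (fun b => q b j)).card : ℝ) := by
  classical
  have h1 : ∀ ω : ℕ × ℕ, ((C.filter (fun j => p ω.1 j ∧ q ω.2 j)).card : ℝ) =
      ∑ j ∈ C, if p ω.1 j ∧ q ω.2 j then (1 : ℝ) else 0 := by
    intro ω
    rw [card_filter, Nat.cast_sum]
    refine sum_congr rfl fun j _ => ?_
    split_ifs <;> simp
  rw [sum_congr rfl fun ω _ => h1 ω, sum_comm]
  refine sum_congr rfl fun j _ => ?_
  have h2 := filter_product (s := A) (t := R) (fun h => p h j) (fun b => q b j)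
  rw [← Nat.cast_mul, ← card_product, ← h2, card_filter, Nat.cast_sum]
  refine sum_congr rfl fun ω _ => ?_
  split_ifs <;> simp

/-- `(e^9 l)^kk ≤ e^(l/2)` for large `l` -/
private theorem stx_pow (kk : ℕ) : ∃ L0 : ℝ, ∀ l : ℝ, L0 ≤ l →
    (Real.exp 9 * l) ^ kk ≤ Real.exp (l / 2) := by
  have h1 : Filter.Tendsto (fun x : ℝ => (Real.exp 9 * (2 * x)) ^ kk / Real.exp x)
      Filter.atTop (nhds 0) := by
    have h2 := (Real.tendsto_pow_mul_exp_neg_atTop_nhds_zero kk).const_mul ((Real.exp 9 * 2) ^ kk)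
    rw [mul_zero] at h2
    refine h2.congr fun x => ?_
    rw [Real.exp_neg, div_eq_mul_inv, ← mul_assoc, ← mul_pow]
    congr 2
    ring
  have h3 := h1.eventually (gt_mem_nhds (show (0 : ℝ) < 1 by norm_num))
  obtain ⟨X, hX⟩ := Filter.eventually_atTop.1 h3
  refine ⟨2 * X, fun l hl => ?_⟩
  have h4 := hX (l / 2) (by linarith)
  rw [div_lt_one (Real.exp_pos _)] at h4
  have h5 : 2 * (l / 2) = l := by ring
  rw [h5] at h4
  exact h4.le

theorem sel_TX : ∃ C3 : ℝ, 0 < C3 ∧ ∀ kk : ℕ, ∃ k0 : ℕ, ∀ (k : ℕ) (l l2 l3 : ℝ), k0 ≤ k →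
    Par k l l2 l3 → ∀ (t : Fin kk → ℕ) (H p1 : ℕ) (F : ℝ), 2 * H ≤ HH l 3 →
    Real.exp (l / 2) ≤ H → (∀ p : ℕ, p.Prime → nu p t < p) → 1 ≤ F →
    Sg (2 ^ bb l l2 l3) t ≤ F →
    ∃ h b : ℕ, H < h ∧ h ≤ HH l 3 ∧ (∀ i, Nat.Coprime (b + t i) (pmod (2 ^ bb l l2 l3))) ∧
      ((SvX (2 ^ bb l l2 l3) (zz l) p1 h b H).card : ℝ) ≤
        C3 * F * (H * (l2 ^ 2 / (l ^ 2 * l3))) := by
  classical
  refine ⟨9216, by norm_num, fun kk => ?_⟩
  obtain ⟨L0, hL0⟩ := stx_pow kk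
  refine ⟨⌈Real.exp L0⌉₊, fun k l l2 l3 hk hpar t H p1 F hHH hH hnu hF hSg => ?_⟩
  obtain ⟨e1, e2, e3, g1, g2, g3⟩ := hpar.facts
  obtain ⟨d1, d2⟩ := dens_bounds hpar
  have p1' := hpar.p1
  have p2 := hpar.p2
  have p3 : 0 < l3 := by linarith [hpar.h3]
  have hlL : L0 ≤ l := by
    have h1 : Real.exp L0 ≤ k := (Nat.le_ceil _).trans (by exact_mod_cast hk)
    rw [e1] at h1
    exact Real.exp_le_exp.1 h1
  obtain ⟨z1, hz1⟩ : ∃ z1 : ℕ, z1 = 2 ^ bb l l2 l3 := ⟨_, rfl⟩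
  rw [← hz1] at d1 d2 hSg ⊢
  obtain ⟨D, hD⟩ : ∃ D : ℝ, D = dens z1 := ⟨_, rfl⟩
  have hx0 : 0 < l2 / (l * l3) := by positivity
  have hD0 : 0 < D := by
    rw [hD]
    exact lt_of_lt_of_le (mul_pos (Real.exp_pos _) hx0) d1
  have hH0 : (0 : ℝ) < H := lt_of_lt_of_le (Real.exp_pos _) hH
  have hH1 : 1 ≤ H := by
    have : 0 < H := by exact_mod_cast hH0
    omega
  have hHHlt : H < HH l 3 := by omega
  -- the average of Ph
  have hDinv : D⁻¹ ^ kk ≤ H := by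
    have h1 : D⁻¹ ≤ Real.exp 9 * l := by
      have h2 : D⁻¹ ≤ (Real.exp (-9) * (l2 / (l * l3)))⁻¹ := by
        rw [hD]
        exact inv_anti₀ (mul_pos (Real.exp_pos _) hx0) d1
      refine h2.trans ?_
      rw [mul_inv, Real.exp_neg, inv_inv, inv_div]
      refine mul_le_mul_of_nonneg_left ?_ (Real.exp_pos _).le
      rw [div_le_iff₀ p2]
      have : l3 ≤ l2 := by linarith
      exact mul_le_mul_of_nonneg_left this p1'.le
    exact (pow_le_pow_left₀ (inv_nonneg.2 hD0.le) h1 kk).trans ((hL0 l hlL).trans hH)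
  have hPh : ∑ j ∈ range H, Ph z1 t j ≤ 2 * F * H := by
    have h1 := avg_T z1 H t
    rw [← hD] at h1
    have h2 : (H : ℝ) * Sg z1 t ≤ H * F := mul_le_mul_of_nonneg_left hSg hH0.le
    have h3 : (H : ℝ) ≤ F * H := le_mul_of_one_le_left hH0.le hF
    linarith
  have hPh0 : ∀ j, 0 ≤ Ph z1 t j := by
    intro j
    unfold Ph
    refine prod_nonneg fun p hp => inv_nonneg.2 ?_
    unfold Ta at hp
    have h1 : (1 : ℝ) ≤ p := by
      exact_mod_cast ((mem_prs.1 (mem_filter.1 hp).1).1).one_lt.le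
    have h2 : 1 / (p : ℝ) ≤ 1 := by
      rw [div_le_one (by linarith)]
      exact h1
    linarith
  obtain ⟨G, hG⟩ : ∃ G : ℝ, G = (Gb z1 t).card := ⟨_, rfl⟩
  have hG0 : 0 < G := by
    rw [hG]
    exact_mod_cast Gb_pos hnu
  obtain ⟨Y, hY⟩ : ∃ Y : ℝ, Y = (HH l 3 : ℝ) := ⟨_, rfl⟩
  have hY0 : 0 < Y := by
    rw [hY]
    exact_mod_cast (by omega : 0 < HH l 3)
  have h2HY : 2 * (H : ℝ) ≤ Y := by
    rw [hY]
    exact_mod_cast hHH
  -- the total
  have htot : ∑ ω ∈ (Ioc H (HH l 3)) ×ˢ (Gb z1 t),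
      ((SvX z1 (zz l) p1 ω.1 ω.2 H).card : ℝ) ≤
      4608 * F * (H * (l2 ^ 2 / (l ^ 2 * l3))) * (Y * G) := by
    unfold SvX
    rw [stx_exch (Ioc H (HH l 3)) (Gb z1 t) (range H)
      (fun h j => ∀ ℓ ∈ medium z1 (zz l), ¬ j ≡ h [MOD ℓ])
      (fun b j => Nat.Coprime (b + j) (pmX z1 p1))]
    have h1 : ∀ j ∈ range H, (((Ioc H (HH l 3)).filter
        (fun h => ∀ ℓ ∈ medium z1 (zz l), ¬ j ≡ h [MOD ℓ])).card : ℝ) *
        (((Gb z1 t).filter (fun b => Nat.Coprime (b + j) (pmX z1 p1))).card : ℝ) ≤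
        (72 * l2 / l * Y) * (G * (2 * D * Ph z1 t j)) := by
      intro j hj
      rw [mem_range] at hj
      have h2 := Par.small_le hpar 3 (q := j) (by omega)
      rw [← hz1, ← hY] at h2
      have h3 : (((Ioc H (HH l 3)).filter
          (fun h => ∀ ℓ ∈ medium z1 (zz l), ¬ j ≡ h [MOD ℓ])).card : ℝ) ≤ 72 * l2 / l * Y := by
        refine le_trans ?_ (h2.trans (le_of_eq ?_))
        · have h4 : (Ioc H (HH l 3)).filter
              (fun h => ∀ ℓ ∈ medium z1 (zz l), ¬ j ≡ h [MOD ℓ]) ⊆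
              shifts z1 (zz l) (HH l 3) j := by
            unfold shifts
            refine filter_subset_filter _ fun x hx => ?_
            rw [mem_Ioc] at hx
            rw [mem_Icc]
            exact ⟨by omega, hx.2⟩
          exact_mod_cast card_le_card h4
        · push_cast
          ring
      have h5 := cnt_BX (z := z1) (p1 := p1) hnu j
      rw [← hG, ← hD] at h5
      exact mul_le_mul h3 h5 (Nat.cast_nonneg _) (by positivity)
    refine (sum_le_sum h1).trans ?_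
    have h6 : ∑ j ∈ range H, (72 * l2 / l * Y) * (G * (2 * D * Ph z1 t j)) =
        (144 * (l2 / l) * Y * G * D) * ∑ j ∈ range H, Ph z1 t j := by
      rw [mul_sum]
      refine sum_congr rfl fun j _ => ?_
      ring
    rw [h6]
    have h7 : (144 * (l2 / l) * Y * G * D) * ∑ j ∈ range H, Ph z1 t j ≤
        (144 * (l2 / l) * Y * G * (16 * (l2 / (l * l3)))) * (2 * F * H) := by
      refine mul_le_mul ?_ hPh (sum_nonneg fun j _ => hPh0 j) (by positivity)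
      refine mul_le_mul_of_nonneg_left ?_ (by positivity)
      rw [hD]
      exact d2
    refine h7.trans (le_of_eq ?_)
    field_simp
    ring
  -- the choice
  have hcard : Y * G / 2 ≤ (((Ioc H (HH l 3)) ×ˢ (Gb z1 t)).card : ℝ) := by
    rw [card_product, Nat.card_Ioc, Nat.cast_mul, Nat.cast_sub hHHlt.le, ← hG, ← hY]
    nlinarith
  have hne : ((Ioc H (HH l 3)) ×ˢ (Gb z1 t)).Nonempty := by
    rw [nonempty_product]
    refine ⟨⟨HH l 3, mem_Ioc.2 ⟨hHHlt, le_rfl⟩⟩, card_pos.1 (Gb_pos hnu)⟩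
  obtain ⟨ω, hω, hle⟩ := exists_le_of_sum_le hne (f := fun ω : ℕ × ℕ =>
      ((SvX z1 (zz l) p1 ω.1 ω.2 H).card : ℝ))
    (g := fun _ => 9216 * F * (H * (l2 ^ 2 / (l ^ 2 * l3)))) (by
      refine htot.trans ?_
      rw [sum_const, nsmul_eq_mul]
      have h8 : 0 ≤ 9216 * F * (H * (l2 ^ 2 / (l ^ 2 * l3))) := by positivity
      have h9 := mul_le_mul_of_nonneg_right hcard h8
      refine le_trans (le_of_eq ?_) h9
      ring)
  rw [mem_product, mem_Ioc] at hω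
  refine ⟨ω.1, ω.2, hω.1.1, hω.1.2, ?_, hle⟩
  have h10 := hω.2
  unfold Gb at h10
  exact (mem_filter.1 h10).2

end Pool.Agent.IPT
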