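/-
IPT/MainX.lean.  Assembly for ALL large P (template: REC/RecB.recB).
-/
import Pool.Agent.IPT.Cls
import Pool.Agent.IPT.SelTX
import Pool.Agent.IPT.CrtOX
import Pool.Agent.IPT.OPar
import Pool.Agent.IPT.ScaleX
import Pool.Agent.IPT.PRemX
import Pool.Agent.REC.RecB

namespace Pool.Agent.IPT
open Finset Pool.Agent.REC Pool.Agent.AT

private theorem num_H {C3 c X l l2 l3 b H : ℝ} (hl : 0 < l) (hl2 : 0 < l2)
    (hl3 : 0 < l3) (hC3 : 0 ≤ C3) (hH0 : 0 ≤ H) (hb : b ≤ 2 * (l2 ^ 2 / (l ^ 2 * l3)))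
    (hH : H ≤ c * (X * (l ^ 2 * l3 / l2 ^ 2))) : C3 * (H * b) ≤ 2 * C3 * c * X := by
  have h1 : H * b ≤ H * (2 * (l2 ^ 2 / (l ^ 2 * l3))) := mul_le_mul_of_nonneg_left hb hH0
  have h2 : H * (2 * (l2 ^ 2 / (l ^ 2 * l3))) ≤
      c * (X * (l ^ 2 * l3 / l2 ^ 2)) * (2 * (l2 ^ 2 / (l ^ 2 * l3))) :=
    mul_le_mul_of_nonneg_right hH (by positivity)
  have h3 : c * (X * (l ^ 2 * l3 / l2 ^ 2)) * (2 * (l2 ^ 2 / (l ^ 2 * l3))) = 2 * c * X := by
    field_simp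
  have h4 := mul_le_mul_of_nonneg_left (h1.trans (h2.trans h3.le)) hC3
  linarith

open Pool.Agent.Helper9.GW in
private theorem z_le {k : ℕ} {l l2 l3 : ℝ} (h : Par k l l2 l3) :
    2 ≤ 2 ^ bb l l2 l3 ∧ 2 ^ bb l l2 l3 ≤ zz l := by
  obtain ⟨b1, b2, b3⟩ := h.bb_facts
  obtain ⟨z1, z2, z3⟩ := h.zz_facts
  obtain ⟨e1, e2, e3, g1, g2, g3⟩ := h.facts
  have p1 := h.p1
  have p2 := h.p2
  constructor
  · calc 2 = 2 ^ 1 := rfl
      _ ≤ _ := Nat.pow_le_pow_right (by norm_num) b1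
  · have h1 : l * l3 / (8 * l2) ≤ l / 2 := by
      rw [div_le_div_iff₀ (by positivity) (by norm_num)]
      nlinarith
    have h2 : ((2 ^ bb l l2 l3 : ℕ) : ℝ) ≤ (zz l : ℝ) := by
      refine le_trans ?_ z1
      push_cast
      have h3 : (2 : ℝ) ^ bb l l2 l3 = Real.exp ((bb l l2 l3 : ℝ) * Real.log 2) := by
        rw [Real.exp_nat_mul, Real.exp_log (by norm_num)]
      rw [h3]
      exact Real.exp_le_exp.2 (b2.trans h1)
    exact_mod_cast h2

private theorem big_facts : ∀ᶠ P : ℕ in Filter.atTop, 5 ≤ Nat.log 2 P ∧ 1 ≤ Real.log P ∧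
    2 ≤ Real.log (Real.log P) ∧ 1 ≤ Real.log (Real.log (Real.log P)) ∧
    1 ≤ Real.log (Real.log (Real.log (Real.log P))) := by
  have h1 : Filter.Tendsto (fun P : ℕ => Real.log (P : ℝ)) Filter.atTop Filter.atTop :=
    Real.tendsto_log_atTop.comp tendsto_natCast_atTop_atTop
  have h2 := Real.tendsto_log_atTop.comp h1
  have h3 := Real.tendsto_log_atTop.comp h2
  have h4 := Real.tendsto_log_atTop.comp h3
  filter_upwards [h1.eventually_ge_atTop 1, h2.eventually_ge_atTop 2, h3.eventually_ge_atTop 1,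
    h4.eventually_ge_atTop 1, Filter.eventually_ge_atTop (2 ^ 5)] with P e1 e2 e3 e4 e5
  exact ⟨Nat.le_log_of_pow_le (by norm_num) e5, e1, e2, e3, e4⟩

private theorem cheb_of : ∃ c : ℝ, 0 < c ∧ ∀ᶠ P : ℕ in Filter.atTop,
    c * P ≤ ∑ m ∈ Ioc P (4 * P), ArithmeticFunction.vonMangoldt m := by
  obtain ⟨c, hc, P0, h⟩ := theta_int
  refine ⟨c, hc, ?_⟩
  filter_upwards [Filter.eventually_ge_atTop P0] with P hP
  refine (h P hP).trans ?_
  have h1 : ∑ q ∈ (Ioc P (4 * P)).filter Nat.Prime, Real.log q =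
      ∑ q ∈ (Ioc P (4 * P)).filter Nat.Prime, ArithmeticFunction.vonMangoldt q := by
    refine sum_congr rfl fun q hq => ?_
    rw [ArithmeticFunction.vonMangoldt_apply_prime (mem_filter.1 hq).2]
  rw [h1]
  exact sum_le_sum_of_subset_of_nonneg (filter_subset _ _)
    fun _ _ _ => ArithmeticFunction.vonMangoldt_nonneg

private theorem sq_le_two_pow {L : ℕ} (h : 5 ≤ L) : L ^ 2 + L ≤ 2 ^ L := by
  induction L, h using Nat.le_induction with
  | base => norm_num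
  | succ n hn ih =>
    have h1 : (n + 1) ^ 2 + (n + 1) ≤ 2 * (n ^ 2 + n) := by nlinarith
    have h2 : 2 ^ (n + 1) = 2 * 2 ^ n := pow_succ' 2 n
    linarith

/-- the number of the other survivors -/
private theorem num_R {w : ℕ} {R : Finset ℕ} (hR : R ⊆ prs w) {H l4 : ℝ} (hH : 0 ≤ H)
    (hs : ∑ p ∈ R, 1 / (p : ℝ) ≤ 1 / l4) :
    ∑ p ∈ R, (H / (p : ℝ) + 1) ≤ (H + w) / l4 := by
  have h1 : ∑ p ∈ R, (H / (p : ℝ) + 1) ≤ ∑ p ∈ R, (H + w) * (1 / (p : ℝ)) := by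
    refine sum_le_sum fun p hp => ?_
    have h2 := mem_prs.1 (hR hp)
    have hp0 : (0 : ℝ) < p := by exact_mod_cast h2.1.pos
    have h3 : (1 : ℝ) ≤ w * (1 / (p : ℝ)) := by
      rw [mul_one_div, le_div_iff₀ hp0, one_mul]
      exact_mod_cast h2.2
    have h4 : (H + w) * (1 / (p : ℝ)) = H / p + w * (1 / (p : ℝ)) := by ring
    rw [h4]
    linarith
  refine h1.trans ?_
  rw [← mul_sum]
  calc (H + w) * ∑ p ∈ R, 1 / (p : ℝ) ≤ (H + w) * (1 / l4) :=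
        mul_le_mul_of_nonneg_left hs (by positivity)
    _ = (H + w) / l4 := by ring

/-- lower bound for the primes in the classes -/
private theorem num_psi {cθ P M φ lw l lam ψ : ℝ} (hc : 0 < cθ) (hP : 0 ≤ P) (hM : 0 < M)
    (hφ0 : 0 < φ) (hlw : 0 < lw) (hφ : φ ≤ 8 * M / lw) (hl : l ≤ 2 * lw) (hlam : lam ≤ 2 * l)
    (hψ : cθ / 2 * P / φ ≤ ψ) : cθ / 64 * (P / M) * lam ≤ ψ := by
  refine le_trans ?_ hψ
  have h1 : cθ / 2 * P / (8 * M / lw) ≤ cθ / 2 * P / φ :=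
    div_le_div_of_nonneg_left (by positivity) hφ0 hφ
  refine le_trans ?_ h1
  have h2 : cθ / 2 * P / (8 * M / lw) = cθ / 64 * (P / M) * (4 * lw) := by
    field_simp
    ring
  rw [h2]
  exact mul_le_mul_of_nonneg_left (by linarith) (by positivity)

/-- totient bound with one omitted prime -/
private theorem totX {w : ℕ} (hw : 2 ≤ w) {R : Finset ℕ} (hR : R ⊆ prs w) {p1 : ℕ}
    (hp1 : p1.Prime) (h : ∑ p ∈ R.erase p1, 1 / (p : ℝ) ≤ 1 / 2)
    (hlw : (0 : ℝ) < (Nat.log 2 w : ℝ)) :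
    (Nat.totient (Mod w R) : ℝ) ≤ 8 * (Mod w R : ℝ) / (Nat.log 2 w : ℝ) := by
  have hsub : R.erase p1 ⊆ prs w := (erase_subset _ _).trans hR
  have h1 := Mod_totient hw hsub h
  have hM0 : (0 : ℝ) < Mod w R := by exact_mod_cast Mod_pos w R
  by_cases hmem : p1 ∈ R
  · have h2 : prs w \ R.erase p1 = insert p1 (prs w \ R) := by
      ext q
      simp only [mem_sdiff, mem_erase, mem_insert]
      constructor
      · rintro ⟨a1, a2⟩
        by_cases hq : q = p1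
        · exact Or.inl hq
        · exact Or.inr ⟨a1, fun hqR => a2 ⟨hq, hqR⟩⟩
      · rintro (a1 | ⟨a1, a2⟩)
        · subst a1
          exact ⟨hR hmem, fun a2 => a2.1 rfl⟩
        · exact ⟨a1, fun a3 => a2 a3.2⟩
    have h3 : Mod w (R.erase p1) = p1 * Mod w R := by
      unfold Pool.Agent.REC.Mod
      rw [h2, prod_insert]
      exact fun a => (mem_sdiff.1 a).2 hmem
    have hcop : Nat.Coprime p1 (Mod w R) := by
      rw [hp1.coprime_iff_not_dvd, prime_dvd_Mod hp1]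
      exact fun a => a.2 hmem
    rw [h3, Nat.totient_mul hcop, Nat.totient_prime hp1, Nat.cast_mul,
      Nat.cast_sub hp1.one_lt.le, Nat.cast_mul, Nat.cast_one, le_div_iff₀ hlw] at h1
    rw [le_div_iff₀ hlw]
    have hp2 : (2 : ℝ) ≤ p1 := by exact_mod_cast hp1.two_le
    obtain ⟨x, hx⟩ : ∃ x : ℝ, x = (Nat.totient (Mod w R) : ℝ) * (Nat.log 2 w : ℝ) := ⟨_, rfl⟩
    have hx0 : 0 ≤ x := by
      rw [hx]
      positivity
    have h4 : ((p1 : ℝ) - 1) * x ≤ 4 * (p1 * (Mod w R : ℝ)) := by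
      rw [hx, ← mul_assoc]
      exact h1
    rw [← hx]
    have h5 : (p1 : ℝ) / 2 * x ≤ ((p1 : ℝ) - 1) * x := mul_le_mul_of_nonneg_right (by linarith) hx0
    have h6 : (p1 : ℝ) / 2 * x ≤ (p1 : ℝ) / 2 * (8 * (Mod w R : ℝ)) := by
      refine (h5.trans h4).trans (le_of_eq ?_)
      ring
    exact le_of_mul_le_mul_left h6 (by linarith)
  · rw [erase_eq_of_notMem hmem] at h1
    refine h1.trans ?_
    gcongr
    norm_num

theorem main_X : ∃ c : ℝ, 0 < c ∧ ∀ m : ℕ, ∃ kk : ℕ, 0 < kk ∧ ∃ P0 : ℕ, ∀ P : ℕ, P0 ≤ P →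
    ∀ X l l2 l3 : ℝ, X = Real.log P → l = Real.log X → l2 = Real.log l →
    l3 = Real.log l2 → ∀ (F : ℝ) (H : ℕ) (t : Fin kk → ℕ), 1 ≤ F → Function.Injective t →
    (∀ i, t i < H) → (∀ p : ℕ, p.Prime → nu p t < p) → (∀ z : ℕ, Sg z t ≤ F) → X ≤ H →
    F * H ≤ c * (X * (l ^ 2 * l3 / l2 ^ 2)) →
    ∃ n : ℕ, P - H < n ∧ n ≤ 4 * P ∧ (∀ q ∈ Ico n (n + H), q.Prime → ∃ i, q = n + t i) ∧
      m + 1 ≤ ((univ : Finset (Fin kk)).filter (fun i => (n + t i).Prime)).card := by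
  classical
  obtain ⟨cθ, hcθ, hcheb⟩ := cheb_of
  obtain ⟨Pa, hprem⟩ := primes_removedX hcθ hcheb
  obtain ⟨Pd, hgood⟩ := goodX_all
  obtain ⟨C3, hC3, hsel0⟩ := sel_TX
  have hc00 : 0 < c0 := by
    unfold c0
    positivity
  obtain ⟨c, hc⟩ : ∃ c : ℝ, c = min 1 (c0 / (8 * C3)) := ⟨_, rfl⟩
  have hcpos : 0 < c := by
    rw [hc]
    exact lt_min one_pos (by positivity)
  have hc1' : c ≤ 1 := hc ▸ min_le_left _ _
  have hc2' : c ≤ c0 / (8 * C3) := hc ▸ min_le_right _ _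
  refine ⟨c, hcpos, fun m => ?_⟩
  obtain ⟨kk, hkk, Pb, hcls⟩ := tuple_class m (κ0 := cθ / 64) (by positivity)
  obtain ⟨k0, hsel⟩ := hsel0 kk
  obtain ⟨k0', hop⟩ := o_par (kk + 1)
  obtain ⟨k1, hk1⟩ := exists_nat_ge (4 / c0)
  obtain ⟨k2, hk2⟩ := exists_nat_ge (Real.exp (4 / c0))
  obtain ⟨k00, hk00⟩ : ∃ k00 : ℕ, k00 = k0 + k0' + k1 + k2 + 2 := ⟨_, rfl⟩
  obtain ⟨Pc, hPc⟩ := Filter.eventually_atTop.1 ((rec_par k00).and big_facts)
  refine ⟨kk, hkk, max Pa (max Pb (max Pc Pd)), ?_⟩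
  intro P hP X l l2 l3 hX hl hl2 hl3 F H t hF htinj htH hnu hSg hXH hFH
  have hPa : Pa ≤ P := (le_max_left _ _).trans hP
  have hPb : Pb ≤ P := (le_max_left _ _).trans ((le_max_right _ _).trans hP)
  have hPc' : Pc ≤ P := (le_max_left _ _).trans ((le_max_right _ _).trans ((le_max_right _ _).trans hP))
  have hPd : Pd ≤ P := (le_max_right _ _).trans ((le_max_right _ _).trans ((le_max_right _ _).trans hP))
  obtain ⟨p1, hp1, hG⟩ := hgood P hPd
  obtain ⟨hrec, hL5, hX1, hl1, hl21, hl31⟩ := hPc P hPc'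
  rw [← hX] at hX1 hl1 hl21 hl31
  rw [← hl] at hl1 hl21 hl31
  rw [← hl2] at hl21 hl31
  rw [← hl3] at hl31
  obtain ⟨k, hk⟩ : ∃ k : ℕ, k = ⌊X⌋₊ := ⟨_, rfl⟩
  obtain ⟨l', hl'⟩ : ∃ l' : ℝ, l' = Real.log k := ⟨_, rfl⟩
  obtain ⟨l2', hl2'⟩ : ∃ l2' : ℝ, l2' = Real.log l' := ⟨_, rfl⟩
  obtain ⟨l3', hl3'⟩ : ∃ l3' : ℝ, l3' = Real.log l2' := ⟨_, rfl⟩
  obtain ⟨L, hL⟩ : ∃ L : ℕ, L = Nat.log 2 P := ⟨_, rfl⟩
  obtain ⟨r1, hPar, r3, r4, r5, r6, r7, r8, r9, r10, r11, r12, r13, r14, r15⟩ :=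
    hrec X l l2 l3 hX hl hl2 hl3 k l' l2' l3' hk hl' hl2' hl3' L hL
  rw [← hL] at hL5
  obtain ⟨w, hw⟩ : ∃ w : ℕ, w = Helper9.GW.zz l' := ⟨_, rfl⟩
  obtain ⟨hz2, hzw⟩ := z_le hPar
  rw [← hw] at r3 r4 r5 r6 r11 hzw
  have hX0 : 0 < X := by linarith
  have hl0 : 0 < l := by linarith
  have hl20 : 0 < l2 := by linarith
  have hl30 : 0 < l3 := by linarith
  -- the removed primes
  obtain ⟨R, hRw, -, hRs, hpsi⟩ := hprem P hPa p1 hp1 hG l (by rw [hl, hX]) w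
    (by rw [← hX]; exact r3)
  have hl4 : (2 : ℝ) ≤ l ^ 4 := by
    have h1 : (2 : ℝ) ^ 4 ≤ l ^ 4 := pow_le_pow_left₀ (by norm_num) hl1 4
    linarith
  have hRs2 : ∑ p ∈ R.erase p1, 1 / (p : ℝ) ≤ 1 / 2 :=
    hRs.trans (one_div_le_one_div_of_le (by norm_num) hl4)
  have hw2 : 2 ≤ w := by omega
  have hlw : (0 : ℝ) < (Nat.log 2 w : ℝ) := by linarith
  have hMtot := totX hw2 hRw hp1 hRs2 hlw
  have hMpos := Mod_pos w R
  obtain ⟨M, hM⟩ : ∃ M : ℕ, M = Mod w R := ⟨_, rfl⟩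
  rw [← hM] at hMtot hMpos hpsi
  have hMr : (0 : ℝ) < M := by exact_mod_cast hMpos
  have hφ0 : (0 : ℝ) < M.totient := by exact_mod_cast Nat.totient_pos.2 hMpos
  have hpsi2 : ∀ r : ℕ, r.Coprime M → cθ / 64 * ((P : ℝ) / M) * (Nat.log 2 L : ℝ) ≤ psi M r P :=
    fun r hr => num_psi hcθ (Nat.cast_nonneg _) hMr hφ0 hlw hMtot r11 r10 (hpsi r hr)
  -- the shift and the small class
  have hFH0 : (H : ℝ) ≤ F * H := le_mul_of_one_le_left (Nat.cast_nonneg _) hF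
  have hHX : (H : ℝ) ≤ X * (l ^ 2 * l3 / l2 ^ 2) :=
    (hFH0.trans hFH).trans (mul_le_of_le_one_left (by positivity) hc1')
  obtain ⟨s1, s2, s3⟩ := r13 H hHX
  rw [← hw] at s3
  have hkpos : 0 < k := hPar.kpos
  have hkr : (0 : ℝ) < k := by exact_mod_cast hkpos
  have hexp : Real.exp l' = k := by rw [hl', Real.exp_log hkr]
  have hkX : (k : ℝ) ≤ X := by
    rw [hk]
    exact Nat.floor_le hX0.le
  have hexpH : Real.exp (l' / 2) ≤ H := by
    have h1 : Real.exp (l' / 2) ≤ Real.exp l' := Real.exp_le_exp.2 (by linarith [hPar.p1])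
    linarith
  obtain ⟨h, b1, hHh, hhHH, hcop1, hSv⟩ := hsel k l' l2' l3' (by omega) hPar t H p1 F s1 hexpH hnu hF
    (hSg _)
  obtain ⟨hkz, hO⟩ := hop k l' l2' l3' (by omega) hPar
  have hO1 := hO h H hhHH (by omega)
  rw [← hw] at hSv
  obtain ⟨b, hb1, hb2, hb3⟩ := crt_O (z2 := w) hz2 h b1 t ((Nat.le_succ kk).trans hkz)
  have hcopM : ∀ i, Nat.Coprime (b + t i) M := by
    intro i
    rw [hM]
    exact cop_T hz2 hzw hb1 hb3 hcop1 R i
  -- the repelled set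
  obtain ⟨R', hR'⟩ : ∃ R' : Finset ℕ, R' = (range H).filter (fun j => Nat.Coprime (b + j) M) \
    (univ : Finset (Fin kk)).image t := ⟨_, rfl⟩
  have hR'card : (R'.card : ℝ) ≤ c0 * L := by
    have h1 : (R'.card : ℝ) ≤
        ((((range H).filter (fun j => Nat.Coprime (b + j) M)).card : ℕ) : ℝ) := by
      rw [hR']
      exact_mod_cast card_le_card sdiff_subset
    have h2 := surv_TX (p1 := p1) hz2 hzw t hb1 hb2 (fun i => (htH i).trans hHh) hRw H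
    rw [← hM] at h2
    have h3 := num_H (C3 := C3) (H := F * H) hl0 hl20 hl30 hC3.le (by positivity) r14 hFH
    have h3' : C3 * F * ((H : ℝ) * (l2' ^ 2 / (l' ^ 2 * l3'))) =
        C3 * (F * H * (l2' ^ 2 / (l' ^ 2 * l3'))) := by ring
    rw [h3'] at hSv
    have h4 := num_R ((erase_subset p1 R).trans hRw) (Nat.cast_nonneg H) hRs
    have h4' : (kk * (Nat.log 2 h : ℝ) + 1) * ((H : ℝ) / ((2 ^ Helper9.GW.bb l' l2' l3' : ℕ) : ℝ) + 1) ≤
        Real.exp l' / l' := by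
      refine le_trans (mul_le_mul_of_nonneg_right ?_ (by positivity)) hO1
      have hH1 : 1 ≤ H := by
        have : (1 : ℝ) ≤ H := hX1.trans hXH
        exact_mod_cast this
      have h5 : 1 ≤ Nat.log 2 h := Nat.le_log_of_pow_le (by norm_num) (by omega)
      have h6 : (1 : ℝ) ≤ (Nat.log 2 h : ℝ) := by exact_mod_cast h5
      push_cast
      linarith
    have h5 : 2 * C3 * c * X ≤ c0 / 4 * X := by
      apply mul_le_mul_of_nonneg_right _ hX0.le
      have h6 := mul_le_mul_of_nonneg_left hc2' (by positivity : (0 : ℝ) ≤ 2 * C3)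
      have h7 : 2 * C3 * (c0 / (8 * C3)) = c0 / 4 := by
        field_simp
        ring
      rwa [h7] at h6
    have h6 : X / l ≤ c0 / 4 * X := by
      have h7 : 4 / c0 ≤ l := by
        have e1 : l3 ≤ l2 := by
          rw [hl3]
          exact Real.log_le_self hl20.le
        have e2 : l2 ≤ l := by
          rw [hl2]
          exact Real.log_le_self hl0.le
        have e3 : (k1 : ℝ) ≤ (k00 : ℝ) := by exact_mod_cast (by omega : k1 ≤ k00)
        linarith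
      rw [div_le_iff₀ hl0]
      rw [div_le_iff₀ hc00] at h7
      nlinarith
    have h6' : Real.exp l' / l' ≤ c0 / 4 * X := by
      have hl'0 : 0 < l' := hPar.p1
      have h7 : 4 / c0 ≤ l' := by
        rw [hl', Real.le_log_iff_exp_le hkr]
        have e3 : (k2 : ℝ) ≤ (k : ℝ) := by exact_mod_cast (by omega : k2 ≤ k)
        exact hk2.trans e3
      rw [hexp, div_le_iff₀ hl'0]
      rw [div_le_iff₀ hc00] at h7
      have h9 : X * 4 ≤ X * (l' * c0) := mul_le_mul_of_nonneg_left h7 hX0.le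
      nlinarith
    have h8 : c0 * X ≤ c0 * L := mul_le_mul_of_nonneg_left r7 hc00.le
    have h9 : 0 < c0 * X := mul_pos hc00 hX0
    linarith
  have hPL : 2 ^ L ≤ P := by
    rw [hL]
    refine Nat.pow_log_le_self 2 ?_
    rintro rfl
    rw [hL] at hL5
    simp at hL5
  have hPbig : H + w ≤ P := by
    have h1 := sq_le_two_pow hL5
    have h2 : w ≤ L := by
      have h3 : (w : ℝ) ≤ L := by linarith
      exact_mod_cast h3
    omega
  have hadm : Adm P L M H R' := by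
    refine ⟨hL, hMpos, ?_, ?_, s2, ?_, hR'card⟩
    · intro q hq hLq
      rw [Nat.coprime_comm, hq.coprime_iff_not_dvd, hM, prime_dvd_Mod hq]
      rintro ⟨h1, -⟩
      omega
    · rw [hM]
      exact (Mod_le w R).trans r5
    · rw [hR']
      exact sdiff_subset.trans (filter_subset _ _)
  obtain ⟨n, hn, hn1, hn2⟩ := hcls P hPb L M H R' hadm b t htinj htH
    (fun i => by
      rw [hR', mem_sdiff]
      rintro ⟨-, h2⟩
      exact h2 (mem_image_of_mem t (mem_univ i)))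
    (fun i => ⟨hcopM i, hpsi2 _ (hcopM i)⟩)
  have hn' : n ∈ (Ioc (P - H) (4 * P)).filter (fun n => n ≡ b [MOD M]) := by
    have := hn
    unfold Nw at this
    rw [mem_filter] at this ⊢
    exact this
  rw [mem_filter, mem_Ioc] at hn'
  refine ⟨n, hn'.1.1, hn'.1.2, ?_, ?_⟩
  · intro q hq hqp
    rw [mem_Ico] at hq
    obtain ⟨j, rfl⟩ := Nat.exists_eq_add_of_le hq.1
    have hcopq : Nat.Coprime (n + j) M := by
      rw [hqp.coprime_iff_not_dvd, hM, prime_dvd_Mod hqp]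
      rintro ⟨h1, -⟩
      omega
    have hcopb : Nat.Coprime (b + j) M := by
      have h2 : Nat.gcd (n + j) M = Nat.gcd (b + j) M := (Nat.ModEq.add_right j hn'.2).gcd_eq
      unfold Nat.Coprime
      rw [← h2]
      exact hcopq
    by_contra hno
    push Not at hno
    refine hn1 j ?_ hqp
    rw [hR', mem_sdiff, mem_filter, mem_range]
    refine ⟨⟨by omega, hcopb⟩, fun hmem => ?_⟩
    obtain ⟨i, -, hi⟩ := mem_image.1 hmem
    exact hno i (by rw [hi])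
  · convert hn2

end Pool.Agent.IPT
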