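/-
IPT/SgF.lean (job IPT-SgF).  Properties of nu and Sg (IPT/TDefs): translation, nu ≤ k, Sg ≤ exp k, Sg ≤ exp 2 if
the t i are congruent modulo the primes p ≤ k².
-/
import Pool.Agent.IPT.TDefs

namespace Pool.Agent.IPT
open Finset Pool.Agent.REC

private theorem ta_sum (a : ℕ) (ha : 1 ≤ a) (z : ℕ) :
    ∑ n ∈ Ioc a z, 1 / ((n : ℝ) * ((n : ℝ) - 1)) ≤ 1 / (a : ℝ) := by
  have key : ∀ d : ℕ, ∑ n ∈ Ioc a (a + d), 1 / ((n : ℝ) * ((n : ℝ) - 1)) =
      1 / (a : ℝ) - 1 / ((a + d : ℕ) : ℝ) := by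
    intro d
    induction d with
    | zero => simp
    | succ d ih =>
      rw [← add_assoc, Finset.sum_Ioc_succ_top (by omega), ih]
      have ha' : (0 : ℝ) < (a : ℝ) := by exact_mod_cast ha
      push_cast
      have h1 : (0 : ℝ) < (a : ℝ) + d := by positivity
      have h2 : (a : ℝ) + d + 1 - 1 = a + d := by ring
      rw [h2]
      field_simp
      ring
  rcases le_total a z with h | h
  · obtain ⟨d, rfl⟩ := Nat.exists_eq_add_of_le h
    rw [key d]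
    have : (0 : ℝ) ≤ 1 / ((a + d : ℕ) : ℝ) := by positivity
    linarith
  · rw [Finset.Ioc_eq_empty_of_le h, Finset.sum_empty]
    positivity

private theorem tb_sub (a : ℕ) (ha : 1 ≤ a) (z : ℕ) (s : Finset ℕ) (hs : ∀ p ∈ s, a < p ∧ p ≤ z) :
    ∑ n ∈ s, 1 / ((n : ℝ) * ((n : ℝ) - 1)) ≤ 1 / (a : ℝ) := by
  refine le_trans ?_ (ta_sum a ha z)
  refine Finset.sum_le_sum_of_subset_of_nonneg ?_ ?_
  · intro p hp
    exact mem_Ioc.2 (hs p hp)
  · intro n hn _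
    have h1 := (mem_Ioc.1 hn).1
    have h2 : (1 : ℝ) ≤ n := by exact_mod_cast (by omega : 1 ≤ n)
    have h3 : (0 : ℝ) ≤ (n : ℝ) - 1 := by linarith
    positivity

private theorem tc_nn {z p : ℕ} (hp : p ∈ prs z) (c : ℕ) :
    0 ≤ (c : ℝ) / ((p : ℝ) * ((p : ℝ) - 1)) := by
  have h2 : (2 : ℝ) ≤ p := by exact_mod_cast (mem_prs.1 hp).1.two_le
  have h3 : (0 : ℝ) ≤ (p : ℝ) - 1 := by linarith
  positivity

private theorem td_exp (z : ℕ) {k : ℕ} (t : Fin k → ℕ) (C : ℝ)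
    (h : ∑ p ∈ prs z, (nu p t : ℝ) / ((p : ℝ) * ((p : ℝ) - 1)) ≤ C) : Sg z t ≤ Real.exp C := by
  refine le_trans ?_ (Real.exp_le_exp.2 h)
  rw [Real.exp_sum]
  unfold Sg
  refine Finset.prod_le_prod ?_ ?_
  · intro p hp
    have := tc_nn hp (nu p t)
    linarith
  · intro p _
    have := Real.add_one_le_exp ((nu p t : ℝ) / ((p : ℝ) * ((p : ℝ) - 1)))
    linarith

private theorem te_le {z p : ℕ} (hp : p ∈ prs z) {c d : ℕ} (h : c ≤ d) :
    (c : ℝ) / ((p : ℝ) * ((p : ℝ) - 1)) ≤ (d : ℝ) * (1 / ((p : ℝ) * ((p : ℝ) - 1))) := by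
  have h2 : (2 : ℝ) ≤ p := by exact_mod_cast (mem_prs.1 hp).1.two_le
  have h3 : (0 : ℝ) ≤ (p : ℝ) - 1 := by linarith
  have h4 : (c : ℝ) ≤ d := by exact_mod_cast h
  rw [div_eq_mul_one_div]
  exact mul_le_mul_of_nonneg_right h4 (by positivity)

theorem nu_add (p u : ℕ) {k : ℕ} (t : Fin k → ℕ) : nu p (fun i => u + t i) = nu p t := by
  unfold nu
  have h1 : (univ : Finset (Fin k)).image (fun i => (u + t i) % p) =
      ((univ : Finset (Fin k)).image (fun i => t i % p)).image (fun x => (u + x) % p) := by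
    rw [Finset.image_image]
    refine Finset.image_congr ?_
    intro i _
    show (u + t i) % p = (u + t i % p) % p
    rw [Nat.add_mod_mod]
  rw [h1]
  refine Finset.card_image_of_injOn ?_
  intro x hx y hy hxy
  obtain ⟨i, -, rfl⟩ := mem_image.1 (Finset.mem_coe.1 hx)
  obtain ⟨j, -, rfl⟩ := mem_image.1 (Finset.mem_coe.1 hy)
  have h2 : u + t i % p ≡ u + t j % p [MOD p] := hxy
  have h3 : t i % p % p = t j % p % p := Nat.ModEq.add_left_cancel' u h2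
  rw [Nat.mod_mod, Nat.mod_mod] at h3
  exact h3

theorem Sg_add (z u : ℕ) {k : ℕ} (t : Fin k → ℕ) : Sg z (fun i => u + t i) = Sg z t := by
  unfold Sg
  refine Finset.prod_congr rfl ?_
  intro p _
  rw [nu_add]

theorem nu_le (p : ℕ) {k : ℕ} (t : Fin k → ℕ) : nu p t ≤ k := by
  unfold nu
  refine le_trans Finset.card_image_le ?_
  rw [Finset.card_univ, Fintype.card_fin]

theorem Sg_exp (z : ℕ) {k : ℕ} (t : Fin k → ℕ) : Sg z t ≤ Real.exp k := by
  refine td_exp z t k ?_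
  calc ∑ p ∈ prs z, (nu p t : ℝ) / ((p : ℝ) * ((p : ℝ) - 1))
      ≤ ∑ p ∈ prs z, (k : ℝ) * (1 / ((p : ℝ) * ((p : ℝ) - 1))) :=
        Finset.sum_le_sum fun p hp => te_le hp (nu_le p t)
    _ = (k : ℝ) * ∑ p ∈ prs z, 1 / ((p : ℝ) * ((p : ℝ) - 1)) := by rw [Finset.mul_sum]
    _ ≤ (k : ℝ) * (1 / ((1 : ℕ) : ℝ)) := by
        refine mul_le_mul_of_nonneg_left ?_ (Nat.cast_nonneg k)
        exact tb_sub 1 le_rfl z (prs z) fun p hp => ⟨(mem_prs.1 hp).1.one_lt, (mem_prs.1 hp).2⟩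
    _ = k := by simp

theorem Sg_spec (z : ℕ) {k : ℕ} (t : Fin k → ℕ)
    (h : ∀ p : ℕ, p.Prime → p ≤ k ^ 2 → ∀ i j, t i % p = t j % p) : Sg z t ≤ Real.exp 2 := by
  refine td_exp z t 2 ?_
  rw [← Finset.sum_filter_add_sum_filter_not (prs z) (fun p => p ≤ k ^ 2)]
  have h1 : ∑ p ∈ (prs z).filter (fun p => p ≤ k ^ 2), (nu p t : ℝ) / ((p : ℝ) * ((p : ℝ) - 1)) ≤ 1 := by
    calc ∑ p ∈ (prs z).filter (fun p => p ≤ k ^ 2), (nu p t : ℝ) / ((p : ℝ) * ((p : ℝ) - 1))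
        ≤ ∑ p ∈ (prs z).filter (fun p => p ≤ k ^ 2), ((1 : ℕ) : ℝ) * (1 / ((p : ℝ) * ((p : ℝ) - 1))) := by
          refine Finset.sum_le_sum fun p hp => ?_
          obtain ⟨hp1, hp2⟩ := mem_filter.1 hp
          refine te_le hp1 ?_
          unfold nu
          refine Finset.card_le_one.2 ?_
          intro a ha b hb
          obtain ⟨i, -, rfl⟩ := mem_image.1 ha
          obtain ⟨j, -, rfl⟩ := mem_image.1 hb
          exact h p (mem_prs.1 hp1).1 hp2 i j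
      _ = ∑ p ∈ (prs z).filter (fun p => p ≤ k ^ 2), 1 / ((p : ℝ) * ((p : ℝ) - 1)) := by
          refine Finset.sum_congr rfl fun p _ => ?_
          rw [Nat.cast_one, one_mul]
      _ ≤ 1 / ((1 : ℕ) : ℝ) := by
          refine tb_sub 1 le_rfl z _ fun p hp => ?_
          have hp1 := (mem_filter.1 hp).1
          exact ⟨(mem_prs.1 hp1).1.one_lt, (mem_prs.1 hp1).2⟩
      _ = 1 := by simp
  have h2 : ∑ p ∈ (prs z).filter (fun p => ¬ p ≤ k ^ 2), (nu p t : ℝ) / ((p : ℝ) * ((p : ℝ) - 1)) ≤ 1 := by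
    calc ∑ p ∈ (prs z).filter (fun p => ¬ p ≤ k ^ 2), (nu p t : ℝ) / ((p : ℝ) * ((p : ℝ) - 1))
        ≤ ∑ p ∈ (prs z).filter (fun p => ¬ p ≤ k ^ 2), (k : ℝ) * (1 / ((p : ℝ) * ((p : ℝ) - 1))) :=
          Finset.sum_le_sum fun p hp => te_le (mem_filter.1 hp).1 (nu_le p t)
      _ = (k : ℝ) * ∑ p ∈ (prs z).filter (fun p => ¬ p ≤ k ^ 2), 1 / ((p : ℝ) * ((p : ℝ) - 1)) := by
          rw [Finset.mul_sum]
      _ ≤ 1 := by
          rcases Nat.eq_zero_or_pos k with hk | hk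
          · rw [hk, Nat.cast_zero, zero_mul]
            exact zero_le_one
          · have hk2 : 1 ≤ k ^ 2 := Nat.one_le_pow _ _ hk
            have h3 : ∑ p ∈ (prs z).filter (fun p => ¬ p ≤ k ^ 2), 1 / ((p : ℝ) * ((p : ℝ) - 1)) ≤
                1 / ((k ^ 2 : ℕ) : ℝ) := by
              refine tb_sub (k ^ 2) hk2 z _ fun p hp => ?_
              obtain ⟨hp1, hp2⟩ := mem_filter.1 hp
              exact ⟨not_le.1 hp2, (mem_prs.1 hp1).2⟩
            have hk1 : (1 : ℝ) ≤ k := by exact_mod_cast hk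
            have hk0 : (0 : ℝ) < k := by linarith
            calc (k : ℝ) * ∑ p ∈ (prs z).filter (fun p => ¬ p ≤ k ^ 2), 1 / ((p : ℝ) * ((p : ℝ) - 1))
                ≤ (k : ℝ) * (1 / ((k ^ 2 : ℕ) : ℝ)) := mul_le_mul_of_nonneg_left h3 hk0.le
              _ = 1 / (k : ℝ) := by
                  push_cast
                  field_simp
              _ ≤ 1 := by
                  rw [div_le_one hk0]
                  exact hk1
  linarith

theorem Sg_one (z : ℕ) {k : ℕ} (t : Fin k → ℕ) : 1 ≤ Sg z t := by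
  unfold Sg
  refine Finset.one_le_prod fun p hp => ?_
  have := tc_nn hp (nu p t)
  linarith

end Pool.Agent.IPT
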