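/-
IPT/FinT.lean (job IPT-FinT).  The main theorem in terms of rho, centred window (from MainX.main_X).
-/
import Pool.Agent.IPT.MainX
import Pool.Agent.IPT.SgF
import Pool.Agent.REC.RhoS

namespace Pool.Agent.IPT
open Finset Filter Pool.Agent.REC

theorem tuples : ∃ c : ℝ, 0 < c ∧ ∀ m : ℕ, ∃ k : ℕ, 0 < k ∧ ∀ᶠ x : ℕ in atTop,
    ∀ (F : ℝ) (t : Fin k → ℕ), 1 ≤ F → Function.Injective t →
    (∀ p : ℕ, p.Prime → nu p t < p) → (∀ z : ℕ, Sg z t ≤ F) → (∀ i, F * t i ≤ c * rho x) →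
    ∃ n : ℕ, x ≤ 2 * n ∧ n ≤ 5 * x ∧
      (∀ q : ℕ, q.Prime → F * |(q : ℝ) - n| ≤ c * rho x → ∃ i, q = n + t i) ∧
      m + 1 ≤ ((univ : Finset (Fin k)).filter (fun i => (n + t i).Prime)).card := by
  obtain ⟨C, hC, hmain⟩ := main_X
  refine ⟨C / 8, by positivity, fun m => ?_⟩
  obtain ⟨kk, hkk, P0, hP⟩ := hmain m
  refine ⟨kk, hkk, ?_⟩
  have hcast : Tendsto (fun x : ℕ => (x : ℝ)) atTop atTop := tendsto_natCast_atTop_atTop
  have hexp : 0 < Real.exp kk := Real.exp_pos _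
  have E1 : ∀ᶠ x : ℝ in atTop, 2 ≤ C / Real.exp kk * rho x / Real.log x :=
    (rho_log (c := C / Real.exp kk) (by positivity)).eventually_ge_atTop 2
  filter_upwards [eventually_ge_atTop P0, hcast.eventually rho_pos, hcast.eventually E1,
    hcast.eventually (t1.eventually_ge_atTop 1), hcast.eventually rho_sqrt,
    hcast.eventually (eventually_ge_atTop (16 * C ^ 2)), hcast.eventually (eventually_ge_atTop 1)]
    with x hx0 hrho hE1 hlog hsq hxC hx1
  intro F t hF ht hnu hSg htF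
  -- the reduced F
  set F' : ℝ := min F (Real.exp kk) with hF'
  have hF1 : 1 ≤ F' := le_min hF (Real.one_le_exp (Nat.cast_nonneg _))
  have hF0 : 0 < F' := by linarith
  have hFF : F' ≤ F := min_le_left _ _
  have hFe : F' ≤ Real.exp kk := min_le_right _ _
  have hSg' : ∀ z : ℕ, Sg z t ≤ F' := fun z => le_min (hSg z) (Sg_exp z t)
  have hCr : 0 < C * rho x := mul_pos hC hrho
  set H : ℕ := ⌊C * rho x / F'⌋₊ with hH
  have hHle : (H : ℝ) ≤ C * rho x / F' := Nat.floor_le (by positivity)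
  have hHgt : C * rho x / F' < H + 1 := Nat.lt_floor_add_one _
  have hFH : F' * H ≤ C * rho x := by
    rw [le_div_iff₀ hF0] at hHle
    linarith
  -- H ≥ log x
  have hlogH : Real.log x ≤ H := by
    have h1 : 2 * Real.log x ≤ C / Real.exp kk * rho x := by
      rw [le_div_iff₀ (by linarith)] at hE1
      exact hE1
    have h2 : C / Real.exp kk * rho x ≤ C * rho x / F' := by
      rw [div_mul_eq_mul_div]
      exact div_le_div_of_nonneg_left hCr.le hF0 hFe
    linarith
  have hH1 : 1 ≤ H := by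
    have : (1 : ℝ) ≤ (H : ℝ) := hlog.trans hlogH
    exact_mod_cast this
  -- H ≤ x / 4
  have hH4 : 4 * H ≤ x := by
    have h1 : C * rho x / F' ≤ C * rho x := div_le_self hCr.le hF1
    have h2 : C * rho x ≤ C * √x := mul_le_mul_of_nonneg_left hsq hC.le
    have h3 : 4 * C ≤ √x := by
      apply Real.le_sqrt_of_sq_le
      nlinarith
    have h4 : √(x : ℝ) * √(x : ℝ) = x := Real.mul_self_sqrt (Nat.cast_nonneg _)
    have h5 : 0 ≤ √(x : ℝ) := Real.sqrt_nonneg _
    have h6 : 4 * (H : ℝ) ≤ x := by nlinarith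
    exact_mod_cast h6
  -- small distances
  have hsmall : ∀ a : ℝ, F' * a ≤ C / 8 * rho x → 8 * a < H + 1 := by
    intro a ha
    have h1 : 8 * a ≤ C * rho x / F' := by
      rw [le_div_iff₀ hF0]
      linarith
    linarith
  have ht8 : ∀ i, 8 * t i ≤ H := by
    intro i
    have h1 : F' * (t i : ℝ) ≤ C / 8 * rho x :=
      (mul_le_mul_of_nonneg_right hFF (Nat.cast_nonneg _)).trans (htF i)
    have h2 := hsmall _ h1
    have h3 : 8 * t i < H + 1 := by exact_mod_cast h2
    omega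
  obtain ⟨n0, hn1, hn2, hn3, hn4⟩ := hP x hx0 (Real.log x) (Real.log (Real.log x))
    (Real.log (Real.log (Real.log x))) (Real.log (Real.log (Real.log (Real.log x))))
    rfl rfl rfl rfl F' H (fun i => H / 2 + t i) hF1
    (fun i j hij => ht (Nat.add_left_cancel hij))
    (fun i => by have := ht8 i; show H / 2 + t i < H; omega)
    (fun p hp => by rw [nu_add]; exact hnu p hp)
    (fun z => by rw [Sg_add]; exact hSg' z) hlogH (by
      refine hFH.trans (le_of_eq ?_)
      unfold rho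
      rfl)
  refine ⟨n0 + H / 2, by omega, by omega, ?_, ?_⟩
  · intro q hq hqF
    have h1 : F' * |(q : ℝ) - ((n0 + H / 2 : ℕ) : ℝ)| ≤ C / 8 * rho x :=
      (mul_le_mul_of_nonneg_right hFF (abs_nonneg _)).trans hqF
    have h2 := hsmall _ h1
    have h3 : 8 * |(q : ℤ) - ((n0 + H / 2 : ℕ) : ℤ)| < (H : ℤ) + 1 := by exact_mod_cast h2
    have h4 : q ∈ Ico n0 (n0 + H) := by
      rw [Finset.mem_Ico]
      rcases abs_cases ((q : ℤ) - ((n0 + H / 2 : ℕ) : ℤ)) with ⟨h5, h6⟩ | ⟨h5, h6⟩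
      · rw [h5] at h3
        omega
      · rw [h5] at h3
        omega
    obtain ⟨i, hi⟩ := hn3 q h4 hq
    exact ⟨i, by rw [hi]; ring⟩
  · refine hn4.trans (le_of_eq ?_)
    congr 1
    ext i
    rw [Finset.mem_filter, Finset.mem_filter, add_assoc]

end Pool.Agent.IPT
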