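/-
IPT/Clu.lean.  Isolated clusters of primes, with an absolute constant.
-/
import Pool.Agent.IPT.FinT
import Pool.Agent.IPT.Cons

namespace Pool.Agent.IPT
open Finset Filter Pool.Agent.REC

private theorem clu_nu {k p : ℕ} (hk : 0 < k) (hp : p.Prime) :
    nu p (fun i : Fin k => primorial (k ^ 2) * (i : ℕ)) < p := by
  by_cases h : p ≤ k ^ 2
  · have hd : p ∣ primorial (k ^ 2) := by
      unfold primorial
      exact Finset.dvd_prod_of_mem _ (mem_filter.2 ⟨mem_range.2 (by omega), hp⟩)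
    have h1 : nu p (fun i : Fin k => primorial (k ^ 2) * (i : ℕ)) ≤ 1 := by
      unfold nu
      rw [Finset.card_le_one]
      intro a ha b hb
      obtain ⟨i, _, hi⟩ := mem_image.1 ha
      obtain ⟨j, _, hj⟩ := mem_image.1 hb
      have e1 := Nat.mod_eq_zero_of_dvd (Dvd.dvd.mul_right hd (i : ℕ))
      have e2 := Nat.mod_eq_zero_of_dvd (Dvd.dvd.mul_right hd (j : ℕ))
      rw [← hi, ← hj, e1, e2]
    exact lt_of_le_of_lt h1 hp.one_lt
  · have h1 := nu_le p (fun i : Fin k => primorial (k ^ 2) * (i : ℕ))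
    have h2 : k ≤ k ^ 2 := by nlinarith
    omega

theorem clusters : ∃ c : ℝ, 0 < c ∧ ∀ m : ℕ, ∃ D : ℕ, ∀ᶠ x : ℕ in atTop, ∃ r s : ℕ, m ≤ s ∧
    1 ≤ r ∧ x ≤ 2 * Nat.nth Nat.Prime r ∧ Nat.nth Nat.Prime (r + s) ≤ 6 * x ∧
    Nat.nth Nat.Prime (r + s) ≤ Nat.nth Nat.Prime r + D ∧
    (Nat.nth Nat.Prime (r - 1) : ℝ) + c * rho x ≤ Nat.nth Nat.Prime r ∧
    (Nat.nth Nat.Prime (r + s) : ℝ) + c * rho x ≤ Nat.nth Nat.Prime (r + s + 1) := by
  obtain ⟨c0, hc0, hT⟩ := tuples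
  have he : (0 : ℝ) < Real.exp 2 := Real.exp_pos 2
  set c : ℝ := c0 / (2 * Real.exp 2) with hc
  have hcpos : 0 < c := by positivity
  have hcc : 2 * c * Real.exp 2 = c0 := by
    rw [hc]
    field_simp
  refine ⟨c, hcpos, fun m => ?_⟩
  obtain ⟨k, hk, hev⟩ := hT m
  set Q : ℕ := primorial (k ^ 2) with hQ
  have hQpos : 0 < Q := primorial_pos _
  refine ⟨Q * k, ?_⟩
  have hnat : Tendsto (fun x : ℕ => (x : ℝ)) atTop atTop := tendsto_natCast_atTop_atTop
  have hE1 : ∀ᶠ x : ℕ in atTop, ((Q * k : ℕ) : ℝ) + 1 ≤ c * rho (x : ℝ) :=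
    ((rho_top hcpos).comp hnat).eventually (eventually_ge_atTop _)
  have hE2 : ∀ᶠ x : ℕ in atTop, rho (x : ℝ) ≤ √(x : ℝ) := hnat.eventually rho_sqrt
  have hE3 : ∀ᶠ x : ℕ in atTop, 16 * c ^ 2 < (x : ℝ) := hnat.eventually (eventually_gt_atTop _)
  have hE4 : ∀ᶠ x : ℕ in atTop, Q * k ≤ x := eventually_ge_atTop _
  filter_upwards [hev, hE1, hE2, hE3, hE4] with x hx h1 h2 h3 h4
  set t : Fin k → ℕ := fun i => Q * (i : ℕ) with ht
  have htm : StrictMono t := by
    intro i j hij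
    exact Nat.mul_lt_mul_of_pos_left hij hQpos
  have htD : ∀ i, t i ≤ Q * k := fun i => Nat.mul_le_mul_left _ i.2.le
  have htD' : ∀ i, (t i : ℝ) ≤ ((Q * k : ℕ) : ℝ) := fun i => by exact_mod_cast htD i
  have hD0 : (0 : ℝ) ≤ ((Q * k : ℕ) : ℝ) := Nat.cast_nonneg _
  obtain ⟨n, hn1, hn2, hn3, hn4⟩ := hx (Real.exp 2) t (Real.one_le_exp (by norm_num))
    htm.injective (fun p hp => clu_nu hk hp)
    (fun z => Sg_spec z t (fun p hp hpk i j => by
      have hd : p ∣ Q := by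
        rw [hQ]
        unfold primorial
        exact Finset.dvd_prod_of_mem _ (mem_filter.2 ⟨mem_range.2 (by omega), hp⟩)
      have e1 := Nat.mod_eq_zero_of_dvd (Dvd.dvd.mul_right hd (i : ℕ))
      have e2 := Nat.mod_eq_zero_of_dvd (Dvd.dvd.mul_right hd (j : ℕ))
      simp only [ht, e1, e2]))
    (fun i => by
      have h5 := htD' i
      have h6 : (t i : ℝ) ≤ c * rho x := by linarith
      have h7 := mul_le_mul_of_nonneg_left h6 he.le
      have h8 : c0 * rho x = 2 * (Real.exp 2 * (c * rho x)) := by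
        rw [← hcc]
        ring
      have h9 : 0 ≤ Real.exp 2 * (c * rho x) := mul_nonneg he.le (by linarith)
      linarith)
  set W : ℝ := 2 * (c * rho x) with hW
  have hWn : W < n := by
    have hsx : 0 ≤ √(x : ℝ) := Real.sqrt_nonneg _
    have hx0 : (0 : ℝ) ≤ x := Nat.cast_nonneg _
    have hsq : √(x : ℝ) * √(x : ℝ) = x := Real.mul_self_sqrt hx0
    have h5 : 4 * c < √(x : ℝ) := by
      rw [Real.lt_sqrt (by positivity)]
      nlinarith
    have h6 : (x : ℝ) ≤ 2 * n := by exact_mod_cast hn1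
    have h7 : c * rho x ≤ c * √(x : ℝ) := mul_le_mul_of_nonneg_left h2 hcpos.le
    have h8 : 4 * c * √(x : ℝ) < √(x : ℝ) * √(x : ℝ) := by
      refine mul_lt_mul_of_pos_right h5 (lt_trans (by positivity) h5)
    rw [hW]
    nlinarith
  obtain ⟨r, s, hms, hr1, ⟨e, hem, he2⟩, hp1, hp2⟩ := consec (m := m) (n := n) (W := W) htm
    (by rw [hW]; linarith) hWn
    (fun i => by
      have := htD' i
      rw [hW]
      linarith)
    (fun q hq hqn => by
      refine hn3 q hq ?_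
      have h5 := mul_le_mul_of_nonneg_left hqn he.le
      have h8 : c0 * rho x = Real.exp 2 * W := by
        rw [hW, ← hcc]
        ring
      rw [h8]
      exact h5)
    hn4
  have hr0 := he2 0
  have hrs := he2 (Fin.last s)
  have hr0' : Nat.nth Nat.Prime r = n + t (e 0) := by simpa using hr0
  have hrs' : Nat.nth Nat.Prime (r + s) = n + t (e (Fin.last s)) := by simpa using hrs
  have h10 := htD (e (Fin.last s))
  have h11 := htD' (e (Fin.last s))
  have h12 : (Nat.nth Nat.Prime r : ℝ) = n + t (e 0) := by exact_mod_cast hr0'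
  have h13 : (Nat.nth Nat.Prime (r + s) : ℝ) = n + t (e (Fin.last s)) := by exact_mod_cast hrs'
  have h14 : (0 : ℝ) ≤ t (e 0) := Nat.cast_nonneg _
  refine ⟨r, s, hms, hr1, by omega, by omega, by omega, ?_, ?_⟩
  · rw [h12]
    rw [hW] at hp1
    linarith
  · rw [h13]
    rw [hW] at hp2
    linarith

end Pool.Agent.IPT
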