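/-
IPT/Cmb.lean.  Double counting of the pairs (B, s) with B in 𝒢, B ⊆ s, s a k-subset of range N.
-/
import Mathlib

namespace Pool.Agent.IPT
open Finset

private theorem card_sup {N k a : ℕ} {B : Finset ℕ} (hB : B ⊆ range N) (hBa : B.card = a) :
    (((range N).powersetCard k).filter (fun s => B ⊆ s)).card ≤ (N - a).choose (k - a) := by
  have h1 : (N - a).choose (k - a) = ((range N \ B).powersetCard (k - a)).card := by
    rw [card_powersetCard, card_sdiff_of_subset hB, card_range, hBa]
  rw [h1]
  refine card_le_card_of_injOn (fun s => s \ B) ?_ ?_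
  · intro s hs
    have hs' : s ∈ ((range N).powersetCard k).filter (fun s => B ⊆ s) := hs
    obtain ⟨h2, h3⟩ := mem_filter.1 hs'
    obtain ⟨h4, h5⟩ := mem_powersetCard.1 h2
    have h6 : s \ B ∈ (range N \ B).powersetCard (k - a) := by
      rw [mem_powersetCard]
      exact ⟨sdiff_subset_sdiff h4 (Subset.refl B), by rw [card_sdiff_of_subset h3, h5, hBa]⟩
    exact h6
  · intro s hs t ht hst
    have hs' : s ∈ ((range N).powersetCard k).filter (fun s => B ⊆ s) := hs
    have ht' : t ∈ ((range N).powersetCard k).filter (fun s => B ⊆ s) := ht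
    have h2 := (mem_filter.1 hs').2
    have h3 := (mem_filter.1 ht').2
    have hst' : s \ B = t \ B := hst
    rw [← sdiff_union_of_subset h2, ← sdiff_union_of_subset h3, hst']

private theorem desc_le {N k : ℕ} (hkN : k ≤ N) : ∀ a, a ≤ k →
    N ^ a * k.descFactorial a ≤ k ^ a * N.descFactorial a := by
  intro a
  induction a with
  | zero => intro _; simp
  | succ a ih =>
    intro ha
    have h1 := ih (by omega)
    have h2 : N * (k - a) ≤ k * (N - a) := by
      obtain ⟨u, hu⟩ := Nat.exists_eq_add_of_le (show a ≤ k by omega)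
      obtain ⟨w, hw⟩ := Nat.exists_eq_add_of_le hkN
      have h3 : k - a = u := by omega
      have h4 : N - a = u + w := by omega
      rw [h3, h4, hw, hu]
      nlinarith [Nat.zero_le (a * w)]
    rw [Nat.descFactorial_succ, Nat.descFactorial_succ, pow_succ, pow_succ]
    calc N ^ a * N * ((k - a) * k.descFactorial a)
        = (N ^ a * k.descFactorial a) * (N * (k - a)) := by ring
      _ ≤ (k ^ a * N.descFactorial a) * (k * (N - a)) := Nat.mul_le_mul h1 h2
      _ = k ^ a * k * ((N - a) * N.descFactorial a) := by ring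

theorem double_count {N k a : ℕ} (hk : 0 < k) (hkN : k ≤ N) (hak : a ≤ k)
    (𝒢 : Finset (Finset ℕ)) (h𝒢 : 𝒢 ⊆ (range N).powersetCard a)
    (h : ∀ s ∈ (range N).powersetCard k, ∃ B ∈ 𝒢, B ⊆ s) :
    ((N : ℝ) / k) ^ a ≤ 𝒢.card := by
  have h1 : N.choose k ≤ 𝒢.card * (N - a).choose (k - a) := by
    have h2 : (range N).powersetCard k ⊆
        𝒢.biUnion fun B => ((range N).powersetCard k).filter (fun s => B ⊆ s) := by
      intro s hs
      obtain ⟨B, hB, hBs⟩ := h s hs
      exact mem_biUnion.2 ⟨B, hB, mem_filter.2 ⟨hs, hBs⟩⟩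
    have h3 := card_le_card h2
    rw [card_powersetCard, card_range] at h3
    refine h3.trans (card_biUnion_le.trans ?_)
    rw [← smul_eq_mul, ← sum_const]
    refine sum_le_sum fun B hB => ?_
    obtain ⟨h4, h5⟩ := mem_powersetCard.1 (h𝒢 hB)
    exact card_sup h4 h5
  have h2 : N.choose k * k.choose a = N.choose a * (N - a).choose (k - a) :=
    Nat.choose_mul hak
  have hpos : 0 < (N - a).choose (k - a) := Nat.choose_pos (by omega)
  have h3 : N.choose a ≤ 𝒢.card * k.choose a := by
    refine Nat.le_of_mul_le_mul_right ?_ hpos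
    calc N.choose a * (N - a).choose (k - a) = N.choose k * k.choose a := h2.symm
      _ ≤ (𝒢.card * (N - a).choose (k - a)) * k.choose a := Nat.mul_le_mul_right _ h1
      _ = 𝒢.card * k.choose a * (N - a).choose (k - a) := by ring
  have h4 := desc_le hkN a hak
  rw [Nat.descFactorial_eq_factorial_mul_choose, Nat.descFactorial_eq_factorial_mul_choose] at h4
  have h5 : N ^ a * k.choose a ≤ k ^ a * N.choose a := by
    refine Nat.le_of_mul_le_mul_left ?_ (Nat.factorial_pos a)
    calc a.factorial * (N ^ a * k.choose a) = N ^ a * (a.factorial * k.choose a) := by ring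
      _ ≤ k ^ a * (a.factorial * N.choose a) := h4
      _ = a.factorial * (k ^ a * N.choose a) := by ring
  have hc : 0 < k.choose a := Nat.choose_pos hak
  have h6 : N ^ a ≤ k ^ a * 𝒢.card := by
    refine Nat.le_of_mul_le_mul_right ?_ hc
    calc N ^ a * k.choose a ≤ k ^ a * N.choose a := h5
      _ ≤ k ^ a * (𝒢.card * k.choose a) := Nat.mul_le_mul_left _ h3
      _ = k ^ a * 𝒢.card * k.choose a := by ring
  have hk' : (0 : ℝ) < (k : ℝ) ^ a := by positivity
  rw [div_pow, div_le_iff₀ hk']
  have h7 : ((N ^ a : ℕ) : ℝ) ≤ ((k ^ a * 𝒢.card : ℕ) : ℝ) := by exact_mod_cast h6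
  push_cast at h7
  linarith

end Pool.Agent.IPT
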