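/-
IPT/GapV.lean.  A positive proportion of all vectors of m integers with sum <= T are vectors of m
consecutive prime gaps near x, for all T0 <= T <= c rho x.
-/
import Pool.Agent.IPT.FinT
import Pool.Agent.IPT.Cons
import Pool.Agent.IPT.Cmb

namespace Pool.Agent.IPT
open Finset Filter Pool.Agent.REC

open Classical in
/-- vectors of m consecutive prime gaps near x with sum at most T -/
noncomputable def GV (m x T : ℕ) : Finset (Fin m → ℕ) :=
  (Fintype.piFinset (fun _ : Fin m => range (T + 1))).filter (fun g => ∑ i, g i ≤ T ∧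
    ∃ r : ℕ, x ≤ 2 * Nat.nth Nat.Prime r ∧ Nat.nth Nat.Prime (r + m) ≤ 6 * x ∧
      ∀ i : Fin m, Nat.nth Nat.Prime (r + i + 1) = Nat.nth Nat.Prime (r + i) + g i)

private theorem gv_tele : ∀ (m : ℕ) (b : Fin (m + 1) → ℕ),
    (∀ i : Fin m, b i.castSucc ≤ b i.succ) →
    ∑ i : Fin m, (b i.succ - b i.castSucc) + b 0 = b (Fin.last m) := by
  intro m
  induction m with
  | zero =>
    intro b _
    rw [Finset.univ_eq_empty, Finset.sum_empty, zero_add]
    rfl
  | succ m ih =>
    intro b hb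
    rw [Fin.sum_univ_castSucc]
    have h1 : ∑ i : Fin m, (b i.castSucc.succ - b i.castSucc.castSucc) + b 0 =
        b (Fin.last m).castSucc := ih (fun i => b i.castSucc) (fun i => hb i.castSucc)
    have h2 := hb (Fin.last m)
    have h4 : b (Fin.last m).succ = b (Fin.last (m + 1)) := rfl
    rw [h4] at h2 ⊢
    omega

private theorem gv_eq {m Q : ℕ} (hQ : 0 < Q) {b b' : Fin (m + 1) → ℕ} (hb : StrictMono b)
    (hb' : StrictMono b') (h0 : b 0 = b' 0)
    (h : (fun i : Fin m => Q * (b i.succ - b i.castSucc)) =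
      fun i : Fin m => Q * (b' i.succ - b' i.castSucc)) : b = b' := by
  funext i
  induction i using Fin.induction with
  | zero => exact h0
  | succ i ih =>
    have h1 : Q * (b i.succ - b i.castSucc) = Q * (b' i.succ - b' i.castSucc) := congrFun h i
    have h2 := Nat.eq_of_mul_eq_mul_left hQ h1
    have h3 : b i.castSucc < b i.succ := hb (Fin.castSucc_lt_succ)
    have h4 : b' i.castSucc < b' i.succ := hb' (Fin.castSucc_lt_succ)
    omega

private theorem gv_step {m k x T Q N : ℕ} {c0 : ℝ} (hk : 0 < k) (hQ : Q = pmod (k ^ 2))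
    (hN : Q * N ≤ T) (hTx : T ≤ x) (hT : (T : ℝ) + 1 ≤ c0 * rho x / Real.exp 2)
    (hW : c0 * rho x / Real.exp 2 < (x : ℝ) / 2)
    (Hk : ∀ (F : ℝ) (t : Fin k → ℕ), 1 ≤ F → Function.Injective t →
      (∀ p : ℕ, p.Prime → nu p t < p) → (∀ z : ℕ, Sg z t ≤ F) → (∀ i, F * t i ≤ c0 * rho x) →
      ∃ n : ℕ, x ≤ 2 * n ∧ n ≤ 5 * x ∧
        (∀ q : ℕ, q.Prime → F * |(q : ℝ) - n| ≤ c0 * rho x → ∃ i, q = n + t i) ∧
        m + 1 ≤ ((univ : Finset (Fin k)).filter (fun i => (n + t i).Prime)).card)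
    (s : Finset ℕ) (hs : s ∈ (range N).powersetCard k) :
    ∃ b : Fin (m + 1) → ℕ, StrictMono b ∧ (∀ i, b i ∈ s) ∧
      (fun i : Fin m => Q * (b i.succ - b i.castSucc)) ∈ GV m x T := by
  classical
  obtain ⟨hsN, hsc⟩ := mem_powersetCard.1 hs
  have hQ0 : 0 < Q := by
    rw [hQ]
    exact pmod_pos _
  have hE : 0 < Real.exp 2 := Real.exp_pos 2
  have hE1 : 1 ≤ Real.exp 2 := Real.one_le_exp (by norm_num)
  have hdvd : ∀ p : ℕ, p.Prime → p ≤ k ^ 2 → p ∣ Q := by
    intro p hp hpk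
    rw [hQ]
    exact Finset.dvd_prod_of_mem _ (mem_prs.2 ⟨hp, hpk⟩)
  let o := s.orderEmbOfFin hsc
  have ho : ∀ i, o i ∈ s := fun i => s.orderEmbOfFin_mem hsc i
  have hoN : ∀ i, o i < N := fun i => mem_range.1 (hsN (ho i))
  set t : Fin k → ℕ := fun i => Q * o i with ht
  have htm : StrictMono t := by
    intro i j hij
    have h1 : o i < o j := o.strictMono hij
    exact Nat.mul_lt_mul_of_pos_left h1 hQ0
  have htT : ∀ i, t i ≤ T := by
    intro i
    refine le_trans ?_ hN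
    exact Nat.mul_le_mul_left Q (hoN i).le
  have hmod : ∀ p : ℕ, p.Prime → p ≤ k ^ 2 → ∀ i, t i % p = 0 := by
    intro p hp hpk i
    exact Nat.mod_eq_zero_of_dvd (Dvd.dvd.mul_right (hdvd p hp hpk) _)
  have hnu : ∀ p : ℕ, p.Prime → nu p t < p := by
    intro p hp
    by_cases hpk : p ≤ k ^ 2
    · have h1 : ((univ : Finset (Fin k)).image (fun i => t i % p)) ⊆ {0} := by
        intro y hy
        obtain ⟨i, -, rfl⟩ := mem_image.1 hy
        rw [mem_singleton]
        exact hmod p hp hpk i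
      have h2 : nu p t ≤ 1 := by
        have h3 := card_le_card h1
        rw [card_singleton] at h3
        exact h3
      exact lt_of_le_of_lt h2 hp.one_lt
    · have h1 := nu_le p t
      have h2 : k ≤ k ^ 2 := by nlinarith
      omega
  obtain ⟨n, hx1, hx2, hw, hc⟩ := Hk (Real.exp 2) t hE1 htm.injective hnu
    (fun z => Sg_spec z t fun p hp hpk i j => by rw [hmod p hp hpk, hmod p hp hpk]) (by
      intro i
      have h1 : (t i : ℝ) ≤ T := by exact_mod_cast htT i
      rw [le_div_iff₀ hE] at hT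
      nlinarith)
  have hx1' : (x : ℝ) ≤ 2 * n := by exact_mod_cast hx1
  obtain ⟨r, s', hms, -, ⟨e, he, hne⟩, -, -⟩ := consec (m := m) (n := n)
    (W := c0 * rho x / Real.exp 2) htm
    (by
      have h1 : (0 : ℝ) ≤ T := Nat.cast_nonneg T
      linarith)
    (by linarith)
    (by
      intro i
      have h1 : (t i : ℝ) ≤ T := by exact_mod_cast htT i
      linarith)
    (by
      intro q hq hqn
      apply hw q hq
      rw [le_div_iff₀ hE] at hqn
      linarith) hc
  set b : Fin (m + 1) → ℕ := fun i => o (e (Fin.castLE (by omega) i)) with hb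
  have hbm : StrictMono b := by
    intro i j hij
    exact o.strictMono (he (by exact hij))
  have hbs : ∀ i, b i ∈ s := fun i => ho _
  have hbn : ∀ i : Fin (m + 1), Nat.nth Nat.Prime (r + i) = n + Q * b i := by
    intro i
    exact hne (Fin.castLE (by omega) i)
  have hbT : ∀ i, Q * b i ≤ T := fun i => htT _
  refine ⟨b, hbm, hbs, ?_⟩
  have hmono : ∀ i : Fin m, b i.castSucc ≤ b i.succ := fun i =>
    (hbm (Fin.castSucc_lt_succ)).le
  have hlast := hbT (Fin.last m)
  have hsum : ∑ i : Fin m, Q * (b i.succ - b i.castSucc) ≤ T := by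
    rw [← Finset.mul_sum]
    have h1 := gv_tele m b hmono
    refine le_trans (Nat.mul_le_mul_left Q ?_) hlast
    omega
  unfold GV
  rw [mem_filter]
  refine ⟨?_, hsum, r, ?_, ?_, ?_⟩
  · rw [Fintype.mem_piFinset]
    intro i
    rw [mem_range]
    have h1 : Q * (b i.succ - b i.castSucc) ≤ Q * b i.succ :=
      Nat.mul_le_mul_left Q (Nat.sub_le _ _)
    have h2 := hbT i.succ
    omega
  · have h1 := hbn 0
    simp only [Fin.val_zero, add_zero] at h1
    rw [h1]
    omega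
  · have h1 := hbn (Fin.last m)
    simp only [Fin.val_last] at h1
    rw [h1]
    omega
  · intro i
    have h1 := hbn i.succ
    have h2 := hbn i.castSucc
    simp only [Fin.val_succ, Fin.val_castSucc] at h1 h2
    have h3 : r + (i : ℕ) + 1 = r + ((i : ℕ) + 1) := by ring
    rw [h3, h1, h2, add_assoc, ← Nat.mul_add]
    congr 2
    have h4 := hmono i
    omega

private theorem gv_count {m k x T Q N : ℕ} (hk : 0 < k) (hQ : 0 < Q) (hkN : k ≤ N)
    (h : ∀ s ∈ (range N).powersetCard k, ∃ b : Fin (m + 1) → ℕ, StrictMono b ∧ (∀ i, b i ∈ s) ∧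
      (fun i : Fin m => Q * (b i.succ - b i.castSucc)) ∈ GV m x T) :
    ((N : ℝ) / k) ^ (m + 1) ≤ (GV m x T).card * N := by
  classical
  set 𝒢 : Finset (Finset ℕ) := ((range N).powersetCard (m + 1)).filter (fun B =>
    ∃ b : Fin (m + 1) → ℕ, StrictMono b ∧ B = univ.image b ∧
      (fun i : Fin m => Q * (b i.succ - b i.castSucc)) ∈ GV m x T) with h𝒢
  have hstep : ∀ s ∈ (range N).powersetCard k, ∃ B ∈ 𝒢, B ⊆ s := by
    intro s hs
    obtain ⟨b, hb, hbs, hbg⟩ := h s hs
    obtain ⟨hsN, -⟩ := mem_powersetCard.1 hs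
    have hsub : univ.image b ⊆ s := by
      intro y hy
      obtain ⟨i, -, rfl⟩ := mem_image.1 hy
      exact hbs i
    refine ⟨univ.image b, ?_, hsub⟩
    rw [h𝒢, mem_filter, mem_powersetCard]
    refine ⟨⟨hsub.trans hsN, ?_⟩, b, hb, rfl, hbg⟩
    rw [card_image_of_injective _ hb.injective, card_univ, Fintype.card_fin]
  have hak : m + 1 ≤ k := by
    have h1 : range k ∈ (range N).powersetCard k :=
      mem_powersetCard.2 ⟨range_subset_range.2 hkN, card_range k⟩
    obtain ⟨B, hB, hBs⟩ := hstep _ h1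
    have h2 := (mem_powersetCard.1 (mem_filter.1 hB).1).2
    have h3 := card_le_card hBs
    rw [card_range] at h3
    omega
  have hdc := double_count hk hkN hak 𝒢 (filter_subset _ _) hstep
  have hch : ∀ B ∈ 𝒢, ∃ b : Fin (m + 1) → ℕ, StrictMono b ∧ B = univ.image b ∧
      (fun i : Fin m => Q * (b i.succ - b i.castSucc)) ∈ GV m x T := fun B hB =>
    (mem_filter.1 hB).2
  choose! bb hb1 hb2 hb3 using hch
  have hcard : 𝒢.card ≤ ((GV m x T) ×ˢ (range N)).card := by
    refine card_le_card_of_injOn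
      (fun B => ((fun i : Fin m => Q * (bb B i.succ - bb B i.castSucc)), bb B 0)) ?_ ?_
    · intro B hB
      have hB' : B ∈ 𝒢 := hB
      simp only [coe_product, Set.mem_prod, mem_coe]
      refine ⟨hb3 B hB', ?_⟩
      have h1 := (mem_powersetCard.1 (mem_filter.1 hB').1).1
      have h2 := mem_image_of_mem (bb B) (mem_univ (0 : Fin (m + 1)))
      rw [← hb2 B hB'] at h2
      exact h1 h2
    · intro B hB B' hB' he
      have h1 : B ∈ 𝒢 := hB
      have h2 : B' ∈ 𝒢 := hB'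
      simp only [Prod.mk.injEq] at he
      have h3 := gv_eq hQ (hb1 B h1) (hb1 B' h2) he.2 he.1
      rw [hb2 B h1, hb2 B' h2, h3]
  rw [card_product, card_range] at hcard
  refine hdc.trans ?_
  exact_mod_cast hcard

theorem gap_vectors (m : ℕ) : ∃ c : ℝ, 0 < c ∧ ∃ T0 : ℕ, ∀ᶠ x : ℕ in atTop, ∀ T : ℕ, T0 ≤ T →
    (T : ℝ) ≤ c * rho x → c * (T : ℝ) ^ m ≤ (GV m x T).card := by
  obtain ⟨c0, hc0, H⟩ := tuples
  obtain ⟨k, hk, Hk⟩ := H m
  set Q : ℕ := pmod (k ^ 2) with hQ
  have hQ0 : 0 < Q := pmod_pos _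
  have hE : 0 < Real.exp 2 := Real.exp_pos 2
  have hkR : (0 : ℝ) < k := by exact_mod_cast hk
  have hQR : (0 : ℝ) < Q := by exact_mod_cast hQ0
  set c : ℝ := min 1 (min (c0 / (2 * Real.exp 2)) (1 / ((2 * Q) ^ m * (k : ℝ) ^ (m + 1)))) with hc
  have hcpos : 0 < c := by
    rw [hc]
    refine lt_min one_pos (lt_min (by positivity) (by positivity))
  refine ⟨c, hcpos, 2 * Q * k + 2, ?_⟩
  have e1 : ∀ᶠ x : ℕ in atTop, 2 ≤ c0 / Real.exp 2 * rho x := by
    have h1 := (rho_top (c := c0 / Real.exp 2) (by positivity)).eventually_ge_atTop 2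
    exact tendsto_natCast_atTop_atTop.eventually h1
  have e2 : ∀ᶠ x : ℕ in atTop, rho x ≤ √(x : ℝ) :=
    tendsto_natCast_atTop_atTop.eventually rho_sqrt
  have e3 : ∀ᶠ x : ℕ in atTop, 2 * (c0 / Real.exp 2) + 1 < √(x : ℝ) :=
    tendsto_natCast_atTop_atTop.eventually
      (Real.tendsto_sqrt_atTop.eventually_gt_atTop (2 * (c0 / Real.exp 2) + 1))
  filter_upwards [Hk, e1, e2, e3] with x hx h1 h2 h3
  intro T hT0 hTc
  have hA : 0 < c0 / Real.exp 2 := by positivity
  have hs0 : 0 ≤ √(x : ℝ) := Real.sqrt_nonneg _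
  have hs2 : √(x : ℝ) * √(x : ℝ) = x := Real.mul_self_sqrt (Nat.cast_nonneg x)
  have hrho : 0 ≤ rho x := by
    by_contra hcon
    push Not at hcon
    nlinarith
  have hW : c0 * rho x / Real.exp 2 < (x : ℝ) / 2 := by
    have h4 : c0 * rho x / Real.exp 2 = c0 / Real.exp 2 * rho x := by ring
    rw [h4]
    nlinarith
  have hTW : (T : ℝ) + 1 ≤ c0 * rho x / Real.exp 2 := by
    have h4 : c0 * rho x / Real.exp 2 = c0 / Real.exp 2 * rho x := by ring
    have h5 : c ≤ c0 / (2 * Real.exp 2) := (min_le_right _ _).trans (min_le_left _ _)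
    have h6 : c0 / (2 * Real.exp 2) = c0 / Real.exp 2 / 2 := by
      field_simp
    rw [h6] at h5
    rw [h4]
    have h7 : c * rho x ≤ c0 / Real.exp 2 / 2 * rho x := mul_le_mul_of_nonneg_right h5 hrho
    linarith
  have hTx : T ≤ x := by
    have h4 : c ≤ 1 := min_le_left _ _
    have h5 : c * rho x ≤ 1 * rho x := mul_le_mul_of_nonneg_right h4 hrho
    have h6 : (T : ℝ) ≤ x := by nlinarith
    exact_mod_cast h6
  set N : ℕ := T / Q with hN
  have hNT : Q * N ≤ T := Nat.mul_div_le T Q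
  have hkN : k ≤ N := by
    rw [hN, Nat.le_div_iff_mul_le hQ0]
    nlinarith
  have hN2 : (T : ℝ) ≤ 2 * Q * N := by
    have h4 : T < Q * (N + 1) := Nat.lt_mul_div_succ T hQ0
    have h5 : T ≤ 2 * Q * N := by nlinarith
    exact_mod_cast h5
  have hcount := gv_count (m := m) (x := x) (T := T) hk hQ0 hkN
    (fun s hs => gv_step hk rfl hNT hTx hTW hW hx s hs)
  have hNpos : (0 : ℝ) < N := by
    have : 0 < N := lt_of_lt_of_le hk hkN
    exact_mod_cast this
  have h7 : (N : ℝ) ^ m / (k : ℝ) ^ (m + 1) ≤ (GV m x T).card := by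
    rw [div_pow, pow_succ (N : ℝ)] at hcount
    have h8 : (N : ℝ) ^ m * N / (k : ℝ) ^ (m + 1) = (N : ℝ) ^ m / (k : ℝ) ^ (m + 1) * N := by
      ring
    rw [h8] at hcount
    exact le_of_mul_le_mul_right hcount hNpos
  refine le_trans ?_ h7
  have h9 : c ≤ 1 / ((2 * Q) ^ m * (k : ℝ) ^ (m + 1)) := (min_le_right _ _).trans (min_le_right _ _)
  have h10 : (T : ℝ) ^ m ≤ (2 * Q * N) ^ m := pow_le_pow_left₀ (Nat.cast_nonneg T) hN2 m
  calc c * (T : ℝ) ^ m ≤ 1 / ((2 * Q) ^ m * (k : ℝ) ^ (m + 1)) * (2 * Q * N) ^ m :=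
        mul_le_mul h9 h10 (by positivity) (by positivity)
    _ = (N : ℝ) ^ m / (k : ℝ) ^ (m + 1) := by
        rw [mul_pow (2 * (Q : ℝ))]
        field_simp

end Pool.Agent.IPT
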