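/-
IPT/SelT.lean.  Choice of the shift h and of the classes b by averaging (helper60).
-/
import Pool.Agent.IPT.AvgT
import Pool.Agent.IPT.CntB

namespace Pool.Agent.IPT
open Finset Pool.Agent.REC Pool.Agent.Helper9.GW

private theorem st_exch (A R C : Finset ℕ) (p q : ℕ → ℕ → Prop) [∀ j, DecidablePred fun h => p h j]
    [∀ j, DecidablePred fun b => q b j] [∀ ω : ℕ × ℕ, DecidablePred fun j => p ω.1 j ∧ q ω.2 j] :
    ∑ ω ∈ A ×ˢ R, ((C.filter (fun j => p ω.1 j ∧ q ω.2 j)).card : ℝ) =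
      ∑ j ∈ C, ((A.filter (fun h => p h j)).card : ℝ) * ((R.filter (fun b => q b j)).card : ℝ) := by
  classical
  have h1 : ∀ ω : ℕ × ℕ, ((C.filter (fun j => p ω.1 j ∧ q ω.2 j)).card : ℝ) =
      ∑ j ∈ C, if p ω.1 j ∧ q ω.2 j then (1 : ℝ) else 0 := by
    intro ω
    rw [card_filter, Nat.cast_sum]
    refine sum_congr rfl fun j _ => ?_
    split_ifs <;> simp
  rw [sum_congr rfl fun ω _ => h1 ω, sum_comm]
  refine sum_congr rfl fun j _ => ?_
  have h2 := filter_product (s := A) (t := R) (fun h => p h j) (fun b => q b j)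
  rw [← Nat.cast_mul, ← card_product, ← h2, card_filter, Nat.cast_sum]
  refine sum_congr rfl fun ω _ => ?_
  split_ifs <;> simp

/-- `(e^9 log k)^kk ≤ e^((log k)/2)` for large `k` -/
private theorem st_large (kk : ℕ) : ∃ k0 : ℕ, ∀ k : ℕ, k0 ≤ k →
    (Real.exp 9 * Real.log k) ^ kk ≤ Real.exp (Real.log k / 2) := by
  have h1 := Real.tendsto_pow_mul_exp_neg_atTop_nhds_zero kk
  have hA : (0 : ℝ) < (Real.exp 9 * 2) ^ kk := by positivity
  have h2 : ∀ᶠ y : ℝ in Filter.atTop, y ^ kk * Real.exp (-y) < ((Real.exp 9 * 2) ^ kk)⁻¹ :=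
    h1.eventually (gt_mem_nhds (by positivity))
  have h3 : Filter.Tendsto (fun k : ℕ => Real.log k / 2) Filter.atTop Filter.atTop :=
    (Real.tendsto_log_atTop.comp tendsto_natCast_atTop_atTop).atTop_div_const (by norm_num)
  obtain ⟨k0, hk0⟩ := Filter.eventually_atTop.1 (h3.eventually h2)
  refine ⟨k0, fun k hk => ?_⟩
  have h4 := hk0 k hk
  obtain ⟨y, hy⟩ : ∃ y : ℝ, y = Real.log k / 2 := ⟨_, rfl⟩
  rw [← hy] at h4 ⊢
  have h5 : Real.exp 9 * Real.log k = (Real.exp 9 * 2) * y := by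
    rw [hy]
    ring
  rw [h5, mul_pow]
  rw [Real.exp_neg, ← div_eq_mul_inv, div_lt_iff₀ (Real.exp_pos y), inv_mul_eq_div,
    lt_div_iff₀ hA] at h4
  linarith

theorem sel_T : ∃ C3 : ℝ, 0 < C3 ∧ ∀ kk : ℕ, ∃ k0 : ℕ, ∀ (k : ℕ) (l l2 l3 : ℝ), k0 ≤ k →
    Par k l l2 l3 → ∀ (t : Fin kk → ℕ) (H : ℕ) (F : ℝ), 2 * H ≤ HH l 3 →
    Real.exp (l / 2) ≤ H → (∀ p : ℕ, p.Prime → nu p t < p) → 1 ≤ F →
    Sg (2 ^ bb l l2 l3) t ≤ F →
    ∃ h b : ℕ, H < h ∧ h ≤ HH l 3 ∧ (∀ i, Nat.Coprime (b + t i) (pmod (2 ^ bb l l2 l3))) ∧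
      ((Sv (2 ^ bb l l2 l3) (zz l) h b H).card : ℝ) ≤ C3 * F * (H * (l2 ^ 2 / (l ^ 2 * l3))) := by
  classical
  refine ⟨4608, by norm_num, fun kk => ?_⟩
  obtain ⟨k0, hk0⟩ := st_large kk
  refine ⟨k0, fun k l l2 l3 hk h t H F hH hHl hnu hF hSg => ?_⟩
  obtain ⟨e1, e2, e3, g1, g2, g3⟩ := h.facts
  obtain ⟨H1, H2, H3⟩ := h.HH_facts 3
  obtain ⟨d1, d2⟩ := dens_bounds h
  have p1 := h.p1
  have p2 := h.p2
  have p3 : 0 < l3 := by linarith [h.h3]
  have hsm : ∀ q, q ≤ HH l 3 →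
      ((shifts (2 ^ bb l l2 l3) (zz l) (HH l 3) q).card : ℝ) ≤ 9 * ((3 : ℕ) + 5) * l2 / l * HH l 3 :=
    fun q hq => Par.small_le h 3 hq
  have hkpos := h.kpos
  obtain ⟨z1, hz1⟩ : ∃ z1 : ℕ, z1 = 2 ^ bb l l2 l3 := ⟨_, rfl⟩
  obtain ⟨X, hX⟩ : ∃ X : ℕ, X = HH l 3 := ⟨_, rfl⟩
  rw [← hz1] at d1 d2 hSg hsm ⊢
  rw [← hX] at hH H1 hsm ⊢
  have hXpos : 0 < X := by omega
  have hXr : (0 : ℝ) < X := by exact_mod_cast hXpos
  have hGpos : 0 < (Gb z1 t).card := Gb_pos hnu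
  obtain ⟨G, hG⟩ : ∃ G : ℝ, G = ((Gb z1 t).card : ℝ) := ⟨_, rfl⟩
  have hG0 : 0 < G := by
    rw [hG]
    exact_mod_cast hGpos
  have hHpos : (0 : ℝ) < H := lt_of_lt_of_le (Real.exp_pos _) hHl
  have hF0 : 0 < F := by linarith
  have hd0 : 0 < dens z1 := lt_of_lt_of_le (by positivity) d1
  -- the average of `Ph`
  have hinv : (dens z1)⁻¹ ^ kk ≤ H := by
    have q1 : (dens z1)⁻¹ ≤ Real.exp 9 * Real.log k := by
      rw [h.hl]
      have q2 : (dens z1)⁻¹ ≤ (Real.exp (-9) * (l2 / (l * l3)))⁻¹ :=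
        inv_anti₀ (by positivity) d1
      refine q2.trans ?_
      rw [mul_inv, Real.exp_neg, inv_inv, inv_div]
      refine mul_le_mul_of_nonneg_left ?_ (Real.exp_pos _).le
      rw [div_le_iff₀ p2]
      exact mul_le_mul_of_nonneg_left (by linarith) p1.le
    refine (pow_le_pow_left₀ (inv_nonneg.2 hd0.le) q1 kk).trans ?_
    refine (hk0 k hk).trans ?_
    rw [h.hl]
    exact hHl
  have hPh : ∑ j ∈ range H, Ph z1 t j ≤ 2 * (H * F) := by
    refine (avg_T z1 H t).trans ?_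
    have q1 : (H : ℝ) * Sg z1 t ≤ H * F := mul_le_mul_of_nonneg_left hSg hHpos.le
    have q2 : (H : ℝ) ≤ H * F := le_mul_of_one_le_right hHpos.le hF
    linarith
  have hPh0 : ∀ j, 0 ≤ Ph z1 t j := by
    intro j
    unfold Ph
    refine prod_nonneg fun p hp => ?_
    have q1 : p ∈ prs z1 := by
      unfold Ta at hp
      exact (mem_filter.1 hp).1
    have q2 : (2 : ℝ) ≤ p := by exact_mod_cast (mem_prs.1 q1).1.two_le
    rw [inv_nonneg, sub_nonneg, div_le_one (by linarith)]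
    linarith
  -- the sum over the shifts and classes
  have hsum : ∑ ω ∈ Ioc H X ×ˢ Gb z1 t, ((Sv z1 (zz l) ω.1 ω.2 H).card : ℝ) ≤
      2304 * F * (H * (l2 ^ 2 / (l ^ 2 * l3))) * (X * G) := by
    unfold Sv
    rw [st_exch (Ioc H X) (Gb z1 t) (range H)
      (fun h j => ∀ ℓ ∈ medium z1 (zz l), ¬ j ≡ h [MOD ℓ])
      (fun b j => Nat.Coprime (b + j) (pmod z1))]
    have q1 : ∀ j ∈ range H, (((Ioc H X).filter
        (fun h => ∀ ℓ ∈ medium z1 (zz l), ¬ j ≡ h [MOD ℓ])).card : ℝ) *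
        (((Gb z1 t).filter (fun b => Nat.Coprime (b + j) (pmod z1))).card : ℝ) ≤
        (9 * ((3 : ℕ) + 5) * l2 / l * X) * (G * (16 * (l2 / (l * l3)))) * Ph z1 t j := by
      intro j hj
      rw [mem_range] at hj
      have r1 : (((Ioc H X).filter
          (fun h => ∀ ℓ ∈ medium z1 (zz l), ¬ j ≡ h [MOD ℓ])).card : ℝ) ≤
          9 * ((3 : ℕ) + 5) * l2 / l * X := by
        refine le_trans ?_ (hsm j (by omega))
        have r2 : ((Ioc H X).filter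
            (fun h => ∀ ℓ ∈ medium z1 (zz l), ¬ j ≡ h [MOD ℓ])).card ≤
            (shifts z1 (zz l) X j).card := by
          unfold shifts
          refine card_le_card (filter_subset_filter _ ?_)
          intro a ha
          rw [mem_Ioc] at ha
          rw [mem_Icc]
          omega
        exact_mod_cast r2
      have r3 : (((Gb z1 t).filter (fun b => Nat.Coprime (b + j) (pmod z1))).card : ℝ) ≤
          G * (16 * (l2 / (l * l3))) * Ph z1 t j := by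
        refine (cnt_B hnu j).trans ?_
        rw [← hG, mul_assoc G]
        refine mul_le_mul_of_nonneg_left ?_ hG0.le
        exact mul_le_mul_of_nonneg_right d2 (hPh0 j)
      calc _ ≤ (9 * ((3 : ℕ) + 5) * l2 / l * X) * (G * (16 * (l2 / (l * l3))) * Ph z1 t j) :=
            mul_le_mul r1 r3 (Nat.cast_nonneg _) (by positivity)
        _ = _ := by ring
    refine (sum_le_sum q1).trans ?_
    rw [← mul_sum]
    have q2 : (0 : ℝ) ≤ (9 * ((3 : ℕ) + 5) * l2 / l * X) * (G * (16 * (l2 / (l * l3)))) := by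
      positivity
    refine (mul_le_mul_of_nonneg_left hPh q2).trans (le_of_eq ?_)
    push_cast
    field_simp
    ring
  have hne : (Ioc H X ×ˢ Gb z1 t).Nonempty := by
    rw [nonempty_product]
    refine ⟨⟨X, ?_⟩, card_pos.1 hGpos⟩
    rw [mem_Ioc]
    have : 0 < H := by exact_mod_cast hHpos
    omega
  have hcard : (X : ℝ) / 2 * G ≤ ((Ioc H X ×ˢ Gb z1 t).card : ℝ) := by
    rw [card_product, Nat.card_Ioc, Nat.cast_mul, ← hG]
    refine mul_le_mul_of_nonneg_right ?_ hG0.le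
    rw [Nat.cast_sub (by omega)]
    have : (2 : ℝ) * H ≤ X := by exact_mod_cast hH
    linarith
  obtain ⟨T, hT⟩ : ∃ T : ℝ, T = 4608 * F * (H * (l2 ^ 2 / (l ^ 2 * l3))) := ⟨_, rfl⟩
  have hT0 : 0 ≤ T := by
    rw [hT]
    positivity
  have hfin : ∑ ω ∈ Ioc H X ×ˢ Gb z1 t, ((Sv z1 (zz l) ω.1 ω.2 H).card : ℝ) ≤
      ∑ _ω ∈ Ioc H X ×ˢ Gb z1 t, T := by
    rw [sum_const, nsmul_eq_mul]
    refine hsum.trans ?_
    have r1 : 2304 * F * (H * (l2 ^ 2 / (l ^ 2 * l3))) * (X * G) = (X : ℝ) / 2 * G * T := by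
      rw [hT]
      ring
    rw [r1]
    exact mul_le_mul_of_nonneg_right hcard hT0
  obtain ⟨ω, hω, hω2⟩ := exists_le_of_sum_le hne hfin
  rw [mem_product, mem_Ioc] at hω
  refine ⟨ω.1, ω.2, hω.1.1, hω.1.2, ?_, ?_⟩
  · have := hω.2
    unfold Gb at this
    exact (mem_filter.1 this).2
  · rw [← hT]
    exact hω2

end Pool.Agent.IPT
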