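/-
IPT/SqD.lean.  The isolated clusters of Clu.clusters in terms of differences of square roots.
-/
import Pool.Agent.IPT.Clu

namespace Pool.Agent.IPT
open Finset Filter Pool.Agent.REC

private theorem sqrt_diff_ge {a b G : ℝ} (hb : 0 ≤ b) (hG : 0 ≤ G) (h : b + G ≤ a) {x : ℝ}
    (hx : 0 < x) (hbx : b + G ≤ 9 * x) : G / (6 * √x) ≤ √a - √b := by
  have h1 : √(b + G) ≤ √a := Real.sqrt_le_sqrt h
  have h2 : √(b + G) - √b = G / (√(b + G) + √b) ∨ G = 0 := by
    rcases eq_or_lt_of_le hG with h0 | h0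
    · right; exact h0.symm
    · left
      have h3 : 0 < √(b + G) := Real.sqrt_pos.2 (by linarith)
      have h4 : 0 ≤ √b := Real.sqrt_nonneg b
      rw [eq_div_iff (by positivity)]
      have h5 := Real.mul_self_sqrt (by linarith : 0 ≤ b + G)
      have h6 := Real.mul_self_sqrt hb
      nlinarith
  have hsx : 0 < √x := Real.sqrt_pos.2 hx
  rcases h2 with h2 | h2
  · have h3 : √(b + G) ≤ 3 * √x := by
      rw [Real.sqrt_le_left (by positivity)]
      rw [mul_pow, Real.sq_sqrt hx.le]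
      linarith
    have h4 : √b ≤ 3 * √x := (Real.sqrt_le_sqrt (by linarith)).trans h3
    rcases eq_or_lt_of_le hG with h0 | h0
    · rw [← h0, zero_div]
      rw [← h0] at h1
      have := Real.sqrt_le_sqrt (by linarith : b ≤ b + G)
      rw [← h0] at this
      linarith
    · have h5 : 0 < √(b + G) := Real.sqrt_pos.2 (by linarith)
      have h6 : G / (6 * √x) ≤ G / (√(b + G) + √b) := by
        apply div_le_div_of_nonneg_left hG (by have := Real.sqrt_nonneg b; positivity)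
        linarith
      linarith
  · rw [h2, zero_div]
    rw [h2] at h1
    simp only [add_zero] at h1
    linarith

private theorem sqrt_diff_le {a b G x : ℝ} (hx : 0 < x) (hb : x / 2 ≤ b) (hab : b ≤ a)
    (h : a ≤ b + G) : √a - √b ≤ G / √x := by
  have hsx : 0 < √x := Real.sqrt_pos.2 hx
  have h1 : √x / 2 ≤ √b := by
    rw [Real.le_sqrt (by positivity) (by linarith), div_pow, Real.sq_sqrt hx.le]
    linarith
  have h2 : √b ≤ √a := Real.sqrt_le_sqrt hab
  rw [le_div_iff₀ hsx]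
  have h5 := Real.mul_self_sqrt (by linarith : 0 ≤ a)
  have h6 := Real.mul_self_sqrt (by linarith : 0 ≤ b)
  have h7 : (√a - √b) * √x ≤ (√a - √b) * (√a + √b) :=
    mul_le_mul_of_nonneg_left (by linarith) (by linarith)
  nlinarith

theorem clusters_d : ∃ c : ℝ, 0 < c ∧ ∀ m : ℕ, ∃ D : ℝ, ∀ᶠ x : ℕ in atTop, ∃ r s : ℕ, m ≤ s ∧
    (x : ℝ) ≤ 2 * Nat.nth Nat.Prime (r + 1) ∧ (Nat.nth Nat.Prime (r + 1 + s) : ℝ) ≤ 6 * x ∧
    c * rho x / √x ≤ √(Nat.nth Nat.Prime (r + 1)) - √(Nat.nth Nat.Prime r) ∧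
    (∀ j < s, √(Nat.nth Nat.Prime (r + 1 + j + 1)) - √(Nat.nth Nat.Prime (r + 1 + j)) ≤ D / √x) ∧
    c * rho x / √x ≤
      √(Nat.nth Nat.Prime (r + 1 + s + 1)) - √(Nat.nth Nat.Prime (r + 1 + s)) := by
  obtain ⟨c, hc, h⟩ := clusters
  refine ⟨min c 1 / 6, by positivity, fun m => ?_⟩
  obtain ⟨D, hD⟩ := h m
  refine ⟨D, ?_⟩
  have e1 : ∀ᶠ x : ℕ in atTop, 0 < rho x :=
    tendsto_natCast_atTop_atTop.eventually rho_pos
  have e2 : ∀ᶠ x : ℕ in atTop, rho x ≤ √x :=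
    tendsto_natCast_atTop_atTop.eventually rho_sqrt
  filter_upwards [hD, e1, e2, eventually_ge_atTop 1] with x hx hr1 hr2 hx1
  obtain ⟨r, s, hms, h1r, hr, hs, hD', hl, hu⟩ := hx
  obtain ⟨r, rfl⟩ : ∃ r', r = r' + 1 := ⟨r - 1, by omega⟩
  rw [Nat.add_sub_cancel] at hl
  have hx0 : (1 : ℝ) ≤ x := by exact_mod_cast hx1
  have hsq : √(x : ℝ) ≤ x := by
    rw [Real.sqrt_le_left (by linarith)]
    nlinarith
  have hc1 : min c 1 * rho x ≤ c * rho x := mul_le_mul_of_nonneg_right (min_le_left _ _) hr1.le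
  have hc2 : min c 1 * rho x ≤ x := by
    have : min c 1 * rho x ≤ 1 * rho x := mul_le_mul_of_nonneg_right (min_le_right _ _) hr1.le
    linarith
  have hc0 : 0 ≤ min c 1 * rho x := by positivity
  have hmono : ∀ i j : ℕ, i ≤ j → Nat.nth Nat.Prime i ≤ Nat.nth Nat.Prime j :=
    fun i j hij => (Nat.nth_monotone Nat.infinite_setOfPred_prime) hij
  have hrR : (x : ℝ) ≤ 2 * Nat.nth Nat.Prime (r + 1) := by exact_mod_cast hr
  have hsR : (Nat.nth Nat.Prime (r + 1 + s) : ℝ) ≤ 6 * x := by exact_mod_cast hs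
  have hrs : (Nat.nth Nat.Prime (r + 1) : ℝ) ≤ Nat.nth Nat.Prime (r + 1 + s) := by
    exact_mod_cast hmono _ _ (by omega)
  have e3 : min c 1 / 6 * rho x / √x = min c 1 * rho x / (6 * √x) := by
    rw [div_mul_eq_mul_div, div_div]
  refine ⟨r, s, hms, hrR, hsR, ?_, ?_, ?_⟩
  · rw [e3]
    refine sqrt_diff_ge (Nat.cast_nonneg _) hc0 (by linarith) (by linarith) ?_
    linarith
  · intro j hj
    have h1 : (Nat.nth Nat.Prime (r + 1) : ℝ) ≤ Nat.nth Nat.Prime (r + 1 + j) := by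
      exact_mod_cast hmono _ _ (by omega)
    have h2 : (Nat.nth Nat.Prime (r + 1 + j) : ℝ) ≤ Nat.nth Nat.Prime (r + 1 + j + 1) := by
      exact_mod_cast hmono _ _ (by omega)
    have h3 : (Nat.nth Nat.Prime (r + 1 + j + 1) : ℝ) ≤ Nat.nth Nat.Prime (r + 1 + s) := by
      exact_mod_cast hmono _ _ (by omega)
    have h4 : (Nat.nth Nat.Prime (r + 1 + s) : ℝ) ≤ Nat.nth Nat.Prime (r + 1) + D := by
      exact_mod_cast hD'
    exact sqrt_diff_le (by linarith) (by linarith) h2 (by linarith)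
  · rw [e3]
    refine sqrt_diff_ge (Nat.cast_nonneg _) hc0 (by linarith) (by linarith) ?_
    linarith

end Pool.Agent.IPT
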